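import Pool.Agent.RHK.Core.Zer

/-!
# Project RHK, CORE: (E1) of `CoreEst`
-/

set_option autoImplicit false

namespace Pool.Agent.RHK

open Complex ComplexConjugate Finset

variable {ι : Type} [Fintype ι] [DecidableEq ι]

private theorem EstE1_G (g y K : ℕ) (hy : 1 ≤ y) (hyg : y ≤ g) (hK : 1 ≤ K) :
    ((K : ℝ) ^ (1 + (g : ℝ) / y)) ^ y = (K : ℝ) ^ (g + y) ∧
    (K : ℝ) ^ 2 ≤ (K : ℝ) ^ (1 + (g : ℝ) / y) ∧
    (K : ℝ) ^ (1 + (g : ℝ) / y) ≤ (K : ℝ) ^ (g + 1) := by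
  have hK1 : (1 : ℝ) ≤ K := by exact_mod_cast hK
  have hy1 : (1 : ℝ) ≤ y := by exact_mod_cast hy
  have hyg' : (y : ℝ) ≤ g := by exact_mod_cast hyg
  have hg0 : (0 : ℝ) ≤ g := Nat.cast_nonneg _
  refine ⟨?_, ?_, ?_⟩
  · rw [← Real.rpow_natCast, ← Real.rpow_natCast, ← Real.rpow_mul (by linarith)]
    congr 1
    push_cast
    field_simp
    try ring
  · have h1 : (K : ℝ) ^ 2 = (K : ℝ) ^ ((2 : ℕ) : ℝ) := (Real.rpow_natCast _ _).symm
    rw [h1]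
    refine Real.rpow_le_rpow_of_exponent_le hK1 ?_
    have h2 : 1 ≤ (g : ℝ) / y := (one_le_div (by linarith)).2 hyg'
    push_cast
    linarith
  · have h1 : (K : ℝ) ^ (g + 1) = (K : ℝ) ^ ((g + 1 : ℕ) : ℝ) := (Real.rpow_natCast _ _).symm
    rw [h1]
    refine Real.rpow_le_rpow_of_exponent_le hK1 ?_
    have h2 : (g : ℝ) / y ≤ g := div_le_self hg0 hy1
    push_cast
    linarith

/-- the condition of `zer` -/
private theorem EstE1_cond (g K : ℕ) (C G L ρ : ℝ) (hC : 1 ≤ C)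
    (hK : 1 ≤ K) (hL : L = Real.log K) (hL1 : 1 ≤ L) (hG2 : (K : ℝ) ^ 2 ≤ G)
    (hGu : G ≤ (K : ℝ) ^ (g + 1)) (hρ : ρ ^ 2 = 2 * G / L) (hρ0 : 0 ≤ ρ)
    (hK3 : C * 3 ≤ K) (hK4 : L ^ 2 * (((2 * g + 1) * (g + 3) + 2 * g : ℕ) : ℝ) ≤ K) :
    (K : ℝ) ^ (2 * g) * (C * (K + ρ)) ^ ((2 * g + 1) * K) ≤ Real.exp (G / L) := by
  have hK1 : (1 : ℝ) ≤ K := by exact_mod_cast hK
  have hK0 : (0 : ℝ) < K := by linarith
  have hG0 : 0 ≤ G := le_trans (by positivity) hG2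
  have hP : (1 : ℝ) ≤ (K : ℝ) ^ (g + 2) := one_le_pow₀ hK1
  have h1 : ρ ^ 2 ≤ 2 * (K : ℝ) ^ (g + 2) := by
    rw [hρ]
    calc 2 * G / L ≤ 2 * G := div_le_self (by positivity) hL1
      _ ≤ 2 * (K : ℝ) ^ (g + 1) := by linarith
      _ ≤ 2 * (K : ℝ) ^ (g + 2) := by
        have : (K : ℝ) ^ (g + 1) ≤ (K : ℝ) ^ (g + 2) := pow_le_pow_right₀ hK1 (by omega)
        linarith
  have h2 : ρ ≤ 2 * (K : ℝ) ^ (g + 2) := by
    by_cases h3 : ρ ≤ 1
    · linarith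
    · have h4 : 1 < ρ := not_le.1 h3
      have h5 : ρ ≤ ρ ^ 2 := by nlinarith
      linarith
  have h3 : (K : ℝ) ≤ (K : ℝ) ^ (g + 2) := le_self_pow₀ hK1 (by omega)
  have h4 : C * (K + ρ) ≤ (K : ℝ) ^ (g + 3) := by
    calc C * (K + ρ) ≤ C * ((K : ℝ) ^ (g + 2) + 2 * (K : ℝ) ^ (g + 2)) := by gcongr
      _ = C * 3 * (K : ℝ) ^ (g + 2) := by ring
      _ ≤ K * (K : ℝ) ^ (g + 2) := mul_le_mul_of_nonneg_right hK3 (by positivity)
      _ = (K : ℝ) ^ (g + 3) := by ring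
  have h5 : (C * (K + ρ)) ^ ((2 * g + 1) * K) ≤ ((K : ℝ) ^ (g + 3)) ^ ((2 * g + 1) * K) :=
    pow_le_pow_left₀ (by positivity) h4 _
  refine (mul_le_mul_of_nonneg_left h5 (by positivity)).trans ?_
  have h6 : (K : ℝ) ^ (2 * g) * ((K : ℝ) ^ (g + 3)) ^ ((2 * g + 1) * K) =
      Real.exp (((2 * g + (g + 3) * ((2 * g + 1) * K) : ℕ) : ℝ) * L) := by
    rw [← pow_mul, ← pow_add, hL, Real.exp_nat_mul, Real.exp_log hK0]
  rw [h6]
  refine Real.exp_le_exp.2 ?_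
  rw [le_div_iff₀ (by linarith)]
  have h7 : ((2 * g + (g + 3) * ((2 * g + 1) * K) : ℕ) : ℝ) ≤
      (((2 * g + 1) * (g + 3) + 2 * g : ℕ) : ℝ) * K := by
    have h8 : 2 * g + (g + 3) * ((2 * g + 1) * K) ≤ ((2 * g + 1) * (g + 3) + 2 * g) * K := by
      have h9 : 2 * g * 1 ≤ 2 * g * K := Nat.mul_le_mul_left _ hK
      have h10 : ((2 * g + 1) * (g + 3) + 2 * g) * K = 2 * g * K + (g + 3) * ((2 * g + 1) * K) := by
        ring
      omega
    exact_mod_cast h8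
  calc ((2 * g + (g + 3) * ((2 * g + 1) * K) : ℕ) : ℝ) * L * L
      = ((2 * g + (g + 3) * ((2 * g + 1) * K) : ℕ) : ℝ) * L ^ 2 := by ring
    _ ≤ (((2 * g + 1) * (g + 3) + 2 * g : ℕ) : ℝ) * K * L ^ 2 :=
        mul_le_mul_of_nonneg_right h7 (by positivity)
    _ = (L ^ 2 * (((2 * g + 1) * (g + 3) + 2 * g : ℕ) : ℝ)) * K := by ring
    _ ≤ K * K := mul_le_mul_of_nonneg_right hK4 hK0.le
    _ = (K : ℝ) ^ 2 := by ring
    _ ≤ G := hG2

/-- the final inequality -/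
private theorem EstE1_fin (K T : ℕ) (C G L ρ S ε η : ℝ) (hC : 1 ≤ C) (hε : 0 < ε)
    (hη : η ≤ ε / 4) (hG0 : 0 < G) (hL1 : 1 ≤ L) (hρ : ρ ^ 2 = 2 * G / L) (hρ0 : 0 ≤ ρ) (hS : 0 < S)
    (hKC : (C + 2) ^ 2 ≤ K) (hKε : C + 2 ≤ ε / 2 * K)
    (hLC : 2 * (4 * C / ε) ^ 2 ≤ L) (hT : ε * K ≤ T)
    (h : S ≤ Real.exp (C * √K) * (Real.exp (-(K * L ^ 3)) * S) +
        2 * S * Real.exp (η * K + C * (1 + ρ * K / √G)) / 3 ^ T) : False := by
  have hK9 : 9 ≤ (K : ℝ) := by nlinarith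
  have hK0 : (0 : ℝ) < K := by linarith
  have hL0 : 0 < L := by linarith
  -- first term
  have hsK : C + 2 ≤ √K := Real.le_sqrt_of_sq_le hKC
  have hsK2 : √(K : ℝ) * √K = K := Real.mul_self_sqrt hK0.le
  have e4 : (4 : ℝ) ≤ Real.exp 2 := by
    have h1 := Real.exp_one_gt_d9
    have h2 : Real.exp 2 = Real.exp 1 * Real.exp 1 := by
      rw [← Real.exp_add]
      norm_num
    rw [h2]
    nlinarith
  have e4' : Real.exp (-2) ≤ 1 / 4 := by
    rw [Real.exp_neg, inv_eq_one_div]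
    exact one_div_le_one_div_of_le (by norm_num) e4
  have t1 : Real.exp (C * √K) * (Real.exp (-(K * L ^ 3)) * S) ≤ 1 / 4 * S := by
    rw [← mul_assoc, ← Real.exp_add]
    refine mul_le_mul_of_nonneg_right (le_trans (Real.exp_le_exp.2 ?_) e4') hS.le
    have h1 : (1 : ℝ) ≤ L ^ 3 := one_le_pow₀ hL1
    have h2 : (K : ℝ) ≤ K * L ^ 3 := le_mul_of_one_le_right hK0.le h1
    nlinarith
  -- second term
  have hsq : √(2 / L) ≤ ε / (4 * C) := by
    refine Real.sqrt_le_iff.2 ⟨by positivity, ?_⟩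
    rw [div_le_iff₀ hL0]
    have h1 : (ε / (4 * C)) ^ 2 * (2 * (4 * C / ε) ^ 2) = 2 := by
      field_simp
    have h2 := mul_le_mul_of_nonneg_left hLC (by positivity : 0 ≤ (ε / (4 * C)) ^ 2)
    linarith
  have hρG : ρ * K / √G = √(2 / L) * K := by
    have h1 : ρ = √(2 / L) * √G := by
      rw [← Real.sqrt_mul (by positivity)]
      have h2 : 2 / L * G = ρ ^ 2 := by
        rw [hρ]
        ring
      rw [h2, Real.sqrt_sq hρ0]
    have h3 : √G ≠ 0 := (Real.sqrt_pos.2 hG0).ne'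
    rw [h1]
    field_simp
  have t2 : Real.exp (η * K + C * (1 + ρ * K / √G)) / 3 ^ T ≤ 1 / 4 := by
    have h1 : Real.exp (ε * K) ≤ 3 ^ T := by
      calc Real.exp (ε * K) ≤ Real.exp (T : ℝ) := Real.exp_le_exp.2 hT
        _ = Real.exp 1 ^ T := by rw [← Real.exp_nat_mul, mul_one]
        _ ≤ 3 ^ T := pow_le_pow_left₀ (Real.exp_pos _).le (by
          have := Real.exp_one_lt_d9
          linarith) _
    have h2 : Real.exp (η * K + C * (1 + ρ * K / √G)) ≤ Real.exp (-2) * Real.exp (ε * K) := by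
      rw [← Real.exp_add]
      refine Real.exp_le_exp.2 ?_
      rw [hρG]
      have h3 : C * (√(2 / L) * K) ≤ ε / 4 * K := by
        have h4 : C * √(2 / L) ≤ C * (ε / (4 * C)) := mul_le_mul_of_nonneg_left hsq (by linarith)
        have h5 : C * (ε / (4 * C)) = ε / 4 := by
          field_simp
        calc C * (√(2 / L) * K) = (C * √(2 / L)) * K := by ring
          _ ≤ ε / 4 * K := mul_le_mul_of_nonneg_right (by linarith) hK0.le
      have h6 : η * K ≤ ε / 4 * K := mul_le_mul_of_nonneg_right hη hK0.le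
      rw [mul_add]
      linarith
    rw [div_le_iff₀ (by positivity)]
    calc Real.exp (η * K + C * (1 + ρ * K / √G)) ≤ Real.exp (-2) * Real.exp (ε * K) := h2
      _ ≤ 1 / 4 * 3 ^ T := mul_le_mul e4' h1 (Real.exp_pos _).le (by norm_num)
  have t3 : 2 * S * Real.exp (η * K + C * (1 + ρ * K / √G)) / 3 ^ T ≤ 1 / 2 * S := by
    rw [mul_div_assoc]
    have := mul_le_mul_of_nonneg_left t2 (by positivity : 0 ≤ 2 * S)
    linarith
  linarith

private theorem EstE1_pS (g K : ℕ) (hg : g = Fintype.card ι)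
    (p : (ι → Fin K) → (ι → Fin K) → ℂ) (B : ℝ) (hB : ∀ m l, ‖p m l‖ ≤ B) :
    pS p ≤ (K : ℝ) ^ (2 * g) * B := by
  have hc : (Finset.univ : Finset (ι → Fin K)).card = K ^ g := by
    rw [Finset.card_univ, Fintype.card_fun, Fintype.card_fin, hg]
  calc pS p ≤ ∑ _m : ι → Fin K, ∑ _l : ι → Fin K, B :=
        Finset.sum_le_sum fun m _ => Finset.sum_le_sum fun l _ => hB m l
    _ = (K : ℝ) ^ (2 * g) * B := by
        rw [Finset.sum_const, Finset.sum_const, hc, nsmul_eq_mul, nsmul_eq_mul]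
        push_cast
        rw [two_mul, pow_add]
        ring

private theorem EstE1_log (M : ℝ) (hM : 0 < M) : ∃ K0 : ℕ, ∀ K : ℕ, K0 ≤ K →
    Real.log K ^ 2 * M ≤ K := by
  have h1 := (Real.isLittleO_pow_log_id_atTop (n := 2)).def (show 0 < 1 / M by positivity)
  have h2 := (tendsto_natCast_atTop_atTop (R := ℝ)).eventually h1
  obtain ⟨K0, hK0⟩ := Filter.eventually_atTop.1 h2
  refine ⟨K0, fun K hK => ?_⟩
  have h3 := hK0 K hK
  have hKn : (0 : ℝ) ≤ K := Nat.cast_nonneg _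
  have h4 : |Real.log (K : ℝ) ^ 2| = Real.log K ^ 2 := abs_of_nonneg (by positivity)
  simp only [id, Real.norm_eq_abs, h4, abs_of_nonneg hKn] at h3
  rw [one_div, inv_mul_eq_div, le_div_iff₀ hM] at h3
  exact h3

/-- (E1) of `CoreEst`. -/
theorem est_E1 (c : CoreG ι) (ε : ℝ) (hε : 0 < ε) : ∃ K0 : ℕ, ∀ K : ℕ, K0 ≤ K →
    ∀ (p : (ι → Fin K) → (ι → Fin K) → ℂ) (B : ℝ), (∀ m l, ‖p m l‖ ≤ B) →
    (∀ A A' : ι → ℕ, (ord A A' : ℝ) < ε * K →
      ‖jet (c.f p) A A'‖ ≤ Real.exp (-(K * Real.log K ^ 3)) * c.S p 0) →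
    c.S p 0 ≤ B * Real.exp (-((K : ℝ) ^ (1 + (Fintype.card ι : ℝ) / c.Y.card) / Real.log K)) := by
  obtain ⟨C, hC, hz⟩ := zer c (min 1 (ε / 4)) (by positivity) (min_le_left _ _)
  set g := Fintype.card ι with hg
  set y := c.Y.card with hy
  have hy1 : 1 ≤ y := c.hY.card_pos
  have hyg : y ≤ g := Finset.card_le_univ _
  obtain ⟨K1, hK1⟩ := exists_nat_ge (Real.exp (2 * (4 * C / ε) ^ 2 + 1))
  obtain ⟨K2, hK2⟩ := exists_nat_ge ((C + 2) ^ 2)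
  obtain ⟨K3, hK3⟩ := exists_nat_ge (C * 3)
  obtain ⟨K4, hK4⟩ := EstE1_log ((((2 * g + 1) * (g + 3) + 2 * g : ℕ) : ℝ)) (by positivity)
  obtain ⟨K5, hK5⟩ := exists_nat_ge ((C + 2) * (2 / ε))
  refine ⟨K1 + K2 + K3 + K4 + K5 + 3, fun K hK p B hB hj => ?_⟩
  have k1 : (K1 : ℝ) ≤ K := by exact_mod_cast (by omega : K1 ≤ K)
  have k2 : (K2 : ℝ) ≤ K := by exact_mod_cast (by omega : K2 ≤ K)
  have k3 : (K3 : ℝ) ≤ K := by exact_mod_cast (by omega : K3 ≤ K)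
  have k4 := hK4 K (by omega)
  have k6 : (K5 : ℝ) ≤ K := by exact_mod_cast (by omega : K5 ≤ K)
  have k5 : 1 ≤ K := by omega
  have hK1' : (1 : ℝ) ≤ K := by exact_mod_cast k5
  have hK0 : (0 : ℝ) < K := by linarith
  obtain ⟨hGy, hG2, hGu⟩ := EstE1_G g y K hy1 hyg k5
  set G : ℝ := (K : ℝ) ^ (1 + (g : ℝ) / y) with hG
  set L : ℝ := Real.log K with hL
  have hLC' : 2 * (4 * C / ε) ^ 2 + 1 ≤ L := by
    rw [hL, Real.le_log_iff_exp_le hK0]
    exact hK1.trans k1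
  have hq : 0 ≤ 2 * (4 * C / ε) ^ 2 := by positivity
  have hLC : 2 * (4 * C / ε) ^ 2 ≤ L := by linarith
  have hL1 : 1 ≤ L := by linarith
  have hL0 : 0 < L := by linarith
  have hLK : L ≤ K := by
    rw [hL]
    exact Real.log_le_self hK0.le
  have hG1 : 1 ≤ G := le_trans (one_le_pow₀ hK1') hG2
  set ρ : ℝ := √(2 * G / L) with hρ
  have hρ0 : 0 ≤ ρ := Real.sqrt_nonneg _
  have hρ2 : ρ ^ 2 = 2 * G / L := Real.sq_sqrt (by positivity)
  have hCK : C ^ 2 ≤ K := by nlinarith [hK2.trans k2]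
  have hρC : C ≤ ρ := by
    refine Real.le_sqrt_of_sq_le ?_
    rw [le_div_iff₀ hL0]
    calc C ^ 2 * L ≤ K * K := mul_le_mul hCK hLK hL0.le hK0.le
      _ = (K : ℝ) ^ 2 := by ring
      _ ≤ G := hG2
      _ ≤ 2 * G := by linarith
  by_contra hcon
  push Not at hcon
  have hB0 : 0 ≤ B := (norm_nonneg _).trans (hB (fun _ => ⟨0, k5⟩) (fun _ => ⟨0, k5⟩))
  have hS : 0 < c.S p 0 := lt_of_le_of_lt (by positivity) hcon
  have hcond := EstE1_cond g K C G L ρ hC k5 hL hL1 hG2 hGu hρ2 hρ0 (hK3.trans k3) k4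
  have hBS : B ≤ Real.exp (G / L) * c.S p 0 := by
    have h1 : Real.exp (G / L) * Real.exp (-(G / L)) = 1 := by
      rw [← Real.exp_add, add_neg_cancel, Real.exp_zero]
    calc B = Real.exp (G / L) * (B * Real.exp (-(G / L))) := by
          rw [mul_left_comm, h1, mul_one]
      _ ≤ Real.exp (G / L) * c.S p 0 := mul_le_mul_of_nonneg_left hcon.le (Real.exp_pos _).le
  have hpS : pS p * (C * (K + ρ)) ^ ((2 * g + 1) * K) ≤ Real.exp (ρ ^ 2) * c.S p 0 := by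
    calc pS p * (C * (K + ρ)) ^ ((2 * g + 1) * K) ≤
        ((K : ℝ) ^ (2 * g) * B) * (C * (K + ρ)) ^ ((2 * g + 1) * K) :=
          mul_le_mul_of_nonneg_right (EstE1_pS g K hg p B hB) (by positivity)
      _ = B * ((K : ℝ) ^ (2 * g) * (C * (K + ρ)) ^ ((2 * g + 1) * K)) := by ring
      _ ≤ (Real.exp (G / L) * c.S p 0) * Real.exp (G / L) :=
          mul_le_mul hBS hcond (by positivity) (by positivity)
      _ = Real.exp (ρ ^ 2) * c.S p 0 := by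
        rw [hρ2, mul_right_comm, ← Real.exp_add]
        congr 2
        ring
  have key := hz K k5 G hG1 hGy p ρ hρC hpS ⌈ε * (K : ℝ)⌉₊ (Real.exp (-(K * L ^ 3)) * c.S p 0)
    (by positivity) (fun A A' hA => hj A A' (Nat.lt_ceil.1 hA))
  refine EstE1_fin K ⌈ε * (K : ℝ)⌉₊ C G L ρ (c.S p 0) ε (min 1 (ε / 4)) hC hε (min_le_right _ _)
    (by linarith) hL1 hρ2 hρ0 hS (hK2.trans k2) ?_ hLC (Nat.le_ceil _) key
  have h1 := hK5.trans k6
  have h2 : (C + 2) * (2 / ε) * (ε / 2) = C + 2 := by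
    field_simp
  have h3 := mul_le_mul_of_nonneg_right h1 (by positivity : 0 ≤ ε / 2)
  linarith

end Pool.Agent.RHK
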