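import Pool.Agent.RHK.Core.Zer

/-!
# Project RHK, CORE: (E2) of `CoreEst`
-/

set_option autoImplicit false

namespace Pool.Agent.RHK

open Complex ComplexConjugate Finset

variable {ι : Type} [Fintype ι] [DecidableEq ι]

private theorem EstE2_G (g y K : ℕ) (hy : 1 ≤ y) (hyg : y ≤ g) (hK : 1 ≤ K) :
    ((K : ℝ) ^ (1 + (g : ℝ) / y)) ^ y = (K : ℝ) ^ (g + y) ∧
    (K : ℝ) ^ 2 ≤ (K : ℝ) ^ (1 + (g : ℝ) / y) ∧
    (K : ℝ) ^ (1 + (g : ℝ) / y) ≤ (K : ℝ) ^ (g + 1) := by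
  have hK1 : (1 : ℝ) ≤ K := by exact_mod_cast hK
  have hy1 : (1 : ℝ) ≤ y := by exact_mod_cast hy
  have hyg' : (y : ℝ) ≤ g := by exact_mod_cast hyg
  have hg0 : (0 : ℝ) ≤ g := Nat.cast_nonneg _
  refine ⟨?_, ?_, ?_⟩
  · rw [← Real.rpow_natCast, ← Real.rpow_natCast, ← Real.rpow_mul (by linarith)]
    congr 1
    push_cast
    field_simp
    try ring
  · have h1 : (K : ℝ) ^ 2 = (K : ℝ) ^ ((2 : ℕ) : ℝ) := (Real.rpow_natCast _ _).symm
    rw [h1]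
    refine Real.rpow_le_rpow_of_exponent_le hK1 ?_
    have h2 : 1 ≤ (g : ℝ) / y := (one_le_div (by linarith)).2 hyg'
    push_cast
    linarith
  · have h1 : (K : ℝ) ^ (g + 1) = (K : ℝ) ^ ((g + 1 : ℕ) : ℝ) := (Real.rpow_natCast _ _).symm
    rw [h1]
    refine Real.rpow_le_rpow_of_exponent_le hK1 ?_
    have h2 : (g : ℝ) / y ≤ g := div_le_self hg0 hy1
    push_cast
    linarith

/-- the condition of `zer` -/
private theorem EstE2_cond (g K : ℕ) (C CL G L ρ : ℝ) (hC : 1 ≤ C) (hCL : 1 ≤ CL)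
    (hK : 1 ≤ K) (hL : L = Real.log K) (hL1 : 1 ≤ L) (hG2 : (K : ℝ) ^ 2 ≤ G)
    (hGu : G ≤ (K : ℝ) ^ (g + 1)) (hρ : ρ ^ 2 = 2 * CL * G * L) (hρ0 : 0 ≤ ρ)
    (hK3 : C * (1 + 2 * CL) ≤ K) (hK4 : (2 * g + 1) * (g + 3) ≤ K) :
    (C * (K + ρ)) ^ ((2 * g + 1) * K) ≤ Real.exp (CL * G * L) := by
  have hK1 : (1 : ℝ) ≤ K := by exact_mod_cast hK
  have hK0 : (0 : ℝ) < K := by linarith
  have hLK : L ≤ K := by
    rw [hL]
    exact Real.log_le_self hK0.le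
  have hG0 : 0 ≤ G := le_trans (by positivity) hG2
  have hP : (1 : ℝ) ≤ (K : ℝ) ^ (g + 2) := one_le_pow₀ hK1
  have h1 : ρ ^ 2 ≤ 2 * CL * (K : ℝ) ^ (g + 2) := by
    rw [hρ]
    calc 2 * CL * G * L ≤ 2 * CL * (K : ℝ) ^ (g + 1) * K := by gcongr
      _ = 2 * CL * (K : ℝ) ^ (g + 2) := by ring
  have h2 : ρ ≤ 2 * CL * (K : ℝ) ^ (g + 2) := by
    by_cases h3 : ρ ≤ 1
    · nlinarith
    · have h4 : 1 < ρ := not_le.1 h3
      have h5 : ρ ≤ ρ ^ 2 := by nlinarith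
      linarith
  have h3 : (K : ℝ) ≤ (K : ℝ) ^ (g + 2) := le_self_pow₀ hK1 (by omega)
  have h4 : C * (K + ρ) ≤ (K : ℝ) ^ (g + 3) := by
    calc C * (K + ρ) ≤ C * ((K : ℝ) ^ (g + 2) + 2 * CL * (K : ℝ) ^ (g + 2)) := by gcongr
      _ = C * (1 + 2 * CL) * (K : ℝ) ^ (g + 2) := by ring
      _ ≤ K * (K : ℝ) ^ (g + 2) := mul_le_mul_of_nonneg_right hK3 (by positivity)
      _ = (K : ℝ) ^ (g + 3) := by ring
  have h5 : (C * (K + ρ)) ^ ((2 * g + 1) * K) ≤ ((K : ℝ) ^ (g + 3)) ^ ((2 * g + 1) * K) :=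
    pow_le_pow_left₀ (by positivity) h4 _
  refine h5.trans ?_
  have h6 : ((K : ℝ) ^ (g + 3)) ^ ((2 * g + 1) * K) =
      Real.exp ((((g + 3) * ((2 * g + 1) * K) : ℕ) : ℝ) * L) := by
    rw [← pow_mul, hL, Real.exp_nat_mul, Real.exp_log hK0]
  rw [h6]
  refine Real.exp_le_exp.2 (mul_le_mul_of_nonneg_right ?_ (by linarith))
  have h7 : (((2 * g + 1) * (g + 3) : ℕ) : ℝ) ≤ K := by exact_mod_cast hK4
  calc (((g + 3) * ((2 * g + 1) * K) : ℕ) : ℝ) = (((2 * g + 1) * (g + 3) : ℕ) : ℝ) * K := by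
        push_cast
        ring
    _ ≤ K * K := mul_le_mul_of_nonneg_right h7 hK0.le
    _ = (K : ℝ) ^ 2 := by ring
    _ ≤ G := hG2
    _ ≤ CL * G := le_mul_of_one_le_left hG0 hCL

/-- the final inequality -/
private theorem EstE2_fin (K T : ℕ) (C CL G L ρ S : ℝ) (hC : 1 ≤ C) (hCL : 1 ≤ CL)
    (hG0 : 0 < G) (hρ : ρ ^ 2 = 2 * CL * G * L) (hρ0 : 0 ≤ ρ) (hS : 0 < S)
    (hKC : (C + 2) ^ 2 ≤ K) (hLC : (C * √(2 * CL) + 2) ^ 2 ≤ L) (hT : K * L ≤ T)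
    (h : S ≤ Real.exp (C * √K) * (Real.exp (-(K * L ^ 3)) * S) +
        2 * S * Real.exp (1 * K + C * (1 + ρ * K / √G)) / 3 ^ T) : False := by
  set D0 : ℝ := C * √(2 * CL) with hD0
  have hD00 : 0 ≤ D0 := by positivity
  have hL4 : 4 ≤ L := by nlinarith
  have hK9 : 9 ≤ (K : ℝ) := by nlinarith
  have hK0 : (0 : ℝ) < K := by linarith
  -- first term
  have hsK : C + 2 ≤ √K := Real.le_sqrt_of_sq_le hKC
  have hsK2 : √(K : ℝ) * √K = K := Real.mul_self_sqrt hK0.le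
  have e4 : (4 : ℝ) ≤ Real.exp 2 := by
    have h1 := Real.exp_one_gt_d9
    have h2 : Real.exp 2 = Real.exp 1 * Real.exp 1 := by
      rw [← Real.exp_add]
      norm_num
    rw [h2]
    nlinarith
  have e4' : Real.exp (-2) ≤ 1 / 4 := by
    rw [Real.exp_neg, inv_eq_one_div]
    exact one_div_le_one_div_of_le (by norm_num) e4
  have t1 : Real.exp (C * √K) * (Real.exp (-(K * L ^ 3)) * S) ≤ 1 / 4 * S := by
    rw [← mul_assoc, ← Real.exp_add]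
    refine mul_le_mul_of_nonneg_right (le_trans (Real.exp_le_exp.2 ?_) e4') hS.le
    have h1 : (1 : ℝ) ≤ L ^ 3 := one_le_pow₀ (by linarith)
    have h2 : (K : ℝ) ≤ K * L ^ 3 := le_mul_of_one_le_right hK0.le h1
    nlinarith
  -- second term
  have hsL : D0 + 2 ≤ √L := Real.le_sqrt_of_sq_le hLC
  have hsL2 : √L * √L = L := Real.mul_self_sqrt (by linarith)
  have hρG : ρ * K / √G = √(2 * CL) * √L * K := by
    have h1 : ρ = √(2 * CL) * √L * √G := by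
      rw [← Real.sqrt_mul (by positivity), ← Real.sqrt_mul (by positivity)]
      have h2 : 2 * CL * L * G = ρ ^ 2 := by
        rw [hρ]
        ring
      rw [h2, Real.sqrt_sq hρ0]
    have h3 : √G ≠ 0 := (Real.sqrt_pos.2 hG0).ne'
    rw [h1]
    field_simp
  have t2 : Real.exp (1 * K + C * (1 + ρ * K / √G)) / 3 ^ T ≤ 1 / 4 := by
    have h1 : Real.exp (K * L) ≤ 3 ^ T := by
      calc Real.exp (K * L) ≤ Real.exp (T : ℝ) := Real.exp_le_exp.2 hT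
        _ = Real.exp 1 ^ T := by rw [← Real.exp_nat_mul, mul_one]
        _ ≤ 3 ^ T := pow_le_pow_left₀ (Real.exp_pos _).le (by
          have := Real.exp_one_lt_d9
          linarith) _
    have h2 : Real.exp (1 * K + C * (1 + ρ * K / √G)) ≤ Real.exp (-2) * Real.exp (K * L) := by
      rw [← Real.exp_add]
      refine Real.exp_le_exp.2 ?_
      rw [hρG]
      have h3 : C * (√(2 * CL) * √L * K) = D0 * √L * K := by
        rw [hD0]
        ring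
      have h4 : 1 + D0 * √L + 3 ≤ L := by nlinarith
      have h5 : (1 + D0 * √L + 3) * K ≤ L * K := mul_le_mul_of_nonneg_right h4 hK0.le
      have h6 : C + 2 ≤ K := by nlinarith
      have h7 : 0 ≤ D0 * √L * K := by positivity
      rw [mul_add, h3]
      linarith
    rw [div_le_iff₀ (by positivity)]
    calc Real.exp (1 * K + C * (1 + ρ * K / √G)) ≤ Real.exp (-2) * Real.exp (K * L) := h2
      _ ≤ 1 / 4 * 3 ^ T := mul_le_mul e4' h1 (Real.exp_pos _).le (by norm_num)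
  have t3 : 2 * S * Real.exp (1 * K + C * (1 + ρ * K / √G)) / 3 ^ T ≤ 1 / 2 * S := by
    rw [mul_div_assoc]
    have := mul_le_mul_of_nonneg_left t2 (by positivity : 0 ≤ 2 * S)
    linarith
  linarith

/-- (E2) of `CoreEst`. -/
theorem est_E2 (c : CoreG ι) (CL : ℝ) (hCL : 1 ≤ CL) : ∃ K0 : ℕ, ∀ K : ℕ, K0 ≤ K →
    ∀ p : (ι → Fin K) → (ι → Fin K) → ℂ,
    pS p ≤ Real.exp (CL * (K : ℝ) ^ (1 + (Fintype.card ι : ℝ) / c.Y.card) * Real.log K) * c.S p 0 →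
    ∃ A B : ι → ℕ, (ord A B : ℝ) ≤ K * Real.log K ∧
      Real.exp (-(K * Real.log K ^ 3)) * c.S p 0 ≤ ‖jet (c.f p) A B‖ := by
  obtain ⟨C, hC, hz⟩ := zer c 1 one_pos le_rfl
  set g := Fintype.card ι with hg
  set y := c.Y.card with hy
  have hy1 : 1 ≤ y := c.hY.card_pos
  have hyg : y ≤ g := Finset.card_le_univ _
  obtain ⟨K1, hK1⟩ := exists_nat_ge (Real.exp ((C * √(2 * CL) + 2) ^ 2))
  obtain ⟨K2, hK2⟩ := exists_nat_ge ((C + 2) ^ 2)
  obtain ⟨K3, hK3⟩ := exists_nat_ge (C * (1 + 2 * CL))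
  refine ⟨K1 + K2 + K3 + (2 * g + 1) * (g + 3) + 3, fun K hK p hp => ?_⟩
  have k1 : (K1 : ℝ) ≤ K := by exact_mod_cast (by omega : K1 ≤ K)
  have k2 : (K2 : ℝ) ≤ K := by exact_mod_cast (by omega : K2 ≤ K)
  have k3 : (K3 : ℝ) ≤ K := by exact_mod_cast (by omega : K3 ≤ K)
  have k4 : (2 * g + 1) * (g + 3) ≤ K := by omega
  have k5 : 1 ≤ K := by omega
  have hK1' : (1 : ℝ) ≤ K := by exact_mod_cast k5
  have hK0 : (0 : ℝ) < K := by linarith
  obtain ⟨hGy, hG2, hGu⟩ := EstE2_G g y K hy1 hyg k5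
  set G : ℝ := (K : ℝ) ^ (1 + (g : ℝ) / y) with hG
  set L : ℝ := Real.log K with hL
  have hLC : (C * √(2 * CL) + 2) ^ 2 ≤ L := by
    rw [hL, Real.le_log_iff_exp_le hK0]
    exact hK1.trans k1
  have hD00 : 0 ≤ C * √(2 * CL) := by positivity
  have hL1 : 1 ≤ L := by nlinarith
  have hG1 : 1 ≤ G := le_trans (one_le_pow₀ hK1') hG2
  set ρ : ℝ := √(2 * CL * G * L) with hρ
  have hρ0 : 0 ≤ ρ := Real.sqrt_nonneg _
  have hρ2 : ρ ^ 2 = 2 * CL * G * L := Real.sq_sqrt (by positivity)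
  have hCK : C ≤ K := by nlinarith [hK2.trans k2]
  have hρC : C ≤ ρ := by
    refine Real.le_sqrt_of_sq_le ?_
    calc C ^ 2 ≤ (K : ℝ) ^ 2 := pow_le_pow_left₀ (by linarith) hCK 2
      _ ≤ G := hG2
      _ = 1 * G * 1 := by ring
      _ ≤ 2 * CL * G * L := by
        gcongr
        linarith
  by_contra hcon
  push Not at hcon
  have h0 := hcon 0 0 (by
    have : ord (0 : ι → ℕ) 0 = 0 := by simp [ord]
    rw [this, Nat.cast_zero]
    positivity)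
  have hS : 0 < c.S p 0 := by
    have h1 : 0 < Real.exp (-(K * L ^ 3)) * c.S p 0 := lt_of_le_of_lt (norm_nonneg _) h0
    exact (mul_pos_iff_of_pos_left (Real.exp_pos _)).1 h1
  have hcond := EstE2_cond g K C CL G L ρ hC hCL k5 hL hL1 hG2 hGu hρ2 hρ0 (hK3.trans k3) k4
  have hpS : pS p * (C * (K + ρ)) ^ ((2 * g + 1) * K) ≤ Real.exp (ρ ^ 2) * c.S p 0 := by
    calc pS p * (C * (K + ρ)) ^ ((2 * g + 1) * K) ≤
        (Real.exp (CL * G * L) * c.S p 0) * Real.exp (CL * G * L) :=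
          mul_le_mul hp hcond (by positivity) (by positivity)
      _ = Real.exp (ρ ^ 2) * c.S p 0 := by
        rw [hρ2, mul_right_comm, ← Real.exp_add]
        congr 2
        ring
  have hKL : 0 ≤ (K : ℝ) * L := by positivity
  have key := hz K k5 G hG1 hGy p ρ hρC hpS (⌊(K : ℝ) * L⌋₊ + 1) (Real.exp (-(K * L ^ 3)) * c.S p 0)
    (by positivity) (by
      intro A B hAB
      refine (hcon A B ?_).le
      exact (Nat.le_floor_iff hKL).1 (Nat.lt_succ_iff.1 hAB))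
  refine EstE2_fin K (⌊(K : ℝ) * L⌋₊ + 1) C CL G L ρ (c.S p 0) hC hCL (by linarith) hρ2 hρ0 hS
    (hK2.trans k2) hLC ?_ key
  exact_mod_cast (Nat.lt_floor_add_one ((K : ℝ) * L)).le

end Pool.Agent.RHK
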