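import Pool.Agent.RHK.Core.Cvx

/-!
# Project RHK, CORE: (U1) of `CoreEst`
-/

set_option autoImplicit false

namespace Pool.Agent.RHK

open Complex ComplexConjugate Finset

variable {ι : Type} [Fintype ι] [DecidableEq ι]

private theorem EstU1_pS {K : ℕ} (p : (ι → Fin K) → (ι → Fin K) → ℂ) (B : ℝ)
    (hp : ∀ m l, ‖p m l‖ ≤ B) :
    pS p ≤ (K : ℝ) ^ Fintype.card ι * ((K : ℝ) ^ Fintype.card ι * B) := by
  unfold pS
  have h1 : ∑ m : ι → Fin K, ∑ l : ι → Fin K, ‖p m l‖ ≤ ∑ _m : ι → Fin K, ∑ _l : ι → Fin K, B :=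
    Finset.sum_le_sum fun m _ => Finset.sum_le_sum fun l _ => hp m l
  refine h1.trans (le_of_eq ?_)
  rw [Finset.sum_const, Finset.sum_const, Finset.card_univ, Fintype.card_fun, Fintype.card_fin,
    nsmul_eq_mul, nsmul_eq_mul, Nat.cast_pow]

private theorem EstU1_num (C : ℝ) (g K : ℕ) (hC : 1 ≤ C) (hCK : C ≤ K)
    (hK : Real.exp (6 * g + 2) ≤ K) :
    (K : ℝ) ^ g * (K : ℝ) ^ g * (C * K) ^ ((2 * g + 1) * K) ≤ Real.exp (K * Real.log K ^ 3) := by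
  have hg : (0 : ℝ) ≤ g := Nat.cast_nonneg g
  have hK0 : (0 : ℝ) < K := (Real.exp_pos _).trans_le hK
  have hK1 : (1 : ℝ) ≤ K := hC.trans hCK
  have hL : (6 * g + 2 : ℝ) ≤ Real.log K := (Real.le_log_iff_exp_le hK0).2 hK
  set L : ℝ := Real.log K with hLdef
  have hKe : (K : ℝ) = Real.exp L := (Real.exp_log hK0).symm
  have h1 : (K : ℝ) ^ g * (K : ℝ) ^ g * (C * K) ^ ((2 * g + 1) * K) ≤
      (K : ℝ) ^ g * (K : ℝ) ^ g * ((K : ℝ) * K) ^ ((2 * g + 1) * K) := by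
    refine mul_le_mul_of_nonneg_left ?_ (by positivity)
    refine pow_le_pow_left₀ (by positivity) ?_ _
    exact mul_le_mul_of_nonneg_right hCK hK0.le
  refine h1.trans ?_
  have h2 : (K : ℝ) ^ g * (K : ℝ) ^ g * ((K : ℝ) * K) ^ ((2 * g + 1) * K) =
      (K : ℝ) ^ (2 * g + 2 * ((2 * g + 1) * K)) := by
    rw [pow_add, two_mul g, pow_add, ← pow_two (K : ℝ), ← pow_mul]
  have h3 : (K : ℝ) ^ (2 * g + 2 * ((2 * g + 1) * K)) =
      Real.exp (((2 * g + 2 * ((2 * g + 1) * K) : ℕ) : ℝ) * L) := by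
    rw [Real.exp_nat_mul, ← hKe]
  rw [h2, h3]
  refine Real.exp_le_exp.2 ?_
  push_cast
  have hL0 : 0 ≤ L := by linarith
  have h4 : (2 * (g : ℝ) + 2 * ((2 * g + 1) * K)) ≤ (6 * g + 2) * K := by nlinarith
  have h5 : (2 * (g : ℝ) + 2 * ((2 * g + 1) * K)) * L ≤ (6 * g + 2) * K * L :=
    mul_le_mul_of_nonneg_right h4 hL0
  have h6 : (6 * (g : ℝ) + 2) ≤ L ^ 2 := by nlinarith
  have h7 : (6 * (g : ℝ) + 2) * (K * L) ≤ L ^ 2 * (K * L) :=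
    mul_le_mul_of_nonneg_right h6 (by positivity)
  nlinarith

/-- (U1) of `CoreEst`. -/
theorem est_U1 (c : CoreG ι) : ∃ K0 : ℕ, ∀ K : ℕ, K0 ≤ K →
    ∀ (p : (ι → Fin K) → (ι → Fin K) → ℂ) (B : ℝ), (∀ m l, ‖p m l‖ ≤ B) →
      c.S p 0 ≤ B * Real.exp (K * Real.log K ^ 3) := by
  obtain ⟨C, hC1, hC⟩ := triv_f c
  refine ⟨⌈C⌉₊ + ⌈Real.exp (6 * (Fintype.card ι : ℕ) + 2)⌉₊, fun K hK p B hp => ?_⟩
  have hKr : ((⌈C⌉₊ + ⌈Real.exp (6 * (Fintype.card ι : ℕ) + 2)⌉₊ : ℕ) : ℝ) ≤ K := by exact_mod_cast hK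
  push_cast at hKr
  have hc1 : C ≤ (⌈C⌉₊ : ℝ) := Nat.le_ceil C
  have hc2 : Real.exp (6 * (Fintype.card ι : ℕ) + 2) ≤
      (⌈Real.exp (6 * (Fintype.card ι : ℕ) + 2)⌉₊ : ℝ) := Nat.le_ceil _
  have hc3 := Real.exp_pos (6 * (Fintype.card ι : ℕ) + 2)
  have hCK : C ≤ K := by linarith
  have hEK : Real.exp (6 * (Fintype.card ι : ℕ) + 2) ≤ (K : ℝ) := by linarith
  have hK1 : 1 ≤ K := by
    have : (1 : ℝ) ≤ K := hC1.trans hCK
    exact_mod_cast this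
  have hB : 0 ≤ B := (norm_nonneg _).trans (hp (fun _ => ⟨0, hK1⟩) (fun _ => ⟨0, hK1⟩))
  refine (bdC_iff c hK1 p 0 _).1 fun z => (hC K hK1 p z 0).trans ?_
  rw [norm_zero, add_zero]
  have h1 := EstU1_pS p B hp
  have h2 := EstU1_num C (Fintype.card ι) K hC1 hCK hEK
  have hC0 : 0 ≤ C := by linarith
  calc pS p * (C * (K : ℝ)) ^ ((2 * Fintype.card ι + 1) * K)
      ≤ ((K : ℝ) ^ Fintype.card ι * ((K : ℝ) ^ Fintype.card ι * B)) *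
        (C * (K : ℝ)) ^ ((2 * Fintype.card ι + 1) * K) :=
        mul_le_mul_of_nonneg_right h1 (by positivity)
    _ = B * ((K : ℝ) ^ Fintype.card ι * (K : ℝ) ^ Fintype.card ι *
        (C * (K : ℝ)) ^ ((2 * Fintype.card ι + 1) * K)) := by ring
    _ ≤ B * Real.exp (K * Real.log K ^ 3) := mul_le_mul_of_nonneg_left h2 hB

end Pool.Agent.RHK
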