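import Pool.Agent.RHK.Core.JetUp

/-!
# Project RHK, CORE: (U2) of `CoreEst`
-/

set_option autoImplicit false

namespace Pool.Agent.RHK

open Complex ComplexConjugate Finset

variable {ι : Type} [Fintype ι] [DecidableEq ι]

/-- PLAN. `jet_up` with `G = K^(1+g/y)` (rpow; `G^y = K^(g+y)`, `G ≥ K²`), `ρ = √(2 CL G log K)` (so `ρ ≥ C` for large `K`,
and `pS (C (K+ρ))^((2g+1)K) ≤ exp (CL G log K + C' K log K) S ≤ exp (ρ²) S` because `G ≥ K²`), `N = ⌊K log K⌋₊`: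
`ρ/√G = √(2 CL log K)`, `(C N √G)^N ≤ exp (C'' K log² K)`. -/
theorem est_U2 (c : CoreG ι) (CL : ℝ) (hCL : 1 ≤ CL) : ∃ K0 : ℕ, ∀ K : ℕ, K0 ≤ K →
    ∀ p : (ι → Fin K) → (ι → Fin K) → ℂ,
    pS p ≤ Real.exp (CL * (K : ℝ) ^ (1 + (Fintype.card ι : ℝ) / c.Y.card) * Real.log K) * c.S p 0 →
    ∀ A B : ι → ℕ, (ord A B : ℝ) ≤ K * Real.log K →
      ‖jet (c.f p) A B‖ ≤ Real.exp (K * Real.log K ^ 3) * c.S p 0 := by
  obtain ⟨C, hC, hjet⟩ := jet_up c
  obtain ⟨g, hg⟩ : ∃ g : ℕ, g = Fintype.card ι := ⟨_, rfl⟩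
  have hy1 : (1 : ℝ) ≤ (c.Y.card : ℝ) := by exact_mod_cast c.hY.card_pos
  have hyg : (c.Y.card : ℝ) ≤ (g : ℝ) := by
    rw [hg]
    exact_mod_cast Finset.card_le_univ c.Y
  rw [← hg]
  rw [← hg] at hjet
  have hg0 : (0 : ℝ) ≤ (g : ℝ) := Nat.cast_nonneg g
  obtain ⟨L0, hL0⟩ : ∃ L0 : ℝ, L0 = C * (1 + 2 * CL) + 3 * C * CL + (2 * g + 1) * (g + 3) + g + 5 + C :=
    ⟨_, rfl⟩
  have hCCL : 1 ≤ C * CL := one_le_mul_of_one_le_of_one_le hC hCL
  have hp1 : 0 ≤ C * (1 + 2 * CL) := by nlinarith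
  have hp2 : 0 ≤ ((2 : ℝ) * g + 1) * (g + 3) := by positivity
  refine ⟨⌈Real.exp L0⌉₊ + 1, ?_⟩
  intro K hK p hp A B hAB
  have hKexp : Real.exp L0 ≤ K := by
    refine (Nat.le_ceil _).trans ?_
    exact_mod_cast (Nat.le_succ _).trans hK
  have hKpos : (0 : ℝ) < K := (Real.exp_pos _).trans_le hKexp
  have hlog : L0 ≤ Real.log K := (Real.le_log_iff_exp_le hKpos).2 hKexp
  have hKL : L0 + 1 ≤ K := (Real.add_one_le_exp _).trans hKexp
  have hK1 : (1 : ℝ) ≤ K := by linarith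
  have hlog1 : 1 ≤ Real.log K := by linarith
  have hlogK : Real.log K ≤ K := Real.log_le_self hKpos.le
  obtain ⟨l, hl⟩ : ∃ l : ℝ, l = Real.log K := ⟨_, rfl⟩
  rw [← hl] at hlog hlog1 hlogK hp hAB ⊢
  obtain ⟨G, hG⟩ : ∃ G : ℝ, G = (K : ℝ) ^ (1 + (g : ℝ) / c.Y.card) := ⟨_, rfl⟩
  rw [← hG] at hp
  have hG2 : (K : ℝ) ^ 2 ≤ G := by
    rw [hG, ← Real.rpow_natCast]
    refine Real.rpow_le_rpow_of_exponent_le hK1 ?_
    have h1 : 1 ≤ (g : ℝ) / c.Y.card := (one_le_div (by linarith)).2 hyg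
    push_cast
    linarith
  have hGu : G ≤ (K : ℝ) ^ (g + 1) := by
    rw [hG, ← Real.rpow_natCast]
    refine Real.rpow_le_rpow_of_exponent_le hK1 ?_
    have h1 : (g : ℝ) / c.Y.card ≤ g := div_le_self hg0 hy1
    push_cast
    linarith
  have hKG : (K : ℝ) ≤ G := by nlinarith
  have hG1 : 1 ≤ G := hK1.trans hKG
  have hG0 : 0 < G := by linarith
  obtain ⟨ρ, hρ⟩ : ∃ ρ : ℝ, ρ = √(2 * CL * G * l) := ⟨_, rfl⟩
  have hρ0 : 0 ≤ ρ := by
    rw [hρ]
    exact Real.sqrt_nonneg _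
  have hin : 0 ≤ 2 * CL * G * l := by positivity
  have hρ2 : ρ ^ 2 = 2 * CL * G * l := by
    rw [hρ, Real.sq_sqrt hin]
  have hCLG : G ≤ CL * G := le_mul_of_one_le_left hG0.le hCL
  have hρK : (K : ℝ) ≤ ρ := by
    rw [hρ]
    apply Real.le_sqrt_of_sq_le
    have h1 : CL * G ≤ CL * G * l := le_mul_of_one_le_right (by linarith) hlog1
    nlinarith
  have hCρ : C ≤ ρ := by linarith
  have hρ1 : 1 ≤ ρ := hK1.trans hρK
  have hρu : ρ ≤ 2 * CL * (K : ℝ) ^ (g + 2) := by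
    have h1 : ρ ≤ ρ ^ 2 := by nlinarith
    have h2 : G * l ≤ (K : ℝ) ^ (g + 1) * K := mul_le_mul hGu hlogK (by linarith) (by positivity)
    rw [← pow_succ] at h2
    have h3 : 2 * CL * (G * l) ≤ 2 * CL * (K : ℝ) ^ (g + 2) :=
      mul_le_mul_of_nonneg_left h2 (by linarith)
    rw [hρ2, mul_assoc (2 * CL) G l] at h1
    linarith
  have hpow : ∀ m : ℕ, (K : ℝ) ^ m = Real.exp (m * l) := by
    intro m
    rw [hl, ← Real.exp_log hKpos, ← Real.exp_nat_mul, Real.log_exp]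
  have hS0 : 0 ≤ c.S p 0 := by
    unfold CoreG.S
    refine Real.iSup_nonneg fun z => ?_
    unfold CoreG.nf CoreG.wt
    positivity
  have hb : C * (K + ρ) ≤ Real.exp (((g + 3 : ℕ) : ℝ) * l) := by
    rw [← hpow]
    have h1 : (K : ℝ) ≤ (K : ℝ) ^ (g + 2) := by
      have := pow_le_pow_right₀ hK1 (show 1 ≤ g + 2 by omega)
      rwa [pow_one] at this
    have h2 : (K : ℝ) + ρ ≤ 3 * CL * (K : ℝ) ^ (g + 2) := by nlinarith
    calc C * (K + ρ) ≤ C * (3 * CL * (K : ℝ) ^ (g + 2)) := mul_le_mul_of_nonneg_left h2 (by linarith)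
      _ = (3 * C * CL) * (K : ℝ) ^ (g + 2) := by ring
      _ ≤ K * (K : ℝ) ^ (g + 2) := mul_le_mul_of_nonneg_right (by linarith) (by positivity)
      _ = (K : ℝ) ^ (g + 3) := by ring
  have hb2 : (C * (K + ρ)) ^ ((2 * g + 1) * K) ≤ Real.exp (CL * G * l) := by
    refine (pow_le_pow_left₀ (by positivity) hb _).trans ?_
    rw [← Real.exp_nat_mul]
    refine Real.exp_le_exp.2 ?_
    push_cast
    have h1 : ((2 * (g : ℝ) + 1) * (g + 3)) * K ≤ K * K :=
      mul_le_mul_of_nonneg_right (by linarith) hKpos.le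
    have h2 : ((2 * (g : ℝ) + 1) * (g + 3)) * K ≤ CL * G := by nlinarith
    have h3 := mul_le_mul_of_nonneg_right h2 (by linarith : 0 ≤ l)
    linarith
  have hcond : pS p * (C * (K + ρ)) ^ ((2 * g + 1) * K) ≤ Real.exp (ρ ^ 2) * c.S p 0 := by
    calc pS p * (C * (K + ρ)) ^ ((2 * g + 1) * K)
        ≤ (Real.exp (CL * G * l) * c.S p 0) * Real.exp (CL * G * l) :=
          mul_le_mul hp hb2 (by positivity) (by positivity)
      _ = Real.exp (ρ ^ 2) * c.S p 0 := by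
          have h1 : ρ ^ 2 = CL * G * l + CL * G * l := by
            rw [hρ2]
            ring
          rw [h1, Real.exp_add]
          ring
  have hKl : (1 : ℝ) ≤ K * l := one_le_mul_of_one_le_of_one_le hK1 hlog1
  have hKnat : 1 ≤ K := by exact_mod_cast hK1
  obtain ⟨N, hN⟩ : ∃ N : ℕ, N = ⌊(K : ℝ) * l⌋₊ := ⟨_, rfl⟩
  have hN1 : 1 ≤ N := by
    rw [hN]
    exact (Nat.one_le_floor_iff _).2 hKl
  have hNle : (N : ℝ) ≤ K * l := by
    rw [hN]
    exact Nat.floor_le (by linarith)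
  have hABN : ord A B ≤ N := by
    rw [hN]
    exact Nat.le_floor hAB
  have hJ := hjet K hKnat G hG1 p ρ hCρ hcond N A B hN1 hABN
  have hsq : ρ / √G ≤ 2 * CL * l := by
    rw [div_le_iff₀ (Real.sqrt_pos.2 hG0), hρ]
    apply Real.sqrt_le_iff.2
    refine ⟨by positivity, ?_⟩
    rw [mul_pow, Real.sq_sqrt hG0.le]
    have h1 : 1 ≤ 2 * CL * l := by nlinarith
    have h2 : 2 * CL * l ≤ (2 * CL * l) ^ 2 := by nlinarith
    have h3 := mul_le_mul_of_nonneg_right h2 hG0.le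
    linarith
  have hsK : √(K : ℝ) ≤ K := by
    apply Real.sqrt_le_iff.2
    exact ⟨hKpos.le, by nlinarith⟩
  have hsG : √G ≤ G := by
    apply Real.sqrt_le_iff.2
    exact ⟨hG0.le, by nlinarith⟩
  have hN2 : C * N * √G ≤ Real.exp (((g + 4 : ℕ) : ℝ) * l) := by
    rw [← hpow]
    have h1 : C ≤ K := by linarith
    have h2 : (N : ℝ) ≤ K * K := hNle.trans (mul_le_mul_of_nonneg_left hlogK hKpos.le)
    calc C * N * √G ≤ K * (K * K) * (K : ℝ) ^ (g + 1) := by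
          refine mul_le_mul (mul_le_mul h1 h2 (by positivity) hKpos.le) (hsG.trans hGu)
            (by positivity) (by positivity)
      _ = (K : ℝ) ^ (g + 4) := by ring
  have hN3 : (C * N * √G) ^ N ≤ Real.exp ((g + 4) * (K * l ^ 2)) := by
    refine (pow_le_pow_left₀ (by positivity) hN2 _).trans ?_
    rw [← Real.exp_nat_mul]
    refine Real.exp_le_exp.2 ?_
    push_cast
    have h1 : (N : ℝ) * (((g : ℝ) + 4) * l) ≤ (K * l) * (((g : ℝ) + 4) * l) :=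
      mul_le_mul_of_nonneg_right hNle (by positivity)
    nlinarith
  refine hJ.trans ?_
  calc c.S p 0 * Real.exp (C * (√K + ρ / √G)) * (C * N * √G) ^ N
      ≤ c.S p 0 * Real.exp (C * (K + 2 * CL * l)) * Real.exp ((g + 4) * (K * l ^ 2)) := by
        refine mul_le_mul (mul_le_mul_of_nonneg_left (Real.exp_le_exp.2 ?_) hS0) hN3
          (by positivity) (by positivity)
        exact mul_le_mul_of_nonneg_left (add_le_add hsK hsq) (by linarith)
    _ = Real.exp (C * (K + 2 * CL * l) + (g + 4) * (K * l ^ 2)) * c.S p 0 := by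
        rw [Real.exp_add]
        ring
    _ ≤ Real.exp (K * l ^ 3) * c.S p 0 := by
        refine mul_le_mul_of_nonneg_right (Real.exp_le_exp.2 ?_) hS0
        have hKl2 : (K : ℝ) ≤ K * l ^ 2 := le_mul_of_one_le_right hKpos.le (one_le_pow₀ hlog1)
        have h1 : C * (K + 2 * CL * l) ≤ C * (1 + 2 * CL) * K := by
          have h2 : K + 2 * CL * l ≤ (1 + 2 * CL) * K := by nlinarith
          have h3 := mul_le_mul_of_nonneg_left h2 (by linarith : 0 ≤ C)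
          linarith
        have h4 : C * (1 + 2 * CL) * K ≤ C * (1 + 2 * CL) * (K * l ^ 2) :=
          mul_le_mul_of_nonneg_left hKl2 hp1
        have h5 : (C * (1 + 2 * CL) + (g + 4)) * (K * l ^ 2) ≤ l * (K * l ^ 2) :=
          mul_le_mul_of_nonneg_right (by linarith) (by positivity)
        have h6 : K * l ^ 3 = l * (K * l ^ 2) := by ring
        rw [h6]
        linarith

end Pool.Agent.RHK
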