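import Pool.Agent.RHK.Ifc
import Pool.Agent.RHK.Core.EstU1
import Pool.Agent.RHK.Core.EstU2
import Pool.Agent.RHK.Core.EstE1
import Pool.Agent.RHK.Core.EstE2

/-!
# Project RHK, CORE: assembly of `CoreEst` from the lower bound (L)
-/

set_option autoImplicit false

namespace Pool.Agent.RHK

open Complex ComplexConjugate Finset

/-- the lower bound (L) in the form used here -/
def LowForm : Prop := ∀ (ι : Type) [Fintype ι] [DecidableEq ι] (c : CoreG ι), ∃ CL : ℝ, 1 ≤ CL ∧ ∃ K1 : ℕ,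
  ∀ K : ℕ, K1 ≤ K → ∀ p : (ι → Fin K) → (ι → Fin K) → ℂ,
    pS p ≤ Real.exp (CL * (K : ℝ) ^ (1 + (Fintype.card ι : ℝ) / c.Y.card) * Real.log K) * c.S p 0

theorem pS_ge {ι : Type} [Fintype ι] [DecidableEq ι] {K : ℕ} (p : (ι → Fin K) → (ι → Fin K) → ℂ)
    (m l : ι → Fin K) : ‖p m l‖ ≤ pS p := by
  unfold pS
  refine le_trans ?_ (Finset.single_le_sum (f := fun m => ∑ l, ‖p m l‖)
    (fun m _ => Finset.sum_nonneg (fun l _ => norm_nonneg _)) (Finset.mem_univ m))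
  exact Finset.single_le_sum (f := fun l => ‖p m l‖) (fun l _ => norm_nonneg _) (Finset.mem_univ l)

theorem coreEst_of (hLow : LowForm) : CoreEst := by
  intro ι _ _ c ε hε
  obtain ⟨CL, hCL, K1, hL⟩ := hLow ι c
  obtain ⟨K2, h2⟩ := est_U1 c
  obtain ⟨K3, h3⟩ := est_U2 c CL hCL
  obtain ⟨K4, h4⟩ := est_E1 c ε hε
  obtain ⟨K5, h5⟩ := est_E2 c CL hCL
  -- log K ≥ CL and K0 large
  obtain ⟨K6, h6⟩ : ∃ K6 : ℕ, CL ≤ Real.log K6 := by
    obtain ⟨n, hn⟩ := exists_nat_ge (Real.exp CL)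
    refine ⟨n, ?_⟩
    rw [Real.le_log_iff_exp_le (lt_of_lt_of_le (Real.exp_pos _) hn)]
    exact hn
  refine ⟨max 3 (max K1 (max K2 (max K3 (max K4 (max K5 K6))))), le_max_left _ _, ?_⟩
  intro K hK p
  simp only [max_le_iff] at hK
  obtain ⟨hK3', hK1', hK2', hK3'', hK4', hK5', hK6'⟩ := hK
  have hlog : CL ≤ Real.log K := by
    have hK60 : 0 < K6 := by
      rcases Nat.eq_zero_or_pos K6 with h | h
      · subst h; simp at h6; linarith
      · exact h
    refine h6.trans (Real.log_le_log (by exact_mod_cast hK60) (by exact_mod_cast hK6'))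
  have hS0 : 0 ≤ c.S p 0 := by
    unfold CoreG.S
    exact Real.iSup_nonneg (fun z => mul_nonneg (norm_nonneg _) (Real.exp_pos _).le)
  have hLp := hL K hK1' p
  have hG0 : 0 ≤ (K : ℝ) ^ (1 + (Fintype.card ι : ℝ) / c.Y.card) := Real.rpow_nonneg (by positivity) _
  refine ⟨fun B hB => h2 K hK2' p B hB, h3 K hK3'' p hLp, ?_, fun B hB hE => h4 K hK4' p B hB hE,
    h5 K hK5' p hLp⟩
  intro m l
  refine (pS_ge p m l).trans (hLp.trans ?_)
  refine mul_le_mul_of_nonneg_right (Real.exp_le_exp.mpr ?_) hS0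
  have hl1 : 1 ≤ Real.log K := hCL.trans hlog
  calc CL * (K : ℝ) ^ (1 + (Fintype.card ι : ℝ) / c.Y.card) * Real.log K
      = (K : ℝ) ^ (1 + (Fintype.card ι : ℝ) / c.Y.card) * (CL * Real.log K) := by ring
    _ ≤ (K : ℝ) ^ (1 + (Fintype.card ι : ℝ) / c.Y.card) * Real.log K ^ 3 := by
        apply mul_le_mul_of_nonneg_left _ hG0
        nlinarith [mul_self_nonneg (Real.log K)]

end Pool.Agent.RHK
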