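import Pool.Agent.RHK.Core.Triv

/-!
ROHK-Cvx. Section 2: convexity in `d` (three lines theorem).
-/

set_option autoImplicit false

namespace Pool.Agent.RHK

open Complex ComplexConjugate Finset

variable {ι : Type} [Fintype ι] [DecidableEq ι]

private theorem cvx_sq (x y t : ℂ) :
    (((‖x‖ ^ 2 : ℝ) : ℂ) + 2 * (conj x * y * t) + t ^ 2 * ((‖y‖ ^ 2 : ℝ) : ℂ)).re =
      ‖x + t * y‖ ^ 2 - 2 * t.im ^ 2 * ‖y‖ ^ 2 := by
  rw [Complex.sq_norm, Complex.sq_norm, Complex.sq_norm, Complex.normSq_apply, Complex.normSq_apply,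
    Complex.normSq_apply]
  simp only [pow_two, Complex.add_re, Complex.mul_re, Complex.mul_im, Complex.ofReal_re, Complex.ofReal_im,
    Complex.conj_re, Complex.conj_im, Complex.add_im, Complex.re_ofNat, Complex.im_ofNat]
  ring

private theorem cvx_nu (d : ℂ) : ‖I * conj d / 2‖ ^ 2 = ‖d‖ ^ 2 / 4 := by
  rw [norm_div, norm_mul, Complex.norm_I, Complex.norm_conj, one_mul, div_pow]
  norm_num

private theorem cvx_pt (z0 d t : ℂ) :
    conj z0 + t * conj (I * conj d / 2) = conj (z0 + t * (I * conj d / 2)) + (t.im : ℂ) * d := by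
  rw [Complex.im_eq_sub_conj]
  simp only [map_add, map_mul, map_div₀, Complex.conj_conj, Complex.conj_I, map_ofNat]
  have hI : I * I = -1 := Complex.I_mul_I
  have hI0 : I ≠ 0 := Complex.I_ne_zero
  field_simp
  linear_combination (-(t - conj t) * d) * hI

/-- the line of points -/
private noncomputable def cvx_v (z0 d : ι → ℂ) (t : ℂ) : VV ι :=
  (fun i => z0 i + t * (I * conj (d i) / 2), fun i => conj (z0 i) + t * conj (I * conj (d i) / 2))

private theorem cvx_v_rp (z0 d : ι → ℂ) (t : ℂ) :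
    cvx_v z0 d t = rp (fun i => z0 i + t * (I * conj (d i) / 2)) (fun i => (t.im : ℂ) * d i) := by
  unfold cvx_v rp cj
  refine Prod.ext rfl ?_
  funext i
  exact cvx_pt (z0 i) (d i) t

/-- the quadratic exponent -/
private noncomputable def cvx_q (c : CoreG ι) (z0 d : ι → ℂ) (t : ℂ) : ℂ :=
  ∑ i, ((c.a i : ℂ) * (((‖z0 i‖ ^ 2 : ℝ) : ℂ) + 2 * (conj (z0 i) * (I * conj (d i) / 2) * t) +
      t ^ 2 * ((‖I * conj (d i) / 2‖ ^ 2 : ℝ) : ℂ)) +
    (c.b i : ℂ) * (((‖(if i ∈ c.Y then conj (z0 i) else z0 i)‖ ^ 2 : ℝ) : ℂ) +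
      2 * (conj (if i ∈ c.Y then conj (z0 i) else z0 i) *
        (if i ∈ c.Y then conj (I * conj (d i) / 2) else I * conj (d i) / 2) * t) +
      t ^ 2 * ((‖(if i ∈ c.Y then conj (I * conj (d i) / 2) else I * conj (d i) / 2)‖ ^ 2 : ℝ) : ℂ))) / 2

private theorem cvx_q_re (c : CoreG ι) (z0 d : ι → ℂ) (t : ℂ) :
    (cvx_q c z0 d t).re = (∑ i, (c.a i * ‖(cvx_v z0 d t).1 i‖ ^ 2 +
      c.b i * ‖(sw c.Y (cvx_v z0 d t)).1 i‖ ^ 2) / 2) -
      (∑ i, (c.a i + c.b i) * ‖d i‖ ^ 2 / 4) * t.im ^ 2 := by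
  unfold cvx_q
  rw [Complex.re_sum, Finset.sum_mul, ← Finset.sum_sub_distrib]
  refine Finset.sum_congr rfl fun i _ => ?_
  rw [Complex.div_ofNat_re, Complex.add_re, Complex.re_ofReal_mul, Complex.re_ofReal_mul, cvx_sq, cvx_sq]
  have h2 : ‖(if i ∈ c.Y then conj (I * conj (d i) / 2) else I * conj (d i) / 2)‖ ^ 2 = ‖d i‖ ^ 2 / 4 := by
    split_ifs
    · rw [Complex.norm_conj, cvx_nu]
    · rw [cvx_nu]
  have h3 : (sw c.Y (cvx_v z0 d t)).1 i = (if i ∈ c.Y then conj (z0 i) else z0 i) +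
      t * (if i ∈ c.Y then conj (I * conj (d i) / 2) else I * conj (d i) / 2) := by
    show (if i ∈ c.Y then (cvx_v z0 d t).2 i else (cvx_v z0 d t).1 i) = _
    split_ifs
    · rfl
    · rfl
  rw [h2, cvx_nu, h3]
  show (c.a i * (‖z0 i + t * (I * conj (d i) / 2)‖ ^ 2 - 2 * t.im ^ 2 * (‖d i‖ ^ 2 / 4)) + c.b i * _) / 2 =
    (c.a i * ‖z0 i + t * (I * conj (d i) / 2)‖ ^ 2 + c.b i * _) / 2 - _
  ring

private theorem cvx_diff_v (z0 d : ι → ℂ) : Differentiable ℂ (cvx_v z0 d) := by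
  unfold cvx_v
  refine Differentiable.prodMk ?_ ?_
  · exact differentiable_pi.2 fun i => by fun_prop
  · exact differentiable_pi.2 fun i => by fun_prop

private theorem cvx_diff_q (c : CoreG ι) (z0 d : ι → ℂ) : Differentiable ℂ (cvx_q c z0 d) := by
  unfold cvx_q
  fun_prop

private theorem cvx_g (c : CoreG ι) {K : ℕ} (p : (ι → Fin K) → (ι → Fin K) → ℂ) (z0 d : ι → ℂ) (t : ℂ) :
    ‖c.f p (cvx_v z0 d t) * cexp (-cvx_q c z0 d t)‖ = c.nf p (cvx_v z0 d t) *
      Real.exp ((∑ i, (c.a i + c.b i) * ‖d i‖ ^ 2 / 4) * t.im ^ 2) := by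
  rw [norm_mul, Complex.norm_exp, Complex.neg_re, cvx_q_re]
  unfold CoreG.nf CoreG.wt
  rw [mul_assoc, ← Real.exp_add]
  congr 2
  ring

theorem cvx (c : CoreG ι) {K : ℕ} (hK : 1 ≤ K) (p : (ι → Fin K) → (ι → Fin K) → ℂ) (d : ι → ℂ)
    (A B : ℝ) (hA : c.BdC p 0 A) (hB : c.BdC p d B) (s : ℝ) (hs0 : 0 ≤ s) (hs1 : s ≤ 1) :
    c.BdC p (fun i => (s : ℂ) * d i)
      (A ^ (1 - s) * (B * Real.exp (∑ i, (c.a i + c.b i) * ‖d i‖ ^ 2 / 4)) ^ s) := by
  intro z
  obtain ⟨C, hC1, hC⟩ := triv_f c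
  set Q : ℝ := ∑ i, (c.a i + c.b i) * ‖d i‖ ^ 2 / 4 with hQ
  have hQ0 : 0 ≤ Q := by
    rw [hQ]
    refine Finset.sum_nonneg fun i _ => ?_
    have h1 := (c.ha i).le
    have h2 := (c.hb i).le
    positivity
  have nf0 : ∀ v, 0 ≤ c.nf p v := fun v => mul_nonneg (norm_nonneg _) (Real.exp_nonneg _)
  have hB0 : 0 ≤ B := (nf0 _).trans (hB z)
  set z0 : ι → ℂ := fun i => z i - I * s * (I * conj (d i) / 2) with hz0
  set G : ℂ → ℂ := fun x => c.f p (cvx_v z0 d (I * x)) * cexp (-cvx_q c z0 d (I * x)) with hG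
  have him : ∀ x : ℂ, (I * x).im = x.re := by
    intro x
    simp
  have hGn : ∀ x : ℂ, ∃ y : ι → ℂ, ‖G x‖ = c.nf p (rp y (fun i => (x.re : ℂ) * d i)) *
      Real.exp (Q * x.re ^ 2) := by
    intro x
    refine ⟨fun i => z0 i + I * x * (I * conj (d i) / 2), ?_⟩
    rw [hG]
    simp only
    rw [cvx_g, cvx_v_rp, him]
  have hGd : Differentiable ℂ G := by
    have h1 : Differentiable ℂ fun x : ℂ => I * x := by fun_prop
    have h2 : Differentiable ℂ fun x : ℂ => c.f p (cvx_v z0 d (I * x)) :=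
      (diff_f c p).comp ((cvx_diff_v z0 d).comp h1)
    have h3 : Differentiable ℂ fun x : ℂ => cvx_q c z0 d (I * x) := (cvx_diff_q c z0 d).comp h1
    exact h2.mul h3.neg.cexp
  have hBd : BddAbove ((norm ∘ G) '' HadamardThreeLines.verticalClosedStrip 0 1) := by
    refine ⟨(pS p * (C * (K + ‖d‖)) ^ ((2 * Fintype.card ι + 1) * K)) * Real.exp (Q * 1 ^ 2), ?_⟩
    rintro _ ⟨x, hx, rfl⟩
    have hx0 : 0 ≤ x.re := hx.1
    have hx1 : x.re ≤ 1 := hx.2
    obtain ⟨y, hy⟩ := hGn x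
    simp only [Function.comp_apply]
    rw [hy]
    have hn : ‖(fun i => (x.re : ℂ) * d i)‖ ≤ ‖d‖ := by
      refine (pi_norm_le_iff_of_nonneg (norm_nonneg _)).2 fun i => ?_
      rw [norm_mul, Complex.norm_real, Real.norm_of_nonneg hx0]
      have h1 := norm_le_pi_norm d i
      have h2 := norm_nonneg (d i)
      nlinarith
    have hp : 0 ≤ pS p := by
      unfold pS
      exact Finset.sum_nonneg fun m _ => Finset.sum_nonneg fun l _ => norm_nonneg _
    have hC0 : 0 ≤ C := by linarith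
    apply mul_le_mul
    · refine (hC K hK p y _).trans ?_
      apply mul_le_mul_of_nonneg_left _ hp
      apply pow_le_pow_left₀
      · positivity
      · apply mul_le_mul_of_nonneg_left _ hC0
        linarith
    · apply Real.exp_le_exp.mpr
      apply mul_le_mul_of_nonneg_left _ hQ0
      apply pow_le_pow_left₀ hx0 hx1
    · exact Real.exp_nonneg _
    · apply mul_nonneg hp
      positivity
  have hmain := HadamardThreeLines.norm_le_interp_of_mem_verticalClosedStrip₀₁' G (z := (s : ℂ))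
    (a := A) (b := B * Real.exp Q)
    (by
      show ((s : ℂ)).re ∈ Set.Icc (0 : ℝ) 1
      simpa using ⟨hs0, hs1⟩) hGd.diffContOnCl hBd
    (by
      intro x hx
      have hx' : x.re = 0 := hx
      obtain ⟨y, hy⟩ := hGn x
      rw [hy, hx']
      have h0 : (fun i => ((0 : ℝ) : ℂ) * d i) = (0 : ι → ℂ) := by
        funext i
        simp
      rw [h0]
      have := hA y
      simpa using this)
    (by
      intro x hx
      have hx' : x.re = 1 := hx
      obtain ⟨y, hy⟩ := hGn x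
      rw [hy, hx']
      have h0 : (fun i => ((1 : ℝ) : ℂ) * d i) = d := by
        funext i
        simp
      rw [h0, one_pow, mul_one]
      exact mul_le_mul_of_nonneg_right (hB y) (Real.exp_nonneg _))
  have hGs : ‖G (s : ℂ)‖ = c.nf p (rp z (fun i => (s : ℂ) * d i)) * Real.exp (Q * s ^ 2) := by
    rw [hG]
    simp only
    rw [cvx_g, cvx_v_rp, him, Complex.ofReal_re]
    have h0 : (fun i => z0 i + I * (s : ℂ) * (I * conj (d i) / 2)) = z := by
      funext i
      rw [hz0]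
      simp only
      ring
    rw [h0]
  rw [hGs, Complex.ofReal_re] at hmain
  refine le_trans ?_ hmain
  have h1 : (1 : ℝ) ≤ Real.exp (Q * s ^ 2) := Real.one_le_exp (by positivity)
  have h2 := nf0 (rp z (fun i => (s : ℂ) * d i))
  nlinarith

/-- `S(d)` is the least bound (the invariant norm is bounded by `triv_f`) -/
theorem bdC_iff (c : CoreG ι) {K : ℕ} (hK : 1 ≤ K) (p : (ι → Fin K) → (ι → Fin K) → ℂ) (d : ι → ℂ)
    (M : ℝ) : c.BdC p d M ↔ c.S p d ≤ M := by
  obtain ⟨C, _, hC⟩ := triv_f c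
  have hb : BddAbove (Set.range fun z : ι → ℂ => c.nf p (z, cj z + d)) := by
    refine ⟨pS p * (C * (K + ‖d‖)) ^ ((2 * Fintype.card ι + 1) * K), ?_⟩
    rintro _ ⟨z, rfl⟩
    exact hC K hK p z d
  constructor
  · intro h
    exact ciSup_le fun z => h z
  · intro h z
    exact (le_ciSup hb z).trans h

end Pool.Agent.RHK
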