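import Pool.Agent.RHK.Core.LTopL

/-!
Project ROHK, block CORE, section 4 (L), module RHK-LTop (statement (4a)). Uses topL (LTopL) and
FF_eq_FL (EntD).
Plan. Fix `w1` with `T1 w1 ≠ 0` and `w2` with `T2 w2 ≠ 0` (`c.n1`, `c.n2`). For every `x2` apply `topL` with
`L = univ.toList` (nodup, every `i` is in it, so the filter is `{m0}`; length = card ι), `T = T1`,
`q m = (∑_l p m l * FF b T2 l (rp x2 0)) * wtE b x2` (in `Gam` at `d = 0` the second connection is
`fun i => -conj 0 = 0`): `‖∑_l p m l * FF b T2 l (rp x2 0)‖ * wtE b x2 * (‖T1 w1‖ wtE a w1) ≤ (C K)^(2 K g) M`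
for all `x2` and `m`. Apply `topL` again to `T2`, `q l = p m l` and
`M' = (C K)^(2 K g) M / (‖T1 w1‖ wtE a w1)`, at `z = w2`. Then sum over the `K^(2g)` pairs `(m, l)`
and absorb the constants and `K^(2g)` into `exp (C K log K)` (`K ≥ 2`, `K log K ≥ 2 log 2 > 1`,
`(C K)^n = exp (n log (C K))`, `log (C K) ≤ (1 + log C / log 2) log K`).
-/

set_option autoImplicit false

namespace Pool.Agent.RHK

open Complex ComplexConjugate Finset

variable {ι : Type} [Fintype ι] [DecidableEq ι]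

private theorem LTp_filter {K : ℕ} (m0 : ι → Fin K) :
    (univ.filter (fun m : ι → Fin K => ∀ i ∈ (Finset.univ : Finset ι).toList, m i = m0 i)) = {m0} := by
  ext m
  simp only [Finset.mem_filter, Finset.mem_univ, true_and, Finset.mem_toList, forall_const,
    Finset.mem_singleton]
  exact ⟨fun h => funext h, fun h i => by rw [h]⟩

private theorem LTp_wt_pos (a : ι → ℝ) (z : ι → ℂ) : 0 < wtE a z := by
  unfold wtE
  exact Real.exp_pos _

/-- topL for the complete list -/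
private theorem LTp_top (a : ι → ℝ) (ha : ∀ i, 0 < a i) (T : (ι → ℂ) → ℂ) (hT : Differentiable ℂ T)
    (w : ι → ℂ) (hw : T w ≠ 0) :
    ∃ C N : ℝ, 1 ≤ C ∧ 0 < N ∧ ∀ K : ℕ, 1 ≤ K → ∀ (q : (ι → Fin K) → ℂ) (M : ℝ),
    (∀ z, ‖∑ m, q m * FF a T (fun i => (m i : ℕ)) (rp z 0)‖ * wtE a z ≤ M) →
    ∀ m0 : ι → Fin K, ‖q m0‖ ≤ (C * K) ^ (2 * K * Fintype.card ι) * M / N := by
  obtain ⟨C, hC, h⟩ := topL a ha T hT
  refine ⟨C, ‖T w‖ * wtE a w, hC, mul_pos (norm_pos_iff.2 hw) (LTp_wt_pos a w), ?_⟩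
  intro K hK q M H m0
  have h1 := h K hK (Finset.univ : Finset ι).toList (Finset.nodup_toList _) q M
    (fun z => H z) m0 w
  rw [LTp_filter, Finset.sum_singleton, Finset.length_toList, Finset.card_univ] at h1
  rw [le_div_iff₀ (mul_pos (norm_pos_iff.2 hw) (LTp_wt_pos a w))]
  exact h1

private theorem LTp_pow (C : ℝ) (hC : 1 ≤ C) (K n : ℕ) (hK : 2 ≤ K) :
    (C * K) ^ (2 * K * n) ≤ Real.exp ((2 * n * (2 * C + 1)) * (K * Real.log K)) := by
  have hK' : (2 : ℝ) ≤ K := by exact_mod_cast hK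
  have hl2 : (0.69 : ℝ) < Real.log 2 := by
    have := Real.log_two_gt_d9
    linarith
  have hlK : Real.log 2 ≤ Real.log K := Real.log_le_log (by norm_num) hK'
  have hCK : 0 < C * K := by positivity
  have h1 : Real.log (C * K) ≤ (2 * C + 1) * Real.log K := by
    rw [Real.log_mul (by positivity) (by positivity)]
    have h2 : Real.log C ≤ C := (Real.log_le_sub_one_of_pos (by positivity)).trans (by linarith)
    have h3 : C * 1 ≤ C * (2 * Real.log K) := mul_le_mul_of_nonneg_left (by linarith) (by linarith)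
    linarith
  have h4 : (C * K) ^ (2 * K * n) = Real.exp ((2 * K * n : ℕ) * Real.log (C * K)) := by
    rw [Real.exp_nat_mul, Real.exp_log hCK]
  rw [h4]
  refine Real.exp_le_exp.2 ?_
  have h5 : ((2 * K * n : ℕ) : ℝ) * Real.log (C * K) ≤
      ((2 * K * n : ℕ) : ℝ) * ((2 * C + 1) * Real.log K) :=
    mul_le_mul_of_nonneg_left h1 (Nat.cast_nonneg _)
  refine h5.trans (le_of_eq ?_)
  push_cast
  ring

/-- (4a): the coefficients are bounded by the two-torus function at `d = 0`. -/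
theorem pS_le_nG (c : CoreG ι) : ∃ C : ℝ, 1 ≤ C ∧ ∀ K : ℕ, 2 ≤ K →
    ∀ (p : (ι → Fin K) → (ι → Fin K) → ℂ) (M : ℝ), (∀ z1 x2, c.nG p z1 x2 0 ≤ M) →
    pS p ≤ Real.exp (C * K * Real.log K) * M := by
  obtain ⟨w1, hw1⟩ := c.n1
  obtain ⟨w2, hw2⟩ := c.n2
  obtain ⟨C1, N1, hC1, hN1, h1⟩ := LTp_top c.a c.ha c.T1 c.d1 w1 hw1
  obtain ⟨C2, N2, hC2, hN2, h2⟩ := LTp_top c.b c.hb c.T2 c.d2 w2 hw2
  obtain ⟨g, hg⟩ : ∃ g : ℕ, g = Fintype.card ι := ⟨_, rfl⟩
  rw [← hg] at h1 h2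
  obtain ⟨C, hCd⟩ : ∃ C : ℝ, C = 2 * g + 2 * g * (2 * C1 + 1) + 2 * g * (2 * C2 + 1) +
      |Real.log (N1 * N2)| + 1 := ⟨_, rfl⟩
  have hC : 1 ≤ C := by
    rw [hCd]
    have : 0 ≤ 2 * (g : ℝ) + 2 * g * (2 * C1 + 1) + 2 * g * (2 * C2 + 1) +
      |Real.log (N1 * N2)| := by positivity
    linarith
  refine ⟨C, hC, ?_⟩
  intro K hK p M H
  have hK1 : 1 ≤ K := by omega
  have hK' : (2 : ℝ) ≤ K := by exact_mod_cast hK
  have hM : 0 ≤ M := by
    refine le_trans ?_ (H 0 0)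
    unfold CoreG.nG
    exact mul_nonneg (norm_nonneg _) (mul_nonneg (LTp_wt_pos _ _).le (LTp_wt_pos _ _).le)
  have hA : ∀ (m0 : ι → Fin K) (x2 : ι → ℂ),
      ‖∑ l, p m0 l * FF c.b c.T2 (fun i => (l i : ℕ)) (rp x2 0)‖ * wtE c.b x2 ≤
        (C1 * K) ^ (2 * K * g) * M / N1 := by
    intro m0 x2
    have h3 := h1 K hK1 (fun m => (∑ l, p m l * FF c.b c.T2 (fun i => (l i : ℕ)) (rp x2 0)) *
      ((wtE c.b x2 : ℝ) : ℂ)) M (by
        intro z
        have h4 := H z x2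
        unfold CoreG.nG at h4
        have h5 : ∑ m, (∑ l, p m l * FF c.b c.T2 (fun i => (l i : ℕ)) (rp x2 0)) *
            ((wtE c.b x2 : ℝ) : ℂ) * FF c.a c.T1 (fun i => (m i : ℕ)) (rp z 0) =
            c.Gam p z x2 0 * ((wtE c.b x2 : ℝ) : ℂ) := by
          unfold CoreG.Gam
          rw [Finset.sum_mul]
          refine Finset.sum_congr rfl fun m _ => ?_
          have h6 : (fun i : ι => - conj ((0 : ι → ℂ) i)) = 0 := by
            funext i
            simp
          rw [h6, Finset.sum_mul, Finset.sum_mul, Finset.sum_mul]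
          refine Finset.sum_congr rfl fun l _ => ?_
          ring
        rw [h5, norm_mul, Complex.norm_real, Real.norm_of_nonneg (LTp_wt_pos _ _).le]
        refine le_trans (le_of_eq ?_) h4
        ring) m0
    rw [norm_mul, Complex.norm_real, Real.norm_of_nonneg (LTp_wt_pos _ _).le] at h3
    exact h3
  have hB : ∀ m0 l0 : ι → Fin K, ‖p m0 l0‖ ≤
      (C2 * K) ^ (2 * K * g) * ((C1 * K) ^ (2 * K * g) * M / N1) / N2 := by
    intro m0 l0
    exact h2 K hK1 (fun l => p m0 l) _ (fun z => hA m0 z) l0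
  obtain ⟨B, hBd⟩ : ∃ B : ℝ, B = (C2 * K) ^ (2 * K * g) * ((C1 * K) ^ (2 * K * g) * M / N1) / N2 :=
    ⟨_, rfl⟩
  have hcard : (Finset.univ : Finset (ι → Fin K)).card = K ^ g := by
    rw [Finset.card_univ, Fintype.card_fun, Fintype.card_fin, hg]
  have hS : pS p ≤ (K : ℝ) ^ g * ((K : ℝ) ^ g * B) := by
    unfold pS
    have h3 : ∀ m ∈ (Finset.univ : Finset (ι → Fin K)), ∑ l, ‖p m l‖ ≤ (K : ℝ) ^ g * B := by
      intro m _
      have h4 := Finset.sum_le_card_nsmul (Finset.univ : Finset (ι → Fin K)) (fun l => ‖p m l‖) B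
        (fun l _ => by
          rw [hBd]
          exact hB m l)
      rw [hcard, nsmul_eq_mul] at h4
      push_cast at h4
      exact h4
    have h5 := Finset.sum_le_card_nsmul (Finset.univ : Finset (ι → Fin K)) _ _ h3
    rw [hcard, nsmul_eq_mul] at h5
    push_cast at h5
    exact h5
  have hlog2 : (0.69 : ℝ) < Real.log 2 := by
    have := Real.log_two_gt_d9
    linarith
  have hlK : Real.log 2 ≤ Real.log K := Real.log_le_log (by norm_num) hK'
  have hX : 1 ≤ (K : ℝ) * Real.log K := by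
    have h3 : (2 : ℝ) * 0.69 ≤ K * Real.log K :=
      mul_le_mul hK' (by linarith) (by norm_num) (by linarith)
    linarith
  have hKg : (K : ℝ) ^ g ≤ Real.exp (g * (K * Real.log K)) := by
    have h3 : (K : ℝ) ^ g = Real.exp (g * Real.log K) := by
      rw [Real.exp_nat_mul, Real.exp_log (by linarith)]
    rw [h3]
    refine Real.exp_le_exp.2 (mul_le_mul_of_nonneg_left ?_ (Nat.cast_nonneg _))
    have h4 : 0 ≤ Real.log K := by linarith
    nlinarith
  have hN : 1 / (N1 * N2) ≤ Real.exp (|Real.log (N1 * N2)| * (K * Real.log K)) := by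
    have h3 : 1 / (N1 * N2) = Real.exp (- Real.log (N1 * N2)) := by
      rw [Real.exp_neg, Real.exp_log (mul_pos hN1 hN2), one_div]
    rw [h3]
    refine Real.exp_le_exp.2 ?_
    refine (neg_le_abs _).trans ?_
    exact le_mul_of_one_le_right (abs_nonneg _) hX
  have hP1 := LTp_pow C1 hC1 K g hK
  have hP2 := LTp_pow C2 hC2 K g hK
  refine hS.trans ?_
  have h6 : (K : ℝ) ^ g * ((K : ℝ) ^ g * B) =
      (K : ℝ) ^ g * (K : ℝ) ^ g * (C1 * K) ^ (2 * K * g) * (C2 * K) ^ (2 * K * g) *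
        (1 / (N1 * N2)) * M := by
    rw [hBd]
    field_simp
  rw [h6]
  refine mul_le_mul_of_nonneg_right ?_ hM
  have h7 : Real.exp (g * (K * Real.log K)) * Real.exp (g * (K * Real.log K)) *
      Real.exp ((2 * g * (2 * C1 + 1)) * (K * Real.log K)) *
      Real.exp ((2 * g * (2 * C2 + 1)) * (K * Real.log K)) *
      Real.exp (|Real.log (N1 * N2)| * (K * Real.log K)) ≤ Real.exp (C * K * Real.log K) := by
    rw [← Real.exp_add, ← Real.exp_add, ← Real.exp_add, ← Real.exp_add]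
    refine Real.exp_le_exp.2 ?_
    rw [hCd]
    nlinarith
  refine le_trans ?_ h7
  have hK0 : (0 : ℝ) ≤ (K : ℝ) ^ g := by positivity
  have hC10 : 0 ≤ (C1 * K) ^ (2 * K * g) := by positivity
  have hC20 : 0 ≤ (C2 * K) ^ (2 * K * g) := by positivity
  have hN0 : 0 ≤ 1 / (N1 * N2) := by positivity
  gcongr

end Pool.Agent.RHK
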