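import Pool.Agent.RHK.Core.LCov
import Pool.Agent.RHK.Core.LTop
import Pool.Agent.RHK.Core.Cvx

/-!
Project ROHK, block CORE, section 4 (L), module RHK-LFin (the lower bound `low`): DONE (helper98).
-/

set_option autoImplicit false

namespace Pool.Agent.RHK

open Complex ComplexConjugate Finset

variable {ι : Type} [Fintype ι] [DecidableEq ι]

private theorem half_le_log (K : ℕ) (hK : 2 ≤ K) : 1 / 2 ≤ Real.log K := by
  have hKr : (2 : ℝ) ≤ K := by exact_mod_cast hK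
  have h1 : Real.log 2 ≤ Real.log K := Real.log_le_log (by norm_num) hKr
  have h2 := Real.log_two_gt_d9
  linarith

/-- the trivial bound in exponential form -/
private theorem nG_triv (c : CoreG ι) : ∃ C : ℝ, 1 ≤ C ∧ ∀ K : ℕ, 2 ≤ K →
    ∀ (p : (ι → Fin K) → (ι → Fin K) → ℂ) (z1 x2 d : ι → ℂ),
    c.nG p z1 x2 d ≤ pS p * Real.exp (C * K * Real.log (K + ‖d‖)) := by
  obtain ⟨C0, hC0, h⟩ := triv_G c
  have hl0 : 0 ≤ Real.log C0 := Real.log_nonneg hC0
  refine ⟨(2 * Fintype.card ι + 1) * (1 + 2 * Real.log C0), ?_, ?_⟩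
  · have h1 : (0 : ℝ) ≤ Fintype.card ι := Nat.cast_nonneg _
    nlinarith
  intro K hK p z1 x2 d
  have hKr : (2 : ℝ) ≤ K := by exact_mod_cast hK
  refine (h K (by omega) p z1 x2 d).trans ?_
  have hp : 0 ≤ pS p := Finset.sum_nonneg fun m _ => Finset.sum_nonneg fun l _ => norm_nonneg _
  apply mul_le_mul_of_nonneg_left _ hp
  have hx : 0 < (K : ℝ) + ‖d‖ := by positivity
  have hb : 0 < C0 * (K + ‖d‖) := by positivity
  rw [← Real.exp_log (pow_pos hb _), Real.log_pow, Real.log_mul (by positivity) hx.ne']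
  apply Real.exp_le_exp.mpr
  have hL := half_le_log K hK
  have hL2 : Real.log K ≤ Real.log (K + ‖d‖) :=
    Real.log_le_log (by positivity) (by linarith [norm_nonneg d])
  have h3 : Real.log C0 + Real.log (K + ‖d‖) ≤ (1 + 2 * Real.log C0) * Real.log (K + ‖d‖) := by
    nlinarith
  push_cast
  calc (2 * (Fintype.card ι : ℝ) + 1) * K * (Real.log C0 + Real.log (K + ‖d‖))
      ≤ (2 * (Fintype.card ι : ℝ) + 1) * K * ((1 + 2 * Real.log C0) * Real.log (K + ‖d‖)) := by
        gcongr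
    _ = _ := by ring

/-- midpoint convexity -/
private theorem cvx2 (c : CoreG ι) : ∃ C : ℝ, 1 ≤ C ∧ ∀ K : ℕ, 2 ≤ K →
    ∀ (p : (ι → Fin K) → (ι → Fin K) → ℂ) (d : ι → ℂ) (A B : ℝ),
    c.BdC p 0 A → c.BdC p (fun i => 2 * d i) B →
    c.BdC p d (Real.sqrt (A * B) * Real.exp (C * nsq d)) := by
  have hs : ∀ i, 0 ≤ c.a i + c.b i := fun i => by linarith [c.ha i, c.hb i]
  refine ⟨1 + ∑ i, (c.a i + c.b i), ?_, ?_⟩
  · linarith [Finset.sum_nonneg (fun (i : ι) (_ : i ∈ univ) => hs i)]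
  intro K hK p d A B hA hB
  have nf0 : ∀ v, 0 ≤ c.nf p v := fun v => mul_nonneg (norm_nonneg _) (Real.exp_nonneg _)
  have hA0 : 0 ≤ A := (nf0 _).trans (hA 0)
  have hB0 : 0 ≤ B := (nf0 _).trans (hB 0)
  have h := cvx c (by omega) p (fun i => 2 * d i) A B hA hB (1 / 2) (by norm_num) (by norm_num)
  have hd : (fun i => ((1 / 2 : ℝ) : ℂ) * (2 * d i)) = d := by
    funext i
    push_cast
    ring
  rw [hd] at h
  intro z
  refine (h z).trans ?_
  have e1 : (1 : ℝ) - 1 / 2 = 1 / 2 := by norm_num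
  rw [e1, ← Real.sqrt_eq_rpow, ← Real.sqrt_eq_rpow, Real.sqrt_mul hB0, Real.sqrt_mul hA0, mul_assoc]
  gcongr
  rw [Real.sqrt_eq_rpow, ← Real.exp_mul]
  apply Real.exp_le_exp.mpr
  have h1 : ∑ i, (c.a i + c.b i) * ‖2 * d i‖ ^ 2 / 4 = ∑ i, (c.a i + c.b i) * ‖d i‖ ^ 2 := by
    refine Finset.sum_congr rfl fun i _ => ?_
    rw [norm_mul, mul_pow]
    norm_num
    ring
  have hn0 : 0 ≤ nsq d := Finset.sum_nonneg (fun i _ => by positivity)
  have h2 : ∑ i, (c.a i + c.b i) * ‖d i‖ ^ 2 ≤ (∑ i, (c.a i + c.b i)) * nsq d := by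
    rw [Finset.sum_mul]
    refine Finset.sum_le_sum fun i _ => ?_
    apply mul_le_mul_of_nonneg_left _ (hs i)
    exact Finset.single_le_sum (f := fun i => ‖d i‖ ^ 2) (fun i _ => by positivity)
      (Finset.mem_univ i)
  have h3 : 0 ≤ ∑ i, (c.a i + c.b i) * ‖d i‖ ^ 2 :=
    Finset.sum_nonneg fun i _ => mul_nonneg (hs i) (by positivity)
  rw [h1]
  linarith

/-- the elementary inequality beyond the radius `R'` -/
private theorem far (g K : ℕ) (G C1 Ct Ca x : ℝ) (hK : 2 ≤ K)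
    (hG : 1 ≤ G) (hC1 : 1 ≤ C1) (hCt : 1 ≤ Ct) (hCa : 1 ≤ Ca) (hG2 : (K : ℝ) ^ 2 ≤ G)
    (hG3 : Real.log G ≤ (g + 1) * Real.log K)
    (hx : 4 * C1 * (Ct * (g + 2) + Ca + 2) * Real.sqrt G * Real.sqrt (Real.log K) ≤ x) :
    Ct * K * Real.log (K + x) + (Ca + 2) * (K * Real.log K) ≤ K / (C1 * G) * x ^ 2 := by
  have hL1 := half_le_log K hK
  set L := Real.log K with hL
  have hL0 : 0 ≤ L := by linarith
  have hKr : (2 : ℝ) ≤ K := by exact_mod_cast hK
  have hK0 : (0 : ℝ) < K := by linarith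
  have hG0 : (0 : ℝ) < G := by linarith
  set sG := Real.sqrt G with hsG
  have hsG0 : 0 < sG := Real.sqrt_pos.mpr hG0
  have hsG2 : sG ^ 2 = G := Real.sq_sqrt hG0.le
  have hKsG : (K : ℝ) ≤ sG := Real.le_sqrt_of_sq_le hG2
  set sL := Real.sqrt L with hsL
  have hsL2 : sL ^ 2 = L := Real.sq_sqrt hL0
  have hsL1 : 1 / 2 ≤ sL := Real.le_sqrt_of_sq_le (by norm_num; linarith)
  set s := x / sG with hs
  have hxs : x = s * sG := by rw [hs]; field_simp
  set D := Ct * (g + 2) + Ca + 2 with hD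
  have hg0 : (0 : ℝ) ≤ g := Nat.cast_nonneg g
  have hD3 : 3 ≤ D := by
    have : 0 ≤ Ct * (g + 2) := by positivity
    linarith
  have hDCt : Ct ≤ D := by
    have : 0 ≤ Ct * (g + 1) := by positivity
    nlinarith
  have hCD : 0 < C1 * D := by positivity
  have hCD1 : 1 ≤ C1 * D := by nlinarith
  have hsLs : 4 * (C1 * D) * sL ≤ s := by
    rw [hs, le_div_iff₀ hsG0]
    calc 4 * (C1 * D) * sL * sG = 4 * C1 * D * sG * sL := by ring
      _ ≤ x := hx
  have hsC : 2 * (C1 * D) ≤ s := by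
    calc 2 * (C1 * D) = 4 * (C1 * D) * (1 / 2) := by ring
      _ ≤ 4 * (C1 * D) * sL := by gcongr
      _ ≤ s := hsLs
  have hs0 : 0 < s := by linarith
  have hs2L : 2 * (C1 * D) * L ≤ s ^ 2 := by
    have h1 : (4 * (C1 * D) * sL) ^ 2 ≤ s ^ 2 := by gcongr
    have h2 : (4 * (C1 * D) * sL) ^ 2 = 16 * (C1 * D) ^ 2 * L := by
      rw [mul_pow, hsL2]; ring
    rw [h2] at h1
    have h3 : C1 * D ≤ (C1 * D) ^ 2 := by nlinarith
    have h4 : 2 * (C1 * D) * L ≤ 16 * (C1 * D) ^ 2 * L := by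
      apply mul_le_mul_of_nonneg_right _ hL0
      linarith
    linarith
  have hlog : Real.log (K + x) ≤ s + (g + 1) * L := by
    have h1 : (K : ℝ) + x ≤ (1 + s) * sG := by
      calc (K : ℝ) + x ≤ sG + s * sG := by rw [hxs]; linarith
        _ = (1 + s) * sG := by ring
    have hx0 : 0 < x := by rw [hxs]; positivity
    calc Real.log (K + x) ≤ Real.log ((1 + s) * sG) := Real.log_le_log (by positivity) h1
      _ = Real.log (1 + s) + Real.log sG := Real.log_mul (by positivity) hsG0.ne'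
      _ ≤ s + (g + 1) * L := by
        have h2 : Real.log (1 + s) ≤ s := by
          have := Real.log_le_sub_one_of_pos (by positivity : (0:ℝ) < 1 + s)
          linarith
        have h3 : Real.log sG = Real.log G / 2 := by
          rw [hsG, Real.log_sqrt hG0.le]
        have h4 : 0 ≤ Real.log G := Real.log_nonneg hG
        linarith
  have hmain : K / (C1 * G) * x ^ 2 = K * (s ^ 2 / C1) := by
    rw [hxs, mul_pow, hsG2]; field_simp
  rw [hmain]
  have hfin : Ct * (s + (g + 1) * L) + (Ca + 2) * L ≤ s ^ 2 / C1 := by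
    rw [le_div_iff₀ (by linarith)]
    have h1 : Ct * s * C1 ≤ s ^ 2 / 2 := by
      calc Ct * s * C1 ≤ D * s * C1 := by gcongr
        _ = s * (2 * (C1 * D)) / 2 := by ring
        _ ≤ s * s / 2 := by gcongr
        _ = s ^ 2 / 2 := by ring
    have h2 : (Ct * (g + 1) + Ca + 2) * L * C1 ≤ s ^ 2 / 2 := by
      calc (Ct * (g + 1) + Ca + 2) * L * C1 ≤ D * L * C1 := by
            gcongr
            rw [hD]
            nlinarith
        _ = (2 * (C1 * D) * L) / 2 := by ring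
        _ ≤ s ^ 2 / 2 := by linarith
    calc (Ct * (s + (g + 1) * L) + (Ca + 2) * L) * C1
        = Ct * s * C1 + (Ct * (g + 1) + Ca + 2) * L * C1 := by ring
      _ ≤ s ^ 2 := by linarith
  calc Ct * K * Real.log (K + x) + (Ca + 2) * (K * L)
      ≤ Ct * K * (s + (g + 1) * L) + (Ca + 2) * (K * L) := by gcongr
    _ = K * (Ct * (s + (g + 1) * L) + (Ca + 2) * L) := by ring
    _ ≤ K * (s ^ 2 / C1) := by gcongr

/-- sizes of `G` -/
private theorem sizeG (g y K : ℕ) (G : ℝ) (hK : 2 ≤ K) (hy : 1 ≤ y) (hyg : y ≤ g)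
    (hG : 1 ≤ G) (hGK : G ^ y = (K : ℝ) ^ (g + y)) :
    (K : ℝ) ^ 2 ≤ G ∧ Real.log G ≤ (g + 1) * Real.log K := by
  have hKr : (2 : ℝ) ≤ K := by exact_mod_cast hK
  have hG0 : (0 : ℝ) < G := by linarith
  constructor
  · have h1 : ((K : ℝ) ^ 2) ^ y ≤ G ^ y := by
      rw [hGK, ← pow_mul]
      exact pow_le_pow_right₀ (by linarith) (by omega)
    exact (pow_le_pow_iff_left₀ (by positivity) hG0.le (by omega)).mp h1
  · have h1 : G ^ y ≤ ((K : ℝ) ^ (g + 1)) ^ y := by
      rw [hGK, ← pow_mul]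
      apply pow_le_pow_right₀ (by linarith)
      nlinarith
    have h2 : G ≤ (K : ℝ) ^ (g + 1) :=
      (pow_le_pow_iff_left₀ hG0.le (by positivity) (by omega)).mp h1
    have h3 := Real.log_le_log hG0 h2
    rw [Real.log_pow] at h3
    push_cast at h3
    exact h3

/-- the final numerical estimate -/
private theorem fin_num (g K : ℕ) (G Ct Ca C2 C3 A : ℝ) (hK : 2 ≤ K)
    (hG : 1 ≤ G) (hCt : 1 ≤ Ct) (hCa : 1 ≤ Ca) (hC2 : 1 ≤ C2) (hA : 0 ≤ A)
    (hG2 : (K : ℝ) ^ 2 ≤ G) (hG3 : Real.log G ≤ (g + 1) * Real.log K) :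
    4 * A * Real.exp (2 * (Ca * (K * Real.log K)) +
        Ct * K * Real.log (K + 2 * (C2 * Real.sqrt G * Real.sqrt (Real.log K))) +
        2 * (C3 * (g * (C2 * Real.sqrt G * Real.sqrt (Real.log K)) ^ 2))) ≤
      Real.exp ((16 + 2 * Ca + Ct * ((g + 1) + 8 * C2) + 2 * C3 * g * C2 ^ 2) * G *
        Real.log K) * A := by
  have hL1 := half_le_log K hK
  set L := Real.log K with hL
  have hL0 : 0 < L := by linarith
  have hKr : (2 : ℝ) ≤ K := by exact_mod_cast hK
  have hK0 : (0 : ℝ) < K := by linarith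
  have hG0 : (0 : ℝ) < G := by linarith
  have hg0 : (0 : ℝ) ≤ g := Nat.cast_nonneg g
  set sG := Real.sqrt G with hsG
  have hsG0 : 0 < sG := Real.sqrt_pos.mpr hG0
  have hsG2 : sG ^ 2 = G := Real.sq_sqrt hG0.le
  have hKsG : (K : ℝ) ≤ sG := Real.le_sqrt_of_sq_le hG2
  have hlogsG : Real.log sG = Real.log G / 2 := by rw [hsG, Real.log_sqrt hG0.le]
  have hG3' : 0 ≤ Real.log G := Real.log_nonneg hG
  set sL := Real.sqrt L with hsL
  have hsL2 : sL ^ 2 = L := Real.sq_sqrt hL0.le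
  have hsL0 : 0 < sL := Real.sqrt_pos.mpr hL0
  have hsL1 : 1 / 2 ≤ sL := Real.le_sqrt_of_sq_le (by norm_num; linarith)
  have hsLL : sL ≤ 2 * L := by
    rw [← hsL2]; nlinarith
  have hKG : (K : ℝ) ≤ G := by nlinarith
  have hGL : (K : ℝ) * L ≤ G * L := by gcongr
  have hlog2 : Real.log (K + 2 * (C2 * sG * sL)) ≤ ((g + 1) + 8 * C2) * L := by
    have h1 : (K : ℝ) + 2 * (C2 * sG * sL) ≤ sG * (1 + 2 * C2 * sL) := by
      calc (K : ℝ) + 2 * (C2 * sG * sL) ≤ sG + 2 * (C2 * sG * sL) := by linarith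
        _ = sG * (1 + 2 * C2 * sL) := by ring
    calc Real.log (K + 2 * (C2 * sG * sL)) ≤ Real.log (sG * (1 + 2 * C2 * sL)) :=
          Real.log_le_log (by positivity) h1
      _ = Real.log sG + Real.log (1 + 2 * C2 * sL) := Real.log_mul hsG0.ne' (by positivity)
      _ ≤ ((g + 1) + 8 * C2) * L := by
        have h2 : Real.log (1 + 2 * C2 * sL) ≤ 2 * C2 * sL := by
          have := Real.log_le_sub_one_of_pos (by positivity : (0:ℝ) < 1 + 2 * C2 * sL)
          linarith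
        have h3 : 2 * C2 * sL ≤ 2 * C2 * (2 * L) := by gcongr
        have h4 : 0 ≤ C2 * L := by positivity
        rw [hlogsG]
        calc Real.log G / 2 + Real.log (1 + 2 * C2 * sL) ≤ Real.log G + 2 * C2 * (2 * L) := by
              linarith
          _ ≤ (g + 1) * L + 8 * C2 * L := by linarith
          _ = ((g + 1) + 8 * C2) * L := by ring
  have h4 : (4 : ℝ) ≤ Real.exp (16 * (G * L)) := by
    have h1 : (2 : ℝ) ≤ 16 * (G * L) := by
      have h5 : (4 : ℝ) ≤ G := by nlinarith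
      have h7 : 4 * (1 / 2) ≤ G * L := by gcongr
      linarith
    have h2 : Real.exp 2 ≤ Real.exp (16 * (G * L)) := Real.exp_le_exp.mpr h1
    have h3 : (4 : ℝ) ≤ Real.exp 2 := by
      have h5 : Real.exp 2 = (Real.exp 1) ^ 2 := by rw [← Real.exp_nat_mul]; norm_num
      have h6 := Real.exp_one_gt_d9
      rw [h5]; nlinarith
    linarith
  have e1 : 2 * (Ca * (K * L)) ≤ 2 * Ca * (G * L) := by
    calc 2 * (Ca * (K * L)) ≤ 2 * (Ca * (G * L)) := by gcongr
      _ = _ := by ring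
  have e2 : Ct * K * Real.log (K + 2 * (C2 * sG * sL)) ≤
      Ct * ((g + 1) + 8 * C2) * (G * L) := by
    calc Ct * K * Real.log (K + 2 * (C2 * sG * sL)) ≤ Ct * K * (((g + 1) + 8 * C2) * L) := by
          gcongr
      _ = Ct * ((g + 1) + 8 * C2) * (K * L) := by ring
      _ ≤ Ct * ((g + 1) + 8 * C2) * (G * L) := by gcongr
  have e3 : 2 * (C3 * (g * (C2 * sG * sL) ^ 2)) = 2 * C3 * g * C2 ^ 2 * (G * L) := by
    rw [mul_pow, mul_pow, hsG2, hsL2]; ring
  calc 4 * A * Real.exp (2 * (Ca * (K * L)) + Ct * K * Real.log (K + 2 * (C2 * sG * sL)) +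
        2 * (C3 * (g * (C2 * sG * sL) ^ 2)))
      ≤ Real.exp (16 * (G * L)) * A * Real.exp (2 * Ca * (G * L) +
        Ct * ((g + 1) + 8 * C2) * (G * L) + 2 * C3 * g * C2 ^ 2 * (G * L)) := by
        rw [e3]
        gcongr
    _ = Real.exp ((16 + 2 * Ca + Ct * ((g + 1) + 8 * C2) + 2 * C3 * g * C2 ^ 2) * G *
        L) * A := by
      rw [mul_right_comm, ← Real.exp_add]
      congr 1
      congr 1
      ring

private theorem nsq_nonneg (d : ι → ℂ) : 0 ≤ nsq d := Finset.sum_nonneg (fun i _ => by positivity)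

private theorem norm_sq_le_nsq (d : ι → ℂ) : ‖d‖ ^ 2 ≤ nsq d := by
  have hn0 := nsq_nonneg d
  have h1 : ‖d‖ ≤ Real.sqrt (nsq d) := by
    rw [pi_norm_le_iff_of_nonneg (Real.sqrt_nonneg _)]
    intro i
    apply Real.le_sqrt_of_sq_le
    exact Finset.single_le_sum (f := fun i => ‖d i‖ ^ 2) (fun i _ => by positivity)
      (Finset.mem_univ i)
  calc ‖d‖ ^ 2 ≤ (Real.sqrt (nsq d)) ^ 2 := by gcongr
    _ = nsq d := Real.sq_sqrt hn0

private theorem nsq_le (d : ι → ℂ) : nsq d ≤ Fintype.card ι * ‖d‖ ^ 2 := by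
  calc nsq d ≤ ∑ i : ι, ‖d‖ ^ 2 := by
        apply Finset.sum_le_sum
        intro i _
        gcongr
        exact norm_le_pi_norm d i
    _ = Fintype.card ι * ‖d‖ ^ 2 := by rw [Finset.sum_const, Finset.card_univ, nsmul_eq_mul]

/-- iteration of a halving step -/
private theorem halving (X : Type) (F W : X → ℝ) (B M0 : ℝ) (hB : 0 ≤ B) (hM0 : 0 ≤ M0)
    (h0 : ∀ x, F x ≤ M0 * W x) (hW : ∀ x, 0 ≤ W x)
    (hs : ∀ M, 0 ≤ M → (∀ x, F x ≤ M * W x) → ∀ x, F x ≤ (B + M / 2) * W x) :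
    ∀ x, F x ≤ 2 * B * W x := by
  have hiter : ∀ n : ℕ, ∀ x, F x ≤ (2 * B + M0 / 2 ^ n) * W x := by
    intro n
    induction n with
    | zero =>
      intro x
      refine le_trans (h0 x) ?_
      have : M0 ≤ 2 * B + M0 / 2 ^ 0 := by simp; linarith
      have := hW x
      gcongr
    | succ n ih =>
      intro x
      have h1 := hs (2 * B + M0 / 2 ^ n) (by positivity) ih x
      have h2 : B + (2 * B + M0 / 2 ^ n) / 2 = 2 * B + M0 / 2 ^ (n + 1) := by
        rw [pow_succ]; ring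
      rwa [h2] at h1
  intro x
  have h1 : ∀ n : ℕ, F x ≤ (2 * B + M0 * (1 / 2) ^ n) * W x := by
    intro n
    have h2 := hiter n x
    rw [one_div, inv_pow, ← div_eq_mul_inv]
    exact h2
  have h2 : Filter.Tendsto (fun n : ℕ => (2 * B + M0 * (1 / 2 : ℝ) ^ n) * W x) Filter.atTop
      (nhds ((2 * B + M0 * 0) * W x)) := by
    apply Filter.Tendsto.mul_const
    apply Filter.Tendsto.const_add
    apply Filter.Tendsto.const_mul
    exact tendsto_pow_atTop_nhds_zero_of_lt_one (by norm_num) (by norm_num)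
  rw [mul_zero, add_zero] at h2
  exact ge_of_tendsto' h2 h1

/-- the last step: from `P ≤ e^(Ca K L) 2 max(B1, B2)` to the bound -/
private theorem last (P A S2 E1 KL Ca Q : ℝ) (hP : 0 < P) (hA : 0 ≤ A) (hKL : 1 ≤ KL)
    (hS2 : S2 = P * Real.exp E1)
    (h : P ≤ Real.exp (Ca * KL) * (2 * max (Real.sqrt (A * S2) * Real.exp Q)
      (P * Real.exp (-((Ca + 2) * KL))))) :
    P ≤ 4 * A * Real.exp (2 * (Ca * KL) + E1 + 2 * Q) := by
  have hS20 : 0 ≤ S2 := by rw [hS2]; positivity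
  rcases max_cases (Real.sqrt (A * S2) * Real.exp Q) (P * Real.exp (-((Ca + 2) * KL))) with
    ⟨h1, _⟩ | ⟨h1, _⟩
  · rw [h1] at h
    have hsq : P ^ 2 ≤ (Real.exp (Ca * KL) * (2 * (Real.sqrt (A * S2) * Real.exp Q))) ^ 2 := by
      gcongr
    have h2 : (Real.exp (Ca * KL) * (2 * (Real.sqrt (A * S2) * Real.exp Q))) ^ 2 =
        P * (4 * A * Real.exp (2 * (Ca * KL) + E1 + 2 * Q)) := by
      rw [mul_pow, mul_pow, mul_pow, Real.sq_sqrt (by positivity), hS2, Real.exp_add, Real.exp_add,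
        ← Real.exp_nat_mul, ← Real.exp_nat_mul]
      push_cast
      ring
    rw [h2, sq] at hsq
    exact le_of_mul_le_mul_left hsq hP
  · exfalso
    rw [h1] at h
    have h3 : Real.exp (Ca * KL) * (2 * (P * Real.exp (-((Ca + 2) * KL)))) =
        2 * Real.exp (-(2 * KL)) * P := by
      have : Real.exp (-(2 * KL)) = Real.exp (Ca * KL) * Real.exp (-((Ca + 2) * KL)) := by
        rw [← Real.exp_add]; congr 1; ring
      rw [this]; ring
    rw [h3] at h
    have h4 : Real.exp (-(2 * KL)) ≤ Real.exp (-2) := by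
      apply Real.exp_le_exp.mpr; linarith
    have h5 : Real.exp (-2) < 1 / 2 := by
      have h6 : Real.exp (-2) = (Real.exp (-1)) ^ 2 := by rw [← Real.exp_nat_mul]; norm_num
      have h7 := Real.exp_neg_one_lt_d9
      have h8 := Real.exp_pos (-1)
      rw [h6]; nlinarith
    nlinarith

/-- (L): the lower bound. -/
theorem low (c : CoreG ι) : ∃ C : ℝ, 1 ≤ C ∧ ∀ K : ℕ, 2 ≤ K → ∀ G : ℝ, 1 ≤ G →
    G ^ c.Y.card = (K : ℝ) ^ (Fintype.card ι + c.Y.card) →
    ∀ p : (ι → Fin K) → (ι → Fin K) → ℂ,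
    pS p ≤ Real.exp (C * G * Real.log K) * c.S p 0 := by
  obtain ⟨Ct, hCt, hT⟩ := nG_triv c
  obtain ⟨Ca, hCa, hA⟩ := pS_le_nG c
  obtain ⟨C1, hC1, hS⟩ := nG_step c
  obtain ⟨C3, hC3, hV⟩ := cvx2 c
  have hy1 : 1 ≤ c.Y.card := c.hY.card_pos
  have hyg : c.Y.card ≤ Fintype.card ι := Finset.card_le_univ _
  set g := Fintype.card ι with hg
  set y := c.Y.card with hy
  have hg0 : (0 : ℝ) ≤ g := Nat.cast_nonneg g
  set C2 : ℝ := 4 * C1 * (Ct * (g + 2) + Ca + 2) with hC2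
  have hC21 : 1 ≤ C2 := by
    have h1 : 0 ≤ Ct * (g + 2) := by positivity
    have h2 : 1 ≤ Ct * (g + 2) + Ca + 2 := by linarith
    have h3 : 1 ≤ 4 * C1 := by linarith
    calc (1 : ℝ) = 1 * 1 := by norm_num
      _ ≤ 4 * C1 * (Ct * (g + 2) + Ca + 2) := by gcongr
  refine ⟨16 + 2 * Ca + Ct * ((g + 1) + 8 * C2) + 2 * C3 * g * C2 ^ 2, ?_, ?_⟩
  · have : 0 ≤ Ct * ((g + 1) + 8 * C2) := by positivity
    have : 0 ≤ 2 * C3 * g * C2 ^ 2 := by positivity
    linarith
  intro K hK G hG hGK p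
  obtain ⟨hG2, hG3⟩ := sizeG g y K G hK hy1 hyg hG hGK
  have hL1 := half_le_log K hK
  have hKr : (2 : ℝ) ≤ K := by exact_mod_cast hK
  have hK0 : (0 : ℝ) < K := by linarith
  have hG0 : (0 : ℝ) < G := by linarith
  set L := Real.log K with hL
  have hL0 : 0 < L := by linarith
  set sG := Real.sqrt G with hsG
  have hsG0 : 0 < sG := Real.sqrt_pos.mpr hG0
  set sL := Real.sqrt L with hsL
  have hsL0 : 0 < sL := Real.sqrt_pos.mpr hL0
  set R' : ℝ := C2 * sG * sL with hR'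
  have hR'0 : 0 < R' := by positivity
  have hfar : ∀ x : ℝ, R' ≤ x → Ct * K * Real.log (K + x) + (Ca + 2) * (K * L) ≤
      K / (C1 * G) * x ^ 2 := fun x hx =>
    far g K G C1 Ct Ca x hK hG hC1 hCt hCa hG2 hG3 hx
  set lam : ℝ := K / (C1 * G) with hlam
  have hlam0 : 0 < lam := by positivity
  set P := pS p with hP
  have hP0 : 0 ≤ P := Finset.sum_nonneg (fun m _ => Finset.sum_nonneg (fun l _ => norm_nonneg _))
  -- bound of `nf`
  have hnf : ∀ z d, supY c.Y d → c.nf p (rp z d) ≤ P * Real.exp (Ct * K * Real.log (K + ‖d‖)) := by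
    intro z d hd
    rw [nf_eq_nG c p z d hd]
    exact hT K hK p z _ d
  have h0 : supY c.Y (0 : ι → ℂ) := fun i _ => rfl
  set A := c.S p 0 with hAdef
  have hBA : c.BdC p 0 A := (bdC_iff c (by omega) p 0 A).mpr le_rfl
  have hA0 : 0 ≤ A := by
    refine le_trans ?_ (hBA 0)
    exact mul_nonneg (norm_nonneg _) (Real.exp_nonneg _)
  rcases hP0.eq_or_lt with hPz | hPpos
  · rw [← hPz]
    positivity
  -- the bound at twice the radius
  set S2 : ℝ := P * Real.exp (Ct * K * Real.log (K + 2 * R')) with hS2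
  have hS20 : 0 < S2 := by positivity
  set B1 : ℝ := Real.sqrt (A * S2) * Real.exp (C3 * (g * R' ^ 2)) with hB1
  set B2 : ℝ := P * Real.exp (-((Ca + 2) * (K * L))) with hB2
  have hB20 : 0 < B2 := by positivity
  have hB0 : 0 < max B1 B2 := lt_of_lt_of_le hB20 (le_max_right _ _)
  have hlogmono : ∀ x z : ℝ, 0 ≤ x → x ≤ z → Real.log (K + x) ≤ Real.log (K + z) := by
    intro x z hx hz
    apply Real.log_le_log (by positivity)
    linarith
  have hBd : ∀ d, supY c.Y d → c.BdC p d (max B1 B2 * Real.exp (lam * nsq d)) := by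
    intro d hd z
    have hexp1 : 1 ≤ Real.exp (lam * nsq d) := Real.one_le_exp (mul_nonneg hlam0.le (nsq_nonneg d))
    rcases le_total ‖d‖ R' with hd1 | hd1
    · have h2 : c.BdC p (fun i => 2 * d i) S2 := by
        intro w
        refine le_trans (hnf w _ (fun i hi => by rw [hd i hi, mul_zero])) ?_
        have h3 : ‖(fun i => 2 * d i)‖ ≤ 2 * R' := by
          rw [pi_norm_le_iff_of_nonneg (by positivity)]
          intro i
          rw [norm_mul]
          have := norm_le_pi_norm d i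
          simp only [RCLike.norm_ofNat]
          linarith
        rw [hS2]
        have := hlogmono _ _ (norm_nonneg _) h3
        gcongr
      refine le_trans (hV K hK p d A S2 hBA h2 z) ?_
      calc Real.sqrt (A * S2) * Real.exp (C3 * nsq d)
          ≤ Real.sqrt (A * S2) * Real.exp (C3 * (g * R' ^ 2)) := by
            have h5 : nsq d ≤ g * R' ^ 2 := (nsq_le d).trans (by gcongr)
            gcongr
        _ = B1 := rfl
        _ ≤ max B1 B2 := le_max_left _ _
        _ ≤ max B1 B2 * Real.exp (lam * nsq d) := le_mul_of_one_le_right hB0.le hexp1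
    · refine le_trans (hnf z d hd) ?_
      have h1 := hfar _ hd1
      have h2 : lam * ‖d‖ ^ 2 ≤ lam * nsq d :=
        mul_le_mul_of_nonneg_left (norm_sq_le_nsq d) hlam0.le
      calc P * Real.exp (Ct * K * Real.log (K + ‖d‖))
          ≤ P * Real.exp (-((Ca + 2) * (K * L)) + lam * nsq d) := by
            have h6 : Ct * K * Real.log (K + ‖d‖) ≤ -((Ca + 2) * (K * L)) + lam * nsq d := by
              linarith
            gcongr
        _ = B2 * Real.exp (lam * nsq d) := by rw [Real.exp_add, hB2, mul_assoc]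
        _ ≤ max B1 B2 * Real.exp (lam * nsq d) := by
            have : B2 ≤ max B1 B2 := le_max_right _ _
            gcongr
  -- the a priori bound
  set M0 : ℝ := P * Real.exp (Ct * K * Real.log (K + R')) with hM0
  have hM00 : 0 < M0 := by positivity
  have hap : ∀ z1 x2 d, supY c.Y d → c.nG p z1 x2 d ≤ M0 * Real.exp (lam * nsq d) := by
    intro z1 x2 d _
    refine le_trans (hT K hK p z1 x2 d) ?_
    rw [hM0, mul_assoc P, ← Real.exp_add]
    have hlognn : 0 ≤ Real.log (K + R') := Real.log_nonneg (by linarith)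
    have h6 : Ct * K * Real.log (K + ‖d‖) ≤ Ct * K * Real.log (K + R') + lam * nsq d := by
      rcases le_total ‖d‖ R' with hd1 | hd1
      · have h1 := hlogmono _ _ (norm_nonneg d) hd1
        have h2 : Ct * K * Real.log (K + ‖d‖) ≤ Ct * K * Real.log (K + R') := by gcongr
        have h3 : 0 ≤ lam * nsq d := mul_nonneg hlam0.le (nsq_nonneg d)
        linarith
      · have h1 := hfar _ hd1
        have h2 : lam * ‖d‖ ^ 2 ≤ lam * nsq d :=
          mul_le_mul_of_nonneg_left (norm_sq_le_nsq d) hlam0.le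
        have h3 : 0 ≤ (Ca + 2) * (K * L) := by positivity
        have h4 : 0 ≤ Ct * K * Real.log (K + R') := by positivity
        linarith
    have h7 := Real.exp_le_exp.mpr h6
    exact mul_le_mul_of_nonneg_left h7 hP0
  have hlim := halving ({q : (ι → ℂ) × (ι → ℂ) × (ι → ℂ) // supY c.Y q.2.2})
    (fun q => c.nG p q.1.1 q.1.2.1 q.1.2.2) (fun q => Real.exp (lam * nsq q.1.2.2))
    (max B1 B2) M0 hB0.le hM00.le (fun q => hap _ _ _ q.2) (fun q => Real.exp_nonneg _)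
    (fun M hM hq q => hS K (by omega) G hG hGK p (max B1 B2) M hM hBd
      (fun z1 x2 d hd => hq ⟨(z1, x2, d), hd⟩) _ _ _ q.2)
  have hlim0 : ∀ z1 x2, c.nG p z1 x2 0 ≤ 2 * max B1 B2 := by
    intro z1 x2
    have h1 := hlim ⟨(z1, x2, 0), h0⟩
    have h3 : nsq (0 : ι → ℂ) = 0 := by simp [nsq]
    simp only [h3, mul_zero, Real.exp_zero, mul_one] at h1
    exact h1
  have hPB := hA K hK p (2 * max B1 B2) hlim0
  have hKL : 1 ≤ K * L := by
    calc (1 : ℝ) = 2 * (1 / 2) := by norm_num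
      _ ≤ K * L := by gcongr
  have hfinal := last P A S2 (Ct * K * Real.log (K + 2 * R')) (K * L) Ca (C3 * (g * R' ^ 2)) hPpos
    hA0 hKL hS2 (by rw [← mul_assoc Ca]; exact hPB)
  exact hfinal.trans (fin_num g K G Ct Ca C2 C3 A hK hG hCt hCa hC21 hA0 hG2 hG3)

/-- (L) in the form used in `CoreMain` (this is `LowForm`) -/
theorem low_rpow (ι : Type) [Fintype ι] [DecidableEq ι] (c : CoreG ι) : ∃ CL : ℝ, 1 ≤ CL ∧
    ∃ K1 : ℕ, ∀ K : ℕ, K1 ≤ K → ∀ p : (ι → Fin K) → (ι → Fin K) → ℂ,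
    pS p ≤ Real.exp (CL * (K : ℝ) ^ (1 + (Fintype.card ι : ℝ) / c.Y.card) * Real.log K) *
      c.S p 0 := by
  obtain ⟨C, hC, h⟩ := low c
  refine ⟨C, hC, 2, fun K hK p => ?_⟩
  have hKr : (2 : ℝ) ≤ K := by exact_mod_cast hK
  have hy : (0 : ℝ) < c.Y.card := by exact_mod_cast c.hY.card_pos
  refine h K hK _ (Real.one_le_rpow (by linarith) (by positivity)) ?_ p
  rw [← Real.rpow_natCast, ← Real.rpow_mul (by linarith), ← Real.rpow_natCast]
  congr 1
  push_cast
  field_simp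
  ring

end Pool.Agent.RHK
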