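import Pool.Agent.RHK.Core.Defs

/-!
ROHK-Sw. The swap of a point with given `d`; comparison of `nf` and `nG` (pure algebra).

PLAN. Cases on `i ∈ Y`; `conj (conj z + d) - conj d = z`. `wt`: `CoreG.wt (rp z d) = wtE a z * wtE b (z2 Y z d)` (`Real.exp_add`, sums).
-/

set_option autoImplicit false

namespace Pool.Agent.RHK

open Complex ComplexConjugate Finset

variable {ι : Type} [Fintype ι] [DecidableEq ι]

theorem sw_rp (Y : Finset ι) (z d : ι → ℂ) : sw Y (rp z d) = rp (z2 Y z d) (d2 Y d) := by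
  unfold sw rp z2 d2 cj
  ext i
  · by_cases h : i ∈ Y <;> simp [h]
  · by_cases h : i ∈ Y <;> simp [h]

theorem sw_sw (Y : Finset ι) (v : VV ι) : sw Y (sw Y v) = v := by
  unfold sw
  ext i
  · by_cases h : i ∈ Y <;> simp [h]
  · by_cases h : i ∈ Y <;> simp [h]

theorem sw_add (Y : Finset ι) (v w : VV ι) : sw Y (v + w) = sw Y v + sw Y w := by
  unfold sw
  ext i
  · by_cases h : i ∈ Y <;> simp [h]
  · by_cases h : i ∈ Y <;> simp [h]

theorem sw_lat (Y : Finset ι) (u : ι → ℂ) : sw Y (rp u 0) = rp (swu Y u) 0 := by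
  unfold sw rp swu cj
  ext i
  · by_cases h : i ∈ Y <;> simp [h]
  · by_cases h : i ∈ Y <;> simp [h]

theorem rp_add (z u d : ι → ℂ) : rp (z + u) d = rp z d + rp u 0 := by
  unfold rp cj
  ext i
  · simp
  · simp only [Pi.add_apply, map_add, Prod.snd_add, Pi.zero_apply, add_zero]
    ring

/-- every point of `V` is `rp z d` for `z = v.1`, `d = v.2 - conj v.1` -/
theorem eq_rp (v : VV ι) : v = rp v.1 (v.2 - cj v.1) := by
  unfold rp
  ext i
  · rfl
  · simp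

theorem norm_swu (Y : Finset ι) (u : ι → ℂ) (i : ι) : ‖swu Y u i‖ = ‖u i‖ := by
  unfold swu
  by_cases h : i ∈ Y <;> simp [h]

theorem norm_d2 (Y : Finset ι) (d : ι → ℂ) : ‖d2 Y d‖ = ‖d‖ := by
  have h : ∀ i, ‖d2 Y d i‖ = ‖d i‖ := by
    intro i
    unfold d2
    by_cases h : i ∈ Y <;> simp [h]
  apply le_antisymm
  · refine (pi_norm_le_iff_of_nonneg (norm_nonneg _)).2 (fun i => ?_)
    rw [h i]
    exact norm_le_pi_norm d i
  · refine (pi_norm_le_iff_of_nonneg (norm_nonneg _)).2 (fun i => ?_)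
    rw [← h i]
    exact norm_le_pi_norm (d2 Y d) i

theorem wt_rp (c : CoreG ι) (z d : ι → ℂ) : c.wt (rp z d) = wtE c.a z * wtE c.b (z2 c.Y z d) := by
  unfold CoreG.wt wtE
  rw [← Real.exp_add, sw_rp]
  congr 1
  unfold rp
  simp only
  rw [← neg_add, ← Finset.sum_add_distrib]
  congr 1
  refine Finset.sum_congr rfl (fun i _ => ?_)
  ring

theorem nf_rp (c : CoreG ι) {K : ℕ} (p : (ι → Fin K) → (ι → Fin K) → ℂ) (z d : ι → ℂ) :
    c.nf p (rp z d) = ‖∑ m, ∑ l, p m l * (FF c.a c.T1 (fun i => (m i : ℕ)) (rp z d) *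
      FF c.b c.T2 (fun i => (l i : ℕ)) (rp (z2 c.Y z d) (d2 c.Y d)))‖ *
      (wtE c.a z * wtE c.b (z2 c.Y z d)) := by
  unfold CoreG.nf CoreG.f ff
  rw [wt_rp, sw_rp]

theorem nf_eq_nG (c : CoreG ι) {K : ℕ} (p : (ι → Fin K) → (ι → Fin K) → ℂ) (z d : ι → ℂ)
    (hd : ∀ i, i ∉ c.Y → d i = 0) : c.nf p (rp z d) = c.nG p z (z2 c.Y z d) d := by
  have h : d2 c.Y d = fun i => - conj (d i) := by
    funext i
    unfold d2
    by_cases hi : i ∈ c.Y
    · simp [hi]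
    · simp [hi, hd i hi]
  rw [nf_rp, h]
  rfl

end Pool.Agent.RHK
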