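import Pool.Agent.RHK.Core.EntD
import Pool.Agent.RHK.Core.Sw

/-!
ROHK-Aut. Invariance under the group `O`.
-/

set_option autoImplicit false

namespace Pool.Agent.RHK

open Complex ComplexConjugate Finset

variable {ι : Type} [Fintype ι] [DecidableEq ι]

/-- the factor of automorphy -/
private noncomputable def Aut_G (a : ι → ℝ) (u : ι → ℂ) (e : ℂ) (z : ι → ℂ) : ℂ :=
  e * cexp (∑ i, (a i : ℂ) * (conj (u i) * z i + ((‖u i‖ ^ 2 / 2 : ℝ) : ℂ)))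

private lemma Aut_line (a : ι → ℝ) (u : ι → ℂ) (e : ℂ) (z : ι → ℂ) (i : ι) (t : ℂ) :
    Aut_G a u e (z + t • Pi.single i (1 : ℂ)) =
      Aut_G a u e z * cexp (t * ((a i : ℂ) * conj (u i))) := by
  unfold Aut_G
  rw [mul_assoc, ← Complex.exp_add]
  have h : ∀ j, (a j : ℂ) * (conj (u j) * (z + t • Pi.single i (1 : ℂ) : ι → ℂ) j +
      ((‖u j‖ ^ 2 / 2 : ℝ) : ℂ)) =
      (a j : ℂ) * (conj (u j) * z j + ((‖u j‖ ^ 2 / 2 : ℝ) : ℂ)) +
        (if j = i then t * ((a j : ℂ) * conj (u j)) else 0) := by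
    intro j
    rw [Pi.add_apply, Pi.smul_apply, smul_eq_mul, Pi.single_apply]
    split_ifs
    · ring
    · ring
  rw [Finset.sum_congr rfl fun j _ => h j, Finset.sum_add_distrib, Finset.sum_ite_eq',
    if_pos (Finset.mem_univ i)]

private lemma Aut_dz (a : ι → ℝ) (u : ι → ℂ) (e : ℂ) {Φ : VV ι → ℂ} (hd : Differentiable ℂ Φ)
    (h : ∀ v : VV ι, Φ (v + rp u 0) = Aut_G a u e v.1 * Φ v) (i : ι) (v : VV ι) :
    dz i Φ (v + rp u 0) =
      Aut_G a u e v.1 * (dz i Φ v + (a i : ℂ) * conj (u i) * Φ v) := by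
  have h1 : HasDerivAt (fun t : ℂ => Φ (v + rp u 0 + t • ((Pi.single i 1, 0) : VV ι)))
      (dz i Φ (v + rp u 0)) 0 := ((hd (v + rp u 0)).hasFDerivAt).hasLineDerivAt _
  have h2 : HasDerivAt (fun t : ℂ => Φ (v + t • ((Pi.single i 1, 0) : VV ι))) (dz i Φ v) 0 :=
    ((hd v).hasFDerivAt).hasLineDerivAt _
  have h3 : HasDerivAt (fun t : ℂ => Aut_G a u e v.1 * cexp (t * ((a i : ℂ) * conj (u i))))
      (Aut_G a u e v.1 * (cexp (0 * ((a i : ℂ) * conj (u i))) * (1 * ((a i : ℂ) * conj (u i))))) 0 :=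
    (((hasDerivAt_id (0 : ℂ)).mul_const _).cexp).const_mul _
  have h4 := h3.mul h2
  have h5 : (fun t : ℂ => Φ (v + rp u 0 + t • ((Pi.single i 1, 0) : VV ι))) =
      fun t : ℂ => Aut_G a u e v.1 * cexp (t * ((a i : ℂ) * conj (u i))) *
        Φ (v + t • ((Pi.single i 1, 0) : VV ι)) := by
    funext t
    have h6 : v + rp u 0 + t • ((Pi.single i 1, 0) : VV ι) =
        v + t • ((Pi.single i 1, 0) : VV ι) + rp u 0 := by abel
    have h7 : (v + t • ((Pi.single i 1, 0) : VV ι)).1 = v.1 + t • Pi.single i (1 : ℂ) := rfl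
    rw [h6, h, h7, Aut_line]
  rw [h5] at h1
  have h8 := h1.unique h4
  rw [h8, zero_mul, Complex.exp_zero, zero_smul, add_zero]
  ring

private lemma Aut_opA (a : ι → ℝ) (u : ι → ℂ) (e : ℂ) {Φ : VV ι → ℂ} (hd : Differentiable ℂ Φ)
    (h : ∀ v : VV ι, Φ (v + rp u 0) = Aut_G a u e v.1 * Φ v) (i : ι) (v : VV ι) :
    opA a i Φ (v + rp u 0) = Aut_G a u e v.1 * opA a i Φ v := by
  have h1 : (v + rp u 0).2 i = v.2 i + conj (u i) := by
    show v.2 i + (conj (u i) + 0) = _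
    rw [add_zero]
  unfold opA
  rw [Aut_dz a u e hd h i v, h1, h v]
  ring

private lemma Aut_iter (a : ι → ℝ) (u : ι → ℂ) (e : ℂ) (i : ι) (k : ℕ) {Φ : VV ι → ℂ}
    (hP : Differentiable ℂ Φ ∧ ∀ v : VV ι, Φ (v + rp u 0) = Aut_G a u e v.1 * Φ v) :
    Differentiable ℂ ((opA a i)^[k] Φ) ∧
      ∀ v : VV ι, (opA a i)^[k] Φ (v + rp u 0) = Aut_G a u e v.1 * (opA a i)^[k] Φ v := by
  induction k with
  | zero => exact hP
  | succ k ih =>
    rw [Function.iterate_succ_apply']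
    exact ⟨ent_opA a i ih.1, Aut_opA a u e ih.1 ih.2 i⟩

private lemma Aut_FL (a : ι → ℝ) {T : (ι → ℂ) → ℂ} (hT : Differentiable ℂ T) (u : ι → ℂ) (e : ℂ)
    (h : ∀ z : ι → ℂ, T (z + u) = Aut_G a u e z * T z) (m : ι → ℕ) (L : List ι) :
    Differentiable ℂ (FL a T m L) ∧
      ∀ v : VV ι, FL a T m L (v + rp u 0) = Aut_G a u e v.1 * FL a T m L v := by
  induction L with
  | nil => exact ⟨hT.comp differentiable_fst, fun v => h v.1⟩
  | cons i L ih => exact Aut_iter a u e i (m i) ih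

theorem FF_lat (a : ι → ℝ) {T : (ι → ℂ) → ℂ} (hT : Differentiable ℂ T) (u : ι → ℂ) (e : ℂ)
    (h : ∀ z : ι → ℂ, T (z + u) =
      e * cexp (∑ i, (a i : ℂ) * (conj (u i) * z i + ((‖u i‖ ^ 2 / 2 : ℝ) : ℂ))) * T z)
    (m : ι → ℕ) (v : VV ι) : FF a T m (v + rp u 0) =
      e * cexp (∑ i, (a i : ℂ) * (conj (u i) * v.1 i + ((‖u i‖ ^ 2 / 2 : ℝ) : ℂ))) * FF a T m v := by
  rw [FF_eq_FL]
  exact (Aut_FL a hT u e h m _).2 v

omit [DecidableEq ι] in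
private lemma Aut_wtE (a : ι → ℝ) (u : ι → ℂ) (e : ℂ) (he : ‖e‖ = 1) (z : ι → ℂ) :
    ‖e * cexp (∑ i, (a i : ℂ) * (conj (u i) * z i + ((‖u i‖ ^ 2 / 2 : ℝ) : ℂ)))‖ * wtE a (z + u) =
      wtE a z := by
  unfold wtE
  rw [norm_mul, he, one_mul, Complex.norm_exp, ← Real.exp_add, Complex.re_sum,
    ← Finset.sum_neg_distrib, ← Finset.sum_neg_distrib, ← Finset.sum_add_distrib]
  congr 1
  refine Finset.sum_congr rfl fun i _ => ?_
  rw [Complex.re_ofReal_mul, Complex.add_re, Complex.ofReal_re, Pi.add_apply]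
  rw [← Complex.normSq_eq_norm_sq, ← Complex.normSq_eq_norm_sq, ← Complex.normSq_eq_norm_sq]
  simp only [Complex.normSq_apply, Complex.mul_re, Complex.conj_re, Complex.conj_im, Complex.add_re,
    Complex.add_im]
  ring

private lemma Aut_wt (c : CoreG ι) (v : VV ι) : c.wt v = wtE c.a v.1 * wtE c.b (sw c.Y v).1 := by
  unfold CoreG.wt wtE
  rw [← Real.exp_add]
  congr 1
  rw [← Finset.sum_neg_distrib, ← Finset.sum_neg_distrib, ← Finset.sum_neg_distrib,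
    ← Finset.sum_add_distrib]
  refine Finset.sum_congr rfl fun i _ => ?_
  ring

theorem nf_lat (c : CoreG ι) {K : ℕ} (p : (ι → Fin K) → (ι → Fin K) → ℂ) (u : ι → ℂ) (hu : u ∈ c.O)
    (v : VV ι) : c.nf p (v + rp u 0) = c.nf p v := by
  obtain ⟨e1, he1, h1⟩ := c.q1 u hu
  obtain ⟨e2, he2, h2⟩ := c.q2 u hu
  have hs : sw c.Y (v + rp u 0) = sw c.Y v + rp (swu c.Y u) 0 := by
    rw [sw_add, sw_lat]
  have hf : c.f p (v + rp u 0) =
      (e1 * cexp (∑ i, (c.a i : ℂ) * (conj (u i) * v.1 i + ((‖u i‖ ^ 2 / 2 : ℝ) : ℂ)))) *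
      (e2 * cexp (∑ i, (c.b i : ℂ) * (conj (swu c.Y u i) * (sw c.Y v).1 i +
        ((‖swu c.Y u i‖ ^ 2 / 2 : ℝ) : ℂ)))) * c.f p v := by
    unfold CoreG.f ff
    rw [Finset.mul_sum]
    refine Finset.sum_congr rfl fun m _ => ?_
    rw [Finset.mul_sum]
    refine Finset.sum_congr rfl fun l _ => ?_
    rw [hs, FF_lat c.a c.d1 u e1 h1, FF_lat c.b c.d2 (swu c.Y u) e2 h2]
    ring
  have hw1 := Aut_wtE c.a u e1 he1 v.1
  have hw2 := Aut_wtE c.b (swu c.Y u) e2 he2 (sw c.Y v).1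
  have h3 : (v + rp u 0).1 = v.1 + u := rfl
  have h4 : (sw c.Y v + rp (swu c.Y u) 0).1 = (sw c.Y v).1 + swu c.Y u := rfl
  unfold CoreG.nf
  rw [hf, Aut_wt, Aut_wt, hs, h3, h4, norm_mul, norm_mul, ← hw1, ← hw2]
  ring

theorem nG_lat1 (c : CoreG ι) {K : ℕ} (p : (ι → Fin K) → (ι → Fin K) → ℂ) (u : ι → ℂ) (hu : u ∈ c.O)
    (z1 x2 d : ι → ℂ) : c.nG p (z1 + u) x2 d = c.nG p z1 x2 d := by
  obtain ⟨e1, he1, h1⟩ := c.q1 u hu
  have hG : c.Gam p (z1 + u) x2 d =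
      (e1 * cexp (∑ i, (c.a i : ℂ) * (conj (u i) * z1 i + ((‖u i‖ ^ 2 / 2 : ℝ) : ℂ)))) *
        c.Gam p z1 x2 d := by
    unfold CoreG.Gam
    rw [Finset.mul_sum]
    refine Finset.sum_congr rfl fun m _ => ?_
    rw [Finset.mul_sum]
    refine Finset.sum_congr rfl fun l _ => ?_
    rw [rp_add, FF_lat c.a c.d1 u e1 h1]
    show p m l * (e1 * cexp (∑ i, (c.a i : ℂ) * (conj (u i) * z1 i + ((‖u i‖ ^ 2 / 2 : ℝ) : ℂ))) *
      _ * _) = _
    ring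
  have hw1 := Aut_wtE c.a u e1 he1 z1
  unfold CoreG.nG
  rw [hG, norm_mul, ← hw1]
  ring

theorem nG_lat2 (c : CoreG ι) {K : ℕ} (p : (ι → Fin K) → (ι → Fin K) → ℂ) (u : ι → ℂ) (hu : u ∈ c.O)
    (z1 x2 d : ι → ℂ) : c.nG p z1 (x2 + swu c.Y u) d = c.nG p z1 x2 d := by
  obtain ⟨e2, he2, h2⟩ := c.q2 u hu
  have hG : c.Gam p z1 (x2 + swu c.Y u) d =
      (e2 * cexp (∑ i, (c.b i : ℂ) * (conj (swu c.Y u i) * x2 i +
        ((‖swu c.Y u i‖ ^ 2 / 2 : ℝ) : ℂ)))) * c.Gam p z1 x2 d := by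
    unfold CoreG.Gam
    rw [Finset.mul_sum]
    refine Finset.sum_congr rfl fun m _ => ?_
    rw [Finset.mul_sum]
    refine Finset.sum_congr rfl fun l _ => ?_
    rw [rp_add x2, FF_lat c.b c.d2 (swu c.Y u) e2 h2]
    show p m l * (_ * (e2 * cexp (∑ i, (c.b i : ℂ) * (conj (swu c.Y u i) * x2 i +
      ((‖swu c.Y u i‖ ^ 2 / 2 : ℝ) : ℂ))) * _)) = _
    ring
  have hw2 := Aut_wtE c.b (swu c.Y u) e2 he2 x2
  unfold CoreG.nG
  rw [hG, norm_mul, ← hw2]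
  ring

end Pool.Agent.RHK
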