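import Pool.Agent.RHK.Core.CoreMain
import Pool.Agent.RHK.Core.LFin

/-!
# Project RHK, CORE: the analytic core `CoreEst` is a theorem
-/

set_option autoImplicit false

namespace Pool.Agent.RHK

theorem coreEst : CoreEst := coreEst_of (fun ι _ _ c => low_rpow ι c)

end Pool.Agent.RHK
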