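import Pool.Agent.RHK.CDefs

/-!
Project ROHK (MP_c2409d_nt), block CORE (on top of RHK/CDefs). Paper proofs: /team-store/rohk_core_h98.md (sections 1 - 5) and
/team-store/rohk_h22.md (section C), with `g = card ι` and a general number `y = card Y` of places where the two CM types differ.
-/

set_option autoImplicit false

namespace Pool.Agent.RHK

open Complex ComplexConjugate Finset

noncomputable section

/-! ## one-variable library: functions `φ(z, z')`, polynomial in `z'`; the real locus is `z' = conj z` -/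

/-- `φ(z, z')` is a polynomial in `z'` of degree `< K` whose coefficients are entire functions of `z` -/
def PA (K : ℕ) (φ : ℂ → ℂ → ℂ) : Prop :=
  ∃ h : ℕ → ℂ → ℂ, (∀ j, Differentiable ℂ (h j)) ∧ ∀ z z', φ z z' = ∑ j ∈ range K, z' ^ j * h j z

/-- the operator `∂_z - a z'` on functions of two variables -/
def op1 (a : ℝ) (φ : ℂ → ℂ → ℂ) : ℂ → ℂ → ℂ :=
  fun z z' => deriv (fun t => φ t z') z - (a : ℂ) * z' * φ z z'

variable {ι : Type} [Fintype ι] [DecidableEq ι]

/-! ## several variables -/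

/-- the point over `z` with `w = conj z + d` -/
def rp (z d : ι → ℂ) : VV ι := (z, cj z + d)

/-- the Gaussian weight on `E` -/
def wtE (a : ι → ℝ) (z : ι → ℂ) : ℝ := Real.exp (-(∑ i, a i * ‖z i‖ ^ 2 / 2))

/-- the first component of `sw Y (rp z d)` -/
def z2 (Y : Finset ι) (z d : ι → ℂ) : ι → ℂ := fun i => if i ∈ Y then conj (z i) + d i else z i

/-- the `d` of `sw Y (rp z d)` -/
def d2 (Y : Finset ι) (d : ι → ℂ) : ι → ℂ := fun i => if i ∈ Y then - conj (d i) else d i

/-- `∏_{i ∈ L} (∂_{z_i} - a_i w_i)^{m_i} T(z)` (the head of the list is the outermost operator);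
`FF a T m = FL a T m univ.toList` -/
def FL (a : ι → ℝ) (T : (ι → ℂ) → ℂ) (m : ι → ℕ) (L : List ι) : VV ι → ℂ :=
  L.foldr (fun i Ψ => (opA a i)^[m i] Ψ) (fun v => T v.1)

/-- `Φ` is a polynomial in the coordinate `w_i` of degree `< N` whose coefficients are entire functions on
`V` which do not depend on `w_i` -/
def PAV (i : ι) (N : ℕ) (Φ : VV ι → ℂ) : Prop :=
  ∃ h : ℕ → VV ι → ℂ, (∀ j, Differentiable ℂ (h j)) ∧
    (∀ j v t, h j (v.1, Function.update v.2 i t) = h j v) ∧
    ∀ v, Φ v = ∑ j ∈ range N, v.2 i ^ j * h j v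

/-- the sum of the absolute values of the coefficients -/
def pS {K : ℕ} (p : (ι → Fin K) → (ι → Fin K) → ℂ) : ℝ := ∑ m, ∑ l, ‖p m l‖

namespace CoreG

variable (c : CoreG ι)

/-- `M` is a bound for the invariant norm of `f_p` at all points with the given `d` -/
def BdC {K : ℕ} (p : (ι → Fin K) → (ι → Fin K) → ℂ) (d : ι → ℂ) (M : ℝ) : Prop :=
  ∀ z, c.nf p (rp z d) ≤ M

/-- the function of two independent points: `F_m` at `z1` with connection `conj z1 + d`, `H_l` at `x2`
with connection `conj x2 - conj d` -/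
def Gam {K : ℕ} (p : (ι → Fin K) → (ι → Fin K) → ℂ) (z1 x2 d : ι → ℂ) : ℂ :=
  ∑ m, ∑ l, p m l * (FF c.a c.T1 (fun i => (m i : ℕ)) (rp z1 d) *
    FF c.b c.T2 (fun i => (l i : ℕ)) (rp x2 (fun i => - conj (d i))))

/-- the invariant norm of `Gam` -/
def nG {K : ℕ} (p : (ι → Fin K) → (ι → Fin K) → ℂ) (z1 x2 d : ι → ℂ) : ℝ :=
  ‖c.Gam p z1 x2 d‖ * (wtE c.a z1 * wtE c.b x2)

end CoreG

end

end Pool.Agent.RHK
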