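import Pool.Agent.RHK.Core.Defs
import Pool.Agent.RHK.EntC

/-!
ROHK-EntD. Slices: `dz`, `dw` as one-variable derivatives; `FL`, `FF`, `CoreG.f` are entire; independence of `w_i`; reduction of
`(opA a i)^[m]` to one variable.
-/

set_option autoImplicit false

namespace Pool.Agent.RHK

open Complex ComplexConjugate Finset

variable {ι : Type} [Fintype ι] [DecidableEq ι]

private theorem entD_z (i : ι) (v : VV ι) (t : ℂ) :
    HasDerivAt (fun t : ℂ => ((Function.update v.1 i t, v.2) : VV ι)) (Pi.single i 1, 0) t :=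
  (hasDerivAt_update v.1 i t).prodMk (hasDerivAt_const t v.2)

private theorem entD_w (i : ι) (v : VV ι) (t : ℂ) :
    HasDerivAt (fun t : ℂ => ((v.1, Function.update v.2 i t) : VV ι)) (0, Pi.single i 1) t :=
  (hasDerivAt_const t v.1).prodMk (hasDerivAt_update v.2 i t)

theorem diff_slice_z (i : ι) {Φ : VV ι → ℂ} (h : Differentiable ℂ Φ) (v : VV ι) :
    Differentiable ℂ (fun t : ℂ => Φ (Function.update v.1 i t, v.2)) := fun t =>
  ((h _).hasFDerivAt.comp_hasDerivAt t (entD_z i v t)).differentiableAt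

theorem diff_slice_w (i : ι) {Φ : VV ι → ℂ} (h : Differentiable ℂ Φ) (v : VV ι) :
    Differentiable ℂ (fun t : ℂ => Φ (v.1, Function.update v.2 i t)) := fun t =>
  ((h _).hasFDerivAt.comp_hasDerivAt t (entD_w i v t)).differentiableAt

theorem dz_eq_deriv (i : ι) {Φ : VV ι → ℂ} (h : Differentiable ℂ Φ) (v : VV ι) :
    dz i Φ v = deriv (fun t : ℂ => Φ (Function.update v.1 i t, v.2)) (v.1 i) := by
  have h1 := (h (Function.update v.1 i (v.1 i), v.2)).hasFDerivAt.comp_hasDerivAt (v.1 i)
    (entD_z i v (v.1 i))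
  have h2 := h1.deriv
  rw [Function.update_eq_self] at h2
  exact h2.symm

theorem dw_eq_deriv (i : ι) {Φ : VV ι → ℂ} (h : Differentiable ℂ Φ) (v : VV ι) :
    dw i Φ v = deriv (fun t : ℂ => Φ (v.1, Function.update v.2 i t)) (v.2 i) := by
  have h1 := (h (v.1, Function.update v.2 i (v.2 i))).hasFDerivAt.comp_hasDerivAt (v.2 i)
    (entD_w i v (v.2 i))
  have h2 := h1.deriv
  rw [Function.update_eq_self] at h2
  exact h2.symm

theorem FF_eq_FL (a : ι → ℝ) (T : (ι → ℂ) → ℂ) (m : ι → ℕ) :
    FF a T m = FL a T m (Finset.univ : Finset ι).toList := rfl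

private theorem entD_iter (a : ι → ℝ) (i : ι) (n : ℕ) {Φ : VV ι → ℂ} (h : Differentiable ℂ Φ) :
    Differentiable ℂ ((opA a i)^[n] Φ) := by
  induction n with
  | zero => exact h
  | succ n ih =>
    rw [Function.iterate_succ_apply']
    exact ent_opA a i ih

theorem diff_FL (a : ι → ℝ) {T : (ι → ℂ) → ℂ} (hT : Differentiable ℂ T) (m : ι → ℕ) (L : List ι) :
    Differentiable ℂ (FL a T m L) := by
  induction L with
  | nil => exact hT.comp differentiable_fst
  | cons j L ih => exact entD_iter a j (m j) ih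

theorem diff_FF (a : ι → ℝ) {T : (ι → ℂ) → ℂ} (hT : Differentiable ℂ T) (m : ι → ℕ) :
    Differentiable ℂ (FF a T m) := diff_FL a hT m _

theorem diff_sw (Y : Finset ι) {Φ : VV ι → ℂ} (h : Differentiable ℂ Φ) :
    Differentiable ℂ (fun v => Φ (sw Y v)) := by
  refine h.comp ?_
  unfold sw
  refine Differentiable.prodMk ?_ ?_
  · refine differentiable_pi.2 fun i => ?_
    split_ifs <;> fun_prop
  · refine differentiable_pi.2 fun i => ?_
    split_ifs <;> fun_prop

theorem diff_f (c : CoreG ι) {K : ℕ} (p : (ι → Fin K) → (ι → Fin K) → ℂ) : Differentiable ℂ (c.f p) := by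
  show Differentiable ℂ (fun v : VV ι => ∑ m, ∑ l, p m l *
    (FF c.a c.T1 (fun i => (m i : ℕ)) v * FF c.b c.T2 (fun i => (l i : ℕ)) (sw c.Y v)))
  refine Differentiable.fun_sum fun m _ => Differentiable.fun_sum fun l _ => ?_
  exact ((diff_FF c.a c.d1 _).mul (diff_sw c.Y (diff_FF c.b c.d2 _))).const_mul _

private theorem entD_indep (a : ι → ℝ) (i j : ι) (hij : i ≠ j) {Φ : VV ι → ℂ}
    (hΦ : Differentiable ℂ Φ)
    (h : ∀ (v : VV ι) (t : ℂ), Φ (v.1, Function.update v.2 i t) = Φ v) (v : VV ι) (t : ℂ) :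
    opA a j Φ (v.1, Function.update v.2 i t) = opA a j Φ v := by
  unfold opA
  rw [dz_eq_deriv j hΦ, dz_eq_deriv j hΦ, h v t]
  have e1 : (fun s : ℂ => Φ (Function.update v.1 j s, Function.update v.2 i t)) =
      fun s : ℂ => Φ (Function.update v.1 j s, v.2) := by
    funext s
    exact h (Function.update v.1 j s, v.2) t
  have e2 : Function.update v.2 i t j = v.2 j := Function.update_of_ne hij.symm _ _
  show deriv (fun s : ℂ => Φ (Function.update v.1 j s, Function.update v.2 i t)) (v.1 j) -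
    (a j : ℂ) * Function.update v.2 i t j * Φ v = _
  rw [e1, e2]

private theorem entD_indep_iter (a : ι → ℝ) (i j : ι) (hij : i ≠ j) (n : ℕ) {Φ : VV ι → ℂ}
    (hΦ : Differentiable ℂ Φ)
    (h : ∀ (v : VV ι) (t : ℂ), Φ (v.1, Function.update v.2 i t) = Φ v) (v : VV ι) (t : ℂ) :
    (opA a j)^[n] Φ (v.1, Function.update v.2 i t) = (opA a j)^[n] Φ v := by
  induction n generalizing v t with
  | zero => exact h v t
  | succ n ih =>
    rw [Function.iterate_succ_apply']
    exact entD_indep a i j hij (entD_iter a j n hΦ) ih v t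

theorem FL_indep (a : ι → ℝ) {T : (ι → ℂ) → ℂ} (hT : Differentiable ℂ T) (m : ι → ℕ) (L : List ι)
    (i : ι) (hi : i ∉ L) (v : VV ι) (t : ℂ) :
    FL a T m L (v.1, Function.update v.2 i t) = FL a T m L v := by
  induction L generalizing v t with
  | nil => rfl
  | cons j L ih =>
    have h1 : i ≠ j := fun e => hi (e ▸ List.mem_cons_self)
    have h2 : i ∉ L := fun e => hi (List.mem_cons_of_mem _ e)
    exact entD_indep_iter a i j h1 (m j) (diff_FL a hT m L) (fun v t => ih h2 v t) v t

theorem opA_slice (a : ι → ℝ) (i : ι) {Φ : VV ι → ℂ} (hΦ : Differentiable ℂ Φ)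
    (h : ∀ (v : VV ι) (t : ℂ), Φ (v.1, Function.update v.2 i t) = Φ v) (m : ℕ) (v : VV ι) :
    (opA a i)^[m] Φ v =
      (op1 (a i))^[m] (fun t _ => Φ (Function.update v.1 i t, v.2)) (v.1 i) (v.2 i) := by
  have _ := h
  induction m generalizing v with
  | zero =>
    show Φ v = Φ (Function.update v.1 i (v.1 i), v.2)
    rw [Function.update_eq_self]
  | succ m ih =>
    rw [Function.iterate_succ_apply', Function.iterate_succ_apply']
    show dz i ((opA a i)^[m] Φ) v - (a i : ℂ) * v.2 i * (opA a i)^[m] Φ v = _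
    rw [dz_eq_deriv i (entD_iter a i m hΦ), ih v]
    show _ = deriv (fun t => (op1 (a i))^[m] (fun t _ => Φ (Function.update v.1 i t, v.2)) t (v.2 i))
      (v.1 i) - (a i : ℂ) * v.2 i *
      (op1 (a i))^[m] (fun t _ => Φ (Function.update v.1 i t, v.2)) (v.1 i) (v.2 i)
    have e : (fun t : ℂ => (opA a i)^[m] Φ (Function.update v.1 i t, v.2)) =
        fun t => (op1 (a i))^[m] (fun t _ => Φ (Function.update v.1 i t, v.2)) t (v.2 i) := by
      funext t
      rw [ih (Function.update v.1 i t, v.2)]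
      simp only [Function.update_idem, Function.update_self]
    rw [e]

end Pool.Agent.RHK
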