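import Pool.Agent.RHK.Core.Defs

/-!
Project ROHK, block CORE, section 4 (L): small definitions used in the statements of the L modules.
-/

set_option autoImplicit false

namespace Pool.Agent.RHK

open Complex ComplexConjugate Finset

noncomputable section

/-- `d` vanishes off `Y` -/
def supY {ι : Type} (Y : Finset ι) (d : ι → ℂ) : Prop := ∀ i, i ∉ Y → d i = 0

/-- the euclidean norm squared -/
def nsq {ι : Type} [Fintype ι] (d : ι → ℂ) : ℝ := ∑ i, ‖d i‖ ^ 2

end

end Pool.Agent.RHK
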