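import Pool.Agent.RHK.Core.Cvx
import Pool.Agent.RHK.Core.LDefs

/-!
# Project RHK, CORE: growth in the directions of `Y`
-/

set_option autoImplicit false

namespace Pool.Agent.RHK

open Complex ComplexConjugate Finset

variable {ι : Type} [Fintype ι] [DecidableEq ι]

private theorem gro_pow (A B Q X s : ℝ) (hA : 0 ≤ A) (hB0 : 0 ≤ B) (hs : 0 < s)
    (hB : B * Real.exp Q ≤ A * Real.exp X) :
    A ^ (1 - s) * (B * Real.exp Q) ^ s ≤ A * Real.exp (X * s) := by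
  rcases eq_or_lt_of_le hA with h0 | h0
  · have h1 : B * Real.exp Q = 0 := by
      rw [← h0, zero_mul] at hB
      exact le_antisymm hB (mul_nonneg hB0 (Real.exp_pos _).le)
    rw [h1, Real.zero_rpow hs.ne', mul_zero, ← h0, zero_mul]
  · have h2 : (B * Real.exp Q) ^ s ≤ (A * Real.exp X) ^ s :=
      Real.rpow_le_rpow (mul_nonneg hB0 (Real.exp_pos _).le) hB hs.le
    have h3 : A ^ (1 - s) * (A * Real.exp X) ^ s = A * Real.exp (X * s) := by
      rw [Real.mul_rpow hA (Real.exp_pos _).le, ← mul_assoc, ← Real.rpow_add h0, sub_add_cancel,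
        Real.rpow_one, ← Real.exp_mul]
    rw [← h3]
    exact mul_le_mul_of_nonneg_left h2 (Real.rpow_nonneg hA _)

theorem gro_y (c : CoreG ι) : ∃ C : ℝ, 1 ≤ C ∧ ∀ K : ℕ, 1 ≤ K →
    ∀ (p : (ι → Fin K) → (ι → Fin K) → ℂ) (ρ : ℝ), 1 ≤ ρ →
    pS p * (C * (K + ρ)) ^ ((2 * Fintype.card ι + 1) * K) ≤ Real.exp (ρ ^ 2) * c.S p 0 →
    ∀ d : ι → ℂ, supY c.Y d → ‖d‖ ≤ ρ → c.BdC p d (c.S p 0 * Real.exp (C * ρ * ‖d‖)) := by
  obtain ⟨C0, hC01, hC0⟩ := triv_f c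
  set s0 : ℝ := ∑ i, (c.a i + c.b i) / 4 with hs0
  have hs0n : 0 ≤ s0 := by
    rw [hs0]
    refine Finset.sum_nonneg fun i _ => ?_
    have h1 := (c.ha i).le
    have h2 := (c.hb i).le
    positivity
  refine ⟨C0 + 1 + s0, by linarith, fun K hK p ρ hρ hyp d _ hd => ?_⟩
  have hSb : c.BdC p 0 (c.S p 0) := (bdC_iff c hK p 0 _).2 le_rfl
  have hnf : ∀ v, 0 ≤ c.nf p v := fun v => mul_nonneg (norm_nonneg _) (Real.exp_nonneg _)
  have hA : 0 ≤ c.S p 0 := (hnf _).trans (hSb 0)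
  have hρ0 : 0 < ρ := by linarith
  have hpS : 0 ≤ pS p := by
    unfold pS
    exact Finset.sum_nonneg fun m _ => Finset.sum_nonneg fun l _ => norm_nonneg _
  rcases eq_or_ne d 0 with rfl | hd0
  · rw [norm_zero, mul_zero, Real.exp_zero, mul_one]
    exact hSb
  have hdn : 0 < ‖d‖ := norm_pos_iff.2 hd0
  set s : ℝ := ‖d‖ / ρ with hs
  have hsp : 0 < s := by positivity
  have hs1 : s ≤ 1 := (div_le_one hρ0).2 hd
  set d' : ι → ℂ := fun i => ((ρ / ‖d‖ : ℝ) : ℂ) * d i with hd'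
  have hd'i : ∀ i, ‖d' i‖ ≤ ρ := by
    intro i
    have h1 := norm_le_pi_norm d i
    simp only [hd']
    rw [norm_mul, Complex.norm_real, Real.norm_of_nonneg (by positivity)]
    calc ρ / ‖d‖ * ‖d i‖ ≤ ρ / ‖d‖ * ‖d‖ := by gcongr
      _ = ρ := by field_simp
  have hd'n : ‖d'‖ ≤ ρ := (pi_norm_le_iff_of_nonneg hρ0.le).2 hd'i
  have hsd : (fun i => (s : ℂ) * d' i) = d := by
    funext i
    simp only [hd']
    rw [← mul_assoc, ← Complex.ofReal_mul, hs]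
    have e : ‖d‖ / ρ * (ρ / ‖d‖) = 1 := by field_simp
    rw [e, Complex.ofReal_one, one_mul]
  set B : ℝ := pS p * (C0 * (K + ρ)) ^ ((2 * Fintype.card ι + 1) * K) with hB
  have hK0 : (0 : ℝ) ≤ K := Nat.cast_nonneg K
  have hB0 : 0 ≤ B := by
    rw [hB]
    have : 0 ≤ C0 := by linarith
    positivity
  have hBd : c.BdC p d' B := by
    intro z
    refine (hC0 K hK p z d').trans ?_
    rw [hB]
    refine mul_le_mul_of_nonneg_left ?_ hpS
    have h1 : 0 ≤ C0 := by linarith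
    refine pow_le_pow_left₀ (by positivity) ?_ _
    gcongr
  have hBA : B ≤ Real.exp (ρ ^ 2) * c.S p 0 := by
    refine le_trans ?_ hyp
    rw [hB]
    refine mul_le_mul_of_nonneg_left ?_ hpS
    have h1 : 0 ≤ C0 := by linarith
    refine pow_le_pow_left₀ (by positivity) ?_ _
    have h2 : 0 ≤ (K : ℝ) + ρ := by positivity
    exact mul_le_mul_of_nonneg_right (by linarith) h2
  have hQ : ∑ i, (c.a i + c.b i) * ‖d' i‖ ^ 2 / 4 ≤ s0 * ρ ^ 2 := by
    rw [hs0, Finset.sum_mul]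
    refine Finset.sum_le_sum fun i _ => ?_
    have h1 := (c.ha i).le
    have h2 := (c.hb i).le
    have h3 : ‖d' i‖ ^ 2 ≤ ρ ^ 2 := pow_le_pow_left₀ (norm_nonneg _) (hd'i i) 2
    have h4 : 0 ≤ c.a i + c.b i := by linarith
    nlinarith [mul_le_mul_of_nonneg_left h3 h4]
  have key := cvx c hK p d' (c.S p 0) B hSb hBd s hsp.le hs1
  rw [hsd] at key
  intro z
  refine (key z).trans ?_
  have h5 : B * Real.exp (∑ i, (c.a i + c.b i) * ‖d' i‖ ^ 2 / 4) ≤
      c.S p 0 * Real.exp ((1 + s0) * ρ ^ 2) := by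
    calc B * Real.exp (∑ i, (c.a i + c.b i) * ‖d' i‖ ^ 2 / 4)
        ≤ (Real.exp (ρ ^ 2) * c.S p 0) * Real.exp (s0 * ρ ^ 2) :=
          mul_le_mul hBA (Real.exp_le_exp.2 hQ) (Real.exp_pos _).le (by positivity)
      _ = c.S p 0 * Real.exp ((1 + s0) * ρ ^ 2) := by
          rw [mul_comm (Real.exp (ρ ^ 2)), mul_assoc, ← Real.exp_add]
          congr 2
          ring
  refine (gro_pow _ _ _ _ s hA hB0 hsp h5).trans ?_
  refine mul_le_mul_of_nonneg_left (Real.exp_le_exp.2 ?_) hA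
  have h6 : (1 + s0) * ρ ^ 2 * s = (1 + s0) * ρ * ‖d‖ := by
    rw [hs]; field_simp
  rw [h6]
  have h7 : 0 ≤ ρ * ‖d‖ := by positivity
  nlinarith

end Pool.Agent.RHK
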