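import Pool.Agent.RHK.Core.Pol
import Pool.Agent.RHK.JetLine

/-!
# Project RHK, CORE: upper bound for the jets
-/

set_option autoImplicit false

namespace Pool.Agent.RHK

open Complex ComplexConjugate Finset

variable {ι : Type} [Fintype ι] [DecidableEq ι]

omit [DecidableEq ι] in
private lemma JetUp_fact (A B : ι → ℕ) (N : ℕ) (hN : 1 ≤ N) (h : ord A B ≤ N) :
    ∏ i, ((A i).factorial : ℝ) * ((B i).factorial : ℝ) ≤ (N : ℝ) ^ N := by
  have hle : ∀ i, A i + B i ≤ N := fun i =>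
    (Finset.single_le_sum (f := fun i => A i + B i) (fun _ _ => Nat.zero_le _) (mem_univ i)).trans h
  have hN1 : (1 : ℝ) ≤ N := by exact_mod_cast hN
  have h1 : ∀ k : ℕ, k ≤ N → ((k.factorial : ℕ) : ℝ) ≤ (N : ℝ) ^ k := by
    intro k hk
    have h2 : k.factorial ≤ N ^ k := (Nat.factorial_le_pow k).trans (Nat.pow_le_pow_left hk k)
    exact_mod_cast h2
  calc ∏ i, ((A i).factorial : ℝ) * ((B i).factorial : ℝ)
      ≤ ∏ i, (N : ℝ) ^ (A i + B i) := by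
        refine Finset.prod_le_prod (fun i _ => by positivity) (fun i _ => ?_)
        rw [pow_add]
        exact mul_le_mul (h1 _ (by have := hle i; omega)) (h1 _ (by have := hle i; omega))
          (by positivity) (by positivity)
    _ = (N : ℝ) ^ ord A B := by
        rw [Finset.prod_pow_eq_pow_sum]
        rfl
    _ ≤ (N : ℝ) ^ N := pow_le_pow_right₀ hN1 h

omit [DecidableEq ι] in
private lemma JetUp_rad (A B : ι → ℕ) (N : ℕ) (h : ord A B ≤ N) (r : ι → ℝ) (X : ℝ) (hX : 1 ≤ X)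
    (hr : ∀ i, 0 < r i) (hrX : ∀ i, (r i)⁻¹ ≤ X) :
    (∏ i, r i ^ A i * r i ^ B i)⁻¹ ≤ X ^ N := by
  rw [← Finset.prod_inv_distrib]
  calc ∏ i, (r i ^ A i * r i ^ B i)⁻¹ ≤ ∏ i, X ^ (A i + B i) := by
        refine Finset.prod_le_prod (fun i _ => inv_nonneg.2 (mul_nonneg (pow_pos (hr i) _).le
          (pow_pos (hr i) _).le)) (fun i _ => ?_)
        rw [← pow_add, ← inv_pow]
        exact pow_le_pow_left₀ (inv_nonneg.2 (hr i).le) (hrX i) _
    _ = X ^ ord A B := by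
        rw [Finset.prod_pow_eq_pow_sum]
        rfl
    _ ≤ X ^ N := pow_le_pow_right₀ hX h

/-- PLAN. `jet_cauchy` with radii `R1 = 1 / C`, `R2 = 1 / √G` (on `Y`) and `pol_bound` (`C R1 ≤ 1 ≤ √K`, `2 R2 ≤ 2 ≤ ρ`):
`M = S exp (C (√K + 2 + ρ/√G))`; factorials `≤ N^N` for `ord A B ≤ N`, and `1 / (R1^.. R2^..) ≤ (C √G)^N`. -/
theorem jet_up (c : CoreG ι) : ∃ C : ℝ, 1 ≤ C ∧ ∀ K : ℕ, 1 ≤ K → ∀ G : ℝ, 1 ≤ G →
    ∀ (p : (ι → Fin K) → (ι → Fin K) → ℂ) (ρ : ℝ), C ≤ ρ →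
    pS p * (C * (K + ρ)) ^ ((2 * Fintype.card ι + 1) * K) ≤ Real.exp (ρ ^ 2) * c.S p 0 →
    ∀ (N : ℕ) (A B : ι → ℕ), 1 ≤ N → ord A B ≤ N →
      ‖jet (c.f p) A B‖ ≤ c.S p 0 * Real.exp (C * (√K + ρ / √G)) * (C * N * √G) ^ N := by
  obtain ⟨C0, hC0, h0⟩ := pol_bound c
  refine ⟨3 * C0, by linarith, ?_⟩
  intro K hK G hG p ρ hρ hp N A B hN hAB
  have hS : 0 ≤ c.S p 0 :=
    Real.iSup_nonneg (fun z => mul_nonneg (norm_nonneg _) (Real.exp_pos _).le)
  have hpS : 0 ≤ pS p := Finset.sum_nonneg (fun m _ => Finset.sum_nonneg (fun l _ => norm_nonneg _))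
  have hK1 : (1 : ℝ) ≤ K := by exact_mod_cast hK
  have hsK : 1 ≤ √(K : ℝ) := Real.one_le_sqrt.2 hK1
  have hsG : 1 ≤ √G := Real.one_le_sqrt.2 hG
  have hsG0 : 0 < √G := by linarith
  have hC0' : 0 < C0 := by linarith
  have hρ0 : 0 < ρ := by linarith
  have hp0 : pS p * (C0 * (K + ρ)) ^ ((2 * Fintype.card ι + 1) * K) ≤
      Real.exp (ρ ^ 2) * c.S p 0 := by
    refine le_trans ?_ hp
    gcongr
    linarith
  have hR2 : 1 / √G ≤ 1 := by
    rw [div_le_one hsG0]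
    exact hsG
  have hR1 : 1 / C0 ≤ 1 := by
    rw [div_le_one hC0']
    exact hC0
  have hR20 : 0 < 1 / √G := by positivity
  have hR10 : 0 < 1 / C0 := by positivity
  have hpol := h0 K hK p ρ (by linarith) hp0 (1 / C0) (1 / √G) hR10.le hR20.le
    (by rw [mul_one_div_cancel hC0'.ne']; exact hsK) (by linarith)
  set r : ι → ℝ := fun i => if i ∈ c.Y then 1 / √G else 1 / C0 with hr
  have hrpos : ∀ i, 0 < r i := by
    intro i
    simp only [hr]
    split_ifs <;> assumption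
  have hrX : ∀ i, (r i)⁻¹ ≤ C0 * √G := by
    intro i
    simp only [hr]
    split_ifs
    · rw [one_div, inv_inv]
      nlinarith
    · rw [one_div, inv_inv]
      nlinarith
  have hM : c.S p 0 * Real.exp (C0 * (√K * (1 / C0) + (1 / C0) ^ 2 + ρ * (1 / √G) + (1 / √G) ^ 2)) ≤
      c.S p 0 * Real.exp (3 * C0 * (√K + ρ / √G)) := by
    apply mul_le_mul_of_nonneg_left _ hS
    rw [Real.exp_le_exp]
    have e1 : √(K : ℝ) * (1 / C0) ≤ √K := mul_le_of_le_one_right (by positivity) hR1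
    have e2 : (1 / C0) ^ 2 ≤ 1 := pow_le_one₀ hR10.le hR1
    have e3 : (1 / √G) ^ 2 ≤ 1 := pow_le_one₀ hR20.le hR2
    have e4 : ρ * (1 / √G) = ρ / √G := mul_one_div _ _
    have e5 : 0 ≤ ρ / √G := by positivity
    rw [e4]
    have e6 : √(K : ℝ) * (1 / C0) + (1 / C0) ^ 2 + ρ / √G + (1 / √G) ^ 2 ≤
        3 * (√K + ρ / √G) := by linarith
    calc C0 * (√(K : ℝ) * (1 / C0) + (1 / C0) ^ 2 + ρ / √G + (1 / √G) ^ 2)
        ≤ C0 * (3 * (√K + ρ / √G)) := mul_le_mul_of_nonneg_left e6 hC0'.le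
      _ = 3 * C0 * (√K + ρ / √G) := by ring
  have hcau := jet_cauchy (diff_f c p) r r hrpos hrpos _ hpol A B
  refine hcau.trans ?_
  have hf := JetUp_fact A B N hN hAB
  have hd := JetUp_rad A B N hAB r (C0 * √G) (by nlinarith) hrpos hrX
  have hN0 : (0 : ℝ) ≤ N := Nat.cast_nonneg _
  rw [div_eq_mul_inv]
  calc c.S p 0 * Real.exp (C0 * (√K * (1 / C0) + (1 / C0) ^ 2 + ρ * (1 / √G) + (1 / √G) ^ 2)) *
        (∏ i, ((A i).factorial : ℝ) * ((B i).factorial : ℝ)) * (∏ i, r i ^ A i * r i ^ B i)⁻¹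
      ≤ c.S p 0 * Real.exp (3 * C0 * (√K + ρ / √G)) * (N : ℝ) ^ N * (C0 * √G) ^ N := by
        have hi : 0 ≤ (∏ i, r i ^ A i * r i ^ B i)⁻¹ :=
          inv_nonneg.2 (Finset.prod_nonneg (fun i _ => mul_nonneg (pow_pos (hrpos i) _).le
            (pow_pos (hrpos i) _).le))
        have hi2 : 0 ≤ ∏ i, ((A i).factorial : ℝ) * ((B i).factorial : ℝ) :=
          Finset.prod_nonneg (fun i _ => by positivity)
        have hi3 : 0 ≤ c.S p 0 * Real.exp (3 * C0 * (√K + ρ / √G)) :=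
          mul_nonneg hS (Real.exp_pos _).le
        exact mul_le_mul (mul_le_mul hM hf hi2 hi3) hd hi (mul_nonneg hi3 (pow_nonneg hN0 _))
    _ = c.S p 0 * Real.exp (3 * C0 * (√K + ρ / √G)) * (C0 * N * √G) ^ N := by
        rw [show C0 * (N : ℝ) * √G = (N : ℝ) * (C0 * √G) by ring, mul_pow]
        ring
    _ ≤ c.S p 0 * Real.exp (3 * C0 * (√K + ρ / √G)) * (3 * C0 * N * √G) ^ N := by
        apply mul_le_mul_of_nonneg_left _ (mul_nonneg hS (Real.exp_pos _).le)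
        apply pow_le_pow_left₀ (by positivity)
        have : 0 ≤ C0 * (N : ℝ) * √G := by positivity
        nlinarith

end Pool.Agent.RHK
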