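import Pool.Agent.RHK.Core.EntD

/-!
ROHK-Pav. The functions are polynomials in each `w_i`.

PLAN. `PAV i N Φ`: witnesses `h_j` entire, independent of `w_i`. `v ↦ T v.1`: `N = 1`. `opA a j`, `j ≠ i`, maps `∑ w_i^r h_r` to
`∑ w_i^r opA a j h_r` (`dz_mul`, `dz_coord_w`; independence of `w_i` by `dz_eq_deriv`). `opA a i`: `∑ w_i^r dz i h_r - a_i ∑ w_i^{r+1} h_r`, degree
`N + 1`. `FL`: induction over the list: `PAV i (m i + 1)` if the list has no duplicates, so for `FF` (`Finset.nodup_toList`). Sum, scalar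
multiples, products (`N1 + N2`), monotonicity in `N` (take `h_j = 0` beyond). `PAV_pa`: slices. For the second factor: `PAV i N Φ` with
`i ∉ Y` implies `PAV i N (Φ ∘ sw Y)` (`sw Y` fixes the coordinates over `i` and commutes with updates there).
-/

set_option autoImplicit false

namespace Pool.Agent.RHK

open Complex ComplexConjugate Finset

variable {ι : Type} [Fintype ι] [DecidableEq ι]

omit [Fintype ι] in
private theorem Pav_term {i : ι} (k : ℕ) {g : VV ι → ℂ} (hg : Differentiable ℂ g)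
    (hi : ∀ (v : VV ι) (t : ℂ), g (v.1, Function.update v.2 i t) = g v) :
    PAV i (k + 1) (fun v => v.2 i ^ k * g v) := by
  refine ⟨fun j => if j = k then g else fun _ => 0, fun j => ?_, fun j v t => ?_, fun v => ?_⟩
  · dsimp only
    split_ifs
    · exact hg
    · exact differentiable_const _
  · dsimp only
    split_ifs
    · exact hi v t
    · rfl
  · rw [Finset.sum_eq_single k]
    · simp
    · intro b _ hb
      simp [hb]
    · intro hk
      exact absurd (Finset.mem_range.2 (Nat.lt_succ_self k)) hk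

theorem PAV_mono {i : ι} {N N' : ℕ} (h : N ≤ N') {f : VV ι → ℂ} (hf : PAV i N f) : PAV i N' f := by
  obtain ⟨g, h1, h2, h3⟩ := hf
  refine ⟨fun j => if j < N then g j else fun _ => 0, fun j => ?_, fun j v t => ?_, fun v => ?_⟩
  · dsimp only
    split_ifs
    · exact h1 j
    · exact differentiable_const _
  · dsimp only
    split_ifs
    · exact h2 j v t
    · rfl
  · rw [h3 v]
    rw [← Finset.sum_subset (Finset.range_mono h)]
    · refine Finset.sum_congr rfl fun j hj => ?_
      dsimp only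
      rw [if_pos (Finset.mem_range.1 hj)]
    · intro j _ hj
      dsimp only
      rw [if_neg (fun h => hj (Finset.mem_range.2 h))]
      exact mul_zero _

theorem PAV_const_mul {i : ι} {N : ℕ} (r : ℂ) {f : VV ι → ℂ} (hf : PAV i N f) :
    PAV i N (fun v => r * f v) := by
  obtain ⟨g, h1, h2, h3⟩ := hf
  refine ⟨fun j v => r * g j v, fun j => (h1 j).const_mul r, fun j v t => ?_, fun v => ?_⟩
  · dsimp only
    rw [h2 j v t]
  · dsimp only
    rw [h3 v, Finset.mul_sum]
    exact Finset.sum_congr rfl fun j _ => by ring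

omit [Fintype ι] in
private theorem Pav_zero (i : ι) (N : ℕ) : PAV i N (fun _ : VV ι => (0 : ℂ)) :=
  ⟨fun _ _ => 0, fun _ => differentiable_const _, fun _ _ _ => rfl, fun v => by simp⟩

private theorem Pav_add {i : ι} {N : ℕ} {f h : VV ι → ℂ} (hf : PAV i N f) (hh : PAV i N h) :
    PAV i N (fun v => f v + h v) := by
  obtain ⟨g, h1, h2, h3⟩ := hf
  obtain ⟨k, k1, k2, k3⟩ := hh
  refine ⟨fun j v => g j v + k j v, fun j => (h1 j).add (k1 j), fun j v t => ?_, fun v => ?_⟩
  · dsimp only
    rw [h2 j v t, k2 j v t]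
  · dsimp only
    rw [h3 v, k3 v, ← Finset.sum_add_distrib]
    exact Finset.sum_congr rfl fun j _ => by ring

theorem PAV_sum {α : Type} (s : Finset α) {i : ι} {N : ℕ} (f : α → VV ι → ℂ)
    (hf : ∀ x ∈ s, PAV i N (f x)) : PAV i N (fun v => ∑ x ∈ s, f x v) := by
  classical
  induction s using Finset.induction_on with
  | empty =>
    simp only [Finset.sum_empty]
    exact Pav_zero i N
  | insert a s ha ih =>
    simp only [Finset.sum_insert ha]
    exact Pav_add (hf a (Finset.mem_insert_self a s))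
      (ih fun x hx => hf x (Finset.mem_insert_of_mem hx))

theorem PAV_mul {i : ι} {N N' : ℕ} {f h : VV ι → ℂ} (hf : PAV i N f) (hh : PAV i N' h) :
    PAV i (N + N') (fun v => f v * h v) := by
  obtain ⟨g, h1, h2, h3⟩ := hf
  obtain ⟨k, k1, k2, k3⟩ := hh
  have e : (fun v => f v * h v) = fun v : VV ι => ∑ x ∈ Finset.range N, ∑ y ∈ Finset.range N',
      v.2 i ^ (x + y) * (g x v * k y v) := by
    funext v
    rw [h3 v, k3 v, Finset.sum_mul_sum]
    refine Finset.sum_congr rfl fun x _ => Finset.sum_congr rfl fun y _ => ?_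
    rw [pow_add]
    ring
  rw [e]
  refine PAV_sum _ (fun x v => ∑ y ∈ Finset.range N', v.2 i ^ (x + y) * (g x v * k y v))
    fun x hx => PAV_sum _ (fun y v => v.2 i ^ (x + y) * (g x v * k y v)) fun y hy => ?_
  have hx' := Finset.mem_range.1 hx
  have hy' := Finset.mem_range.1 hy
  refine PAV_mono (by omega) (Pav_term (i := i) (x + y) (g := fun v => g x v * k y v)
    ((h1 x).mul (k1 y)) fun v t => ?_)
  rw [h2 x v t, k2 y v t]

omit [Fintype ι] in
private theorem Pav_sw_eq (Y : Finset ι) {i : ι} (hi : i ∉ Y) (v : VV ι) (t : ℂ) :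
    sw Y (v.1, Function.update v.2 i t) = ((sw Y v).1, Function.update (sw Y v).2 i t) := by
  unfold sw
  refine Prod.ext ?_ ?_
  · funext j
    by_cases hj : j ∈ Y
    · have hji : j ≠ i := fun e => hi (e ▸ hj)
      simp [hj, hji]
    · simp [hj]
  · funext j
    by_cases hj : j ∈ Y
    · have hji : j ≠ i := fun e => hi (e ▸ hj)
      simp [hj, hji]
    · by_cases hji : j = i
      · subst hji
        simp [hj]
      · simp [hj, hji]

theorem PAV_sw (Y : Finset ι) {i : ι} (hi : i ∉ Y) {N : ℕ} {f : VV ι → ℂ} (hf : PAV i N f) :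
    PAV i N (fun v => f (sw Y v)) := by
  obtain ⟨g, h1, h2, h3⟩ := hf
  refine ⟨fun j v => g j (sw Y v), fun j => diff_sw Y (h1 j), fun j v t => ?_, fun v => ?_⟩
  · dsimp only
    rw [Pav_sw_eq Y hi v t, h2 j (sw Y v) t]
  · dsimp only
    rw [h3 (sw Y v)]
    have e : (sw Y v).2 i = v.2 i := by
      unfold sw
      simp [hi]
    rw [e]

private theorem Pav_diff {i : ι} {N : ℕ} {f : VV ι → ℂ} (hf : PAV i N f) : Differentiable ℂ f := by
  obtain ⟨g, h1, h2, h3⟩ := hf
  have e : f = fun v : VV ι => ∑ j ∈ range N, v.2 i ^ j * g j v := funext h3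
  rw [e]
  refine Differentiable.fun_sum fun j _ => Differentiable.mul ?_ (h1 j)
  fun_prop

private theorem Pav_dz {i : ι} {N : ℕ} {f : VV ι → ℂ} (hf : PAV i N f) (j : ι) :
    PAV i N (dz j f) := by
  have hd := Pav_diff hf
  obtain ⟨g, h1, h2, h3⟩ := hf
  refine ⟨fun r => dz j (g r), fun r => ent_dz j (h1 r), fun r v t => ?_, fun v => ?_⟩
  · dsimp only
    rw [dz_eq_deriv j (h1 r), dz_eq_deriv j (h1 r)]
    have e1 : (fun s : ℂ => g r (Function.update v.1 j s, Function.update v.2 i t)) =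
        fun s : ℂ => g r (Function.update v.1 j s, v.2) := by
      funext s
      exact h2 r (Function.update v.1 j s, v.2) t
    show deriv (fun s : ℂ => g r (Function.update v.1 j s, Function.update v.2 i t)) (v.1 j) = _
    rw [e1]
  · rw [dz_eq_deriv j hd]
    have e : (fun t : ℂ => f (Function.update v.1 j t, v.2)) =
        fun t : ℂ => ∑ r ∈ range N, v.2 i ^ r * g r (Function.update v.1 j t, v.2) := by
      funext t
      exact h3 (Function.update v.1 j t, v.2)
    rw [e, deriv_fun_sum]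
    · refine Finset.sum_congr rfl fun r _ => ?_
      dsimp only
      rw [deriv_const_mul _ (diff_slice_z j (h1 r) v _), dz_eq_deriv j (h1 r)]
    · intro r _
      exact (diff_slice_z j (h1 r) v _).const_mul _

private theorem Pav_indep_mul {i : ι} {N : ℕ} {f : VV ι → ℂ} (hf : PAV i N f) {k : VV ι → ℂ}
    (hk : Differentiable ℂ k) (hi : ∀ (v : VV ι) (t : ℂ), k (v.1, Function.update v.2 i t) = k v) :
    PAV i N (fun v => k v * f v) := by
  obtain ⟨g, h1, h2, h3⟩ := hf
  refine ⟨fun j v => k v * g j v, fun j => hk.mul (h1 j), fun j v t => ?_, fun v => ?_⟩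
  · dsimp only
    rw [h2 j v t, hi v t]
  · dsimp only
    rw [h3 v, Finset.mul_sum]
    exact Finset.sum_congr rfl fun j _ => by ring

private theorem Pav_opA_ne (a : ι → ℝ) {i j : ι} (hij : i ≠ j) {N : ℕ} {f : VV ι → ℂ}
    (hf : PAV i N f) : PAV i N (opA a j f) := by
  have e : opA a j f = fun v => dz j f v + (-(a j : ℂ)) * (v.2 j * f v) := by
    funext v
    unfold opA
    ring
  rw [e]
  refine Pav_add (Pav_dz hf j) (PAV_const_mul _ (Pav_indep_mul hf ?_ fun v t => ?_))
  · fun_prop
  · exact Function.update_of_ne hij.symm _ _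

private theorem Pav_opA_self (a : ι → ℝ) {i : ι} {N : ℕ} {f : VV ι → ℂ}
    (hf : PAV i N f) : PAV i (N + 1) (opA a i f) := by
  have e : opA a i f = fun v => dz i f v + (-(a i : ℂ)) * (v.2 i * f v) := by
    funext v
    unfold opA
    ring
  rw [e]
  refine Pav_add (PAV_mono (Nat.le_succ N) (Pav_dz hf i)) (PAV_const_mul _ ?_)
  obtain ⟨g, h1, h2, h3⟩ := hf
  refine ⟨fun j => match j with
    | 0 => fun _ => 0
    | j + 1 => g j, fun j => ?_, fun j v t => ?_, fun v => ?_⟩
  · cases j with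
    | zero => exact differentiable_const _
    | succ j => exact h1 j
  · cases j with
    | zero => rfl
    | succ j => exact h2 j v t
  · rw [Finset.sum_range_succ']
    dsimp only
    rw [h3 v, Finset.mul_sum]
    show _ = ∑ j ∈ range N, v.2 i ^ (j + 1) * g j v + v.2 i ^ 0 * 0
    rw [mul_zero, add_zero]
    exact Finset.sum_congr rfl fun j _ => by ring

private theorem Pav_iter_ne (a : ι → ℝ) {i j : ι} (hij : i ≠ j) {N : ℕ} (n : ℕ) {f : VV ι → ℂ}
    (hf : PAV i N f) : PAV i N ((opA a j)^[n] f) := by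
  induction n with
  | zero => exact hf
  | succ n ih =>
    rw [Function.iterate_succ_apply']
    exact Pav_opA_ne a hij ih

private theorem Pav_iter_self (a : ι → ℝ) {i : ι} {N : ℕ} (n : ℕ) {f : VV ι → ℂ}
    (hf : PAV i N f) : PAV i (N + n) ((opA a i)^[n] f) := by
  induction n with
  | zero => exact hf
  | succ n ih =>
    rw [Function.iterate_succ_apply']
    exact Pav_opA_self a ih

private theorem Pav_fst (i : ι) {T : (ι → ℂ) → ℂ} (hT : Differentiable ℂ T) :
    PAV i 1 (fun v : VV ι => T v.1) := by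
  refine ⟨fun _ v => T v.1, fun _ => hT.comp differentiable_fst, fun _ _ _ => rfl, fun v => ?_⟩
  simp

private theorem Pav_FL_not (a : ι → ℝ) {T : (ι → ℂ) → ℂ} (hT : Differentiable ℂ T) (m : ι → ℕ)
    (L : List ι) (i : ι) (hi : i ∉ L) : PAV i 1 (FL a T m L) := by
  induction L with
  | nil => exact Pav_fst i hT
  | cons j L ih =>
    have h1 : i ≠ j := fun e => hi (e ▸ List.mem_cons_self)
    have h2 : i ∉ L := fun e => hi (List.mem_cons_of_mem _ e)
    exact Pav_iter_ne a h1 (m j) (ih h2)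

private theorem Pav_FL (a : ι → ℝ) {T : (ι → ℂ) → ℂ} (hT : Differentiable ℂ T) (m : ι → ℕ)
    (L : List ι) (hL : L.Nodup) (i : ι) : PAV i (m i + 1) (FL a T m L) := by
  induction L with
  | nil => exact PAV_mono (Nat.le_add_left 1 (m i)) (Pav_fst i hT)
  | cons j L ih =>
    have hn := List.nodup_cons.1 hL
    by_cases h1 : i = j
    · subst h1
      have h2 := Pav_iter_self a (m i) (Pav_FL_not a hT m L i hn.1)
      rw [add_comm] at h2
      exact h2
    · exact Pav_iter_ne a h1 (m j) (ih hn.2)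

theorem PAV_FF (a : ι → ℝ) {T : (ι → ℂ) → ℂ} (hT : Differentiable ℂ T) (m : ι → ℕ) (i : ι) :
    PAV i (m i + 1) (FF a T m) := by
  rw [FF_eq_FL]
  exact Pav_FL a hT m _ (Finset.nodup_toList _) i

/-- for `i` outside `Y` the function `f` has degree `< 2K` in `w_i` -/
theorem PAV_f (c : CoreG ι) {K : ℕ} (hK : 1 ≤ K) (p : (ι → Fin K) → (ι → Fin K) → ℂ) (i : ι)
    (hi : i ∉ c.Y) : PAV i (2 * K) (c.f p) := by
  have _ := hK
  show PAV i (2 * K) (fun v : VV ι => ∑ m, ∑ l, p m l *
    (FF c.a c.T1 (fun i => (m i : ℕ)) v * FF c.b c.T2 (fun i => (l i : ℕ)) (sw c.Y v)))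
  refine PAV_sum _ (fun m v => ∑ l, p m l *
    (FF c.a c.T1 (fun i => (m i : ℕ)) v * FF c.b c.T2 (fun i => (l i : ℕ)) (sw c.Y v)))
    fun m _ => PAV_sum _ (fun l v => p m l *
    (FF c.a c.T1 (fun i => (m i : ℕ)) v * FF c.b c.T2 (fun i => (l i : ℕ)) (sw c.Y v)))
    fun l _ => PAV_const_mul _ ?_
  have h1 := PAV_FF c.a c.d1 (fun i => (m i : ℕ)) i
  have h2 := PAV_sw c.Y hi (PAV_FF c.b c.d2 (fun i => (l i : ℕ)) i)
  have h3 := (m i).isLt
  have h4 := (l i).isLt
  exact PAV_mono (by omega) (PAV_mul h1 h2)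

theorem PAV_pa {i : ι} {N : ℕ} {f : VV ι → ℂ} (hf : PAV i N f) (v : VV ι) :
    PA N (fun t t' => f (Function.update v.1 i t, Function.update v.2 i t')) := by
  obtain ⟨g, h1, h2, h3⟩ := hf
  refine ⟨fun j z => g j (Function.update v.1 i z, v.2), fun j => diff_slice_z i (h1 j) v,
    fun z z' => ?_⟩
  dsimp only
  rw [h3 (Function.update v.1 i z, Function.update v.2 i z')]
  refine Finset.sum_congr rfl fun j _ => ?_
  have e := h2 j (Function.update v.1 i z, v.2) z'
  dsimp only at e
  rw [e]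
  simp

end Pool.Agent.RHK
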