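import Pool.Agent.RHK.Core.PB
import Pool.Agent.RHK.Core.Pav
import Pool.Agent.RHK.Core.Sw

/-!
ROHK-LBx. Lemma B for `f` in the directions outside `Y` (section 3, last line).

PLAN. For `i ∉ Y` and all other coordinates fixed, `(t, t') ↦ f (update v.1 i t, update v.2 i t')` is `PA (2K)` (`PAV_f`, `PAV_pa`) and its
weight in the coordinate `i` is `exp(-(a_i + b_i)|t|²/2)` (both functions use `z_i`); the other coordinates contribute a constant factor
(`(sw Y v).1 j` for `j ≠ i` does not change). `lemB` with `2K`, `c = a_i + b_i`: if `BdC p d M` and `d'` differs from `d` only at `i`, where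
`d i = 0`, and `‖d' i‖ ≤ sqrt(2K/(a_i+b_i))`, then `BdC p d' (M exp(5 sqrt((a_i+b_i) 2K) ‖d' i‖))`. Induction over the finite set of the
coordinates outside `Y` (`Finset.induction_on` for the function `fun i => if i ∈ Y ∨ i ∈ s then d i else 0`). `C` = maximum over `i` of
`5 sqrt(2 (a_i+b_i))`, `sqrt(a_i+b_i)`, `1`.
-/

set_option autoImplicit false

namespace Pool.Agent.RHK

open Complex ComplexConjugate Finset

variable {ι : Type} [Fintype ι] [DecidableEq ι]

/-- the weight of the coordinates different from `i` -/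
private noncomputable def lbxW (c : CoreG ι) (i : ι) (z d : ι → ℂ) : ℝ :=
  Real.exp (-(∑ j ∈ univ.erase i,
    (c.a j * ‖z j‖ ^ 2 + c.b j * ‖(sw c.Y (rp z d)).1 j‖ ^ 2) / 2))

private theorem lbx_wt (c : CoreG ι) (i : ι) (hi : i ∉ c.Y) (z d : ι → ℂ) :
    c.wt (rp z d) = lbxW c i z d * Real.exp (-((c.a i + c.b i) * ‖z i‖ ^ 2 / 2)) := by
  have h1 : (sw c.Y (rp z d)).1 i = z i := by
    unfold sw rp
    simp only
    rw [if_neg hi]
  unfold lbxW CoreG.wt
  rw [← Finset.add_sum_erase univ
    (fun j => (c.a j * ‖(rp z d).1 j‖ ^ 2 + c.b j * ‖(sw c.Y (rp z d)).1 j‖ ^ 2) / 2)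
    (Finset.mem_univ i), ← Real.exp_add, h1]
  congr 1
  have h2 : (rp z d).1 = z := rfl
  rw [h2]
  ring

private theorem lbxW_z (c : CoreG ι) (i : ι) (z d : ι → ℂ) (t : ℂ) :
    lbxW c i (Function.update z i t) d = lbxW c i z d := by
  unfold lbxW
  congr 2
  refine Finset.sum_congr rfl fun j hj => ?_
  have hji : j ≠ i := Finset.ne_of_mem_erase hj
  unfold sw rp cj
  simp only [Pi.add_apply, Function.update_of_ne hji]

private theorem lbxW_d (c : CoreG ι) (i : ι) (z d : ι → ℂ) (δ : ℂ) :
    lbxW c i z (Function.update d i δ) = lbxW c i z d := by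
  unfold lbxW
  congr 2
  refine Finset.sum_congr rfl fun j hj => ?_
  have hji : j ≠ i := Finset.ne_of_mem_erase hj
  unfold sw rp
  simp only [Pi.add_apply, Function.update_of_ne hji]

private theorem lbx_step (c : CoreG ι) {K : ℕ} (hK : 1 ≤ K)
    (p : (ι → Fin K) → (ι → Fin K) → ℂ) (i : ι) (hi : i ∉ c.Y) (d : ι → ℂ) (hdi : d i = 0)
    (δ : ℂ) (M : ℝ) (h : c.BdC p d M)
    (hδ : ‖δ‖ ≤ √(((2 * K : ℕ) : ℝ) / (c.a i + c.b i))) :
    c.BdC p (Function.update d i δ)
      (M * Real.exp (5 * √((c.a i + c.b i) * ((2 * K : ℕ) : ℝ)) * ‖δ‖)) := by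
  intro z
  have hW : 0 < lbxW c i z d := Real.exp_pos _
  have hab : 0 < c.a i + c.b i := add_pos (c.ha i) (c.hb i)
  set φ : ℂ → ℂ → ℂ := fun t t' => c.f p (Function.update (rp z (Function.update d i δ)).1 i t,
    Function.update (rp z (Function.update d i δ)).2 i t') with hφ
  have hPA : PA (2 * K) φ := PAV_pa (PAV_f c hK p i hi) (rp z (Function.update d i δ))
  -- the values on the real points
  have hreal : ∀ t, φ t (conj t) = c.f p (rp (Function.update z i t) d) := by
    intro t
    rw [hφ]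
    simp only
    congr 1
    unfold rp
    simp only
    refine Prod.ext rfl ?_
    funext j
    simp only
    by_cases hj : j = i
    · subst hj
      rw [Function.update_self, Pi.add_apply, hdi, add_zero]
      unfold cj
      rw [Function.update_self]
    · rw [Function.update_of_ne hj, Pi.add_apply, Pi.add_apply, Function.update_of_ne hj]
      unfold cj
      rw [Function.update_of_ne hj]
  have hval : φ (z i) (conj (z i) + δ) = c.f p (rp z (Function.update d i δ)) := by
    rw [hφ]
    simp only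
    congr 1
    unfold rp
    simp only
    refine Prod.ext ?_ ?_
    · simp only
      rw [Function.update_eq_self]
    · funext j
      simp only
      by_cases hj : j = i
      · subst hj
        rw [Function.update_self, Pi.add_apply, Function.update_self]
        rfl
      · rw [Function.update_of_ne hj]
  have hbd : ∀ t, ‖φ t (conj t)‖ * Real.exp (-((c.a i + c.b i) * ‖t‖ ^ 2 / 2)) ≤
      M / lbxW c i z d := by
    intro t
    have h1 := h (Function.update z i t)
    unfold CoreG.nf at h1
    rw [lbx_wt c i hi, lbxW_z, Function.update_self, ← hreal t] at h1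
    rw [le_div_iff₀ hW]
    calc _ = ‖φ t (conj t)‖ * (lbxW c i z d *
        Real.exp (-((c.a i + c.b i) * ‖t‖ ^ 2 / 2))) := by ring
      _ ≤ M := h1
  have h2 := lemB (2 * K) (by omega) φ hPA (c.a i + c.b i) (M / lbxW c i z d) hab hbd (z i) δ hδ
  rw [hval] at h2
  unfold CoreG.nf
  rw [lbx_wt c i hi, lbxW_d]
  calc ‖c.f p (rp z (Function.update d i δ))‖ *
        (lbxW c i z d * Real.exp (-((c.a i + c.b i) * ‖z i‖ ^ 2 / 2))) =
      lbxW c i z d * (‖c.f p (rp z (Function.update d i δ))‖ *
        Real.exp (-((c.a i + c.b i) * ‖z i‖ ^ 2 / 2))) := by ring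
    _ ≤ lbxW c i z d * (M / lbxW c i z d *
        Real.exp (5 * √((c.a i + c.b i) * ((2 * K : ℕ) : ℝ)) * ‖δ‖)) :=
      mul_le_mul_of_nonneg_left h2 hW.le
    _ = _ := by
      field_simp

private theorem lbx_nonneg (c : CoreG ι) {K : ℕ} (p : (ι → Fin K) → (ι → Fin K) → ℂ)
    (d : ι → ℂ) (M : ℝ) (h : c.BdC p d M) : 0 ≤ M := by
  refine le_trans ?_ (h 0)
  unfold CoreG.nf CoreG.wt
  positivity

theorem lb_x (c : CoreG ι) : ∃ C : ℝ, 1 ≤ C ∧ ∀ K : ℕ, 1 ≤ K →
    ∀ (p : (ι → Fin K) → (ι → Fin K) → ℂ) (d : ι → ℂ) (M : ℝ),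
    c.BdC p (fun i => if i ∈ c.Y then d i else 0) M →
    (∀ i, i ∉ c.Y → ‖d i‖ ≤ √K / C) →
    c.BdC p d (M * Real.exp (C * √K * ∑ i ∈ univ.filter (fun i => i ∉ c.Y), ‖d i‖)) := by
  have hab : ∀ i, 0 < c.a i + c.b i := fun i => add_pos (c.ha i) (c.hb i)
  set C : ℝ := 1 + ∑ i, 5 * √(2 * (c.a i + c.b i)) with hC
  have hC1 : 1 ≤ C := by
    rw [hC]
    have : 0 ≤ ∑ i, 5 * √(2 * (c.a i + c.b i)) := Finset.sum_nonneg fun i _ => by positivity
    linarith
  have hCi : ∀ i, 5 * √(2 * (c.a i + c.b i)) ≤ C := by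
    intro i
    have h1 : 5 * √(2 * (c.a i + c.b i)) ≤ ∑ i, 5 * √(2 * (c.a i + c.b i)) :=
      Finset.single_le_sum (f := fun i => 5 * √(2 * (c.a i + c.b i)))
        (fun i _ => by positivity) (Finset.mem_univ i)
    rw [hC]
    linarith
  have hC0 : 0 < C := by linarith
  refine ⟨C, hC1, fun K hK p d M hM hd => ?_⟩
  have hMn := lbx_nonneg c p _ M hM
  have key : ∀ s : Finset ι, (∀ i ∈ s, i ∉ c.Y) →
      c.BdC p (fun i => if i ∈ c.Y ∨ i ∈ s then d i else 0)
        (M * Real.exp (C * √K * ∑ i ∈ s, ‖d i‖)) := by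
    intro s
    induction s using Finset.induction_on with
    | empty =>
      intro _
      have e : (fun i => if i ∈ c.Y ∨ i ∈ (∅ : Finset ι) then d i else 0) =
          fun i => if i ∈ c.Y then d i else 0 := by
        funext i
        simp
      rw [e, Finset.sum_empty, mul_zero, Real.exp_zero, mul_one]
      exact hM
    | insert i s his ih =>
      intro hs
      have hi : i ∉ c.Y := hs i (Finset.mem_insert_self i s)
      have ih' := ih fun j hj => hs j (Finset.mem_insert_of_mem hj)
      have hdi : (fun j => if j ∈ c.Y ∨ j ∈ s then d j else 0) i = 0 := by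
        simp only
        rw [if_neg]
        rintro (h | h)
        · exact hi h
        · exact his h
      have hsq : √(2 * (c.a i + c.b i)) = √2 * √(c.a i + c.b i) :=
        Real.sqrt_mul (by norm_num) _
      have hCs : √(c.a i + c.b i) ≤ C := by
        refine le_trans ?_ (hCi i)
        rw [hsq]
        have h2 : (1 : ℝ) ≤ √2 := Real.one_le_sqrt.2 (by norm_num)
        have h3 : 0 ≤ √(c.a i + c.b i) := Real.sqrt_nonneg _
        nlinarith
      have hδ : ‖d i‖ ≤ √(((2 * K : ℕ) : ℝ) / (c.a i + c.b i)) := by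
        refine (hd i hi).trans ?_
        rw [Real.sqrt_div (Nat.cast_nonneg _)]
        have h3 : 0 < √(c.a i + c.b i) := Real.sqrt_pos.2 (hab i)
        have h4 : √(K : ℝ) ≤ √((2 * K : ℕ) : ℝ) := by
          apply Real.sqrt_le_sqrt
          push_cast
          have : (0 : ℝ) ≤ K := Nat.cast_nonneg _
          linarith
        exact div_le_div₀ (Real.sqrt_nonneg _) h4 h3 hCs
      have hst := lbx_step c hK p i hi _ hdi (d i) _ ih' hδ
      have e : Function.update (fun j => if j ∈ c.Y ∨ j ∈ s then d j else 0) i (d i) =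
          fun j => if j ∈ c.Y ∨ j ∈ insert i s then d j else 0 := by
        funext j
        by_cases hj : j = i
        · subst hj
          rw [Function.update_self, if_pos (Or.inr (Finset.mem_insert_self _ _))]
        · rw [Function.update_of_ne hj]
          simp [Finset.mem_insert, hj]
      rw [e] at hst
      intro z
      refine (hst z).trans ?_
      rw [mul_assoc, ← Real.exp_add]
      refine mul_le_mul_of_nonneg_left (Real.exp_le_exp.2 ?_) hMn
      rw [Finset.sum_insert his]
      have h5 : √((c.a i + c.b i) * ((2 * K : ℕ) : ℝ)) = √(2 * (c.a i + c.b i)) * √(K : ℝ) := by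
        rw [← Real.sqrt_mul (by have := hab i; positivity)]
        congr 1
        push_cast
        ring
      have h6 : 5 * √((c.a i + c.b i) * ((2 * K : ℕ) : ℝ)) * ‖d i‖ ≤ C * √(K : ℝ) * ‖d i‖ := by
        refine mul_le_mul_of_nonneg_right ?_ (norm_nonneg _)
        rw [h5, ← mul_assoc]
        exact mul_le_mul_of_nonneg_right (hCi i) (Real.sqrt_nonneg _)
      linarith
  have hfin := key (univ.filter fun i => i ∉ c.Y) fun i hi => (Finset.mem_filter.1 hi).2
  have e : (fun i => if i ∈ c.Y ∨ i ∈ univ.filter (fun i => i ∉ c.Y) then d i else 0) = d := by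
    funext i
    by_cases hi : i ∈ c.Y
    · rw [if_pos (Or.inl hi)]
    · have hm : i ∈ univ.filter (fun i => i ∉ c.Y) :=
        Finset.mem_filter.2 ⟨Finset.mem_univ _, hi⟩
      rw [if_pos (Or.inr hm)]
  rw [e] at hfin
  exact hfin

end Pool.Agent.RHK
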