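import Pool.Agent.RHK.Core.PB

/-!
ROHK-PLip. Bernstein inequality for polyanalytic functions (Lipschitz form), /team-store/rohk_core_h98.md section 3.

PLAN. `ρ = 1/(2 sqrt(cK))`. If `‖z1 - z2‖ ≥ ρ/2` the left side is `≤ M ≤ 4 sqrt(cK) ‖z1-z2‖ M`. Otherwise put
`Φ(z, z') = φ z z' exp(-c conj(z1) (z - z1) - c|z1|²/2)`. On `|z - z1| ≤ ρ`, `|z' - conj z1| ≤ ρ` the number `d = z' - conj z` has
`|d| ≤ 2ρ ≤ sqrt(K/c)`, so `lemB` gives `|Φ| ≤ M e^5 exp(c|z-z1|²/2) ≤ 200 M`. The entire function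
`t ↦ Φ(z1 + t (z2-z1)/‖z2-z1‖, conj z1 + t conj(z2-z1)/‖z2-z1‖)` is `≤ 200 M` for `|t| ≤ ρ`, so its derivative is
`≤ 400 M/ρ = 800 sqrt(cK) M` for `|t| ≤ ρ/2` (Cauchy, `Complex.norm_deriv_le_of_forall_mem_sphere_norm_le`) and the mean value
inequality gives `|Φ(z2, conj z2) - Φ(z1, conj z1)| ≤ 800 sqrt(cK) ‖z1-z2‖ M`. Finally
`|Φ(z2, conj z2)| = |φ(z2, conj z2)| e^{-c|z2|²/2} e^{c|z2-z1|²/2}` and `e^x - 1 ≤ 2x` for `0 ≤ x ≤ 1`, `x = c|z2-z1|²/2 ≤ c (ρ/2) |z2-z1|/2`.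
-/

set_option autoImplicit false

namespace Pool.Agent.RHK

open Complex ComplexConjugate Finset

private theorem PLip_re (c : ℝ) (z1 w : ℂ) :
    (-((c : ℂ) * conj z1 * w) - (c : ℂ) * (‖z1‖ : ℂ) ^ 2 / 2).re =
      -(c * ‖z1 + w‖ ^ 2 / 2) + c * ‖w‖ ^ 2 / 2 := by
  have e : ((c : ℂ) * (‖z1‖ : ℂ) ^ 2 / 2).re = c * ‖z1‖ ^ 2 / 2 := by
    have : ((c : ℂ) * (‖z1‖ : ℂ) ^ 2 / 2) = ((c * ‖z1‖ ^ 2 / 2 : ℝ) : ℂ) := by push_cast; ring
    rw [this, Complex.ofReal_re]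
  rw [Complex.sub_re, e, Complex.sq_norm, Complex.sq_norm, Complex.sq_norm, Complex.normSq_apply,
    Complex.normSq_apply, Complex.normSq_apply]
  simp only [Complex.neg_re, Complex.mul_re, Complex.mul_im, Complex.ofReal_re, Complex.ofReal_im,
    Complex.conj_re, Complex.conj_im, Complex.add_re, Complex.add_im]
  ring

private theorem PLip_norm (c : ℝ) (z1 w a : ℂ) :
    ‖a * cexp (-((c : ℂ) * conj z1 * w) - (c : ℂ) * (‖z1‖ : ℂ) ^ 2 / 2)‖ =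
      ‖a‖ * Real.exp (-(c * ‖z1 + w‖ ^ 2 / 2)) * Real.exp (c * ‖w‖ ^ 2 / 2) := by
  rw [norm_mul, Complex.norm_exp, PLip_re, Real.exp_add, mul_assoc]

private theorem PLip_exp6 : Real.exp 6 ≤ 729 := by
  have h1 : Real.exp 6 = Real.exp 1 ^ 6 := by rw [← Real.exp_nat_mul]; norm_num
  have h2 : Real.exp 1 ≤ 3 := by linarith [Real.exp_one_lt_d9]
  rw [h1]
  calc Real.exp 1 ^ 6 ≤ 3 ^ 6 := pow_le_pow_left₀ (Real.exp_pos 1).le h2 6
    _ = 729 := by norm_num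

private theorem PLip_exp {x : ℝ} (h0 : 0 ≤ x) (h1 : x ≤ 1) : Real.exp x ≤ 1 + 3 * x := by
  have h2 : Real.exp x ≤ 3 := by
    have := Real.exp_le_exp.2 h1
    linarith [Real.exp_one_lt_d9]
  have h3 := Real.add_one_le_exp (-x)
  have h4 : Real.exp x * Real.exp (-x) = 1 := by rw [← Real.exp_add, add_neg_cancel, Real.exp_zero]
  have h5 : Real.exp x * (1 - x) ≤ 1 := by
    rw [← h4]
    exact mul_le_mul_of_nonneg_left (by linarith) (Real.exp_pos x).le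
  nlinarith

theorem lemLip (K : ℕ) (hK : 1 ≤ K) (φ : ℂ → ℂ → ℂ) (hφ : PA K φ) (c M : ℝ) (hc : 0 < c)
    (h : ∀ z, ‖φ z (conj z)‖ * Real.exp (-(c * ‖z‖ ^ 2 / 2)) ≤ M) (z1 z2 : ℂ) :
    ‖φ z1 (conj z1)‖ * Real.exp (-(c * ‖z1‖ ^ 2 / 2)) ≤
      ‖φ z2 (conj z2)‖ * Real.exp (-(c * ‖z2‖ ^ 2 / 2)) + 10000 * √(c * K) * ‖z1 - z2‖ * M := by
  have hM : 0 ≤ M := le_trans (by positivity) (h 0)
  set s : ℝ := √(c * K) with hs
  have hK' : (1 : ℝ) ≤ K := by exact_mod_cast hK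
  have hcK : 0 < c * K := by positivity
  have hs0 : 0 < s := Real.sqrt_pos.2 hcK
  have hs2 : s * s = c * K := Real.mul_self_sqrt hcK.le
  have hcs : c ≤ s * s := by rw [hs2]; nlinarith
  have hE2 : 0 ≤ ‖φ z2 (conj z2)‖ * Real.exp (-(c * ‖z2‖ ^ 2 / 2)) := by positivity
  by_cases hbig : 1 ≤ 4 * s * ‖z1 - z2‖
  · have h1 := h z1
    have h3 : M ≤ 4 * s * ‖z1 - z2‖ * M := by nlinarith
    have h4 : 0 ≤ s * ‖z1 - z2‖ * M := by positivity
    nlinarith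
  push Not at hbig
  by_cases hz : z1 = z2
  · subst hz
    simp
  set v : ℂ := z2 - z1 with hv
  have hv1 : ‖z1 - z2‖ = ‖v‖ := by rw [hv, norm_sub_rev]
  have hv0 : 0 < ‖v‖ := norm_pos_iff.2 (sub_ne_zero.2 (Ne.symm hz))
  rw [hv1] at hbig ⊢
  set ψ : ℂ → ℂ := fun t => φ (z1 + t * v) (conj z1 + t * conj v) *
    cexp (-((c : ℂ) * conj z1 * (t * v)) - (c : ℂ) * (‖z1‖ : ℂ) ^ 2 / 2) with hψ
  have hψd : Differentiable ℂ ψ := by
    have h1 : Differentiable ℂ (fun t : ℂ => ((z1 + t * v, conj z1 + t * conj v) : ℂ × ℂ)) := by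
      fun_prop
    have h2 := hφ.differentiable.comp h1
    have h3 : Differentiable ℂ (fun t : ℂ =>
      cexp (-((c : ℂ) * conj z1 * (t * v)) - (c : ℂ) * (‖z1‖ : ℂ) ^ 2 / 2)) := by fun_prop
    exact h2.mul h3
  -- the bound
  have hb : ∀ t : ℂ, 2 * s * (‖t‖ * ‖v‖) ≤ 1 → ‖ψ t‖ ≤ 729 * M := by
    intro t ht
    rw [hψ]
    simp only
    rw [PLip_norm]
    set z : ℂ := z1 + t * v with hzd
    set d : ℂ := (conj z1 + t * conj v) - conj z with hd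
    have e1 : conj z1 + t * conj v = conj z + d := by rw [hd]; ring
    have hd1 : ‖d‖ ≤ 2 * (‖t‖ * ‖v‖) := by
      have e2 : d = t * conj v - conj (t * v) := by
        rw [hd, hzd, map_add]
        ring
      rw [e2]
      refine (norm_sub_le _ _).trans ?_
      rw [Complex.norm_conj, norm_mul, norm_mul, Complex.norm_conj]
      linarith
    have hd2 : s * ‖d‖ ≤ 1 := by nlinarith
    have hd3 : ‖d‖ ≤ √(K / c) := by
      apply Real.le_sqrt_of_sq_le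
      rw [le_div_iff₀ hc]
      have h5 : (s * ‖d‖) ^ 2 ≤ 1 := by
        have := norm_nonneg d
        nlinarith [mul_nonneg hs0.le this]
      have h6 : (s * ‖d‖) ^ 2 = c * K * ‖d‖ ^ 2 := by rw [mul_pow, pow_two s, hs2]
      rw [h6] at h5
      have h7 : 0 ≤ ‖d‖ ^ 2 * c := by positivity
      nlinarith
    have h8 := lemB K hK φ hφ c M hc h z d hd3
    rw [← e1] at h8
    have h9 : M * Real.exp (5 * √(c * K) * ‖d‖) ≤ M * Real.exp 5 := by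
      refine mul_le_mul_of_nonneg_left (Real.exp_le_exp.2 ?_) hM
      rw [← hs]
      nlinarith
    have h10 : Real.exp (c * ‖t * v‖ ^ 2 / 2) ≤ Real.exp 1 := by
      refine Real.exp_le_exp.2 ?_
      rw [norm_mul]
      have h11 : 0 ≤ ‖t‖ * ‖v‖ := by positivity
      have h12 : (2 * s * (‖t‖ * ‖v‖)) ^ 2 ≤ 1 := by
        have : 0 ≤ 2 * s * (‖t‖ * ‖v‖) := by positivity
        nlinarith
      have h13 : 0 ≤ (‖t‖ * ‖v‖) ^ 2 := by positivity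
      nlinarith
    calc ‖φ z (conj z1 + t * conj v)‖ * Real.exp (-(c * ‖z‖ ^ 2 / 2)) *
          Real.exp (c * ‖t * v‖ ^ 2 / 2) ≤ (M * Real.exp 5) * Real.exp 1 :=
          mul_le_mul (h8.trans h9) h10 (Real.exp_pos _).le (by positivity)
      _ = M * Real.exp 6 := by
          rw [mul_assoc, ← Real.exp_add]
          norm_num
      _ ≤ 729 * M := by nlinarith [PLip_exp6]
  -- the derivative
  have hr : 0 < 1 / (4 * s * ‖v‖) := by positivity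
  have hr1 : 1 ≤ 1 / (4 * s * ‖v‖) := by
    rw [le_div_iff₀ (by positivity)]
    linarith
  have hder : ∀ t ∈ Metric.closedBall (0 : ℂ) 1, ‖deriv ψ t‖ ≤ 2916 * s * ‖v‖ * M := by
    intro t ht
    rw [mem_closedBall_zero_iff] at ht
    have h1 := Complex.norm_deriv_le_of_forall_mem_sphere_norm_le (f := ψ) (c := t)
      (C := 729 * M) hr hψd.diffContOnCl (by
        intro y hy
        apply hb
        rw [mem_sphere_iff_norm] at hy
        have h2 : ‖y‖ ≤ 1 / (4 * s * ‖v‖) + 1 := by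
          have := norm_add_le (y - t) t
          rw [sub_add_cancel] at this
          linarith
        have h3 : ‖y‖ ≤ 2 * (1 / (4 * s * ‖v‖)) := by linarith
        have h4 : 2 * s * (‖y‖ * ‖v‖) ≤ 2 * s * (2 * (1 / (4 * s * ‖v‖)) * ‖v‖) := by
          have : ‖y‖ * ‖v‖ ≤ 2 * (1 / (4 * s * ‖v‖)) * ‖v‖ :=
            mul_le_mul_of_nonneg_right h3 hv0.le
          nlinarith
        refine h4.trans (le_of_eq ?_)
        field_simp
        norm_num)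
    refine h1.trans (le_of_eq ?_)
    field_simp
    ring
  have hmv := Convex.norm_image_sub_le_of_norm_deriv_le (fun t _ => hψd t) hder
    (convex_closedBall (0 : ℂ) 1) (x := 1) (y := 0) (by simp) (by simp)
  have e0 : ‖ψ 0‖ = ‖φ z1 (conj z1)‖ * Real.exp (-(c * ‖z1‖ ^ 2 / 2)) := by
    rw [hψ]
    simp only
    rw [PLip_norm]
    simp
  have e1 : ‖ψ 1‖ = ‖φ z2 (conj z2)‖ * Real.exp (-(c * ‖z2‖ ^ 2 / 2)) *
      Real.exp (c * ‖v‖ ^ 2 / 2) := by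
    have e2 : z1 + 1 * v = z2 := by rw [hv]; ring
    have e3 : conj z1 + 1 * conj v = conj z2 := by rw [hv, map_sub]; ring
    rw [hψ]
    simp only
    rw [PLip_norm, e2, e3, one_mul]
  have h5 : ‖ψ 0‖ ≤ ‖ψ 1‖ + 2916 * s * ‖v‖ * M := by
    have h6 := norm_sub_norm_le (ψ 0) (ψ 1)
    rw [zero_sub, norm_neg, norm_one, mul_one] at hmv
    linarith
  rw [e0, e1] at h5
  set E2 : ℝ := ‖φ z2 (conj z2)‖ * Real.exp (-(c * ‖z2‖ ^ 2 / 2)) with hE2d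
  have hE2M : E2 ≤ M := h z2
  have hx0 : 0 ≤ c * ‖v‖ ^ 2 / 2 := by positivity
  have hx1 : c * ‖v‖ ^ 2 / 2 ≤ s * ‖v‖ / 8 := by
    have h7 : c * ‖v‖ ^ 2 ≤ s * s * ‖v‖ ^ 2 := mul_le_mul_of_nonneg_right hcs (by positivity)
    have h8 : 0 ≤ s * ‖v‖ := by positivity
    nlinarith
  have hx2 : c * ‖v‖ ^ 2 / 2 ≤ 1 := by linarith
  have h9 := PLip_exp hx0 hx2
  have h10 : E2 * Real.exp (c * ‖v‖ ^ 2 / 2) ≤ E2 * (1 + 3 * (c * ‖v‖ ^ 2 / 2)) :=
    mul_le_mul_of_nonneg_left h9 hE2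
  have h11 : E2 * (c * ‖v‖ ^ 2 / 2) ≤ M * (s * ‖v‖ / 8) :=
    mul_le_mul hE2M hx1 hx0 hM
  have h12 : 0 ≤ s * ‖v‖ * M := by positivity
  nlinarith

end Pool.Agent.RHK
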