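import Pool.Agent.RHK.Core.LDefs
import Pool.Agent.RHK.Core.Pav
import Pool.Agent.RHK.Core.PLip
import Pool.Agent.RHK.Core.EntD

/-!
Project ROHK, block CORE, section 4 (L), module RHK-LipD.
The weighted norm of the two-torus function is Lipschitz in `d`.
Plan. One coordinate `i ∈ Y` after the other (induction over a finset: replace `d i` by `d' i`; all the
intermediate points vanish off `Y`; for `i ∉ Y` nothing changes since `d i = d' i = 0`). For fixed `z1`,
`x2` and fixed other coordinates of `d`, with `t = d i`, `t' = conj (d i)` independent: the factor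
`FF a T1 m (rp z1 d)` is a polynomial of degree `≤ m i < K` in `t` (PAV_FF: the coordinate `v.2 i` of
`rp z1 d` is `conj (z1 i) + t`, the coefficients `h j` do not depend on it: constants), the factor
`FF b T2 l (rp x2 (-conj d))` is a polynomial of degree `≤ l i < K` in `t'` (coordinate
`conj (x2 i) - t'`, expand by the binomial theorem). So `Gam = φ (d i) (conj (d i))` with `φ` in `PA K`
(coefficient of `t'^j`: a polynomial in `t`, entire). `lemLip` (PLip) with `c = 2 lam` (weight
`exp (-(2 lam ‖t‖^2/2)) = exp (-(lam ‖t‖^2))`) and `M' = M / (other weights)`,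
`exp (-(lam nsq (update d i t))) = exp (-(lam ‖t‖^2)) * const`:
change `≤ 10000 √(2 lam K) ‖d i - d' i‖ M`; `C = 20000 (1 + card ι)`.
-/

set_option autoImplicit false

namespace Pool.Agent.RHK

open Complex ComplexConjugate Finset

variable {ι : Type} [Fintype ι] [DecidableEq ι]

private theorem lipd_b (b : ι → ℝ) {T : (ι → ℂ) → ℂ} (hT : Differentiable ℂ T) (l : ι → ℕ) (i : ι)
    (x : ι → ℂ) (D : ι → ℂ) {K : ℕ} (hl : l i + 1 ≤ K) :
    ∃ c : ℕ → ℂ, ∀ t' : ℂ,
      FF b T l (rp x (Function.update D i (-t'))) = ∑ j ∈ range K, t' ^ j * c j := by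
  obtain ⟨h, -, hi, he⟩ := PAV_mono hl (PAV_FF b hT l i)
  refine ⟨fun j => ∑ r ∈ range K, (-1) ^ j * conj (x i) ^ (r - j) * (r.choose j : ℂ) * h r (rp x D),
    fun t' => ?_⟩
  have e1 : rp x (Function.update D i (-t')) =
      ((rp x D).1, Function.update (rp x D).2 i (conj (x i) - t')) := by
    unfold rp
    refine Prod.ext rfl ?_
    funext j
    by_cases hj : j = i
    · subst hj
      simp [cj, sub_eq_add_neg]
    · simp [Function.update_of_ne hj]
  rw [e1, he]
  simp only [hi, Function.update_self]
  simp only [Finset.mul_sum]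
  rw [Finset.sum_comm]
  refine Finset.sum_congr rfl fun r hr => ?_
  have e2 : (conj (x i) - t') ^ r =
      ∑ j ∈ range K, (-t') ^ j * conj (x i) ^ (r - j) * (r.choose j : ℂ) := by
    rw [sub_eq_add_neg, add_comm, add_pow]
    refine Finset.sum_subset ?_ ?_
    · intro j hj
      rw [Finset.mem_range] at *
      omega
    · intro j _ hj
      rw [Finset.mem_range, not_lt] at hj
      rw [Nat.choose_eq_zero_of_lt (by omega)]
      simp
  rw [e2, Finset.sum_mul]
  refine Finset.sum_congr rfl fun j _ => ?_
  rw [neg_pow]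
  ring

private theorem lipd_pa (c : CoreG ι) {K : ℕ} (p : (ι → Fin K) → (ι → Fin K) → ℂ)
    (z1 x2 e : ι → ℂ) (i : ι) :
    ∃ φ : ℂ → ℂ → ℂ, PA K φ ∧ ∀ t : ℂ, c.Gam p z1 x2 (Function.update e i t) = φ t (conj t) := by
  have h1 : ∀ l : ι → Fin K, ∃ g : ℕ → ℂ, ∀ t' : ℂ,
      FF c.b c.T2 (fun j => (l j : ℕ)) (rp x2 (Function.update (fun j => - conj (e j)) i (-t'))) =
        ∑ j ∈ range K, t' ^ j * g j := by
    intro l
    exact lipd_b c.b c.d2 (fun j => (l j : ℕ)) i x2 _ (l i).2
  choose g hg using h1
  refine ⟨fun t t' => ∑ m, ∑ l, p m l *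
    (FF c.a c.T1 (fun j => (m j : ℕ)) (rp z1 (Function.update e i t)) *
      FF c.b c.T2 (fun j => (l j : ℕ))
        (rp x2 (Function.update (fun j => - conj (e j)) i (-t')))), ?_, ?_⟩
  · refine ⟨fun j t => ∑ m, ∑ l, p m l *
      (FF c.a c.T1 (fun j => (m j : ℕ)) (rp z1 (Function.update e i t)) * g l j), ?_, ?_⟩
    · intro j
      have h2 : Differentiable ℂ (fun t : ℂ => (rp z1 (Function.update e i t) : VV ι)) := by
        unfold rp
        refine (differentiable_const _).prodMk ((differentiable_const _).add ?_)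
        intro t
        exact (hasDerivAt_update e i t).differentiableAt
      refine Differentiable.fun_sum fun m _ => Differentiable.fun_sum fun l _ => ?_
      exact (differentiable_const _).mul
        (((diff_FF c.a c.d1 _).comp h2).mul (differentiable_const _))
    · intro z z'
      simp only [hg, Finset.mul_sum]
      have e3 : ∀ m : ι → Fin K, ∑ l, ∑ j ∈ range K, p m l *
          (FF c.a c.T1 (fun j => (m j : ℕ)) (rp z1 (Function.update e i z)) * (z' ^ j * g l j)) =
          ∑ j ∈ range K, ∑ l, p m l *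
          (FF c.a c.T1 (fun j => (m j : ℕ)) (rp z1 (Function.update e i z)) * (z' ^ j * g l j)) :=
        fun m => Finset.sum_comm
      simp only [e3]
      rw [Finset.sum_comm]
      refine Finset.sum_congr rfl fun j _ => Finset.sum_congr rfl fun m _ =>
        Finset.sum_congr rfl fun l _ => ?_
      ring
  · intro t
    unfold CoreG.Gam
    have e4 : (fun j => - conj (Function.update e i t j)) =
        Function.update (fun j => - conj (e j)) i (-conj t) := by
      funext j
      by_cases hj : j = i
      · subst hj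
        simp
      · simp [Function.update_of_ne hj]
    rw [e4]

private theorem lipd_nsq (e : ι → ℂ) (i : ι) (t : ℂ) :
    nsq (Function.update e i t) = ‖t‖ ^ 2 + ∑ j ∈ univ.erase i, ‖e j‖ ^ 2 := by
  unfold nsq
  rw [← Finset.add_sum_erase _ _ (Finset.mem_univ i)]
  simp only [Function.update_self]
  congr 1
  refine Finset.sum_congr rfl fun j hj => ?_
  rw [Function.update_of_ne (Finset.ne_of_mem_erase hj)]

private theorem lipd_step (c : CoreG ι) {K : ℕ} (hK : 1 ≤ K) {lam : ℝ} (hlam : 0 < lam)
    (p : (ι → Fin K) → (ι → Fin K) → ℂ) (z1 x2 e : ι → ℂ) (M : ℝ) (he : supY c.Y e)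
    (h : ∀ e, supY c.Y e → c.nG p z1 x2 e * Real.exp (-(lam * nsq e)) ≤ M) (i : ι) (hi : i ∈ c.Y)
    (t t' : ℂ) :
    c.nG p z1 x2 (Function.update e i t) * Real.exp (-(lam * nsq (Function.update e i t))) ≤
      c.nG p z1 x2 (Function.update e i t') * Real.exp (-(lam * nsq (Function.update e i t'))) +
        10000 * √(2 * lam * K) * ‖t - t'‖ * M := by
  obtain ⟨φ, hφ, hG⟩ := lipd_pa c p z1 x2 e i
  set R : ℝ := ∑ j ∈ univ.erase i, ‖e j‖ ^ 2 with hR
  set B : ℝ := (wtE c.a z1 * wtE c.b x2) * Real.exp (-(lam * R)) with hB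
  have hB0 : 0 < B := by
    rw [hB]
    unfold wtE
    positivity
  have key : ∀ s : ℂ, c.nG p z1 x2 (Function.update e i s) *
      Real.exp (-(lam * nsq (Function.update e i s))) =
      (‖φ s (conj s)‖ * Real.exp (-(2 * lam * ‖s‖ ^ 2 / 2))) * B := by
    intro s
    unfold CoreG.nG
    rw [hG s, lipd_nsq, ← hR, hB]
    have e5 : -(lam * (‖s‖ ^ 2 + R)) = -(2 * lam * ‖s‖ ^ 2 / 2) + -(lam * R) := by ring
    rw [e5, Real.exp_add]
    ring
  have hsup : ∀ s : ℂ, supY c.Y (Function.update e i s) := by
    intro s j hj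
    have : j ≠ i := fun h => hj (h ▸ hi)
    rw [Function.update_of_ne this]
    exact he j hj
  have h1 := lemLip K hK φ hφ (2 * lam) (M / B) (by positivity) (by
    intro z
    rw [le_div_iff₀ hB0, ← key z]
    exact h _ (hsup z)) t t'
  rw [key t, key t']
  calc (‖φ t (conj t)‖ * Real.exp (-(2 * lam * ‖t‖ ^ 2 / 2))) * B
      ≤ (‖φ t' (conj t')‖ * Real.exp (-(2 * lam * ‖t'‖ ^ 2 / 2)) +
        10000 * √(2 * lam * K) * ‖t - t'‖ * (M / B)) * B :=
        mul_le_mul_of_nonneg_right h1 hB0.le
    _ = (‖φ t' (conj t')‖ * Real.exp (-(2 * lam * ‖t'‖ ^ 2 / 2))) * B +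
        10000 * √(2 * lam * K) * ‖t - t'‖ * M := by
        rw [add_mul]
        congr 1
        field_simp

/-- The weighted norm of the two-torus function is Lipschitz in `d`. -/
theorem nG_lipD (c : CoreG ι) : ∃ C : ℝ, 1 ≤ C ∧ ∀ K : ℕ, 1 ≤ K → ∀ lam : ℝ, 0 < lam →
    ∀ (p : (ι → Fin K) → (ι → Fin K) → ℂ) (z1 x2 d d' : ι → ℂ) (M ρ : ℝ), 0 ≤ ρ →
    supY c.Y d → supY c.Y d' →
    (∀ e, supY c.Y e → c.nG p z1 x2 e * Real.exp (-(lam * nsq e)) ≤ M) →
    (∀ i, ‖d i - d' i‖ ≤ ρ) →
    c.nG p z1 x2 d * Real.exp (-(lam * nsq d)) ≤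
      c.nG p z1 x2 d' * Real.exp (-(lam * nsq d')) + C * Real.sqrt (lam * K) * ρ * M := by
  refine ⟨20000 * (1 + Fintype.card ι), ?_, ?_⟩
  · have : (0 : ℝ) ≤ Fintype.card ι := Nat.cast_nonneg _
    linarith
  intro K hK lam hlam p z1 x2 d d' M ρ hρ hd hd' hM hdd
  have hM0 : 0 ≤ M := by
    refine le_trans ?_ (hM d hd)
    unfold CoreG.nG wtE
    positivity
  set s : ℝ := √(2 * lam * K) with hs
  have hs0 : 0 ≤ s := Real.sqrt_nonneg _
  have key : ∀ S : Finset ι, c.nG p z1 x2 d * Real.exp (-(lam * nsq d)) ≤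
      c.nG p z1 x2 (fun i => if i ∈ S then d' i else d i) *
        Real.exp (-(lam * nsq (fun i => if i ∈ S then d' i else d i))) +
        (S.card : ℝ) * (10000 * s * ρ * M) := by
    intro S
    induction S using Finset.induction_on with
    | empty => simp
    | insert i S hiS ih =>
      set e : ι → ℂ := fun j => if j ∈ S then d' j else d j with hedef
      have hesup : supY c.Y e := by
        intro j hj
        simp only [hedef]
        split_ifs
        · exact hd' j hj
        · exact hd j hj
      have e1 : (fun j => if j ∈ insert i S then d' j else d j) = Function.update e i (d' i) := by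
        funext j
        by_cases hj : j = i
        · subst hj
          simp
        · rw [Function.update_of_ne hj]
          simp [hedef, hj]
      have e2 : e = Function.update e i (d i) := by
        funext j
        by_cases hj : j = i
        · subst hj
          simp [hedef, hiS]
        · rw [Function.update_of_ne hj]
      have hstep : c.nG p z1 x2 e * Real.exp (-(lam * nsq e)) ≤
          c.nG p z1 x2 (Function.update e i (d' i)) *
            Real.exp (-(lam * nsq (Function.update e i (d' i)))) + 10000 * s * ρ * M := by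
        by_cases hi : i ∈ c.Y
        · have h3 := lipd_step c hK hlam p z1 x2 e M hesup hM i hi (d i) (d' i)
          rw [← e2, ← hs] at h3
          refine h3.trans ?_
          have h4 : 10000 * s * ‖d i - d' i‖ * M ≤ 10000 * s * ρ * M := by
            have := hdd i
            gcongr
          linarith
        · have e3 : Function.update e i (d' i) = e := by
            have h5 : d' i = d i := by rw [hd' i hi, hd i hi]
            rw [h5]
            exact e2.symm
          rw [e3]
          have : 0 ≤ 10000 * s * ρ * M := by positivity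
          linarith
      rw [e1, Finset.card_insert_of_notMem hiS]
      push_cast
      linarith
  have h6 := key univ
  have e7 : (fun i => if i ∈ (univ : Finset ι) then d' i else d i) = d' := by
    funext j
    simp
  rw [e7, Finset.card_univ] at h6
  refine h6.trans ?_
  have h7 : s ≤ 2 * √(lam * K) := by
    rw [hs]
    have h8 : 2 * √(lam * K) = √(4 * (lam * K)) := by
      have h4 : √(4 : ℝ) = 2 := by
        rw [show (4 : ℝ) = 2 ^ 2 by norm_num, Real.sqrt_sq (by norm_num)]
      rw [Real.sqrt_mul (show (0 : ℝ) ≤ 4 by norm_num) (lam * K), h4]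
    rw [h8]
    apply Real.sqrt_le_sqrt
    have : (0 : ℝ) ≤ lam * K := by positivity
    linarith
  have h9 : (0 : ℝ) ≤ Fintype.card ι := Nat.cast_nonneg _
  have h10 : (Fintype.card ι : ℝ) * (10000 * s * ρ * M) ≤
      (1 + Fintype.card ι) * (10000 * (2 * √(lam * K)) * ρ * M) := by
    have h11 : 10000 * s * ρ * M ≤ 10000 * (2 * √(lam * K)) * ρ * M := by
      gcongr
    have h12 : 0 ≤ 10000 * s * ρ * M := by positivity
    exact mul_le_mul (by linarith) h11 h12 (by linarith)
  nlinarith [h10]

end Pool.Agent.RHK
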