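import Pool.Agent.RHK.Core.LDefs
import Pool.Agent.RHK.Core.Pav
import Pool.Agent.RHK.Core.PLip
import Pool.Agent.RHK.Core.EntD

/-!
Project ROHK, block CORE, section 4 (L), module RHK-LipZ.
The norm of the two-torus function is Lipschitz in the second point with constant `C √K sup`.
Plan. One coordinate after the other (induction over a finset of coordinates: replace `x2 i` by `x2' i`
for `i` in the finset), so it is enough to treat `x2' = update x2 i t` (first lemma; the sum over the
coordinates gives the factor `card ι`). Put `δ = -conj d` (the connection of the second factor). As a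
function of the coordinates `v.1 i = t`, `v.2 i = t'` of the point `v = rp x2 δ` at which the jets of `T2`
are taken `Gam` is `∑ q_l FF b T2 l`, `q_l = ∑_m p m l * FF a T1 m (rp z1 d)` constants, so it is in
`PAV i K` (PAV_FF, PAV_mono, PAV_const_mul, PAV_sum) and PAV_pa gives
`ψ t t' = Gam at (update v.1 i t, update v.2 i t')` in `PA K`. The real locus is `t' = conj t + δ i`, so
use `φ t t' = ψ t (t' + δ i)`, again in `PA K` (expand `(t' + δ i)^j` by the binomial theorem, coefficients
are finite sums of entire functions). `lemLip` (PLip) with `c = b i` and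
`M' = M / (wtE a z1 * ∏_{j ≠ i} exp (- b_j ‖x2 j‖^2/2))`: the weights of the other coordinates are constants
(`wtE b (update x2 i t) = (∏_{j ≠ i} ..) * exp (-(b i * ‖t‖^2/2))`). Result:
`nG (x2) ≤ nG (update x2 i t) + 10000 √(b i K) ‖x2 i - t‖ M`; `C = 10000 (1 + ∑_i √(b i)) `.
-/

set_option autoImplicit false

namespace Pool.Agent.RHK

open Complex ComplexConjugate Finset

variable {ι : Type} [Fintype ι] [DecidableEq ι]

private theorem LipZ_shift {K : ℕ} {ψ : ℂ → ℂ → ℂ} (h : PA K ψ) (e : ℂ) :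
    PA K (fun t t' => ψ t (t' + e)) := by
  obtain ⟨g, hg, hψ⟩ := h
  refine ⟨fun k z => ∑ j ∈ range K, ((j.choose k : ℂ) * e ^ (j - k)) * g j z, ?_, ?_⟩
  · intro k
    refine Differentiable.fun_sum fun j _ => ?_
    exact (hg j).const_mul _
  · intro z z'
    simp only
    rw [hψ]
    have h1 : ∀ j ∈ range K, (z' + e) ^ j * g j z =
        ∑ k ∈ range K, z' ^ k * (((j.choose k : ℂ) * e ^ (j - k)) * g j z) := by
      intro j hj
      rw [add_pow, Finset.sum_mul]
      have hsub : range (j + 1) ⊆ range K := by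
        intro x hx
        rw [Finset.mem_range] at hx hj ⊢
        omega
      rw [← Finset.sum_subset hsub]
      · refine Finset.sum_congr rfl fun k _ => ?_
        ring
      · intro k _ hk
        have h2 : j < k := by
          rw [Finset.mem_range] at hk
          omega
        rw [Nat.choose_eq_zero_of_lt h2]
        simp
    rw [Finset.sum_congr rfl h1, Finset.sum_comm]
    refine Finset.sum_congr rfl fun k _ => ?_
    rw [Finset.mul_sum]

private noncomputable def LipZ_Phi (c : CoreG ι) {K : ℕ} (p : (ι → Fin K) → (ι → Fin K) → ℂ) (z1 d : ι → ℂ) :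
    VV ι → ℂ :=
  fun v => ∑ l : ι → Fin K, (∑ m : ι → Fin K, p m l * FF c.a c.T1 (fun i => (m i : ℕ)) (rp z1 d)) *
    FF c.b c.T2 (fun i => (l i : ℕ)) v

private theorem LipZ_Gam (c : CoreG ι) {K : ℕ} (p : (ι → Fin K) → (ι → Fin K) → ℂ) (z1 x2 d : ι → ℂ) :
    c.Gam p z1 x2 d = LipZ_Phi c p z1 d (rp x2 (fun i => - conj (d i))) := by
  unfold CoreG.Gam LipZ_Phi
  rw [Finset.sum_comm]
  refine Finset.sum_congr rfl fun l _ => ?_
  rw [Finset.sum_mul]
  refine Finset.sum_congr rfl fun m _ => ?_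
  ring

private theorem LipZ_PAV (c : CoreG ι) {K : ℕ} (p : (ι → Fin K) → (ι → Fin K) → ℂ) (z1 d : ι → ℂ) (i : ι) :
    PAV i K (LipZ_Phi c p z1 d) := by
  unfold LipZ_Phi
  refine PAV_sum (Finset.univ : Finset (ι → Fin K))
    (fun l v => (∑ m : ι → Fin K, p m l * FF c.a c.T1 (fun i => (m i : ℕ)) (rp z1 d)) *
      FF c.b c.T2 (fun i => (l i : ℕ)) v) ?_
  intro l _
  refine PAV_const_mul _ ?_
  exact PAV_mono (Nat.succ_le_of_lt (l i).isLt) (PAV_FF c.b c.d2 _ i)

omit [Fintype ι] in
private theorem LipZ_rp (x δ : ι → ℂ) (i : ι) (t : ℂ) :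
    rp (Function.update x i t) δ =
      (Function.update (rp x δ).1 i t, Function.update (rp x δ).2 i (conj t + δ i)) := by
  unfold rp cj
  refine Prod.ext rfl ?_
  funext j
  by_cases hj : j = i
  · subst hj
    simp
  · simp [Function.update_of_ne hj]

private theorem LipZ_wt (b : ι → ℝ) (x : ι → ℂ) (i : ι) (t : ℂ) :
    wtE b (Function.update x i t) =
      Real.exp (-(∑ j ∈ Finset.univ.erase i, b j * ‖x j‖ ^ 2 / 2)) * Real.exp (-(b i * ‖t‖ ^ 2 / 2)) := by
  unfold wtE
  rw [← Real.exp_add]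
  congr 1
  rw [← Finset.add_sum_erase Finset.univ _ (Finset.mem_univ i)]
  have h1 : ∑ j ∈ Finset.univ.erase i, b j * ‖(Function.update x i t) j‖ ^ 2 / 2 =
      ∑ j ∈ Finset.univ.erase i, b j * ‖x j‖ ^ 2 / 2 := by
    refine Finset.sum_congr rfl fun j hj => ?_
    rw [Function.update_of_ne (Finset.ne_of_mem_erase hj)]
  rw [h1, Function.update_self]
  ring

private theorem LipZ_one (c : CoreG ι) {K : ℕ} (hK : 1 ≤ K) (p : (ι → Fin K) → (ι → Fin K) → ℂ)
    (z1 x2 d : ι → ℂ) (M : ℝ) (hM : ∀ w, c.nG p z1 w d ≤ M) (i : ι) (s : ℂ) :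
    c.nG p z1 x2 d ≤ c.nG p z1 (Function.update x2 i s) d +
      10000 * Real.sqrt (c.b i * K) * ‖x2 i - s‖ * M := by
  set δ : ι → ℂ := fun i => - conj (d i) with hδ
  set Φ := LipZ_Phi c p z1 d with hΦ
  set W : ℝ := wtE c.a z1 * Real.exp (-(∑ j ∈ Finset.univ.erase i, c.b j * ‖x2 j‖ ^ 2 / 2)) with hW
  have hW0 : 0 < W := mul_pos (Real.exp_pos _) (Real.exp_pos _)
  set φ : ℂ → ℂ → ℂ := fun t t' => Φ (Function.update (rp x2 δ).1 i t,
    Function.update (rp x2 δ).2 i (t' + δ i)) with hφ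
  have hPA : PA K φ := LipZ_shift (PAV_pa (LipZ_PAV c p z1 d i) (rp x2 δ)) (δ i)
  have hnG : ∀ t, c.nG p z1 (Function.update x2 i t) d =
      ‖φ t (conj t)‖ * Real.exp (-(c.b i * ‖t‖ ^ 2 / 2)) * W := by
    intro t
    unfold CoreG.nG
    rw [LipZ_Gam, LipZ_rp, LipZ_wt, hW]
    simp only [hφ, hΦ, hδ]
    ring
  have h1 := lemLip K hK φ hPA (c.b i) (M / W) (c.hb i) (by
    intro t
    rw [le_div_iff₀ hW0, ← hnG t]
    exact hM _) (x2 i) s
  have h2 := mul_le_mul_of_nonneg_right h1 hW0.le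
  rw [← hnG (x2 i), Function.update_eq_self, add_mul, ← hnG s] at h2
  refine h2.trans (le_of_eq ?_)
  congr 1
  field_simp

/-- The norm of the two-torus function is Lipschitz in the second point. -/
theorem nG_lipZ (c : CoreG ι) : ∃ C : ℝ, 1 ≤ C ∧ ∀ K : ℕ, 1 ≤ K →
    ∀ (p : (ι → Fin K) → (ι → Fin K) → ℂ) (z1 x2 x2' d : ι → ℂ) (M ρ : ℝ), 0 ≤ ρ →
    (∀ w, c.nG p z1 w d ≤ M) → (∀ i, ‖x2 i - x2' i‖ ≤ ρ) →
    c.nG p z1 x2 d ≤ c.nG p z1 x2' d + C * Real.sqrt K * ρ * M := by
  have hsum : 0 ≤ ∑ i, Real.sqrt (c.b i) := Finset.sum_nonneg fun i _ => Real.sqrt_nonneg _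
  refine ⟨10000 * (1 + ∑ i, Real.sqrt (c.b i)), by linarith, ?_⟩
  intro K hK p z1 x2 x2' d M ρ hρ hM hx
  have hM0 : 0 ≤ M := by
    refine le_trans ?_ (hM x2)
    unfold CoreG.nG wtE
    positivity
  have key : ∀ S : Finset ι, c.nG p z1 x2 d ≤ c.nG p z1 (fun j => if j ∈ S then x2' j else x2 j) d +
      ∑ i ∈ S, 10000 * Real.sqrt (c.b i * K) * ρ * M := by
    intro S
    induction S using Finset.induction_on with
    | empty => simp
    | insert i S hi ih =>
      have e1 : (fun j => if j ∈ insert i S then x2' j else x2 j) =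
          Function.update (fun j => if j ∈ S then x2' j else x2 j) i (x2' i) := by
        funext j
        by_cases hj : j = i
        · subst hj
          simp
        · rw [Function.update_of_ne hj]
          simp [Finset.mem_insert, hj]
      have h1 := LipZ_one c hK p z1 (fun j => if j ∈ S then x2' j else x2 j) d M hM i (x2' i)
      rw [← e1] at h1
      simp only [hi, if_false] at h1
      have h2 : 10000 * Real.sqrt (c.b i * K) * ‖x2 i - x2' i‖ * M ≤
          10000 * Real.sqrt (c.b i * K) * ρ * M := by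
        refine mul_le_mul_of_nonneg_right ?_ hM0
        exact mul_le_mul_of_nonneg_left (hx i) (by positivity)
      rw [Finset.sum_insert hi]
      linarith
  have h1 := key Finset.univ
  simp only [Finset.mem_univ, if_true] at h1
  refine h1.trans (add_le_add le_rfl ?_)
  have h2 : ∑ i, 10000 * Real.sqrt (c.b i * K) * ρ * M =
      10000 * (∑ i, Real.sqrt (c.b i)) * Real.sqrt K * ρ * M := by
    rw [Finset.mul_sum, Finset.sum_mul, Finset.sum_mul, Finset.sum_mul]
    refine Finset.sum_congr rfl fun i _ => ?_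
    rw [Real.sqrt_mul (c.hb i).le]
    ring
  rw [h2]
  have h3 : 0 ≤ Real.sqrt K * ρ * M := by positivity
  nlinarith

end Pool.Agent.RHK
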