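import Pool.Agent.RHK.Core.LDefs
import Pool.Agent.RHK.Core.Aut
import Pool.Agent.RHK.Core.LipZ
import Pool.Agent.RHK.Core.LipD

/-!
Project ROHK, block CORE, section 4 (L), module RHK-LCov (statement (4b)): DONE (helper98).
`lam = K / (C1 G)`, covering with radii `r/√K` off `Y`, `C6 √G / K` on `Y`, Lipschitz bounds.
-/

set_option autoImplicit false

namespace Pool.Agent.RHK

open Complex ComplexConjugate Finset

variable {ι : Type} [Fintype ι] [DecidableEq ι]

/-- (4b): the two-torus function is controlled by its real points, up to half of itself. -/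
theorem nG_step (c : CoreG ι) : ∃ C1 : ℝ, 1 ≤ C1 ∧ ∀ K : ℕ, 1 ≤ K → ∀ G : ℝ, 1 ≤ G →
    G ^ c.Y.card = (K : ℝ) ^ (Fintype.card ι + c.Y.card) →
    ∀ (p : (ι → Fin K) → (ι → Fin K) → ℂ) (B M : ℝ), 0 ≤ M →
    (∀ d, supY c.Y d → c.BdC p d (B * Real.exp (K / (C1 * G) * nsq d))) →
    (∀ z1 z2 d, supY c.Y d → c.nG p z1 z2 d ≤ M * Real.exp (K / (C1 * G) * nsq d)) →
    ∀ z1 z2 d, supY c.Y d → c.nG p z1 z2 d ≤ (B + M / 2) * Real.exp (K / (C1 * G) * nsq d) := by
  obtain ⟨C0, hC0, hcov⟩ := c.cov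
  obtain ⟨CZ, hCZ, hZ⟩ := nG_lipZ c
  obtain ⟨CD, hCD, hD⟩ := nG_lipD c
  set g := Fintype.card ι with hg
  set y := c.Y.card with hy
  have hy1 : 1 ≤ y := c.hY.card_pos
  have hyg : y ≤ g := Finset.card_le_univ _
  set r : ℝ := 1 / (4 * CZ) with hr
  have hr0 : 0 < r := by positivity
  set C6 : ℝ := max 1 (C0 / r ^ (g - y)) with hC6
  have hC61 : 1 ≤ C6 := le_max_left _ _
  have hC6b : C0 ≤ r ^ (g - y) * C6 := by
    have h1 : C0 / r ^ (g - y) ≤ C6 := le_max_right _ _
    have h2 : 0 < r ^ (g - y) := pow_pos hr0 _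
    rw [div_le_iff₀ h2] at h1
    linarith [mul_comm C6 (r ^ (g - y))]
  have h4 : 1 ≤ 4 * CD * C6 := by nlinarith
  refine ⟨(4 * CD * C6) ^ 2, one_le_pow₀ h4, ?_⟩
  intro K hK G hG hGK p B M hM hB hMM z1 z2 d0 hd0
  set C1 : ℝ := (4 * CD * C6) ^ 2 with hC1
  have hC1p : 0 < C1 := by positivity
  have hKr : (1 : ℝ) ≤ K := by exact_mod_cast hK
  have hK0 : (0 : ℝ) < K := by linarith
  have hG0 : (0 : ℝ) < G := by linarith
  set lam : ℝ := K / (C1 * G) with hlam
  have hlam0 : 0 < lam := by positivity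
  set sK := Real.sqrt K with hsK
  have hsK0 : 0 < sK := Real.sqrt_pos.mpr hK0
  have hsK2 : sK ^ 2 = K := Real.sq_sqrt hK0.le
  set sG := Real.sqrt G with hsG
  have hsG0 : 0 < sG := Real.sqrt_pos.mpr hG0
  have hsG2 : sG ^ 2 = G := Real.sq_sqrt hG0.le
  set ρ1 : ℝ := r / sK with hρ1
  set ρ : ℝ := C6 * sG / K with hρ
  have hρ10 : 0 < ρ1 := by positivity
  have hρ0 : 0 < ρ := by positivity
  -- the volume of the box
  have hvol1 : sG ^ y = sK ^ (g + y) := by
    have h1 : (sG ^ y) ^ 2 = (sK ^ (g + y)) ^ 2 := by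
      rw [← pow_mul, ← pow_mul, mul_comm y 2, mul_comm (g + y) 2, pow_mul, pow_mul, hsG2, hsK2]
      exact hGK
    exact (pow_left_inj₀ (by positivity) (by positivity) two_ne_zero).mp h1
  have hvol2 : (sG / K) ^ y = sK ^ (g - y) := by
    rw [div_pow, hvol1, ← hsK2, ← pow_mul, div_eq_iff (by positivity), ← pow_add]
    congr 1
    omega
  have hvol : C0 ≤ ρ1 ^ (g - y) * ρ ^ y := by
    have h1 : ρ ^ y = C6 ^ y * sK ^ (g - y) := by
      rw [hρ, mul_div_assoc, mul_pow, hvol2]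
    have h2 : ρ1 ^ (g - y) * sK ^ (g - y) = r ^ (g - y) := by
      rw [← mul_pow, hρ1, div_mul_cancel₀ _ hsK0.ne']
    have h3 : C6 ≤ C6 ^ y := le_self_pow₀ hC61 (by omega)
    calc C0 ≤ r ^ (g - y) * C6 := hC6b
      _ ≤ r ^ (g - y) * C6 ^ y := by gcongr
      _ = ρ1 ^ (g - y) * ρ ^ y := by rw [h1, ← h2]; ring
  -- covering
  classical
  let R : ι → ℝ := fun i => if i ∈ c.Y then ρ else ρ1
  have hR0 : ∀ i, 0 < R i := by
    intro i
    simp only [R]
    split_ifs <;> assumption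
  have hRprod : ∏ i, R i = ρ1 ^ (g - y) * ρ ^ y := by
    simp only [R]
    rw [Finset.prod_ite, Finset.prod_const, Finset.prod_const]
    have e1 : (Finset.univ.filter (fun i => i ∈ c.Y)).card = y := by
      rw [Finset.filter_mem_eq_inter, Finset.univ_inter]
    have e2 : (Finset.univ.filter (fun i => i ∉ c.Y)).card = g - y := by
      have := Finset.card_filter_add_card_filter_not (s := (Finset.univ : Finset ι))
        (fun i => i ∈ c.Y)
      rw [e1, Finset.card_univ] at this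
      omega
    rw [e1, e2, mul_comm]
  obtain ⟨u, huO, hu⟩ := hcov R hR0 (by rw [hRprod]; exact hvol)
    (fun i => if i ∈ c.Y then conj (d0 i) + z1 i - conj (z2 i) else z1 i - z2 i)
  -- the new `d`
  let d : ι → ℂ := fun i => if i ∈ c.Y then z2 i + conj (u i) - conj (z1 i) else 0
  have hd : supY c.Y d := fun i hi => by simp [d, hi]
  have hdd0 : ∀ i, ‖d0 i - d i‖ ≤ ρ := by
    intro i
    by_cases hi : i ∈ c.Y
    · have h1 := hu i
      simp only [hi, if_true, R] at h1
      have h2 : d0 i - d i = conj (conj (d0 i) + z1 i - conj (z2 i) - u i) := by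
        simp only [d, hi, if_true, map_sub, map_add, Complex.conj_conj]
        ring
      rw [h2, Complex.norm_conj]
      exact h1
    · rw [hd0 i hi, hd i hi]
      simpa using hρ0.le
  let w : ι → ℂ := fun i => if i ∈ c.Y then z2 i else z1 i - u i
  have hw : ∀ i, ‖z2 i - w i‖ ≤ ρ1 := by
    intro i
    by_cases hi : i ∈ c.Y
    · simp [w, hi, hρ10.le]
    · have h1 := hu i
      simp only [hi, if_false, R] at h1
      have h2 : z2 i - w i = -(z1 i - z2 i - u i) := by
        simp only [w, hi, if_false]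
        ring
      rw [h2, norm_neg]
      exact h1
  have hzz : Pool.Agent.RHK.z2 c.Y z1 d = w + swu c.Y u := by
    funext i
    by_cases hi : i ∈ c.Y
    · simp [Pool.Agent.RHK.z2, w, swu, d, hi]
    · simp [Pool.Agent.RHK.z2, w, swu, d, hi]
  have hreal : c.nG p z1 w d ≤ B * Real.exp (lam * nsq d) := by
    have h1 := hB d hd z1
    rw [nf_eq_nG c p z1 d hd, hzz, nG_lat2 c p u huO z1 w d] at h1
    exact h1
  have hexp : ∀ e : ι → ℂ, Real.exp (lam * nsq e) * Real.exp (-(lam * nsq e)) = 1 := by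
    intro e
    rw [← Real.exp_add]
    simp
  -- Lipschitz in `z2`
  have hZ1 := hZ K hK p z1 z2 w d (M * Real.exp (lam * nsq d)) ρ1 hρ10.le
    (fun v => hMM z1 v d hd) hw
  have hcz : CZ * sK * ρ1 = 1 / 4 := by
    rw [hρ1, hr]
    field_simp
  -- Lipschitz in `d`
  have hD1 := hD K hK lam hlam0 p z1 z2 d0 d M ρ hρ0.le hd0 hd (by
    intro e he
    calc c.nG p z1 z2 e * Real.exp (-(lam * nsq e))
        ≤ (M * Real.exp (lam * nsq e)) * Real.exp (-(lam * nsq e)) := by
          gcongr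
          exact hMM z1 z2 e he
      _ = M := by rw [mul_assoc, hexp, mul_one]) hdd0
  have hcd : CD * Real.sqrt (lam * K) * ρ = 1 / 4 := by
    have h1 : lam * K = (K / (4 * CD * C6 * sG)) ^ 2 := by
      rw [hlam, hC1, ← hsG2]
      field_simp
    rw [h1, Real.sqrt_sq (by positivity), hρ]
    field_simp
  have key : c.nG p z1 z2 d0 * Real.exp (-(lam * nsq d0)) ≤ B + M / 2 := by
    have h1 : c.nG p z1 z2 d * Real.exp (-(lam * nsq d)) ≤ B + M / 4 := by
      calc c.nG p z1 z2 d * Real.exp (-(lam * nsq d))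
          ≤ (B * Real.exp (lam * nsq d) + CZ * sK * ρ1 * (M * Real.exp (lam * nsq d)))
            * Real.exp (-(lam * nsq d)) := by
            gcongr
            linarith
        _ = (B + M / 4) * (Real.exp (lam * nsq d) * Real.exp (-(lam * nsq d))) := by
            rw [hcz]; ring
        _ = B + M / 4 := by rw [hexp, mul_one]
    rw [hcd] at hD1
    linarith
  calc c.nG p z1 z2 d0 = (c.nG p z1 z2 d0 * Real.exp (-(lam * nsq d0))) * Real.exp (lam * nsq d0) := by
        rw [mul_assoc, mul_comm (Real.exp (-(lam * nsq d0))), hexp, mul_one]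
    _ ≤ (B + M / 2) * Real.exp (lam * nsq d0) := by gcongr

end Pool.Agent.RHK
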