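import Pool.Agent.RHK.Core.Defs

/-!
ROHK-PTB (Mathlib only). Trivial bound for `(∂_z - a z')^m g` in one variable.

PLAN. (1) `(op1 a)^[m] (fun z _ => g z) z z' = iteratedDeriv m (fun t => g (z + t) * exp(-(a z' t))) 0` (induction on `m`,
generalising over `z`: `∂_z` of the right side at `m` minus `a z'` times it is the right side at `m+1`; or: prove
`(op1 a)^[m] (fun z _ => g z) z z' = exp(a z' z) iteratedDeriv m (fun s => g s exp(-(a z' s))) z`, an easy induction).
(2) Cauchy estimate on `|t| = r` (`Complex.norm_iteratedDeriv_le_of_forall_mem_sphere_norm_le`): with `z' = conj z + δ`,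
`|g(z+t)| |exp(-a z' t)| ≤ M exp(a|z+t|²/2 - a Re(z' t)) ≤ M exp(a|z|²/2 + a r²/2 + a|δ| r)`; `r = m/(sqrt m + |δ|)` (`m ≥ 1`),
`r² ≤ m`, `|δ| r ≤ m`, `m!/r^m ≤ (sqrt m + |δ|)^m`. So the bound is `exp(3 a m/2) (sqrt m + |δ|)^m`.
-/

set_option autoImplicit false

namespace Pool.Agent.RHK

open Complex ComplexConjugate Finset

private theorem PTB_exp (a : ℝ) (g : ℂ → ℂ) (hg : Differentiable ℂ g) (m : ℕ) (z z' : ℂ) :
    (op1 a)^[m] (fun z _ => g z) z z' =
      cexp (a * z' * z) * iteratedDeriv m (fun s => g s * cexp (-(a * z' * s))) z := by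
  have hd : Differentiable ℂ (fun s => g s * cexp (-(a * z' * s))) := by fun_prop
  induction m generalizing z with
  | zero =>
    rw [Function.iterate_zero, id, iteratedDeriv_zero]
    rw [mul_comm (g z), ← mul_assoc, ← Complex.exp_add]
    simp
  | succ m ih =>
    rw [Function.iterate_succ_apply']
    have h1 : op1 a ((op1 a)^[m] (fun z _ => g z)) z z' =
        deriv (fun t => (op1 a)^[m] (fun z _ => g z) t z') z -
          (a : ℂ) * z' * (op1 a)^[m] (fun z _ => g z) z z' := rfl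
    have h2 : (fun t => (op1 a)^[m] (fun z _ => g z) t z') =
        fun t => cexp (a * z' * t) * iteratedDeriv m (fun s => g s * cexp (-(a * z' * s))) t := by
      funext t
      exact ih t
    rw [h1, h2, ih z]
    have h3 : HasDerivAt (fun t : ℂ => cexp (a * z' * t)) (cexp (a * z' * z) * (a * z' * 1)) z :=
      ((hasDerivAt_id z).const_mul (a * z')).cexp
    have h4 : DifferentiableAt ℂ (iteratedDeriv m (fun s => g s * cexp (-(a * z' * s)))) z := by
      have h5 : ContDiff ℂ ((m : WithTop ℕ∞) + 1) (fun s => g s * cexp (-(a * z' * s))) := hd.contDiff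
      exact (h5.differentiable_iteratedDeriv m (by
        exact_mod_cast Nat.lt_succ_self m)) z
    have h6 := (h3.mul h4.hasDerivAt).deriv
    have h7 : deriv (fun t => cexp (a * z' * t) *
        iteratedDeriv m (fun s => g s * cexp (-(a * z' * s))) t) z =
        cexp (a * z' * z) * (a * z' * 1) *
          iteratedDeriv m (fun s => g s * cexp (-(a * z' * s))) z + cexp (a * z' * z) *
          deriv (iteratedDeriv m (fun s => g s * cexp (-(a * z' * s)))) z := h6
    rw [h7, iteratedDeriv_succ]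
    ring

theorem op1_iter (a : ℝ) (g : ℂ → ℂ) (hg : Differentiable ℂ g) (m : ℕ) (z z' : ℂ) :
    (op1 a)^[m] (fun z _ => g z) z z' =
      iteratedDeriv m (fun t => g (z + t) * cexp (-(a * z' * t))) 0 := by
  rw [PTB_exp a g hg]
  have hd : Differentiable ℂ (fun s => g s * cexp (-(a * z' * s))) := by fun_prop
  have h1 : (fun t => g (z + t) * cexp (-(a * z' * t))) =
      fun t => cexp (a * z' * z) * (fun t => (fun s => g s * cexp (-(a * z' * s))) (z + t)) t := by
    funext t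
    show g (z + t) * cexp (-(a * z' * t)) =
      cexp (a * z' * z) * (g (z + t) * cexp (-(a * z' * (z + t))))
    rw [mul_left_comm, ← Complex.exp_add]
    congr 2
    ring
  have hd2 : Differentiable ℂ (fun t => (fun s => g s * cexp (-(a * z' * s))) (z + t)) := by
    fun_prop
  have h10 : iteratedDeriv m (fun t => (fun s => g s * cexp (-(a * z' * s))) (z + t)) 0 =
      iteratedDeriv m (fun s => g s * cexp (-(a * z' * s))) z := by
    have h11 := congrFun (iteratedDeriv_comp_const_add m (fun s => g s * cexp (-(a * z' * s))) z) 0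
    refine h11.trans ?_
    rw [add_zero]
  rw [h1, iteratedDeriv_const_mul _ hd2.contDiff.contDiffAt, h10]

theorem op1_bound (a M : ℝ) (ha : 0 < a) (g : ℂ → ℂ) (hg : Differentiable ℂ g)
    (hM : ∀ z, ‖g z‖ * Real.exp (-(a * ‖z‖ ^ 2 / 2)) ≤ M) (m : ℕ) (z δ : ℂ) :
    ‖(op1 a)^[m] (fun z _ => g z) z (conj z + δ)‖ * Real.exp (-(a * ‖z‖ ^ 2 / 2)) ≤
      (Real.exp (2 * a) * (√m + ‖δ‖)) ^ m * M := by
  have hM0 : 0 ≤ M := le_trans (by positivity) (hM 0)
  rcases Nat.eq_zero_or_pos m with rfl | hm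
  · rw [pow_zero, one_mul]
    exact hM z
  have hm1 : (1 : ℝ) ≤ m := by exact_mod_cast hm
  have hsm : 0 < √(m : ℝ) := Real.sqrt_pos.2 (by linarith)
  have hS : 0 < √(m : ℝ) + ‖δ‖ := by positivity
  obtain ⟨r, hr⟩ : ∃ r : ℝ, r = m / (√(m : ℝ) + ‖δ‖) := ⟨_, rfl⟩
  have hr0 : 0 < r := by rw [hr]; positivity
  have hrS : r * (√(m : ℝ) + ‖δ‖) = m := by rw [hr]; exact div_mul_cancel₀ _ hS.ne'
  have hr1 : r ≤ √(m : ℝ) := by
    rw [hr, div_le_iff₀ hS]
    have h1 := Real.mul_self_sqrt (show (0 : ℝ) ≤ m by positivity)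
    nlinarith [norm_nonneg δ]
  have hr2 : r ^ 2 ≤ m := by
    have h1 := Real.sq_sqrt (show (0 : ℝ) ≤ m by positivity)
    calc r ^ 2 ≤ √(m : ℝ) ^ 2 := pow_le_pow_left₀ hr0.le hr1 2
      _ = m := h1
  have hr3 : ‖δ‖ * r ≤ m := by
    have h1 : 0 ≤ r * √(m : ℝ) := by positivity
    nlinarith
  have hd : Differentiable ℂ (fun t => g (z + t) * cexp (-(a * (conj z + δ) * t))) := by fun_prop
  have hC : ∀ t ∈ Metric.sphere (0 : ℂ) r, ‖g (z + t) * cexp (-(a * (conj z + δ) * t))‖ ≤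
      M * Real.exp (a * ‖z‖ ^ 2 / 2 + (a * r ^ 2 / 2 + a * (‖δ‖ * r))) := by
    intro t ht
    rw [mem_sphere_zero_iff_norm] at ht
    have h1 := hM (z + t)
    have h2 : ‖g (z + t)‖ ≤ M * Real.exp (a * ‖z + t‖ ^ 2 / 2) := by
      calc ‖g (z + t)‖ = ‖g (z + t)‖ * Real.exp (-(a * ‖z + t‖ ^ 2 / 2)) *
            Real.exp (a * ‖z + t‖ ^ 2 / 2) := by
              rw [mul_assoc, ← Real.exp_add, neg_add_cancel, Real.exp_zero, mul_one]
        _ ≤ _ := by gcongr
    have h3 : ‖z + t‖ ^ 2 = ‖z‖ ^ 2 + r ^ 2 + 2 * (conj z * t).re := by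
      rw [← ht, Complex.sq_norm, Complex.sq_norm, Complex.sq_norm, Complex.normSq_add]
      have h4 : (z * conj t).re = (conj z * t).re := by
        rw [← Complex.conj_re (z * conj t), map_mul, Complex.conj_conj]
      rw [h4]
    have h5 : -(‖δ‖ * r) ≤ (δ * t).re := by
      have h6 : |(δ * t).re| ≤ ‖δ * t‖ := Complex.abs_re_le_norm _
      rw [norm_mul, ht] at h6
      exact (abs_le.1 h6).1
    have h7 : (-(a * (conj z + δ) * t) : ℂ).re = -(a * ((conj z * t).re + (δ * t).re)) := by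
      have h8 : (-(a * (conj z + δ) * t) : ℂ) = -((a : ℂ) * (conj z * t + δ * t)) := by ring
      rw [h8, Complex.neg_re, Complex.re_ofReal_mul, Complex.add_re]
    rw [norm_mul, Complex.norm_exp, h7]
    calc ‖g (z + t)‖ * Real.exp (-(a * ((conj z * t).re + (δ * t).re)))
        ≤ M * Real.exp (a * ‖z + t‖ ^ 2 / 2) * Real.exp (-(a * ((conj z * t).re + (δ * t).re))) := by
          gcongr
      _ = M * Real.exp (a * ‖z + t‖ ^ 2 / 2 + -(a * ((conj z * t).re + (δ * t).re))) := by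
          rw [mul_assoc, ← Real.exp_add]
      _ ≤ M * Real.exp (a * ‖z‖ ^ 2 / 2 + (a * r ^ 2 / 2 + a * (‖δ‖ * r))) := by
          refine mul_le_mul_of_nonneg_left (Real.exp_le_exp.2 ?_) hM0
          rw [h3]
          nlinarith
  have hcau := Complex.norm_iteratedDeriv_le_of_forall_mem_sphere_norm_le m hr0
    hd.diffContOnCl hC
  rw [op1_iter a g hg]
  have hexp1 : Real.exp (a * r ^ 2 / 2 + a * (‖δ‖ * r)) ≤ Real.exp (2 * a) ^ m := by
    rw [← Real.exp_nat_mul]
    apply Real.exp_le_exp.2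
    nlinarith
  have hfac : (m.factorial : ℝ) ≤ (r * (√(m : ℝ) + ‖δ‖)) ^ m := by
    rw [hrS]
    exact_mod_cast Nat.factorial_le_pow m
  have hrm : 0 < r ^ m := by positivity
  calc ‖iteratedDeriv m (fun t => g (z + t) * cexp (-(a * (conj z + δ) * t))) 0‖ *
        Real.exp (-(a * ‖z‖ ^ 2 / 2))
      ≤ (m.factorial * (M * Real.exp (a * ‖z‖ ^ 2 / 2 + (a * r ^ 2 / 2 + a * (‖δ‖ * r)))) / r ^ m) *
        Real.exp (-(a * ‖z‖ ^ 2 / 2)) := by gcongr
    _ = m.factorial / r ^ m * (M * Real.exp (a * r ^ 2 / 2 + a * (‖δ‖ * r))) := by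
        rw [Real.exp_add, Real.exp_neg]
        field_simp
    _ ≤ (√(m : ℝ) + ‖δ‖) ^ m * (M * Real.exp (2 * a) ^ m) := by
        have h9 : (m.factorial : ℝ) / r ^ m ≤ (√(m : ℝ) + ‖δ‖) ^ m := by
          rw [div_le_iff₀ hrm, ← mul_pow, mul_comm (√(m : ℝ) + ‖δ‖)]
          exact hfac
        gcongr
    _ = (Real.exp (2 * a) * (√(m : ℝ) + ‖δ‖)) ^ m * M := by
        rw [mul_pow]
        ring

end Pool.Agent.RHK
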