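import Pool.Agent.RHK.Core.PP
import Pool.Agent.RHK.Core.PTB

/-!
ROHK-PTop. The components `G_m` of `∑_{m<K} (∂_z - a z')^m G_m` are bounded by the supremum on the real locus.

PLAN. `φ = ∑_{m<K} (op1 a)^[m] G_m` is `PA K` (`(op1 a)^[m] g z z' = ∑_j C(m,j) (-a z')^{m-j} g^{(j)}(z)`, from `op1_iter` and Leibniz,
or by induction: `op1 a` maps `PA n` to `PA (n+1)`). By `lemP`: `|φ(z, conj z + d)| e^{-a|z|²/2} ≤ 100^K M` for `|d| ≤ sqrt(K/a)`.
Binomial: `(op1 a)^[m] g z (z'+d) = ∑_{j ≤ m} C(m,j) (-a d)^j (op1 a)^[m-j] g z z'` (the operator with connection `z'+d` is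
`(∂ - a z') - a d`; from `op1_iter`: product of `exp(-a d t)` with the rest, Leibniz). So the coefficient of `d^j` of
`φ(z, conj z + d)` is `(-a)^j ∑_{m ≥ j} C(m,j) (op1 a)^[m-j] G_m z (conj z)`; a polynomial in `d` bounded by `B` on `|d| ≤ R` has
coefficients `≤ B R^{-j}` (`coeff_le_circle`-type lemma, e.g. Parseval as in ROH/PolyB, or Cauchy for derivatives at 0), `R = sqrt(K/a)`.
Descending induction on `j` with `X = 2 exp(2a) K²`, `B0 = (100 max(1,1/a))^K M`: `|G_j| e^{-a|z|²/2} ≤ X^{K-j} B0`, because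
`C(m,j) ≤ K^{m-j}` and `|(op1 a)^[i] G z (conj z)| e^{..} ≤ (exp(2a) sqrt i)^i sup|G|e^{..}` (`op1_bound`, `δ = 0`), and
`B0 + ∑_{m>j} (X/2)^{m-j} X^{K-m} B0 ≤ X^{K-j} B0`. Finally `X^K (100 max(1,1/a))^K ≤ (C K)^{2K}`.
-/

set_option autoImplicit false

namespace Pool.Agent.RHK

open Complex ComplexConjugate Finset

/-- shift of the connection -/
theorem op1_shift (a : ℝ) (g : ℂ → ℂ) (hg : Differentiable ℂ g) (m : ℕ) (z z' d : ℂ) :
    (op1 a)^[m] (fun z _ => g z) z (z' + d) =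
      ∑ j ∈ range (m + 1), (m.choose j : ℂ) * (-(a * d)) ^ j *
        (op1 a)^[m - j] (fun z _ => g z) z z' := by
  rw [op1_iter a g hg]
  have h1 : (fun t => g (z + t) * cexp (-(a * (z' + d) * t))) =
      fun t => cexp (-(a * d) * t) * (g (z + t) * cexp (-(a * z' * t))) := by
    funext t
    have h2 : -(a * (z' + d) * t) = -(a * d) * t + -(a * z' * t) := by ring
    rw [h2, Complex.exp_add]
    ring
  have h3 : ContDiff ℂ m (fun t : ℂ => cexp (-(a * d) * t)) := by fun_prop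
  have h4 : ContDiff ℂ m g := hg.contDiff
  have h5 : ContDiff ℂ m (fun t : ℂ => g (z + t) * cexp (-(a * z' * t))) := by fun_prop
  rw [h1, iteratedDeriv_fun_mul h3.contDiffAt h5.contDiffAt]
  refine Finset.sum_congr rfl fun j _ => ?_
  rw [op1_iter a g hg, iteratedDeriv_cexp_const_mul]
  simp

private theorem PTop_zero (a : ℝ) (g : ℂ → ℂ) (hg : Differentiable ℂ g) (m : ℕ) (z : ℂ) :
    (op1 a)^[m] (fun z _ => g z) z 0 = iteratedDeriv m g z := by
  rw [op1_iter a g hg]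
  have h : (fun t => g (z + t) * cexp (-(a * 0 * t))) = fun t => g (z + t) := by
    funext t
    simp
  rw [h, iteratedDeriv_comp_const_add]
  simp

private theorem PTop_exp (a : ℝ) (K : ℕ) (G : ℕ → ℂ → ℂ) (hG : ∀ m, Differentiable ℂ (G m))
    (z z' d : ℂ) : ∑ m ∈ range K, (op1 a)^[m] (fun z _ => G m z) z (z' + d) =
      ∑ j ∈ range K, d ^ j * ((-(a : ℂ)) ^ j *
        ∑ m ∈ range K, (m.choose j : ℂ) * (op1 a)^[m - j] (fun z _ => G m z) z z') := by
  have h2 : ∀ m ∈ range K, (op1 a)^[m] (fun z _ => G m z) z (z' + d) =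
      ∑ j ∈ range K, d ^ j * ((-(a : ℂ)) ^ j * ((m.choose j : ℂ) *
        (op1 a)^[m - j] (fun z _ => G m z) z z')) := by
    intro m hm
    rw [op1_shift a (G m) (hG m) m z z' d]
    rw [Finset.mem_range] at hm
    rw [← Finset.sum_subset (Finset.range_subset_range.2 hm)]
    · refine Finset.sum_congr rfl fun j _ => ?_
      rw [neg_mul_eq_neg_mul, mul_pow]
      ring
    · intro j _ hj
      rw [Finset.mem_range, not_lt] at hj
      rw [Nat.choose_eq_zero_of_lt (by omega)]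
      simp
  rw [Finset.sum_congr rfl h2, Finset.sum_comm]
  refine Finset.sum_congr rfl fun j _ => ?_
  rw [Finset.mul_sum, Finset.mul_sum]

private theorem PTop_pa (a : ℝ) (K : ℕ) (G : ℕ → ℂ → ℂ) (hG : ∀ m, Differentiable ℂ (G m)) :
    PA K (fun z z' => ∑ m ∈ range K, (op1 a)^[m] (fun z _ => G m z) z z') := by
  refine ⟨fun j z => (-(a : ℂ)) ^ j * ∑ m ∈ range K, (m.choose j : ℂ) *
    iteratedDeriv (m - j) (G m) z, fun j => ?_, fun z z' => ?_⟩
  · refine Differentiable.const_mul (Differentiable.fun_sum fun m _ => ?_) _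
    have h1 : Differentiable ℂ (iteratedDeriv (m - j) (G m)) :=
      (hG m).contDiff.differentiable_iteratedDeriv (m - j) (WithTop.coe_lt_top _)
    exact h1.const_mul _
  · have h := PTop_exp a K G hG z 0 z'
    rw [zero_add] at h
    show ∑ m ∈ range K, (op1 a)^[m] (fun z _ => G m z) z z' = _
    rw [h]
    refine Finset.sum_congr rfl fun j _ => ?_
    congr 2
    refine Finset.sum_congr rfl fun m _ => ?_
    rw [PTop_zero a (G m) (hG m)]

/-- coefficients of a polynomial bounded on a disc -/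
private theorem PTop_coef (K : ℕ) (c : ℕ → ℂ) (B R : ℝ) (hR : 0 < R)
    (h : ∀ d : ℂ, ‖d‖ ≤ R → ‖∑ j ∈ range K, d ^ j * c j‖ ≤ B) (j : ℕ) (hj : j < K) :
    R ^ j * ‖c j‖ ≤ B := by
  have h1 : iteratedDeriv j (fun d : ℂ => ∑ i ∈ range K, d ^ i * c i) 0 = (j.factorial : ℂ) * c j := by
    rw [iteratedDeriv_fun_sum (fun i _ => by fun_prop)]
    rw [Finset.sum_eq_single j]
    · rw [iteratedDeriv_mul_const_field, iteratedDeriv_fun_pow_zero]
      simp
    · intro i _ hi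
      rw [iteratedDeriv_mul_const_field, iteratedDeriv_fun_pow_zero, if_neg (Ne.symm hi),
        Nat.cast_zero, zero_mul]
    · intro h2
      exact absurd (Finset.mem_range.2 hj) h2
  have h2 : Differentiable ℂ (fun d : ℂ => ∑ i ∈ range K, d ^ i * c i) := by fun_prop
  have h3 := norm_iteratedDeriv_le_of_forall_mem_sphere_norm_le (c := 0) (R := R) (C := B) j hR
    h2.diffContOnCl (fun z hz => h z (by
      rw [mem_sphere_zero_iff_norm] at hz
      exact hz.le))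
  rw [h1, norm_mul, Complex.norm_natCast, mul_div_assoc] at h3
  have h4 : (0 : ℝ) < j.factorial := Nat.cast_pos.2 (Nat.factorial_pos _)
  have h5 := le_of_mul_le_mul_left h3 h4
  rw [le_div_iff₀ (pow_pos hR j)] at h5
  rw [mul_comm]
  exact h5

private theorem PTop_geo (n : ℕ) : ∑ i ∈ range n, ((1 : ℝ) / 2) ^ (i + 1) = 1 - (1 / 2) ^ n := by
  induction n with
  | zero => simp
  | succ n ih =>
    rw [Finset.sum_range_succ, ih]
    ring

private theorem PTop_step (a : ℝ) (ha : 0 < a) (K : ℕ) (hK : 1 ≤ K) (G : ℕ → ℂ → ℂ)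
    (hG : ∀ m, Differentiable ℂ (G m)) (B0 : ℝ) (hB0 : 0 ≤ B0)
    (hQ : ∀ j < K, ∀ z, ‖∑ m ∈ range K, (m.choose j : ℂ) *
      (op1 a)^[m - j] (fun z _ => G m z) z (conj z)‖ * Real.exp (-(a * ‖z‖ ^ 2 / 2)) ≤ B0) (n : ℕ) :
    ∀ j, j + 1 + n = K → ∀ z, ‖G j z‖ * Real.exp (-(a * ‖z‖ ^ 2 / 2)) ≤
      (2 * (Real.exp (2 * a) * (K : ℝ) ^ 2)) ^ (K - j) * B0 := by
  induction n using Nat.strong_induction_on with
  | _ n ih =>
    intro j hj z
    obtain ⟨Y, hY⟩ : ∃ Y : ℝ, Y = Real.exp (2 * a) * (K : ℝ) ^ 2 := ⟨_, rfl⟩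
    rw [← hY] at ih ⊢
    have hK1 : (1 : ℝ) ≤ K := by exact_mod_cast hK
    have he : 1 ≤ Real.exp (2 * a) := Real.one_le_exp (by linarith)
    have hY1 : 1 ≤ Y := by
      rw [hY]
      exact one_le_mul_of_one_le_of_one_le he (one_le_pow₀ hK1)
    have hW : 0 ≤ Real.exp (-(a * ‖z‖ ^ 2 / 2)) := (Real.exp_pos _).le
    obtain ⟨f, hf⟩ : ∃ f : ℕ → ℂ, ∀ m, f m = (m.choose j : ℂ) *
      (op1 a)^[m - j] (fun z _ => G m z) z (conj z) := ⟨_, fun _ => rfl⟩
    have hsplit : ∑ m ∈ range K, f m = G j z + ∑ i ∈ range n, f (j + 1 + i) := by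
      rw [← hj, Finset.sum_range_add, Finset.sum_range_succ]
      congr 1
      rw [Finset.sum_eq_zero, zero_add, hf]
      · simp
      · intro m hm
        rw [Finset.mem_range] at hm
        rw [hf, Nat.choose_eq_zero_of_lt hm]
        simp
    have hterm : ∀ i ∈ range n, ‖f (j + 1 + i)‖ * Real.exp (-(a * ‖z‖ ^ 2 / 2)) ≤
        (2 * Y) ^ (K - j) * B0 * (1 / 2) ^ (i + 1) := by
      intro i hi
      rw [Finset.mem_range] at hi
      have h1 := ih (n - 1 - i) (by omega) (j + 1 + i) (by omega)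
      have h2 := op1_bound a _ ha (G (j + 1 + i)) (hG _) h1 (i + 1) z 0
      rw [add_zero, norm_zero, add_zero] at h2
      have h3 : (((j + 1 + i).choose j : ℕ) : ℝ) ≤ (K : ℝ) ^ (i + 1) := by
        have h4 : (j + 1 + i).choose j = (j + 1 + i).choose (i + 1) := by
          rw [← Nat.choose_symm (by omega)]
          congr 1
          omega
        rw [h4]
        refine le_trans (Nat.cast_le.2 (Nat.choose_le_pow _ _)) ?_
        rw [Nat.cast_pow]
        refine pow_le_pow_left₀ (Nat.cast_nonneg _) ?_ _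
        exact_mod_cast (by omega : j + 1 + i ≤ K)
      have h5 : √(((i + 1 : ℕ)) : ℝ) ≤ K := by
        rw [Real.sqrt_le_left (by linarith)]
        have h6 : (((i + 1 : ℕ)) : ℝ) ≤ K := by exact_mod_cast (by omega : i + 1 ≤ K)
        nlinarith
      have h7 : (Real.exp (2 * a) * √(((i + 1 : ℕ)) : ℝ)) ^ (i + 1) ≤
          (Real.exp (2 * a) * K) ^ (i + 1) :=
        pow_le_pow_left₀ (by positivity) (mul_le_mul_of_nonneg_left h5 (by linarith)) _
      have h8 : 0 ≤ (2 * Y) ^ (K - (j + 1 + i)) * B0 := by positivity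
      have h9 : j + 1 + i - j = i + 1 := by omega
      have h10 : (2 * Y) ^ (K - j) = (2 * Y) ^ (K - (j + 1 + i)) * (2 * Y) ^ (i + 1) := by
        rw [← pow_add]
        congr 1
        omega
      have h11 : (2 * Y) ^ (i + 1) * (1 / 2) ^ (i + 1) = Y ^ (i + 1) := by
        rw [← mul_pow]
        congr 1
        ring
      rw [hf, h9, norm_mul, Complex.norm_natCast]
      calc ((j + 1 + i).choose j : ℝ) *
            ‖(op1 a)^[i + 1] (fun z _ => G (j + 1 + i) z) z (conj z)‖ *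
            Real.exp (-(a * ‖z‖ ^ 2 / 2))
          = ((j + 1 + i).choose j : ℝ) *
            (‖(op1 a)^[i + 1] (fun z _ => G (j + 1 + i) z) z (conj z)‖ *
            Real.exp (-(a * ‖z‖ ^ 2 / 2))) := by ring
        _ ≤ (K : ℝ) ^ (i + 1) * ((Real.exp (2 * a) * √(((i + 1 : ℕ)) : ℝ)) ^ (i + 1) *
            ((2 * Y) ^ (K - (j + 1 + i)) * B0)) :=
            mul_le_mul h3 h2 (by positivity) (by positivity)
        _ ≤ (K : ℝ) ^ (i + 1) * ((Real.exp (2 * a) * K) ^ (i + 1) *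
            ((2 * Y) ^ (K - (j + 1 + i)) * B0)) :=
            mul_le_mul_of_nonneg_left (mul_le_mul_of_nonneg_right h7 h8) (by positivity)
        _ = Y ^ (i + 1) * ((2 * Y) ^ (K - (j + 1 + i)) * B0) := by
            rw [hY, ← mul_assoc, ← mul_pow]
            congr 2
            ring
        _ = (2 * Y) ^ (K - j) * B0 * (1 / 2) ^ (i + 1) := by
            rw [h10, ← h11]
            ring
    have hG1 : G j z = (∑ m ∈ range K, f m) - ∑ i ∈ range n, f (j + 1 + i) := by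
      rw [hsplit]
      ring
    have hQ1 : ‖∑ m ∈ range K, f m‖ * Real.exp (-(a * ‖z‖ ^ 2 / 2)) ≤ B0 := by
      have h := hQ j (by omega) z
      simpa only [hf] using h
    have hsum : ‖∑ i ∈ range n, f (j + 1 + i)‖ * Real.exp (-(a * ‖z‖ ^ 2 / 2)) ≤
        (2 * Y) ^ (K - j) * B0 * (1 - (1 / 2) ^ n) := by
      refine (mul_le_mul_of_nonneg_right (norm_sum_le _ _) hW).trans ?_
      rw [Finset.sum_mul]
      refine (Finset.sum_le_sum hterm).trans ?_
      rw [← Finset.mul_sum, PTop_geo]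
    have hB1 : B0 ≤ (2 * Y) ^ (K - j) * B0 * (1 / 2) ^ n := by
      have h1 : K - j = n + 1 := by omega
      have h2 : (2 * Y) ^ (n + 1) * (1 / 2) ^ n = Y ^ n * (2 * Y) := by
        rw [pow_succ, mul_right_comm, ← mul_pow]
        congr 2
        ring
      have h3 : 1 ≤ Y ^ n * (2 * Y) :=
        one_le_mul_of_one_le_of_one_le (one_le_pow₀ hY1) (by linarith)
      calc B0 = 1 * B0 := (one_mul _).symm
        _ ≤ (Y ^ n * (2 * Y)) * B0 := mul_le_mul_of_nonneg_right h3 hB0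
        _ = (2 * Y) ^ (K - j) * B0 * (1 / 2) ^ n := by
          rw [h1, ← h2]
          ring
    rw [hG1]
    calc ‖(∑ m ∈ range K, f m) - ∑ i ∈ range n, f (j + 1 + i)‖ * Real.exp (-(a * ‖z‖ ^ 2 / 2))
        ≤ (‖∑ m ∈ range K, f m‖ + ‖∑ i ∈ range n, f (j + 1 + i)‖) *
          Real.exp (-(a * ‖z‖ ^ 2 / 2)) := mul_le_mul_of_nonneg_right (norm_sub_le _ _) hW
      _ = ‖∑ m ∈ range K, f m‖ * Real.exp (-(a * ‖z‖ ^ 2 / 2)) +
          ‖∑ i ∈ range n, f (j + 1 + i)‖ * Real.exp (-(a * ‖z‖ ^ 2 / 2)) := by ring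
      _ ≤ (2 * Y) ^ (K - j) * B0 * (1 / 2) ^ n +
          (2 * Y) ^ (K - j) * B0 * (1 - (1 / 2) ^ n) := add_le_add (hQ1.trans hB1) hsum
      _ = (2 * Y) ^ (K - j) * B0 := by ring

private theorem PTop_A1 (a : ℝ) (ha : 0 < a) (K : ℕ) (hK : 1 ≤ K) :
    1 ≤ (1 + 1 / a) * (√(K / a) * a) := by
  have hK1 : (1 : ℝ) ≤ K := by exact_mod_cast hK
  have h0 : 0 ≤ (1 + 1 / a) * (√(K / a) * a) := by positivity
  have h1 : ((1 + 1 / a) * (√(K / a) * a)) ^ 2 = (a + 1) ^ 2 / a * K := by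
    rw [mul_pow, mul_pow, Real.sq_sqrt (by positivity)]
    field_simp
  have h2 : 1 ≤ (a + 1) ^ 2 / a := by
    rw [le_div_iff₀ ha]
    nlinarith
  have h3 : 1 ≤ ((1 + 1 / a) * (√(K / a) * a)) ^ 2 := by
    rw [h1]
    exact one_le_mul_of_one_le_of_one_le h2 hK1
  by_contra h4
  rw [not_le] at h4
  nlinarith

theorem top1 (a : ℝ) (ha : 0 < a) : ∃ C : ℝ, 1 ≤ C ∧ ∀ K : ℕ, 1 ≤ K → ∀ G : ℕ → ℂ → ℂ,
    (∀ m, Differentiable ℂ (G m)) → ∀ M : ℝ,
    (∀ z, ‖∑ m ∈ range K, (op1 a)^[m] (fun z _ => G m z) z (conj z)‖ *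
      Real.exp (-(a * ‖z‖ ^ 2 / 2)) ≤ M) →
    ∀ m < K, ∀ z, ‖G m z‖ * Real.exp (-(a * ‖z‖ ^ 2 / 2)) ≤ (C * K) ^ (2 * K) * M := by
  have he : 1 ≤ Real.exp (2 * a) := Real.one_le_exp (by linarith)
  have hA : 1 ≤ 1 + 1 / a := by
    have h : 0 < 1 / a := by positivity
    linarith
  have hC : 1 ≤ 200 * Real.exp (2 * a) * (1 + 1 / a) :=
    one_le_mul_of_one_le_of_one_le (by linarith) hA
  refine ⟨200 * Real.exp (2 * a) * (1 + 1 / a), hC, ?_⟩
  intro K hK G hG M hM m hm z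
  have hK1 : (1 : ℝ) ≤ K := by exact_mod_cast hK
  have hM0 : 0 ≤ M := le_trans (by positivity) (hM 0)
  have hφ : ∀ z, ‖∑ m ∈ range K, (op1 a)^[m] (fun z _ => G m z) z (conj z)‖ ≤
      M * Real.exp (a * ‖z‖ ^ 2 / 2) := by
    intro z
    have h1 := hM z
    rw [Real.exp_neg, ← div_eq_mul_inv, div_le_iff₀ (Real.exp_pos _)] at h1
    exact h1
  have hQ : ∀ j < K, ∀ z, ‖∑ m ∈ range K, (m.choose j : ℂ) *
      (op1 a)^[m - j] (fun z _ => G m z) z (conj z)‖ * Real.exp (-(a * ‖z‖ ^ 2 / 2)) ≤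
      (1 + 1 / a) ^ K * (100 ^ K * M) := by
    intro j hj z
    obtain ⟨Q, hQd⟩ : ∃ Q : ℕ → ℂ, ∀ j, Q j = ∑ m ∈ range K, (m.choose j : ℂ) *
      (op1 a)^[m - j] (fun z _ => G m z) z (conj z) := ⟨_, fun _ => rfl⟩
    have hR : 0 < √(K / a) := Real.sqrt_pos.2 (by positivity)
    have h1 := PTop_coef K (fun j => (-(a : ℂ)) ^ j * Q j)
      (100 ^ K * M * Real.exp (a * ‖z‖ ^ 2 / 2)) (√(K / a)) hR (by
        intro d hd
        have h2 := lemP K hK _ (PTop_pa a K G hG) a M ha hφ z d hd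
        have h3 := PTop_exp a K G hG z (conj z) d
        simp only [← hQd] at h3
        rw [← h3]
        exact h2) j hj
    rw [norm_mul, norm_pow, norm_neg, Complex.norm_real, Real.norm_of_nonneg ha.le] at h1
    rw [← hQd]
    have h4 : 1 ≤ (1 + 1 / a) ^ K * (√(K / a) * a) ^ j := by
      have h5 : (1 + 1 / a) ^ K = (1 + 1 / a) ^ (K - j) * (1 + 1 / a) ^ j := by
        rw [← pow_add]
        congr 1
        omega
      rw [h5, mul_assoc, ← mul_pow]
      exact one_le_mul_of_one_le_of_one_le (one_le_pow₀ hA) (one_le_pow₀ (PTop_A1 a ha K hK))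
    have hE : Real.exp (a * ‖z‖ ^ 2 / 2) * Real.exp (-(a * ‖z‖ ^ 2 / 2)) = 1 := by
      rw [← Real.exp_add, add_neg_cancel, Real.exp_zero]
    calc ‖Q j‖ * Real.exp (-(a * ‖z‖ ^ 2 / 2))
        = 1 * (‖Q j‖ * Real.exp (-(a * ‖z‖ ^ 2 / 2))) := (one_mul _).symm
      _ ≤ ((1 + 1 / a) ^ K * (√(K / a) * a) ^ j) * (‖Q j‖ * Real.exp (-(a * ‖z‖ ^ 2 / 2))) :=
          mul_le_mul_of_nonneg_right h4 (by positivity)
      _ = (1 + 1 / a) ^ K * (√(K / a) ^ j * (a ^ j * ‖Q j‖)) *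
          Real.exp (-(a * ‖z‖ ^ 2 / 2)) := by
          rw [mul_pow]
          ring
      _ ≤ (1 + 1 / a) ^ K * (100 ^ K * M * Real.exp (a * ‖z‖ ^ 2 / 2)) *
          Real.exp (-(a * ‖z‖ ^ 2 / 2)) := by
          refine mul_le_mul_of_nonneg_right ?_ (Real.exp_pos _).le
          exact mul_le_mul_of_nonneg_left h1 (by positivity)
      _ = (1 + 1 / a) ^ K * (100 ^ K * M) *
          (Real.exp (a * ‖z‖ ^ 2 / 2) * Real.exp (-(a * ‖z‖ ^ 2 / 2))) := by ring
      _ = (1 + 1 / a) ^ K * (100 ^ K * M) := by rw [hE, mul_one]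
  have h6 := PTop_step a ha K hK G hG _ (by positivity) hQ (K - 1 - m) m (by omega) z
  refine h6.trans ?_
  have hY1 : 1 ≤ 2 * (Real.exp (2 * a) * (K : ℝ) ^ 2) := by
    have h7 : 1 ≤ Real.exp (2 * a) * (K : ℝ) ^ 2 :=
      one_le_mul_of_one_le_of_one_le he (one_le_pow₀ hK1)
    linarith
  calc (2 * (Real.exp (2 * a) * (K : ℝ) ^ 2)) ^ (K - m) * ((1 + 1 / a) ^ K * (100 ^ K * M))
      ≤ (2 * (Real.exp (2 * a) * (K : ℝ) ^ 2)) ^ K * ((1 + 1 / a) ^ K * (100 ^ K * M)) := by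
        refine mul_le_mul_of_nonneg_right ?_ (by positivity)
        exact pow_le_pow_right₀ hY1 (Nat.sub_le _ _)
    _ = (200 * Real.exp (2 * a) * (1 + 1 / a) * (K : ℝ) ^ 2) ^ K * M := by
        have e : 200 * Real.exp (2 * a) * (1 + 1 / a) * (K : ℝ) ^ 2 =
          2 * (Real.exp (2 * a) * (K : ℝ) ^ 2) * ((1 + 1 / a) * 100) := by ring
        rw [e, mul_pow _ ((1 + 1 / a) * 100), mul_pow (1 + 1 / a) 100]
        ring
    _ ≤ ((200 * Real.exp (2 * a) * (1 + 1 / a) * K) ^ 2) ^ K * M := by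
        refine mul_le_mul_of_nonneg_right ?_ hM0
        refine pow_le_pow_left₀ (by positivity) ?_ _
        rw [mul_pow]
        refine mul_le_mul_of_nonneg_right ?_ (by positivity)
        nlinarith
    _ = (200 * Real.exp (2 * a) * (1 + 1 / a) * K) ^ (2 * K) * M := by rw [← pow_mul]

end Pool.Agent.RHK
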