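import Pool.Agent.RHK.Core.LDefs
import Pool.Agent.RHK.Core.PTop
import Pool.Agent.RHK.Core.EntD

/-!
Project ROHK, block CORE, section 4 (L), module RHK-LTopL.
From a bound of a combination of jets at real points to a bound of the coefficients (one operator
after the other).
Plan. `C = max over i` of the constants of `top1 (a i)` (PTop), e.g. their sum. Induction over the list
`L` (generalize `q`, `M`). Empty list: `FL a T m [] v = T v.1`, `(rp z 0).1 = z`, the filter is everything,
the sum factors. Step `i :: L'`, `i ∉ L'`: `FL a T m (i :: L') = (opA a i)^[m i] (FL a T m L')`. With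
`G_k v = ∑_{m, m i = k} q m * FL a T m L' v` (independent of `v.2 i` by `FL_indep`, entire by `diff_FL`):
for fixed `z`, `opA_slice` (EntD) turns `(opA a i)^[k] (FL a T m L')` at `rp (update z i t) 0`
into `(op1 (a i))^[k] (fun t _ => FL a T m L' (update z i t, cj z)) t (conj t)` (note
`(rp (update z i t) 0).2 j = conj (z j)` for `j ≠ i` and independence of `v.2 i`); linearity of
`(op1 a)^[k]` on entire functions of `t` (use `op1_shift`/`op1_iter` or induction: `deriv` of finite sums)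
gives `∑_m q m * FL a T m (i :: L') = ∑_{k < K} (op1 (a i))^[k] (g_k)`, `g_k t = G_k (update z i t, cj z)`.
`top1` with `M' = M / ∏_{j ≠ i} exp (- a_j ‖z j‖^2/2)` gives for `k = m0 i` and `t = z i`:
`‖G_k (rp z 0)‖ * wtE a z ≤ (C K)^(2K) * M`, for all `z`. Apply the induction hypothesis to
`q' m = if m i = m0 i then q m else 0` and `(C K)^(2K) * M`.
-/

set_option autoImplicit false

namespace Pool.Agent.RHK

open Complex ComplexConjugate Finset

variable {ι : Type} [Fintype ι] [DecidableEq ι]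

private theorem LTL_lin (a : ℝ) {σ : Type} (S : Finset σ) (c : σ → ℂ) (g : σ → ℂ → ℂ)
    (hg : ∀ m, Differentiable ℂ (g m)) (k : ℕ) (z z' : ℂ) :
    (op1 a)^[k] (fun z _ => ∑ m ∈ S, c m * g m z) z z' =
      ∑ m ∈ S, c m * (op1 a)^[k] (fun z _ => g m z) z z' := by
  have h1 : Differentiable ℂ (fun z => ∑ m ∈ S, c m * g m z) :=
    Differentiable.fun_sum fun m _ => (hg m).const_mul _
  rw [op1_iter a _ h1]
  have h2 : (fun t => (∑ m ∈ S, c m * g m (z + t)) * cexp (-(a * z' * t))) =
      fun t => ∑ m ∈ S, c m * (g m (z + t) * cexp (-(a * z' * t))) := by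
    funext t
    rw [Finset.sum_mul]
    refine Finset.sum_congr rfl fun m _ => ?_
    ring
  have h3 : ∀ m, ContDiff ℂ k (fun t : ℂ => g m (z + t) * cexp (-(a * z' * t))) := by
    intro m
    have h4 : ContDiff ℂ k (g m) := (hg m).contDiff
    fun_prop
  rw [h2, iteratedDeriv_fun_sum (fun m _ => (contDiff_const.mul (h3 m)).contDiffAt)]
  refine Finset.sum_congr rfl fun m _ => ?_
  rw [iteratedDeriv_const_mul_field, op1_iter a _ (hg m)]

private theorem LTL_wt (a : ι → ℝ) (z : ι → ℂ) (i : ι) (t : ℂ) :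
    wtE a (Function.update z i t) = Real.exp (-(a i * ‖t‖ ^ 2 / 2)) *
      Real.exp (-(∑ j ∈ univ.erase i, a j * ‖z j‖ ^ 2 / 2)) := by
  unfold wtE
  rw [← Real.exp_add, ← Finset.add_sum_erase univ _ (Finset.mem_univ i), Function.update_self, neg_add]
  congr 3
  refine Finset.sum_congr rfl fun j hj => ?_
  rw [Function.update_of_ne (Finset.ne_of_mem_erase hj)]

private theorem LTL_slice (a : ι → ℝ) {T : (ι → ℂ) → ℂ} (hT : Differentiable ℂ T) (m : ι → ℕ)
    (i : ι) (L : List ι) (hi : i ∉ L) (z : ι → ℂ) (t : ℂ) :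
    FL a T m (i :: L) (rp (Function.update z i t) 0) =
      (op1 (a i))^[m i] (fun s _ => FL a T m L (Function.update z i s, cj z)) t (conj t) := by
  have h0 : FL a T m (i :: L) = (opA a i)^[m i] (FL a T m L) := rfl
  have h2 : (rp (Function.update z i t) 0).2 = Function.update (cj z) i (conj t) := by
    show cj (Function.update z i t) + 0 = _
    rw [add_zero]
    funext j
    unfold cj
    by_cases hj : j = i
    · subst hj
      rw [Function.update_self, Function.update_self]
    · rw [Function.update_of_ne hj, Function.update_of_ne hj]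
  rw [h0, opA_slice a i (diff_FL a hT m L) (fun v t => FL_indep a hT m L i hi v t)]
  have h3 : (fun (s : ℂ) (_ : ℂ) => FL a T m L
      (Function.update (rp (Function.update z i t) 0).1 i s, (rp (Function.update z i t) 0).2)) =
      fun s _ => FL a T m L (Function.update z i s, cj z) := by
    funext s _
    rw [h2]
    show FL a T m L (Function.update (Function.update z i t) i s, _) = _
    rw [Function.update_idem]
    exact FL_indep a hT m L i hi (Function.update z i s, cj z) (conj t)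
  rw [h3, h2]
  show (op1 (a i))^[m i] _ (Function.update z i t i) _ = _
  rw [Function.update_self, Function.update_self]

private theorem LTL_step (a : ι → ℝ) (T : (ι → ℂ) → ℂ) (hT : Differentiable ℂ T) (Ci C : ℝ)
    (hCi : 1 ≤ Ci) (hC : Ci ≤ C) (i : ι)
    (htop : ∀ K : ℕ, 1 ≤ K → ∀ G : ℕ → ℂ → ℂ, (∀ m, Differentiable ℂ (G m)) → ∀ M : ℝ,
      (∀ z, ‖∑ m ∈ range K, (op1 (a i))^[m] (fun z _ => G m z) z (conj z)‖ *
        Real.exp (-(a i * ‖z‖ ^ 2 / 2)) ≤ M) →
      ∀ m < K, ∀ z, ‖G m z‖ * Real.exp (-(a i * ‖z‖ ^ 2 / 2)) ≤ (Ci * K) ^ (2 * K) * M)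
    (K : ℕ) (hK : 1 ≤ K) (L : List ι) (hi : i ∉ L) (q : (ι → Fin K) → ℂ) (M : ℝ)
    (H : ∀ z, ‖∑ m, q m * FL a T (fun i => (m i : ℕ)) (i :: L) (rp z 0)‖ * wtE a z ≤ M)
    (m0 : ι → Fin K) (z : ι → ℂ) :
    ‖∑ m, (if m i = m0 i then q m else 0) * FL a T (fun i => (m i : ℕ)) L (rp z 0)‖ * wtE a z ≤
      (C * K) ^ (2 * K) * M := by
  have hM0 : 0 ≤ M := by
    refine le_trans ?_ (H 0)
    unfold wtE
    positivity
  obtain ⟨W, hW⟩ : ∃ W : ℝ, W = Real.exp (-(∑ j ∈ univ.erase i, a j * ‖z j‖ ^ 2 / 2)) := ⟨_, rfl⟩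
  have hW0 : 0 < W := by
    rw [hW]
    exact Real.exp_pos _
  obtain ⟨φ, hφ⟩ : ∃ φ : (ι → Fin K) → ℂ → ℂ, ∀ m t, φ m t =
      FL a T (fun i => (m i : ℕ)) L (Function.update z i t, cj z) := ⟨_, fun _ _ => rfl⟩
  have hφd : ∀ m, Differentiable ℂ (φ m) := by
    intro m
    have h := diff_slice_z i (diff_FL a hT (fun i => (m i : ℕ)) L) (z, cj z)
    have h2 : φ m = fun t => FL a T (fun i => (m i : ℕ)) L (Function.update z i t, cj z) := by
      funext t
      exact hφ m t
    rw [h2]
    exact h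
  obtain ⟨G, hG⟩ : ∃ G : ℕ → ℂ → ℂ, ∀ k t, G k t =
      ∑ m ∈ univ.filter (fun m : ι → Fin K => (m i : ℕ) = k), q m * φ m t := ⟨_, fun _ _ => rfl⟩
  have hG' : ∀ k, G k = fun t => ∑ m ∈ univ.filter (fun m : ι → Fin K => (m i : ℕ) = k),
      q m * φ m t := fun k => funext (hG k)
  have hGd : ∀ k, Differentiable ℂ (G k) := by
    intro k
    rw [hG']
    exact Differentiable.fun_sum fun m _ => (hφd m).const_mul _
  have hsum : ∀ t, ∑ k ∈ range K, (op1 (a i))^[k] (fun z _ => G k z) t (conj t) =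
      ∑ m, q m * FL a T (fun i => (m i : ℕ)) (i :: L) (rp (Function.update z i t) 0) := by
    intro t
    have h1 : ∀ k ∈ range K, (op1 (a i))^[k] (fun z _ => G k z) t (conj t) =
        ∑ m ∈ univ.filter (fun m : ι → Fin K => (m i : ℕ) = k),
          q m * (op1 (a i))^[(m i : ℕ)] (fun z _ => φ m z) t (conj t) := by
      intro k _
      have h2 : (fun (z : ℂ) (_ : ℂ) => G k z) =
          fun z _ => ∑ m ∈ univ.filter (fun m : ι → Fin K => (m i : ℕ) = k), q m * φ m z := by
        funext z _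
        exact hG k z
      rw [h2, LTL_lin (a i) _ q φ hφd]
      refine Finset.sum_congr rfl fun m hm => ?_
      rw [(Finset.mem_filter.1 hm).2]
    rw [Finset.sum_congr rfl h1, Finset.sum_fiberwise_of_maps_to
      (fun m _ => Finset.mem_range.2 (m i).isLt)]
    refine Finset.sum_congr rfl fun m _ => ?_
    rw [LTL_slice a hT _ i L hi z t]
    have h3 : (fun (z : ℂ) (_ : ℂ) => φ m z) =
        fun s _ => FL a T (fun i => (m i : ℕ)) L (Function.update z i s, cj z) := by
      funext s _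
      exact hφ m s
    rw [h3]
  have h4 := htop K hK G hGd (M / W) (by
    intro t
    have h5 := H (Function.update z i t)
    rw [LTL_wt, ← hW, ← hsum, ← mul_assoc] at h5
    rw [le_div_iff₀ hW0]
    exact h5) (m0 i) (m0 i).isLt (z i)
  have h6 : G (m0 i) (z i) =
      ∑ m, (if m i = m0 i then q m else 0) * FL a T (fun i => (m i : ℕ)) L (rp z 0) := by
    rw [hG, Finset.sum_filter]
    refine Finset.sum_congr rfl fun m _ => ?_
    have h7 : rp z 0 = (z, cj z) := by
      unfold rp
      rw [add_zero]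
    rw [hφ, Function.update_eq_self, h7]
    by_cases h8 : m i = m0 i
    · rw [if_pos h8, if_pos (by rw [h8])]
    · rw [if_neg h8, if_neg (fun h9 => h8 (Fin.ext h9)), zero_mul]
  rw [← h6]
  have h10 : wtE a z = Real.exp (-(a i * ‖z i‖ ^ 2 / 2)) * W := by
    have h11 := LTL_wt a z i (z i)
    rw [Function.update_eq_self] at h11
    rw [h11, hW]
  rw [h10, ← mul_assoc]
  calc ‖G (m0 i) (z i)‖ * Real.exp (-(a i * ‖z i‖ ^ 2 / 2)) * W
      ≤ ((Ci * K) ^ (2 * K) * (M / W)) * W := mul_le_mul_of_nonneg_right h4 hW0.le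
    _ = (Ci * K) ^ (2 * K) * M := by
        rw [mul_assoc, div_mul_cancel₀ _ hW0.ne']
    _ ≤ (C * K) ^ (2 * K) * M := by
        refine mul_le_mul_of_nonneg_right ?_ hM0
        refine pow_le_pow_left₀ (by positivity) ?_ _
        exact mul_le_mul_of_nonneg_right hC (Nat.cast_nonneg _)

/-- From a bound of a combination of jets at real points to a bound of the coefficients. -/
theorem topL (a : ι → ℝ) (ha : ∀ i, 0 < a i) (T : (ι → ℂ) → ℂ) (hT : Differentiable ℂ T) :
    ∃ C : ℝ, 1 ≤ C ∧ ∀ K : ℕ, 1 ≤ K → ∀ L : List ι, L.Nodup → ∀ (q : (ι → Fin K) → ℂ) (M : ℝ),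
    (∀ z, ‖∑ m, q m * FL a T (fun i => (m i : ℕ)) L (rp z 0)‖ * wtE a z ≤ M) →
    ∀ m0 : ι → Fin K, ∀ z,
      ‖∑ m ∈ univ.filter (fun m : ι → Fin K => ∀ i ∈ L, m i = m0 i), q m‖ * (‖T z‖ * wtE a z) ≤
        (C * K) ^ (2 * K * L.length) * M := by
  choose Cf hCf1 hCf2 using fun i => top1 (a i) (ha i)
  obtain ⟨C, hC⟩ : ∃ C : ℝ, C = 1 + ∑ i, Cf i := ⟨_, rfl⟩
  have hCfC : ∀ i, Cf i ≤ C := by
    intro i
    have h1 : Cf i ≤ ∑ i, Cf i :=
      Finset.single_le_sum (fun j _ => (zero_le_one.trans (hCf1 j))) (Finset.mem_univ i)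
    rw [hC]
    linarith
  have hC1 : 1 ≤ C := by
    have h1 : 0 ≤ ∑ i, Cf i := Finset.sum_nonneg fun j _ => (zero_le_one.trans (hCf1 j))
    rw [hC]
    linarith
  refine ⟨C, hC1, ?_⟩
  intro K hK L
  induction L with
  | nil =>
    intro _ q M H m0 z
    have h1 := H z
    have h2 : ∑ m, q m * FL a T (fun i => (m i : ℕ)) [] (rp z 0) = (∑ m, q m) * T z := by
      rw [Finset.sum_mul]
      rfl
    have h3 : (univ.filter (fun m : ι → Fin K => ∀ i ∈ ([] : List ι), m i = m0 i)) = univ := by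
      rw [Finset.filter_true_of_mem]
      intro m _ i hi
      exact absurd hi (List.not_mem_nil)
    rw [h2, norm_mul, mul_assoc] at h1
    rw [h3, List.length_nil, mul_zero, pow_zero, one_mul]
    exact h1
  | cons i L ih =>
    intro hnd q M H m0 z
    obtain ⟨hi, hnd'⟩ := List.nodup_cons.1 hnd
    have h1 := ih hnd' (fun m => if m i = m0 i then q m else 0) ((C * K) ^ (2 * K) * M)
      (fun z => LTL_step a T hT (Cf i) C (hCf1 i) (hCfC i) i (hCf2 i) K hK L hi q M H m0 z) m0 z
    have h2 : ∑ m ∈ univ.filter (fun m : ι → Fin K => ∀ j ∈ L, m j = m0 j),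
        (if m i = m0 i then q m else 0) =
        ∑ m ∈ univ.filter (fun m : ι → Fin K => ∀ j ∈ i :: L, m j = m0 j), q m := by
      rw [← Finset.sum_filter, Finset.filter_filter]
      congr 1
      ext m
      simp only [Finset.mem_filter, Finset.mem_univ, true_and, List.forall_mem_cons]
      tauto
    rw [h2] at h1
    refine h1.trans (le_of_eq ?_)
    rw [List.length_cons, ← mul_assoc, ← pow_add]
    congr 2

end Pool.Agent.RHK
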