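import Pool.Agent.RHK.Core.Defs

/-!
ROHK-PThree (Mathlib only). Three lines theorem in the direction of `δ = z' - conj z` (one variable).

Hadamard's three lines theorem for `φ` along a complex line with the weight completed to an entire
function (as in ROH/ThreeL).
-/

set_option autoImplicit false

namespace Pool.Agent.RHK

open Complex ComplexConjugate Finset

theorem three1 (φ : ℂ → ℂ → ℂ) (hφ : Differentiable ℂ (fun q : ℂ × ℂ => φ q.1 q.2)) (c : ℝ)
    (hc : 0 ≤ c) (d : ℂ) (A B D : ℝ)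
    (hA : ∀ z, ‖φ z (conj z)‖ * Real.exp (-(c * ‖z‖ ^ 2 / 2)) ≤ A)
    (hB : ∀ z, ‖φ z (conj z + d)‖ * Real.exp (-(c * ‖z‖ ^ 2 / 2)) ≤ B)
    (hD : ∀ s : ℝ, 0 ≤ s → s ≤ 1 → ∀ z, ‖φ z (conj z + s * d)‖ * Real.exp (-(c * ‖z‖ ^ 2 / 2)) ≤ D)
    (s : ℝ) (hs0 : 0 ≤ s) (hs1 : s ≤ 1) (z : ℂ) :
    ‖φ z (conj z + s * d)‖ * Real.exp (-(c * ‖z‖ ^ 2 / 2)) ≤
      A ^ (1 - s) * (B * Real.exp (c * ‖d‖ ^ 2 / 4)) ^ s := by
  have nfn : ∀ z w : ℂ, 0 ≤ ‖φ z w‖ * Real.exp (-(c * ‖z‖ ^ 2 / 2)) := fun z w =>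
    mul_nonneg (norm_nonneg _) (Real.exp_nonneg _)
  have hA0 : 0 ≤ A := (nfn z (conj z)).trans (hA z)
  have hB0 : 0 ≤ B := (nfn z (conj z + d)).trans (hB z)
  rcases eq_or_ne d 0 with hd | hd
  · subst hd
    have h1 := hA z
    have h2 := hB z
    simp only [add_zero] at h2
    simp only [mul_zero, add_zero, norm_zero, ne_eq, OfNat.ofNat_ne_zero, not_false_eq_true, zero_pow,
      zero_div, Real.exp_zero, mul_one]
    rcases (nfn z (conj z)).eq_or_lt with h0 | h0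
    · rw [← h0]
      positivity
    · calc ‖φ z (conj z)‖ * Real.exp (-(c * ‖z‖ ^ 2 / 2))
          = (‖φ z (conj z)‖ * Real.exp (-(c * ‖z‖ ^ 2 / 2))) ^ (1 - s) *
            (‖φ z (conj z)‖ * Real.exp (-(c * ‖z‖ ^ 2 / 2))) ^ s := by
            rw [← Real.rpow_add h0]; simp
        _ ≤ A ^ (1 - s) * B ^ s := by
            apply mul_le_mul
            · exact Real.rpow_le_rpow h0.le h1 (by linarith)
            · exact Real.rpow_le_rpow h0.le h2 hs0
            · positivity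
            · positivity
  have hδ : 0 < ‖d‖ := norm_pos_iff.mpr hd
  have hδc : (‖d‖ : ℂ) ≠ 0 := by exact_mod_cast hδ.ne'
  set ν : ℂ := I * conj d / ‖d‖ with hν
  have hcν : conj ν = -I * d / ‖d‖ := by simp [hν]
  have hνν : ν * conj ν = 1 := by
    rw [hcν, hν]
    have : conj d * d = (‖d‖ : ℂ) ^ 2 := Complex.conj_mul' d
    field_simp
    linear_combination (-I ^ 2) * this + (‖d‖ : ℂ) ^ 2 * (-Complex.I_sq)
  set y0 : ℂ := z - I * s * (‖d‖ / 2) * ν with hy0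
  set q : ℂ → ℂ := fun t => c * ((‖y0‖ : ℂ) ^ 2 / 2 + conj y0 * ν * t + t ^ 2 / 2) with hq
  have hqre : ∀ t : ℂ, (q t).re = c * ‖y0 + t * ν‖ ^ 2 / 2 - c * t.im ^ 2 := by
    intro t
    apply Complex.ofReal_injective
    rw [Complex.re_eq_add_conj]
    push_cast
    rw [Complex.im_eq_sub_conj, ← Complex.mul_conj' (y0 + t * ν)]
    simp only [hq, map_add, map_mul, map_pow, map_div₀, Complex.conj_ofReal, Complex.conj_conj,
      map_ofNat]
    rw [← Complex.mul_conj' y0]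
    have hI : (2 * I) ^ 2 = -4 := by rw [mul_pow, Complex.I_sq]; norm_num
    rw [div_pow, hI]
    linear_combination (-(c / 2 * t * conj t)) * hνν
  set g : ℂ → ℂ := fun t => φ (y0 + t * ν) (conj y0 + t * conj ν) * cexp (-q t) with hg
  have hgn : ∀ t : ℂ, ‖g t‖ = ‖φ (y0 + t * ν) (conj y0 + t * conj ν)‖ *
      Real.exp (-(c * ‖y0 + t * ν‖ ^ 2 / 2)) * Real.exp (c * t.im ^ 2) := by
    intro t
    simp only [hg, norm_mul, Complex.norm_exp, Complex.neg_re, hqre]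
    rw [mul_assoc (‖_‖ : ℝ), ← Real.exp_add]
    congr 2
    ring
  have hpt : ∀ t : ℂ, conj y0 + t * conj ν = conj (y0 + t * ν) + (2 * t.im / ‖d‖ : ℝ) * d := by
    intro t
    push_cast
    rw [Complex.im_eq_sub_conj]
    simp only [map_add, map_mul]
    rw [hcν]
    have hI : I * I = -1 := Complex.I_mul_I
    have hI0 : I ≠ 0 := Complex.I_ne_zero
    field_simp
    linear_combination (-(t - conj t) * d) * hI
  have hgd : Differentiable ℂ g := by
    have h1 : Differentiable ℂ (fun t : ℂ => ((y0 + t * ν, conj y0 + t * conj ν) : ℂ × ℂ)) := by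
      fun_prop
    have h2 := hφ.comp h1
    have h3 : Differentiable ℂ q := by
      simp only [hq]
      fun_prop
    exact h2.mul (h3.neg.cexp)
  set G : ℂ → ℂ := fun z => g (I * (‖d‖ / 2) * z) with hG
  have him : ∀ z : ℂ, (I * (‖d‖ / 2) * z).im = ‖d‖ / 2 * z.re := by
    intro z
    simp [Complex.mul_im, Complex.mul_re]
  have hGn : ∀ z : ℂ, ∃ Y : ℂ, ‖G z‖ = ‖φ Y (conj Y + (z.re : ℂ) * d)‖ *
      Real.exp (-(c * ‖Y‖ ^ 2 / 2)) * Real.exp (c * ‖d‖ ^ 2 / 4 * z.re ^ 2) := by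
    intro z
    refine ⟨y0 + (I * (‖d‖ / 2) * z) * ν, ?_⟩
    rw [hG]
    simp only
    rw [hgn, hpt, him]
    have e1 : (2 * (‖d‖ / 2 * z.re) / ‖d‖ : ℝ) = z.re := by field_simp
    rw [e1]
    congr 2
    ring
  have hGd : Differentiable ℂ G := hgd.comp (by fun_prop)
  have hD0 : 0 ≤ D := (nfn z (conj z + ((0 : ℝ) : ℂ) * d)).trans (hD 0 le_rfl zero_le_one z)
  have hBd : BddAbove ((norm ∘ G) '' HadamardThreeLines.verticalClosedStrip 0 1) := by
    refine ⟨D * Real.exp (c * ‖d‖ ^ 2 / 4 * 1 ^ 2), ?_⟩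
    rintro _ ⟨z, hz, rfl⟩
    have hz0 : 0 ≤ z.re := hz.1
    have hz1 : z.re ≤ 1 := hz.2
    obtain ⟨Y, hY⟩ := hGn z
    simp only [Function.comp_apply]
    rw [hY]
    apply mul_le_mul
    · exact hD z.re hz0 hz1 Y
    · apply Real.exp_le_exp.mpr
      gcongr
    · positivity
    · positivity
  have hmain := HadamardThreeLines.norm_le_interp_of_mem_verticalClosedStrip₀₁' G (z := (s : ℂ))
    (a := A) (b := B * Real.exp (c * ‖d‖ ^ 2 / 4))
    (by
      show ((s : ℂ)).re ∈ Set.Icc (0 : ℝ) 1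
      simpa using ⟨hs0, hs1⟩) hGd.diffContOnCl hBd
    (by
      intro z hz
      have hz' : z.re = 0 := hz
      obtain ⟨Y, hY⟩ := hGn z
      rw [hY, hz']
      simpa using hA Y)
    (by
      intro z hz
      have hz' : z.re = 1 := hz
      obtain ⟨Y, hY⟩ := hGn z
      rw [hY, hz']
      have h1 := hB Y
      simp only [Complex.ofReal_one, one_mul, one_pow, mul_one]
      gcongr)
  have hGs : ‖G (s : ℂ)‖ = ‖φ z (conj z + s * d)‖ * Real.exp (-(c * ‖z‖ ^ 2 / 2)) *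
      Real.exp (c * ‖d‖ ^ 2 / 4 * s ^ 2) := by
    rw [hG]
    simp only
    rw [hgn, hpt, him]
    have e1 : y0 + (I * (‖d‖ / 2) * s) * ν = z := by rw [hy0]; ring
    have e2 : (2 * (‖d‖ / 2 * (s : ℂ).re) / ‖d‖ : ℝ) = s := by
      rw [Complex.ofReal_re]; field_simp
    rw [e1, e2]
    congr 2
    rw [Complex.ofReal_re]
    ring
  rw [hGs, Complex.ofReal_re] at hmain
  have hone : 1 ≤ Real.exp (c * ‖d‖ ^ 2 / 4 * s ^ 2) := Real.one_le_exp (by positivity)
  exact (le_mul_of_one_le_right (nfn _ _) hone).trans hmain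

end Pool.Agent.RHK
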