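import Pool.Agent.RHK.Core.PP
import Pool.Agent.RHK.Core.PThree

/-!
ROHK-PB. Lemma B: growth of a polyanalytic function off the real locus.
-/

set_option autoImplicit false

namespace Pool.Agent.RHK

open Complex ComplexConjugate Finset

private theorem PB_mul_le {a b t : ℝ} (h : a ≤ b * Real.exp t) : a * Real.exp (-t) ≤ b := by
  calc a * Real.exp (-t) ≤ (b * Real.exp t) * Real.exp (-t) :=
        mul_le_mul_of_nonneg_right h (Real.exp_pos _).le
    _ = b := by rw [mul_assoc, ← Real.exp_add, add_neg_cancel, Real.exp_zero, mul_one]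

private theorem PB_le_mul {a b t : ℝ} (h : a * Real.exp (-t) ≤ b) : a ≤ b * Real.exp t := by
  calc a = (a * Real.exp (-t)) * Real.exp t := by
        rw [mul_assoc, ← Real.exp_add, neg_add_cancel, Real.exp_zero, mul_one]
    _ ≤ b * Real.exp t := mul_le_mul_of_nonneg_right h (Real.exp_pos _).le

private theorem PB_hundred : (100 : ℝ) ≤ Real.exp (19 / 4) := by
  have h1 : (2.7 : ℝ) ≤ Real.exp 1 := by
    have := Real.exp_one_gt_d9
    linarith
  have h2 : (100 : ℝ) ^ 4 ≤ Real.exp (19 / 4) ^ 4 := by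
    have e : Real.exp (19 / 4) ^ 4 = Real.exp 1 ^ 19 := by
      rw [← Real.exp_nat_mul, ← Real.exp_nat_mul]
      norm_num
    rw [e]
    calc (100 : ℝ) ^ 4 ≤ (2.7 : ℝ) ^ 19 := by norm_num
      _ ≤ Real.exp 1 ^ 19 := pow_le_pow_left₀ (by norm_num) h1 19
  exact (pow_le_pow_iff_left₀ (by norm_num) (Real.exp_pos _).le (by norm_num)).1 h2

private theorem PB_num (K : ℕ) (M s : ℝ) (hM : 0 ≤ M) (hs : 0 < s) :
    M ^ (1 - s) * (100 ^ K * M * Real.exp (K / 4)) ^ s ≤ M * Real.exp (5 * (K * s)) := by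
  rcases eq_or_lt_of_le hM with h0 | h0
  · rw [← h0, mul_zero, zero_mul, zero_mul, Real.zero_rpow hs.ne', mul_zero]
  · have h1 : (100 : ℝ) ^ K * M * Real.exp (K / 4) = M * (100 ^ K * Real.exp (K / 4)) := by ring
    have h2 : (100 : ℝ) ^ K * Real.exp (K / 4) ≤ Real.exp (5 * K) := by
      calc (100 : ℝ) ^ K * Real.exp (K / 4) ≤ Real.exp (19 / 4) ^ K * Real.exp (K / 4) :=
            mul_le_mul_of_nonneg_right (pow_le_pow_left₀ (by norm_num) PB_hundred K)
              (Real.exp_pos _).le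
        _ = Real.exp (5 * K) := by
          rw [← Real.exp_nat_mul, ← Real.exp_add]
          congr 1
          ring
    rw [h1, Real.mul_rpow hM (by positivity), ← mul_assoc, ← Real.rpow_add h0, sub_add_cancel,
      Real.rpow_one]
    refine mul_le_mul_of_nonneg_left ?_ hM
    calc ((100 : ℝ) ^ K * Real.exp (K / 4)) ^ s ≤ (Real.exp (5 * K)) ^ s :=
          Real.rpow_le_rpow (by positivity) h2 hs.le
      _ = Real.exp (5 * (K * s)) := by
        rw [← Real.exp_mul]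
        congr 1
        ring

theorem PA.differentiable {K : ℕ} {φ : ℂ → ℂ → ℂ} (hφ : PA K φ) :
    Differentiable ℂ (fun q : ℂ × ℂ => φ q.1 q.2) := by
  obtain ⟨h, hd, e⟩ := hφ
  have e' : (fun q : ℂ × ℂ => φ q.1 q.2) = fun q => ∑ j ∈ range K, q.2 ^ j * h j q.1 := by
    funext q
    exact e q.1 q.2
  rw [e']
  exact Differentiable.fun_sum fun j _ =>
    (differentiable_snd.pow j).mul ((hd j).comp differentiable_fst)

theorem lemB (K : ℕ) (hK : 1 ≤ K) (φ : ℂ → ℂ → ℂ) (hφ : PA K φ) (c M : ℝ) (hc : 0 < c)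
    (h : ∀ z, ‖φ z (conj z)‖ * Real.exp (-(c * ‖z‖ ^ 2 / 2)) ≤ M) (z d : ℂ) (hd : ‖d‖ ≤ √(K / c)) :
    ‖φ z (conj z + d)‖ * Real.exp (-(c * ‖z‖ ^ 2 / 2)) ≤ M * Real.exp (5 * √(c * K) * ‖d‖) := by
  have hM : 0 ≤ M := by
    refine le_trans ?_ (h 0)
    positivity
  have hP := lemP K hK φ hφ c M hc (fun z => PB_le_mul (h z))
  rcases eq_or_ne d 0 with hd0 | hd0
  · rw [hd0, add_zero, norm_zero, mul_zero, Real.exp_zero, mul_one]
    exact h z
  have hK' : (0 : ℝ) < K := by exact_mod_cast hK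
  have hKc : 0 < (K : ℝ) / c := div_pos hK' hc
  set R : ℝ := √(K / c) with hR
  have hR0 : 0 < R := Real.sqrt_pos.2 hKc
  have hdn : 0 < ‖d‖ := norm_pos_iff.2 hd0
  set d1 : ℂ := ((R / ‖d‖ : ℝ) : ℂ) * d with hd1
  have hd1n : ‖d1‖ = R := by
    rw [hd1, norm_mul, Complex.norm_real, Real.norm_eq_abs, abs_of_pos (by positivity),
      div_mul_cancel₀ _ hdn.ne']
  set s : ℝ := ‖d‖ / R with hs
  have hs0 : 0 < s := by positivity
  have hs1 : s ≤ 1 := (div_le_one hR0).2 hd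
  have hsd : (s : ℂ) * d1 = d := by
    rw [hd1, ← mul_assoc, ← Complex.ofReal_mul, hs]
    have e : ‖d‖ / R * (R / ‖d‖) = 1 := by
      field_simp
    rw [e, Complex.ofReal_one, one_mul]
  have hD : ∀ t : ℝ, 0 ≤ t → t ≤ 1 → ∀ z, ‖φ z (conj z + t * d1)‖ *
      Real.exp (-(c * ‖z‖ ^ 2 / 2)) ≤ 100 ^ K * M := by
    intro t ht0 ht1 z
    refine PB_mul_le (hP z (t * d1) ?_)
    rw [norm_mul, Complex.norm_real, Real.norm_eq_abs, abs_of_nonneg ht0, hd1n]
    exact mul_le_of_le_one_left hR0.le ht1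
  have hB : ∀ z, ‖φ z (conj z + d1)‖ * Real.exp (-(c * ‖z‖ ^ 2 / 2)) ≤ 100 ^ K * M := by
    intro z
    have := hD 1 zero_le_one le_rfl z
    rwa [Complex.ofReal_one, one_mul] at this
  have key := three1 φ hφ.differentiable c hc.le d1 M (100 ^ K * M) (100 ^ K * M) h hB hD s hs0.le
    hs1 z
  rw [hsd] at key
  refine key.trans ?_
  have e1 : c * ‖d1‖ ^ 2 / 4 = K / 4 := by
    rw [hd1n, hR, Real.sq_sqrt hKc.le]
    field_simp
  rw [e1]
  refine (PB_num K M s hM hs0).trans (le_of_eq ?_)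
  have e2 : √(c * K) * R = K := by
    rw [hR, ← Real.sqrt_mul (by positivity)]
    have e3 : c * K * (K / c) = (K : ℝ) ^ 2 := by
      field_simp
    rw [e3, Real.sqrt_sq hK'.le]
  have e4 : (K : ℝ) * s = √(c * K) * ‖d‖ := by
    calc (K : ℝ) * s = (√(c * K) * R) * (‖d‖ / R) := by rw [e2, hs]
      _ = √(c * K) * ‖d‖ := by
        rw [mul_assoc, mul_div_cancel₀ _ hR0.ne']
  rw [e4, mul_assoc]

end Pool.Agent.RHK
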