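import Pool.Agent.RHK.Core.Defs

/-!
ROHK-PExt (Mathlib only). Extrapolation of a polynomial of degree `< K` from the interval `[A, 2A]` to `0`:
Lagrange interpolation with the `K` nodes `A (1 + i / K)`, `i < K`.
-/

set_option autoImplicit false

namespace Pool.Agent.RHK

open Complex ComplexConjugate Finset

/-- The node product. -/
private lemma pext_prod_node (i : ℕ) : ∀ n : ℕ, i + 1 ≤ n →
    ∏ j ∈ (range n).erase i, |(i : ℝ) - (j : ℝ)| = (i.factorial : ℝ) * ((n - 1 - i).factorial : ℝ) := by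
  intro n hn
  induction n, hn using Nat.le_induction with
  | base =>
    have h1 : (range (i + 1)).erase i = range i := by
      rw [Finset.range_add_one]
      exact Finset.erase_insert (by simp)
    rw [h1]
    have h2 : i + 1 - 1 - i = 0 := by omega
    rw [h2, Nat.factorial_zero, Nat.cast_one, mul_one]
    have h3 : ∏ j ∈ range i, |(i : ℝ) - (j : ℝ)| = ∏ j ∈ range i, (((j + 1 : ℕ)) : ℝ) := by
      rw [← Finset.prod_range_reflect]
      refine Finset.prod_congr rfl (fun j hj => ?_)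
      have hj' := Finset.mem_range.1 hj
      have h4 : ((i - 1 - j : ℕ) : ℝ) = (i : ℝ) - 1 - j := by
        rw [Nat.cast_sub (by omega), Nat.cast_sub (by omega)]; simp
      rw [h4]
      have h5 : (i : ℝ) - ((i : ℝ) - 1 - j) = ((j + 1 : ℕ) : ℝ) := by push_cast; ring
      rw [h5, abs_of_nonneg (by positivity)]
    rw [h3, ← Nat.cast_prod, Finset.prod_range_add_one_eq_factorial]
  | succ n hn ih =>
    have h1 : (range (n + 1)).erase i = insert n ((range n).erase i) := by
      rw [Finset.range_add_one, Finset.erase_insert_of_ne (by omega)]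
    rw [h1, Finset.prod_insert (by simp), ih]
    have h2 : n + 1 - 1 - i = (n - 1 - i) + 1 := by omega
    rw [h2, Nat.factorial_succ]
    have h3 : |(i : ℝ) - (n : ℝ)| = (((n - 1 - i) + 1 : ℕ) : ℝ) := by
      have h4 : (((n - 1 - i) + 1 : ℕ) : ℝ) = (n : ℝ) - i := by
        rw [show (n - 1 - i) + 1 = n - i from by omega, Nat.cast_sub (by omega)]
      rw [h4, abs_sub_comm, abs_of_nonneg]
      have : (i : ℝ) ≤ n := by exact_mod_cast (by omega : i ≤ n)
      linarith
    rw [h3]
    push_cast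
    ring

private lemma pext_lagr (n : ℕ) (f : Polynomial ℂ) (A B : ℝ) (hA : 0 < A) (hn : 1 ≤ n) (hd : f.degree < n)
    (hB : ∀ t : ℝ, A ≤ t → t ≤ 2 * A → ‖f.eval (t : ℂ)‖ ≤ B) :
    ‖f.eval 0‖ ≤ (4 * Real.exp 1) ^ n * B := by
  have hB0 : 0 ≤ B := le_trans (norm_nonneg _) (hB A le_rfl (by linarith))
  have hn0 : (0 : ℝ) < n := by exact_mod_cast (by omega : 0 < n)
  set v : ℕ → ℂ := fun i => ((A * (1 + (i : ℝ) / n) : ℝ) : ℂ) with hv
  have hinj : Set.InjOn v (range n : Finset ℕ) := by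
    intro a _ b _ hab
    have h1 : A * (1 + (a : ℝ) / n) = A * (1 + (b : ℝ) / n) := Complex.ofReal_injective hab
    have h2 : 1 + (a : ℝ) / n = 1 + (b : ℝ) / n := mul_left_cancel₀ hA.ne' h1
    have h3 : (a : ℝ) = b := by
      field_simp at h2
      linarith
    exact_mod_cast h3
  have hint := Lagrange.eq_interpolate (s := range n) (f := f) hinj (by rw [Finset.card_range]; exact hd)
  have heval : f.eval 0 = ∑ i ∈ range n, f.eval (v i) * (Lagrange.basis (range n) v i).eval 0 := by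
    conv_lhs => rw [hint]
    rw [Lagrange.interpolate_apply, Polynomial.eval_finsetSum]
    refine Finset.sum_congr rfl (fun i _ => ?_)
    rw [Polynomial.eval_mul, Polynomial.eval_C]
  have hnode : ∀ j ∈ range n, A ≤ A * (1 + (j : ℝ) / n) ∧ A * (1 + (j : ℝ) / n) ≤ 2 * A := by
    intro j hj
    have hj' := Finset.mem_range.1 hj
    have h1 : (0 : ℝ) ≤ (j : ℝ) / n := by positivity
    have h2 : (j : ℝ) / n ≤ 1 := by
      rw [div_le_one hn0]
      exact_mod_cast hj'.le
    constructor <;> nlinarith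
  have hbasis : ∀ i ∈ range n, ‖(Lagrange.basis (range n) v i).eval 0‖ ≤
      (2 * n) ^ (n - 1) / ((i.factorial : ℝ) * ((n - 1 - i).factorial : ℝ)) := by
    intro i hi
    have hi' := Finset.mem_range.1 hi
    rw [Lagrange.basis, Polynomial.eval_prod, norm_prod]
    have hterm : ∀ j ∈ (range n).erase i, ‖(Lagrange.basisDivisor (v i) (v j)).eval 0‖ ≤
        (2 * n) * |(i : ℝ) - (j : ℝ)|⁻¹ := by
      intro j hj
      have hjr := Finset.mem_of_mem_erase hj
      rw [Lagrange.basisDivisor, Polynomial.eval_mul, Polynomial.eval_C, norm_mul, norm_inv]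
      simp only [Polynomial.eval_sub, Polynomial.eval_X, Polynomial.eval_C]
      have h1 : ‖v i - v j‖ = A * (|(i : ℝ) - j| / n) := by
        simp only [hv]
        rw [← Complex.ofReal_sub, Complex.norm_real, Real.norm_eq_abs,
          show A * (1 + (i : ℝ) / n) - A * (1 + (j : ℝ) / n) = A * (((i : ℝ) - j) / n) by ring,
          abs_mul, abs_div, abs_of_pos hA, abs_of_pos hn0]
      have h2 : ‖(0 : ℂ) - v j‖ ≤ 2 * A := by
        simp only [hv]
        rw [zero_sub, norm_neg, Complex.norm_real, Real.norm_eq_abs,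
          abs_of_nonneg (hA.le.trans (hnode j hjr).1)]
        exact (hnode j hjr).2
      have hne : (0 : ℝ) < |(i : ℝ) - j| := by
        rw [abs_pos, sub_ne_zero]
        exact_mod_cast (Finset.ne_of_mem_erase hj).symm
      rw [h1]
      calc (A * (|(i : ℝ) - j| / n))⁻¹ * ‖(0 : ℂ) - v j‖ ≤ (A * (|(i : ℝ) - j| / n))⁻¹ * (2 * A) := by
            gcongr
        _ = (2 * n) * |(i : ℝ) - (j : ℝ)|⁻¹ := by field_simp
    refine (Finset.prod_le_prod (fun j _ => norm_nonneg _) hterm).trans ?_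
    rw [Finset.prod_mul_distrib, Finset.prod_inv_distrib, pext_prod_node i n hi', Finset.prod_const,
      Finset.card_erase_of_mem hi, Finset.card_range, div_eq_mul_inv]
  rw [heval]
  have hsum : ‖∑ i ∈ range n, f.eval (v i) * (Lagrange.basis (range n) v i).eval 0‖ ≤
      ∑ i ∈ range n, B * ((2 * n) ^ (n - 1) / ((i.factorial : ℝ) * ((n - 1 - i).factorial : ℝ))) := by
    refine (norm_sum_le _ _).trans (Finset.sum_le_sum (fun i hi => ?_))
    rw [norm_mul]
    exact mul_le_mul (hB _ (hnode i hi).1 (hnode i hi).2) (hbasis i hi) (norm_nonneg _) hB0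
  refine hsum.trans ?_
  have hbin : ∑ i ∈ range n, B * ((2 * n) ^ (n - 1) / ((i.factorial : ℝ) * ((n - 1 - i).factorial : ℝ)))
      = B * ((2 * n) ^ (n - 1) / ((n - 1).factorial : ℝ) * 2 ^ (n - 1)) := by
    obtain ⟨m, rfl⟩ : ∃ m, n = m + 1 := ⟨n - 1, by omega⟩
    rw [← Finset.mul_sum]
    congr 1
    have h2 : (2 : ℝ) ^ (m + 1 - 1) = ∑ i ∈ range (m + 1), (m.choose i : ℝ) := by
      have := Nat.sum_range_choose m
      have h3 : ((∑ i ∈ range (m + 1), m.choose i : ℕ) : ℝ) = ((2 ^ m : ℕ) : ℝ) := by rw [this]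
      push_cast at h3
      rw [Nat.add_sub_cancel, ← h3]
    rw [h2, Finset.mul_sum]
    refine Finset.sum_congr rfl (fun i hi => ?_)
    have hi' := Finset.mem_range.1 hi
    have h4 := Nat.choose_mul_factorial_mul_factorial (n := m) (k := i) (by omega)
    have h5 : (m.choose i : ℝ) * (i.factorial : ℝ) * ((m - i).factorial : ℝ) = (m.factorial : ℝ) := by
      exact_mod_cast h4
    have hm0 : (m.factorial : ℝ) ≠ 0 := by exact_mod_cast m.factorial_ne_zero
    have hi0 : (i.factorial : ℝ) ≠ 0 := by exact_mod_cast i.factorial_ne_zero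
    have hmi0 : ((m - i).factorial : ℝ) ≠ 0 := by exact_mod_cast (m - i).factorial_ne_zero
    rw [Nat.add_sub_cancel]
    rw [div_mul_eq_mul_div, div_eq_div_iff (mul_ne_zero hi0 hmi0) hm0, ← h5]
    ring
  rw [hbin, mul_comm B]
  refine mul_le_mul_of_nonneg_right ?_ hB0
  have hexp : (n : ℝ) ^ n / (n.factorial : ℝ) ≤ Real.exp 1 ^ n := by
    have := Real.pow_div_factorial_le_exp (n : ℝ) hn0.le n
    refine this.trans ?_
    rw [← Real.exp_nat_mul, mul_one]
  have hfact : (n : ℝ) ^ n / (n.factorial : ℝ) = (n : ℝ) ^ (n - 1) / ((n - 1).factorial : ℝ) := by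
    obtain ⟨m, rfl⟩ : ∃ m, n = m + 1 := ⟨n - 1, by omega⟩
    rw [Nat.add_sub_cancel, Nat.factorial_succ, pow_succ, Nat.cast_mul]
    have h1 : ((m + 1 : ℕ) : ℝ) ≠ 0 := by positivity
    have h2 : ((m.factorial : ℕ) : ℝ) ≠ 0 := by exact_mod_cast m.factorial_ne_zero
    field_simp
  calc (2 * (n : ℝ)) ^ (n - 1) / ((n - 1).factorial : ℝ) * 2 ^ (n - 1)
      = 4 ^ (n - 1) * ((n : ℝ) ^ (n - 1) / ((n - 1).factorial : ℝ)) := by
        rw [mul_pow, show (4 : ℝ) = 2 * 2 by norm_num, mul_pow]; ring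
    _ ≤ 4 ^ n * Real.exp 1 ^ n := by
        rw [← hfact]
        refine mul_le_mul ?_ hexp (by positivity) (by positivity)
        exact pow_le_pow_right₀ (by norm_num) (by omega)
    _ = (4 * Real.exp 1) ^ n := by rw [mul_pow]

theorem poly_extrap (K : ℕ) (hK : 1 ≤ K) (q : ℕ → ℂ) (A B : ℝ) (hA : 0 < A)
    (h : ∀ s : ℝ, A ≤ s → s ≤ 2 * A → ‖∑ i ∈ range K, q i * (s : ℂ) ^ i‖ ≤ B) :
    ‖q 0‖ ≤ 12 ^ K * B := by
  have hB0 : 0 ≤ B := le_trans (norm_nonneg _) (h A le_rfl (by linarith))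
  have hev : ∀ z : ℂ, (∑ i ∈ range K, Polynomial.C (q i) * Polynomial.X ^ i : Polynomial ℂ).eval z =
      ∑ i ∈ range K, q i * z ^ i := by
    intro z
    rw [Polynomial.eval_finsetSum]
    refine Finset.sum_congr rfl fun i _ => ?_
    rw [Polynomial.eval_mul, Polynomial.eval_C, Polynomial.eval_pow, Polynomial.eval_X]
  have hdeg : (∑ i ∈ range K, Polynomial.C (q i) * Polynomial.X ^ i : Polynomial ℂ).degree < K := by
    refine lt_of_le_of_lt Polynomial.degree_le_natDegree ?_
    rw [Nat.cast_lt]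
    refine lt_of_le_of_lt (Polynomial.natDegree_sum_le_of_forall_le (n := K - 1) _ _ ?_) (by omega)
    intro i hi
    have hi' := Finset.mem_range.1 hi
    exact (Polynomial.natDegree_C_mul_X_pow_le _ _).trans (by omega)
  have h1 := pext_lagr K _ A B hA hK hdeg (fun t ht1 ht2 => by rw [hev]; exact h t ht1 ht2)
  rw [hev] at h1
  have h2 : ∑ i ∈ range K, q i * (0 : ℂ) ^ i = q 0 := by
    rw [Finset.sum_eq_single 0]
    · simp
    · intro b _ hb
      rw [zero_pow hb, mul_zero]
    · intro h0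
      exact absurd (Finset.mem_range.2 (by omega)) h0
  rw [h2] at h1
  refine h1.trans (mul_le_mul_of_nonneg_right ?_ hB0)
  apply pow_le_pow_left₀ (by positivity)
  have := Real.exp_one_lt_d9
  linarith

end Pool.Agent.RHK
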