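import Pool.Agent.RHK.Core.Defs

/-!
ROHK-PFou (Mathlib only). Fourier coefficients of a polyanalytic function on a circle.

PLAN. On `|z| = r`: `conj z = r²/z`. The circle average of `z^ν ∑_j (conj z)^j h_j(z)` equals
`∑_{j<K} r^{2j} (average of z^{ν-j} h_j(z))`. For `j = ν + i ≥ ν` the average of `z^{-i} h_j(z)` is the Taylor coefficient
`iteratedDeriv i h_j 0 / i!` (Cauchy formula for derivatives on the circle, e.g.
`Complex.circleIntegral_one_div_sub_center_pow_smul_of_differentiable_on_off_countable` or power series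
`Complex.hasSum_taylorSeries_of_entire` + orthogonality); for `j < ν` the average of `z^{ν-j} h_j(z)` is `0` (mean value
property: the function is entire and vanishes at `0`). So the average is `r^{2ν} ∑_{i<K-ν} r^{2i} h_{i+ν}^{(i)}(0)/i!`, and its
absolute value is `≤ r^ν B`. Divide by `r^ν`.
-/

set_option autoImplicit false

namespace Pool.Agent.RHK

open Complex ComplexConjugate Finset

private theorem pFou_ne {r : ℝ} (hr : 0 < r) {z : ℂ} (hz : z ∈ Metric.sphere (0 : ℂ) r) : z ≠ 0 := by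
  intro h
  rw [h] at hz
  simp at hz
  exact hr.ne hz

private theorem pFou_hi {r : ℝ} (hr : 0 < r) {h : ℂ → ℂ} (hh : Differentiable ℂ h) (ν i : ℕ) :
    (∮ z in C(0, r), z ^ ν * (z ^ (ν + i + 1))⁻¹ * h z) =
      2 * Real.pi * I * (iteratedDeriv i h 0 / (i.factorial : ℂ)) := by
  have h1 := (hh.differentiableOn (s := Metric.closedBall (0 : ℂ) r)).circleIntegral_one_div_sub_center_pow_smul hr i
  have h2 : (∮ z in C(0, r), z ^ ν * (z ^ (ν + i + 1))⁻¹ * h z) =
      ∮ z in C(0, r), (1 / (z - 0) ^ (i + 1)) • h z := by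
    apply circleIntegral.integral_congr hr.le
    intro z hz
    have hz0 := pFou_ne hr hz
    simp only [sub_zero, smul_eq_mul]
    congr 1
    have : z ^ (ν + i + 1) = z ^ ν * z ^ (i + 1) := by rw [← pow_add]; rfl
    rw [this]
    field_simp
  rw [h2, h1, smul_eq_mul]
  ring

private theorem pFou_lo {r : ℝ} (hr : 0 < r) {h : ℂ → ℂ} (hh : Differentiable ℂ h) (ν j : ℕ) (hj : j < ν) :
    (∮ z in C(0, r), z ^ ν * (z ^ (j + 1))⁻¹ * h z) = 0 := by
  have h2 : (∮ z in C(0, r), z ^ ν * (z ^ (j + 1))⁻¹ * h z) =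
      ∮ z in C(0, r), z ^ (ν - (j + 1)) * h z := by
    apply circleIntegral.integral_congr hr.le
    intro z hz
    have hz0 := pFou_ne hr hz
    simp only
    congr 1
    have : z ^ ν = z ^ (ν - (j + 1)) * z ^ (j + 1) := by
      rw [← pow_add]
      congr 1
      omega
    rw [this, mul_assoc, mul_inv_cancel₀ (pow_ne_zero _ hz0), mul_one]
  rw [h2]
  apply DiffContOnCl.circleIntegral_eq_zero hr.le
  have : Differentiable ℂ (fun z : ℂ => z ^ (ν - (j + 1)) * h z) :=
    (differentiable_id.pow _).mul hh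
  exact this.diffContOnCl

private theorem pFou_ci {r : ℝ} (hr : 0 < r) {h : ℂ → ℂ} (hh : Differentiable ℂ h) (a : ℂ) (ν j : ℕ) :
    CircleIntegrable (fun z => a * (z ^ ν * (z ^ (j + 1))⁻¹ * h z)) 0 r := by
  apply ContinuousOn.circleIntegrable hr.le
  apply ContinuousOn.mul continuousOn_const
  apply ContinuousOn.mul _ hh.continuous.continuousOn
  apply ContinuousOn.mul (by fun_prop)
  apply ContinuousOn.inv₀ (by fun_prop)
  intro z hz
  exact pow_ne_zero _ (pFou_ne hr hz)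

theorem fourier_pa (K : ℕ) (h : ℕ → ℂ → ℂ) (hh : ∀ j, Differentiable ℂ (h j)) (B r : ℝ) (hr : 0 < r)
    (hB : ∀ z : ℂ, ‖z‖ = r → ‖∑ j ∈ range K, (conj z) ^ j * h j z‖ ≤ B) (ν : ℕ) (hν : ν < K) :
    ‖∑ i ∈ range (K - ν), iteratedDeriv i (h (i + ν)) 0 / (i.factorial : ℂ) * ((r ^ 2 : ℝ) : ℂ) ^ i‖ *
      r ^ ν ≤ B := by
  set G : ℂ → ℂ := fun z => ∑ j ∈ range K, ((r ^ 2 : ℝ) : ℂ) ^ j * (z ^ ν * (z ^ (j + 1))⁻¹ * h j z)
    with hGdef
  set Sg : ℂ := ∑ i ∈ range (K - ν), iteratedDeriv i (h (i + ν)) 0 / (i.factorial : ℂ) *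
    ((r ^ 2 : ℝ) : ℂ) ^ i with hSg
  have hG : ∀ z ∈ Metric.sphere (0 : ℂ) r, ‖G z‖ ≤ r ^ ν * r⁻¹ * B := by
    intro z hz
    have hz0 := pFou_ne hr hz
    have hzr : ‖z‖ = r := by simpa using hz
    have hc : ((r ^ 2 : ℝ) : ℂ) * z⁻¹ = conj z := by
      have : z * conj z = ((r ^ 2 : ℝ) : ℂ) := by
        rw [Complex.mul_conj, Complex.normSq_eq_norm_sq, hzr]
      rw [← this]
      field_simp
    have : G z = z ^ ν * z⁻¹ * ∑ j ∈ range K, (conj z) ^ j * h j z := by
      rw [hGdef]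
      simp only
      rw [Finset.mul_sum]
      apply Finset.sum_congr rfl
      intro j _
      rw [← hc, mul_pow, inv_pow, pow_succ z j, mul_inv]
      ring
    rw [this, norm_mul, norm_mul, norm_pow, norm_inv, hzr]
    exact mul_le_mul_of_nonneg_left (hB z hzr) (by positivity)
  have hI : (∮ z in C(0, r), G z) = 2 * Real.pi * I * (((r ^ 2 : ℝ) : ℂ) ^ ν * Sg) := by
    rw [hGdef, circleIntegral.integral_fun_sum (fun j _ => pFou_ci hr (hh j) _ ν j)]
    simp only [circleIntegral.integral_const_mul]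
    obtain ⟨L, rfl⟩ : ∃ L, K = ν + L := ⟨K - ν, by omega⟩
    rw [Finset.sum_range_add, Finset.sum_eq_zero, zero_add, hSg]
    · have : ν + L - ν = L := by omega
      rw [this, Finset.mul_sum, Finset.mul_sum]
      apply Finset.sum_congr rfl
      intro i _
      rw [pFou_hi hr (hh (ν + i)) ν i, add_comm i ν, pow_add]
      ring
    · intro j hj
      rw [pFou_lo hr (hh j) ν j (Finset.mem_range.mp hj), mul_zero]
  have hn := circleIntegral.norm_integral_le_of_norm_le_const hr.le hG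
  rw [hI] at hn
  rw [norm_mul, norm_mul, norm_mul, norm_mul, norm_pow, Complex.norm_real, Complex.norm_I,
    Complex.norm_real, Real.norm_of_nonneg Real.pi_pos.le, Real.norm_of_nonneg (by positivity)] at hn
  simp only [RCLike.norm_ofNat, mul_one] at hn
  have hrν : 0 < r ^ ν := pow_pos hr ν
  have h3 : 2 * Real.pi * ((r ^ 2) ^ ν * ‖Sg‖) ≤ 2 * Real.pi * (r ^ ν * B) := by
    refine hn.trans (le_of_eq ?_)
    field_simp
  have h4 : (r ^ 2) ^ ν * ‖Sg‖ ≤ r ^ ν * B := le_of_mul_le_mul_left h3 (by positivity)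
  have h5 : r ^ ν * (‖Sg‖ * r ^ ν) ≤ r ^ ν * B := by
    refine le_trans (le_of_eq ?_) h4
    rw [← pow_mul, mul_comm 2 ν, pow_mul, sq]
    ring
  exact le_of_mul_le_mul_left h5 hrν

end Pool.Agent.RHK
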