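import Pool.Agent.RHK.Core.PExt
import Pool.Agent.RHK.Core.PFou

/-!
ROHK-PP. Lemma P of /team-store/rohk_core_h98.md, section 3.

PLAN. (1) `z = 0`: for `ν < K` put `q_i = iteratedDeriv i (h (i+ν)) 0 / i!` (`i < K - ν`). `fourier_pa` with `r² = s`,
`s ∈ [K/(2c), K/c]`, `B = M exp(c s/2)` gives `|∑ q_i s^i| ≤ M exp(K/2) (K/(2c))^{-ν/2}`; `poly_extrap` (degree `K - ν ≤ K`, pad or
use `12^(K-ν) ≤ 12^K`): `|h_ν(0)| = |q_0| ≤ 12^K M exp(K/2) (K/(2c))^{-ν/2}`. For `|d| ≤ sqrt(K/c)`: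
`|h_ν(0)| |d|^ν ≤ 12^K exp(K/2) 2^{ν/2} M`; sum over `ν < K`: `≤ K (12 * 1.65 * 1.42)^K M ≤ 100^K M`.
(2) general `z = a`: `φ_a(z, z') = φ(z + a, z' + conj a) exp(-c (conj a z + |a|²/2))` is again `PA K` (binomial theorem:
the coefficient of `z'^j` is `∑_{l ≥ j} C(l,j) (conj a)^{l-j} h_l(z+a)` times the exponential) with the same bound
(`|z+a|² = |z|² + 2 Re(conj a z) + |a|²`), and `φ_a(0, d) = φ(a, conj a + d) exp(-c|a|²/2)`.
-/

set_option autoImplicit false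

namespace Pool.Agent.RHK

open Complex ComplexConjugate Finset

/-- The coefficient bound at `0`. -/
private lemma pp_coef (K : ℕ) (h : ℕ → ℂ → ℂ) (hh : ∀ j, Differentiable ℂ (h j)) (c M : ℝ)
    (hc : 0 < c) (hM : 0 ≤ M)
    (hb : ∀ z, ‖∑ j ∈ range K, (conj z) ^ j * h j z‖ ≤ M * Real.exp (c * ‖z‖ ^ 2 / 2))
    (ν : ℕ) (hν : ν < K) :
    ‖h ν 0‖ * √(K / (2 * c)) ^ ν ≤ 12 ^ K * (M * Real.exp (K / 2)) := by
  have hK0 : (0 : ℝ) < K := by exact_mod_cast (by omega : 0 < K)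
  have hA : 0 < (K : ℝ) / (2 * c) := by positivity
  have hsA : 0 < √((K : ℝ) / (2 * c)) := Real.sqrt_pos.2 hA
  have hpA : 0 < √((K : ℝ) / (2 * c)) ^ ν := pow_pos hsA ν
  have key : ∀ s : ℝ, (K : ℝ) / (2 * c) ≤ s → s ≤ 2 * ((K : ℝ) / (2 * c)) →
      ‖∑ i ∈ range (K - ν), iteratedDeriv i (h (i + ν)) 0 / (i.factorial : ℂ) * (s : ℂ) ^ i‖ ≤
        M * Real.exp (K / 2) / √((K : ℝ) / (2 * c)) ^ ν := by
    intro s hs1 hs2
    have hs0 : 0 < s := lt_of_lt_of_le hA hs1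
    have hr : 0 < √s := Real.sqrt_pos.2 hs0
    have hsq : √s ^ 2 = s := Real.sq_sqrt hs0.le
    have hcs : c * s / 2 ≤ (K : ℝ) / 2 := by
      have h1 : c * s ≤ c * (2 * ((K : ℝ) / (2 * c))) := by gcongr
      have h2 : c * (2 * ((K : ℝ) / (2 * c))) = K := by field_simp
      linarith
    have h1 := fourier_pa K h hh (M * Real.exp (K / 2)) (√s) hr (fun z hz => by
      refine (hb z).trans ?_
      rw [hz, hsq]
      gcongr) ν hν
    rw [hsq] at h1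
    rw [le_div_iff₀ hpA]
    refine le_trans ?_ h1
    gcongr
  have h2 := poly_extrap (K - ν) (by omega)
    (fun i => iteratedDeriv i (h (i + ν)) 0 / (i.factorial : ℂ)) _ _ hA key
  have h3 : iteratedDeriv 0 (h (0 + ν)) 0 / ((Nat.factorial 0 : ℕ) : ℂ) = h ν 0 := by
    rw [iteratedDeriv_zero, Nat.factorial_zero, Nat.cast_one, div_one, zero_add]
  have h4 : ‖h ν 0‖ ≤ 12 ^ (K - ν) * (M * Real.exp (K / 2) / √((K : ℝ) / (2 * c)) ^ ν) := by
    rw [← h3]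
    exact h2
  have h5 : (12 : ℝ) ^ (K - ν) ≤ 12 ^ K := pow_le_pow_right₀ (by norm_num) (by omega)
  calc ‖h ν 0‖ * √((K : ℝ) / (2 * c)) ^ ν
      ≤ (12 ^ (K - ν) * (M * Real.exp (K / 2) / √((K : ℝ) / (2 * c)) ^ ν)) *
        √((K : ℝ) / (2 * c)) ^ ν := by gcongr
    _ = 12 ^ (K - ν) * (M * Real.exp (K / 2)) := by field_simp
    _ ≤ 12 ^ K * (M * Real.exp (K / 2)) := by gcongr

/-- Numerical constant. -/
private lemma pp_num (K : ℕ) : (K : ℝ) * (12 ^ K * (Real.exp (K / 2) * √2 ^ K)) ≤ 100 ^ K := by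
  have h1 : (K : ℝ) ≤ 2 ^ K := by
    have := (Nat.lt_two_pow_self (n := K)).le
    exact_mod_cast this
  have h2 : Real.exp ((K : ℝ) / 2) = Real.exp (1 / 2) ^ K := by
    rw [← Real.exp_nat_mul]
    congr 1
    ring
  have h3 : Real.exp (1 / 2) ≤ 2 := by
    have h4 : Real.exp (1 / 2) ^ 2 ≤ 2 ^ 2 := by
      rw [← Real.exp_nat_mul]
      have h5 : ((2 : ℕ) : ℝ) * (1 / 2) = 1 := by norm_num
      rw [h5]
      have := Real.exp_one_lt_d9
      linarith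
    exact (pow_le_pow_iff_left₀ (Real.exp_pos _).le (by norm_num) (by norm_num)).1 h4
  have h7 : √2 ≤ 1.5 := by
    rw [Real.sqrt_le_left (by norm_num)]
    norm_num
  rw [h2]
  calc (K : ℝ) * (12 ^ K * (Real.exp (1 / 2) ^ K * √2 ^ K))
      ≤ 2 ^ K * (12 ^ K * (2 ^ K * 1.5 ^ K)) := by gcongr
    _ = 72 ^ K := by
      rw [← mul_pow, ← mul_pow, ← mul_pow]
      norm_num
    _ ≤ 100 ^ K := by gcongr; norm_num

/-- The case `z = 0`. -/
private lemma pp_zero (K : ℕ) (h : ℕ → ℂ → ℂ) (hh : ∀ j, Differentiable ℂ (h j)) (c M : ℝ)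
    (hc : 0 < c) (hM : 0 ≤ M)
    (hb : ∀ z, ‖∑ j ∈ range K, (conj z) ^ j * h j z‖ ≤ M * Real.exp (c * ‖z‖ ^ 2 / 2))
    (d : ℂ) (hd : ‖d‖ ≤ √(K / c)) :
    ‖∑ j ∈ range K, d ^ j * h j 0‖ ≤ 100 ^ K * M := by
  have hterm : ∀ ν ∈ range K, ‖d ^ ν * h ν 0‖ ≤
      12 ^ K * (Real.exp (K / 2) * √2 ^ K) * M := by
    intro ν hν
    have hν' := Finset.mem_range.1 hν
    have h1 := pp_coef K h hh c M hc hM hb ν hν'
    have h2 : √((K : ℝ) / c) = √2 * √((K : ℝ) / (2 * c)) := by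
      rw [← Real.sqrt_mul (by norm_num)]
      congr 1
      field_simp
    have h3 : ‖d‖ ^ ν ≤ √2 ^ ν * √((K : ℝ) / (2 * c)) ^ ν := by
      rw [← mul_pow, ← h2]
      gcongr
    have h4 : √2 ^ ν ≤ √2 ^ K := by
      apply pow_le_pow_right₀ _ hν'.le
      rw [Real.one_le_sqrt]
      norm_num
    rw [norm_mul, norm_pow]
    calc ‖d‖ ^ ν * ‖h ν 0‖ ≤ (√2 ^ ν * √((K : ℝ) / (2 * c)) ^ ν) * ‖h ν 0‖ := by gcongr
      _ = √2 ^ ν * (‖h ν 0‖ * √((K : ℝ) / (2 * c)) ^ ν) := by ring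
      _ ≤ √2 ^ K * (12 ^ K * (M * Real.exp (K / 2))) := by gcongr
      _ = 12 ^ K * (Real.exp (K / 2) * √2 ^ K) * M := by ring
  calc ‖∑ j ∈ range K, d ^ j * h j 0‖ ≤ ∑ ν ∈ range K, ‖d ^ ν * h ν 0‖ := norm_sum_le _ _
    _ ≤ ∑ _ν ∈ range K, 12 ^ K * (Real.exp (K / 2) * √2 ^ K) * M := Finset.sum_le_sum hterm
    _ = (K : ℝ) * (12 ^ K * (Real.exp (K / 2) * √2 ^ K)) * M := by
      rw [Finset.sum_const, Finset.card_range, nsmul_eq_mul]
      ring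
    _ ≤ 100 ^ K * M := by
      gcongr
      exact pp_num K

/-- The translation. -/
private lemma pp_trans (K : ℕ) (h : ℕ → ℂ → ℂ) (c : ℝ) (a z z' : ℂ) :
    (∑ j ∈ range K, (z' + conj a) ^ j * h j (z + a)) * cexp (-(c * (conj a * z + ‖a‖ ^ 2 / 2))) =
    ∑ j ∈ range K, z' ^ j * ((∑ l ∈ range K, (l.choose j : ℂ) * (conj a) ^ (l - j) * h l (z + a)) *
      cexp (-(c * (conj a * z + ‖a‖ ^ 2 / 2)))) := by
  rw [Finset.sum_mul]
  have h1 : ∀ l ∈ range K, (z' + conj a) ^ l * h l (z + a) *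
      cexp (-(c * (conj a * z + ‖a‖ ^ 2 / 2))) =
      ∑ j ∈ range K, z' ^ j * ((l.choose j : ℂ) * (conj a) ^ (l - j) * h l (z + a) *
        cexp (-(c * (conj a * z + ‖a‖ ^ 2 / 2)))) := by
    intro l hl
    have hl' := Finset.mem_range.1 hl
    rw [add_pow, Finset.sum_mul, Finset.sum_mul]
    have hsub : range (l + 1) ⊆ range K := Finset.range_subset_range.2 (by omega)
    rw [← Finset.sum_subset hsub]
    · refine Finset.sum_congr rfl (fun j _ => ?_)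
      ring
    · intro j _ hj
      have hj' : l < j := by
        by_contra hcon
        exact hj (Finset.mem_range.2 (by omega))
      rw [Nat.choose_eq_zero_of_lt hj']
      simp
  rw [Finset.sum_congr rfl h1, Finset.sum_comm]
  refine Finset.sum_congr rfl (fun j _ => ?_)
  rw [Finset.sum_mul, Finset.mul_sum]

private lemma pp_norm (c : ℝ) (a z : ℂ) :
    ‖cexp (-(c * (conj a * z + ‖a‖ ^ 2 / 2)))‖ * Real.exp (c * ‖z + a‖ ^ 2 / 2) =
      Real.exp (c * ‖z‖ ^ 2 / 2) := by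
  rw [Complex.norm_exp, ← Real.exp_add]
  congr 1
  have h1 : ((-(c * (conj a * z + ‖a‖ ^ 2 / 2)) : ℂ)).re =
      -(c * (a.re * z.re + a.im * z.im + ‖a‖ ^ 2 / 2)) := by
    have h2 : (((‖a‖ : ℂ)) ^ 2 / 2) = ((‖a‖ ^ 2 / 2 : ℝ) : ℂ) := by push_cast; ring
    rw [h2, Complex.neg_re, Complex.re_ofReal_mul, Complex.add_re, Complex.ofReal_re, Complex.mul_re,
      Complex.conj_re, Complex.conj_im]
    ring
  rw [h1, ← Complex.normSq_eq_norm_sq, ← Complex.normSq_eq_norm_sq, ← Complex.normSq_eq_norm_sq,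
    Complex.normSq_apply, Complex.normSq_apply, Complex.normSq_apply, Complex.add_re, Complex.add_im]
  ring

theorem lemP (K : ℕ) (hK : 1 ≤ K) (φ : ℂ → ℂ → ℂ) (hφ : PA K φ) (c M : ℝ) (hc : 0 < c)
    (h : ∀ z, ‖φ z (conj z)‖ ≤ M * Real.exp (c * ‖z‖ ^ 2 / 2)) (z d : ℂ) (hd : ‖d‖ ≤ √(K / c)) :
    ‖φ z (conj z + d)‖ ≤ 100 ^ K * M * Real.exp (c * ‖z‖ ^ 2 / 2) := by
  have _ := hK
  obtain ⟨g, hg, hgφ⟩ := hφ
  have hM : 0 ≤ M := by
    have h1 := (norm_nonneg _).trans (h 0)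
    simp at h1
    exact h1
  -- the translated coefficients
  set G : ℕ → ℂ → ℂ := fun j w =>
    (∑ l ∈ range K, (l.choose j : ℂ) * (conj z) ^ (l - j) * g l (w + z)) *
      cexp (-(c * (conj z * w + ‖z‖ ^ 2 / 2))) with hG
  have hGd : ∀ j, Differentiable ℂ (G j) := by
    intro j
    simp only [hG]
    apply Differentiable.mul
    · apply Differentiable.fun_sum
      intro l _
      apply Differentiable.const_mul
      exact (hg l).comp (differentiable_id.add_const z)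
    · fun_prop
  have hGeq : ∀ w w' : ℂ, ∑ j ∈ range K, w' ^ j * G j w =
      φ (w + z) (w' + conj z) * cexp (-(c * (conj z * w + ‖z‖ ^ 2 / 2))) := by
    intro w w'
    rw [hgφ, pp_trans K g c z w w']
  have hb : ∀ w, ‖∑ j ∈ range K, (conj w) ^ j * G j w‖ ≤ M * Real.exp (c * ‖w‖ ^ 2 / 2) := by
    intro w
    rw [hGeq, norm_mul, ← pp_norm c z w]
    have h1 := h (w + z)
    rw [map_add] at h1
    calc ‖φ (w + z) (conj w + conj z)‖ * ‖cexp (-(c * (conj z * w + ‖z‖ ^ 2 / 2)))‖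
        ≤ (M * Real.exp (c * ‖w + z‖ ^ 2 / 2)) * ‖cexp (-(c * (conj z * w + ‖z‖ ^ 2 / 2)))‖ := by
          gcongr
      _ = M * (‖cexp (-(c * (conj z * w + ‖z‖ ^ 2 / 2)))‖ * Real.exp (c * ‖w + z‖ ^ 2 / 2)) := by
          ring
  have h0 := pp_zero K G hGd c M hc hM hb d hd
  rw [hGeq, norm_mul, zero_add] at h0
  have h2 := pp_norm c z 0
  rw [zero_add, norm_zero] at h2
  have h3 : ‖cexp (-(c * (conj z * 0 + ‖z‖ ^ 2 / 2)))‖ * Real.exp (c * ‖z‖ ^ 2 / 2) = 1 := by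
    rw [h2]
    simp
  rw [add_comm (conj z) d]
  calc ‖φ z (d + conj z)‖
      = (‖φ z (d + conj z)‖ * ‖cexp (-(c * (conj z * 0 + ‖z‖ ^ 2 / 2)))‖) *
          Real.exp (c * ‖z‖ ^ 2 / 2) := by
        rw [mul_assoc, h3, mul_one]
    _ ≤ 100 ^ K * M * Real.exp (c * ‖z‖ ^ 2 / 2) := by gcongr

end Pool.Agent.RHK
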