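import Pool.Agent.RHK.Core.Gro
import Pool.Agent.RHK.Core.LBx

/-!
# Project RHK, CORE: the function `f_p` on polydiscs around `0`
-/

set_option autoImplicit false

namespace Pool.Agent.RHK

open Complex ComplexConjugate Finset

variable {ι : Type} [Fintype ι] [DecidableEq ι]

private theorem pol_S_nonneg (c : CoreG ι) {K : ℕ} (p : (ι → Fin K) → (ι → Fin K) → ℂ)
    (d : ι → ℂ) : 0 ≤ c.S p d := by
  unfold CoreG.S
  refine Real.iSup_nonneg fun z => ?_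
  unfold CoreG.nf CoreG.wt
  positivity

private theorem pol_pS_nonneg {K : ℕ} (p : (ι → Fin K) → (ι → Fin K) → ℂ) : 0 ≤ pS p := by
  unfold pS
  exact Finset.sum_nonneg fun m _ => Finset.sum_nonneg fun l _ => norm_nonneg _

private theorem pol_wt (c : CoreG ι) (R1 R2 : ℝ) (hR1 : 0 ≤ R1) (hR2 : 0 ≤ R2) (v : VV ι)
    (h1 : ∀ i, ‖v.1 i‖ ≤ if i ∈ c.Y then R2 else R1)
    (h2 : ∀ i, ‖v.2 i‖ ≤ if i ∈ c.Y then R2 else R1) :
    Real.exp (-((∑ i, (c.a i + c.b i)) * (R1 ^ 2 + R2 ^ 2))) ≤ c.wt v := by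
  unfold CoreG.wt
  refine Real.exp_le_exp.2 (neg_le_neg ?_)
  rw [Finset.sum_mul]
  refine Finset.sum_le_sum fun i _ => ?_
  have ha := c.ha i
  have hb := c.hb i
  have key : ∀ x : ℝ, 0 ≤ x → (x ≤ if i ∈ c.Y then R2 else R1) → x ^ 2 ≤ R1 ^ 2 + R2 ^ 2 := by
    intro x hx h
    have hR1' := sq_nonneg R1
    have hR2' := sq_nonneg R2
    split_ifs at h
    · have := pow_le_pow_left₀ hx h 2
      linarith
    · have := pow_le_pow_left₀ hx h 2
      linarith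
  have e1 : ‖v.1 i‖ ^ 2 ≤ R1 ^ 2 + R2 ^ 2 := key _ (norm_nonneg _) (h1 i)
  have e2 : ‖(sw c.Y v).1 i‖ ^ 2 ≤ R1 ^ 2 + R2 ^ 2 := by
    refine key _ (norm_nonneg _) ?_
    unfold sw
    simp only
    by_cases hi : i ∈ c.Y
    · have := h2 i
      rw [if_pos hi] at this
      rw [if_pos hi, if_pos hi]
      exact this
    · have := h1 i
      rw [if_neg hi] at this
      rw [if_neg hi, if_neg hi]
      exact this
  have e3 := mul_le_mul_of_nonneg_left e1 ha.le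
  have e4 := mul_le_mul_of_nonneg_left e2 hb.le
  have e5 : 0 ≤ (c.a i + c.b i) * (R1 ^ 2 + R2 ^ 2) := by positivity
  linarith

/-- PLAN. `v = rp v.1 d`, `d = v.2 - cj v.1` (`eq_rp`), `‖d i‖ ≤ 2 R1` off `Y`, `≤ 2 R2` on `Y`. `gro_y` for
`dY = fun i => if i ∈ Y then d i else 0` (`‖dY‖ ≤ 2 R2 ≤ ρ`), then `lb_x`, then
`‖f v‖ = nf v / wt v`, `wt v ≥ exp (-(s (R1² + R2²)))`, `s = ∑ (a_i + b_i)`. Take `C` larger than the constants of `gro_y`
(monotone in the hypothesis!), `lb_x` and `s`, times `4 (g + 1)`. -/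
theorem pol_bound (c : CoreG ι) : ∃ C : ℝ, 1 ≤ C ∧ ∀ K : ℕ, 1 ≤ K →
    ∀ (p : (ι → Fin K) → (ι → Fin K) → ℂ) (ρ : ℝ), 1 ≤ ρ →
    pS p * (C * (K + ρ)) ^ ((2 * Fintype.card ι + 1) * K) ≤ Real.exp (ρ ^ 2) * c.S p 0 →
    ∀ R1 R2 : ℝ, 0 ≤ R1 → 0 ≤ R2 → C * R1 ≤ √K → 2 * R2 ≤ ρ →
    ∀ v : VV ι, (∀ i, ‖v.1 i‖ ≤ if i ∈ c.Y then R2 else R1) →
      (∀ i, ‖v.2 i‖ ≤ if i ∈ c.Y then R2 else R1) →
      ‖c.f p v‖ ≤ c.S p 0 * Real.exp (C * (√K * R1 + R1 ^ 2 + ρ * R2 + R2 ^ 2)) := by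
  obtain ⟨C1, hC1, H1⟩ := gro_y c
  obtain ⟨C2, hC2, H2⟩ := lb_x c
  set s : ℝ := ∑ i, (c.a i + c.b i) with hs
  have hs0 : 0 ≤ s := Finset.sum_nonneg fun i _ => by
    have := c.ha i
    have := c.hb i
    linarith
  set g : ℝ := (Fintype.card ι : ℝ) with hg
  have hg0 : 0 ≤ g := Nat.cast_nonneg _
  set C : ℝ := 4 * (g + 1) * (C1 + C2 + s) with hC
  have hX : 1 ≤ C1 + C2 + s := by linarith
  have hCX : 4 * (C1 + C2 + s) ≤ C := by
    rw [hC]
    nlinarith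
  have hC1C : 4 * C1 ≤ C := by linarith
  have hC2C : 4 * C2 ≤ C := by linarith
  have hsC : s ≤ C := by linarith
  have hgC : 4 * g * C2 ≤ C := by
    rw [hC]
    have h1 : g * C2 ≤ g * (C1 + C2 + s) := mul_le_mul_of_nonneg_left (by linarith) hg0
    nlinarith
  have hC1' : 1 ≤ C := by linarith
  refine ⟨C, hC1', fun K hK p ρ hρ hyp R1 R2 hR1 hR2 hCR hRρ v hv1 hv2 => ?_⟩
  have hS := pol_S_nonneg c p 0
  have hKρ : 0 ≤ (K : ℝ) + ρ := by positivity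
  have hyp1 : pS p * (C1 * (K + ρ)) ^ ((2 * Fintype.card ι + 1) * K) ≤
      Real.exp (ρ ^ 2) * c.S p 0 := by
    refine le_trans (mul_le_mul_of_nonneg_left ?_ (pol_pS_nonneg p)) hyp
    refine pow_le_pow_left₀ (by positivity) ?_ _
    exact mul_le_mul_of_nonneg_right (by linarith) hKρ
  set d : ι → ℂ := v.2 - cj v.1 with hd
  have hdn : ∀ i, ‖d i‖ ≤ 2 * (if i ∈ c.Y then R2 else R1) := by
    intro i
    have e : d i = v.2 i - conj (v.1 i) := rfl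
    rw [e]
    refine (norm_sub_le _ _).trans ?_
    rw [RCLike.norm_conj]
    have := hv1 i
    have := hv2 i
    linarith
  set dY : ι → ℂ := fun i => if i ∈ c.Y then d i else 0 with hdY
  have hsup : supY c.Y dY := by
    intro i hi
    rw [hdY]
    simp only
    rw [if_neg hi]
  have hdYn : ‖dY‖ ≤ 2 * R2 := by
    refine (pi_norm_le_iff_of_nonneg (by linarith)).2 fun i => ?_
    rw [hdY]
    simp only
    by_cases hi : i ∈ c.Y
    · rw [if_pos hi]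
      have := hdn i
      rw [if_pos hi] at this
      exact this
    · rw [if_neg hi, norm_zero]
      linarith
  have hB1 := H1 K hK p ρ hρ hyp1 dY hsup (hdYn.trans hRρ)
  have hB2 := H2 K hK p d _ hB1 (by
    intro i hi
    have h1 := hdn i
    rw [if_neg hi] at h1
    rw [le_div_iff₀ (by linarith)]
    have h2 : ‖d i‖ * C2 ≤ 2 * R1 * C2 := mul_le_mul_of_nonneg_right h1 (by linarith)
    have h3 : 4 * C2 * R1 ≤ C * R1 := mul_le_mul_of_nonneg_right hC2C hR1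
    have h4 : 0 ≤ C2 * R1 := mul_nonneg (by linarith) hR1
    linarith)
  have hB3 := hB2 v.1
  rw [← eq_rp v] at hB3
  unfold CoreG.nf at hB3
  have hw := pol_wt c R1 R2 hR1 hR2 v hv1 hv2
  have hsum : ∑ i ∈ univ.filter (fun i => i ∉ c.Y), ‖d i‖ ≤ g * (2 * R1) := by
    have h1 : ∑ i ∈ univ.filter (fun i => i ∉ c.Y), ‖d i‖ ≤
        ∑ i ∈ univ.filter (fun i => i ∉ c.Y), 2 * R1 := by
      refine Finset.sum_le_sum fun i hi => ?_
      have h2 := hdn i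
      rw [if_neg (Finset.mem_filter.1 hi).2] at h2
      exact h2
    refine h1.trans ?_
    rw [Finset.sum_const, nsmul_eq_mul]
    refine mul_le_mul_of_nonneg_right ?_ (by linarith)
    rw [hg]
    exact_mod_cast Finset.card_le_univ _
  have hK0 : 0 ≤ √(K : ℝ) := Real.sqrt_nonneg _
  have hfin : ‖c.f p v‖ ≤ c.S p 0 * Real.exp (C1 * ρ * ‖dY‖) *
      Real.exp (C2 * √K * ∑ i ∈ univ.filter (fun i => i ∉ c.Y), ‖d i‖) *
      Real.exp (s * (R1 ^ 2 + R2 ^ 2)) := by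
    have h1 : ‖c.f p v‖ * Real.exp (-(s * (R1 ^ 2 + R2 ^ 2))) ≤ ‖c.f p v‖ * c.wt v :=
      mul_le_mul_of_nonneg_left hw (norm_nonneg _)
    have h2 := h1.trans hB3
    rw [Real.exp_neg, ← div_eq_mul_inv, div_le_iff₀ (Real.exp_pos _)] at h2
    exact h2
  refine hfin.trans ?_
  rw [mul_assoc, mul_assoc, ← Real.exp_add, ← Real.exp_add]
  refine mul_le_mul_of_nonneg_left (Real.exp_le_exp.2 ?_) hS
  have e1 : C1 * ρ * ‖dY‖ ≤ C * (ρ * R2) := by
    have h1 : C1 * ρ * ‖dY‖ ≤ C1 * ρ * (2 * R2) :=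
      mul_le_mul_of_nonneg_left hdYn (by positivity)
    have h2 : 4 * C1 * (ρ * R2) ≤ C * (ρ * R2) :=
      mul_le_mul_of_nonneg_right hC1C (by positivity)
    have h3 : 0 ≤ C1 * (ρ * R2) := by positivity
    nlinarith
  have e2 : C2 * √K * ∑ i ∈ univ.filter (fun i => i ∉ c.Y), ‖d i‖ ≤ C * (√K * R1) := by
    have h1 : C2 * √K * ∑ i ∈ univ.filter (fun i => i ∉ c.Y), ‖d i‖ ≤ C2 * √K * (g * (2 * R1)) :=
      mul_le_mul_of_nonneg_left hsum (by positivity)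
    have h2 : 4 * g * C2 * (√K * R1) ≤ C * (√K * R1) :=
      mul_le_mul_of_nonneg_right hgC (by positivity)
    have h3 : 0 ≤ g * C2 * (√K * R1) := by positivity
    nlinarith
  have e3 : s * (R1 ^ 2 + R2 ^ 2) ≤ C * (R1 ^ 2 + R2 ^ 2) :=
    mul_le_mul_of_nonneg_right hsC (by positivity)
  linarith

end Pool.Agent.RHK
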