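import Pool.Agent.RHK.Core.Cvx
import Pool.Agent.RHK.Core.Aut

/-!
# Project RHK, CORE: the supremum is attained on a small box
-/

set_option autoImplicit false

namespace Pool.Agent.RHK

open Complex ComplexConjugate Finset

variable {ι : Type} [Fintype ι] [DecidableEq ι]

/-- The supremum is attained on a small box. -/
theorem rep (c : CoreG ι) : ∃ C0 : ℝ, 0 < C0 ∧ ∀ R1 R2 : ℝ, 0 < R1 → 0 < R2 →
    C0 ≤ R1 ^ (Fintype.card ι - c.Y.card) * R2 ^ c.Y.card → ∀ K : ℕ, 1 ≤ K →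
    ∀ (p : (ι → Fin K) → (ι → Fin K) → ℂ) (M : ℝ),
    (∀ z : ι → ℂ, (∀ i, ‖z i‖ ≤ if i ∈ c.Y then R2 else R1) → ‖c.f p (rp z 0)‖ ≤ M) →
    c.S p 0 ≤ M := by
  obtain ⟨C0, hC0, hcov⟩ := c.cov
  refine ⟨C0, hC0, fun R1 R2 h1 h2 hR K hK p M hM => ?_⟩
  rw [← bdC_iff c hK p 0 M]
  intro z
  have hprod : (∏ i : ι, if i ∈ c.Y then R2 else R1) = R1 ^ (Fintype.card ι - c.Y.card) * R2 ^ c.Y.card := by
    rw [Finset.prod_ite, Finset.prod_const, Finset.prod_const, mul_comm]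
    have e1 : (univ.filter fun i : ι => i ∈ c.Y) = c.Y := by
      ext i
      simp
    have e2 : (univ.filter fun i : ι => i ∉ c.Y) = c.Yᶜ := by
      ext i
      simp
    rw [e1, e2, Finset.card_compl]
  obtain ⟨u, hu, hz⟩ := hcov (fun i => if i ∈ c.Y then R2 else R1)
    (fun i => by
      show 0 < if i ∈ c.Y then R2 else R1
      split_ifs
      · exact h2
      · exact h1) (by rw [hprod]; exact hR) z
  have h3 : rp z 0 = rp (z - u) 0 + rp u 0 := by
    rw [← rp_add, sub_add_cancel]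
  rw [h3, nf_lat c p u hu]
  have h4 : c.wt (rp (z - u) 0) ≤ 1 := by
    unfold CoreG.wt
    rw [Real.exp_le_one_iff, neg_nonpos]
    refine Finset.sum_nonneg fun i _ => ?_
    have h5 := (c.ha i).le
    have h6 := (c.hb i).le
    positivity
  have h7 : ‖c.f p (rp (z - u) 0)‖ ≤ M := hM (z - u) fun i => hz i
  have h8 : 0 ≤ ‖c.f p (rp (z - u) 0)‖ := norm_nonneg _
  unfold CoreG.nf
  nlinarith

end Pool.Agent.RHK
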