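import Pool.Agent.RHK.Core.PTB
import Pool.Agent.RHK.Core.Aut

/-!
ROHK-Triv. Section 1: trivial bounds.

PLAN. `exists_sup`: `‖T1‖ wt` is `O`-invariant (`q1`) and by `cov` with all `R_i = max(C0,1)` every point is equivalent to one with all
`|z_i| ≤ R` (compact, continuous); the same for `T2` (apply `cov` to the vector `swu Y z`). `FF_bound`: induction over a nodup list:
for `G = FL a T m L` with `‖G (rp z d)‖ wt a z ≤ M'` for all `z` and fixed `d`: `opA_slice` (`G` does not depend on `w_i`, `FL_indep`,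
so its slice in `z_i` at fixed `w_j = conj z_j + d_j`, `j ≠ i`, satisfies the hypothesis of `op1_bound` with the other weights as constants)
gives `‖(opA a i)^[m i] G (rp z d)‖ wt a z ≤ (exp(2 a_i) (sqrt(m i) + |d_i|))^{m_i} M'`. The product over `i` is `≤ (C (K + ‖d‖))^{gK}`,
`C = max 1 (exp(2 max a))`. `triv_G`, `triv_f`: sum over the boxes; `M0² ≤ C^K`; `norm_d2`.
-/

set_option autoImplicit false

namespace Pool.Agent.RHK

open Complex ComplexConjugate Finset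

variable {ι : Type} [Fintype ι] [DecidableEq ι]

/-- invariance of the weighted norm -/
private theorem Triv_inv {T : (ι → ℂ) → ℂ} {a : ι → ℝ} {u : ι → ℂ} (h : QPn T a u) (z : ι → ℂ) :
    ‖T (z + u)‖ * wtE a (z + u) = ‖T z‖ * wtE a z := by
  obtain ⟨e, he, h⟩ := h
  rw [h, norm_mul, norm_mul, he, one_mul, Complex.norm_exp]
  have h1 : (∑ i, (a i : ℂ) * (conj (u i) * z i + ((‖u i‖ ^ 2 / 2 : ℝ) : ℂ))).re =
      ∑ i, a i * ((conj (u i) * z i).re + ‖u i‖ ^ 2 / 2) := by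
    rw [Complex.re_sum]
    refine Finset.sum_congr rfl fun i _ => ?_
    rw [Complex.re_ofReal_mul, Complex.add_re, Complex.ofReal_re]
  rw [h1]
  unfold wtE
  rw [mul_comm (Real.exp _) ‖T z‖, mul_assoc, ← Real.exp_add]
  congr 2
  rw [← sub_eq_add_neg, ← Finset.sum_sub_distrib, ← Finset.sum_neg_distrib]
  refine Finset.sum_congr rfl fun i _ => ?_
  have h2 : ‖(z + u) i‖ ^ 2 = ‖z i‖ ^ 2 + ‖u i‖ ^ 2 + 2 * (conj (u i) * z i).re := by
    rw [Pi.add_apply, ← Complex.normSq_eq_norm_sq, ← Complex.normSq_eq_norm_sq,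
      ← Complex.normSq_eq_norm_sq, Complex.normSq_add, mul_comm (conj (u i)) (z i)]
  rw [h2]
  ring

private theorem Triv_sup {T : (ι → ℂ) → ℂ} {a : ι → ℝ} (hT : Differentiable ℂ T)
    {R : ℝ} (hR : ∀ z : ι → ℂ, ∃ u : ι → ℂ, QPn T a u ∧ ∀ i, ‖z i - u i‖ ≤ R) (hR0 : 0 ≤ R) :
    ∃ M : ℝ, ∀ z, ‖T z‖ * wtE a z ≤ M := by
  have hcont : Continuous fun z : ι → ℂ => ‖T z‖ * wtE a z := by
    unfold wtE
    have := hT.continuous
    fun_prop
  obtain ⟨M, hM⟩ := (isCompact_closedBall (0 : ι → ℂ) R).exists_bound_of_continuousOn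
    hcont.continuousOn
  refine ⟨M, fun z => ?_⟩
  obtain ⟨u, hu, hz⟩ := hR z
  have h1 := Triv_inv hu (z - u)
  rw [sub_add_cancel] at h1
  rw [h1]
  refine (Real.le_norm_self _).trans (hM (z - u) ?_)
  rw [mem_closedBall_zero_iff, pi_norm_le_iff_of_nonneg hR0]
  exact hz

private theorem Triv_swu (Y : Finset ι) (z : ι → ℂ) : swu Y (swu Y z) = z := by
  funext i
  unfold swu
  split_ifs
  · exact Complex.conj_conj _
  · rfl

private theorem Triv_swu_sub (Y : Finset ι) (z u : ι → ℂ) : swu Y (z - u) = swu Y z - swu Y u := by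
  funext i
  show (if i ∈ Y then conj ((z - u) i) else (z - u) i) =
    (if i ∈ Y then conj (z i) else z i) - (if i ∈ Y then conj (u i) else u i)
  split_ifs
  · rw [Pi.sub_apply, map_sub]
  · rfl

theorem exists_sup (c : CoreG ι) : ∃ M0 : ℝ, 1 ≤ M0 ∧ (∀ z, ‖c.T1 z‖ * wtE c.a z ≤ M0) ∧
    ∀ z, ‖c.T2 z‖ * wtE c.b z ≤ M0 := by
  obtain ⟨C0, hC0, hcov⟩ := c.cov
  obtain ⟨i0, -⟩ := c.hY
  have hR1 : 1 ≤ max C0 1 := le_max_right _ _
  have hR0 : 0 < max C0 1 := lt_of_lt_of_le one_pos hR1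
  have hcv : ∀ z : ι → ℂ, ∃ u ∈ (c.O : Set (ι → ℂ)), ∀ i, ‖z i - u i‖ ≤ max C0 1 := by
    refine hcov (fun _ => max C0 1) (fun _ => hR0) ?_
    rw [Finset.prod_const, Finset.card_univ]
    refine (le_max_left C0 1).trans ?_
    refine le_self_pow₀ hR1 ?_
    haveI : Nonempty ι := ⟨i0⟩
    exact Fintype.card_ne_zero
  obtain ⟨M1, hM1⟩ := Triv_sup (T := c.T1) (a := c.a) (R := max C0 1) c.d1 (by
    intro z
    obtain ⟨u, hu, hz⟩ := hcv z
    exact ⟨u, c.q1 u hu, hz⟩) hR0.le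
  obtain ⟨M2, hM2⟩ := Triv_sup (T := c.T2) (a := c.b) (R := max C0 1) c.d2 (by
    intro z
    obtain ⟨u, hu, hz⟩ := hcv (swu c.Y z)
    refine ⟨swu c.Y u, c.q2 u hu, fun i => ?_⟩
    have h1 := norm_swu c.Y (swu c.Y z - u) i
    rw [Triv_swu_sub, Triv_swu] at h1
    have h2 := hz i
    rw [Pi.sub_apply, Pi.sub_apply] at h1
    rw [h1]
    exact h2) hR0.le
  refine ⟨max 1 (max M1 M2), le_max_left _ _, fun z => (hM1 z).trans ?_, fun z => (hM2 z).trans ?_⟩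
  · exact (le_max_left _ _).trans (le_max_right _ _)
  · exact (le_max_right _ _).trans (le_max_right _ _)

/-- one step: the weight of the other coordinates -/
private theorem Triv_wt (a : ι → ℝ) (z : ι → ℂ) (i : ι) (t : ℂ) :
    wtE a (Function.update z i t) = Real.exp (-(a i * ‖t‖ ^ 2 / 2)) *
      Real.exp (-(∑ j ∈ Finset.univ.erase i, a j * ‖z j‖ ^ 2 / 2)) := by
  unfold wtE
  rw [← Real.exp_add, ← Finset.add_sum_erase _ _ (Finset.mem_univ i), Function.update_self, neg_add]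
  congr 3
  refine Finset.sum_congr rfl fun j hj => ?_
  rw [Function.update_of_ne (Finset.ne_of_mem_erase hj)]

private theorem Triv_step (a : ι → ℝ) (ha : ∀ i, 0 < a i) {Φ : VV ι → ℂ} (hΦ : Differentiable ℂ Φ)
    (i : ι) (hind : ∀ (v : VV ι) (t : ℂ), Φ (v.1, Function.update v.2 i t) = Φ v) (d : ι → ℂ) {M : ℝ}
    (hM : ∀ z, ‖Φ (rp z d)‖ * wtE a z ≤ M) (m : ℕ) (z : ι → ℂ) :
    ‖(opA a i)^[m] Φ (rp z d)‖ * wtE a z ≤ (Real.exp (2 * a i) * (√m + ‖d i‖)) ^ m * M := by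
  set W : ℝ := Real.exp (-(∑ j ∈ Finset.univ.erase i, a j * ‖z j‖ ^ 2 / 2)) with hW
  have hW0 : 0 < W := Real.exp_pos _
  have hg : ∀ t : ℂ, Φ (Function.update z i t, (rp z d).2) = Φ (rp (Function.update z i t) d) := by
    intro t
    have h1 := hind (rp (Function.update z i t) d) ((rp z d).2 i)
    rw [← h1]
    congr 1
    refine Prod.ext rfl ?_
    show cj z + d = Function.update (cj (Function.update z i t) + d) i ((cj z + d) i)
    funext j
    rcases eq_or_ne j i with rfl | hj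
    · rw [Function.update_self]
    · rw [Function.update_of_ne hj]
      show conj (z j) + d j = conj (Function.update z i t j) + d j
      rw [Function.update_of_ne hj]
  have hb := op1_bound (a i) (M / W) (ha i) (fun t => Φ (Function.update z i t, (rp z d).2))
    (diff_slice_z i hΦ (rp z d)) (by
      intro t
      rw [le_div_iff₀ hW0, mul_assoc, ← Triv_wt, hg]
      exact hM _) m (z i) (d i)
  have h2 := opA_slice a i hΦ hind m (rp z d)
  have h3 : (rp z d).2 i = conj (z i) + d i := rfl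
  have h4 : (rp z d).1 = z := rfl
  rw [h3, h4] at h2
  rw [h2]
  have h5 : wtE a z = Real.exp (-(a i * ‖z i‖ ^ 2 / 2)) * W := by
    rw [hW, ← Triv_wt, Function.update_eq_self]
  rw [h5, ← mul_assoc]
  calc _ ≤ ((Real.exp (2 * a i) * (√m + ‖d i‖)) ^ m * (M / W)) * W :=
        mul_le_mul_of_nonneg_right hb hW0.le
    _ = _ := by rw [mul_assoc, div_mul_cancel₀ _ hW0.ne']

private theorem Triv_list (a : ι → ℝ) (ha : ∀ i, 0 < a i) (T : (ι → ℂ) → ℂ) (hT : Differentiable ℂ T)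
    (M0 : ℝ) (h : ∀ z, ‖T z‖ * wtE a z ≤ M0) (m : ι → ℕ) (d : ι → ℂ) {B : ℝ} (hM0 : 0 ≤ M0)
    (hB0 : 0 ≤ B) (hB : ∀ i, (Real.exp (2 * a i) * (√(m i : ℝ) + ‖d i‖)) ^ m i ≤ B) (L : List ι)
    (hL : L.Nodup) : ∀ z, ‖FL a T m L (rp z d)‖ * wtE a z ≤ B ^ L.length * M0 := by
  induction L with
  | nil =>
    intro z
    rw [List.length_nil, pow_zero, one_mul]
    exact h z
  | cons i L ih =>
    rw [List.nodup_cons] at hL
    intro z
    have h1 := Triv_step a ha (diff_FL a hT m L) i (fun v t => FL_indep a hT m L i hL.1 v t) d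
      (ih hL.2) (m i) z
    have h2 : FL a T m (i :: L) = (opA a i)^[m i] (FL a T m L) := rfl
    rw [h2]
    refine h1.trans ?_
    rw [List.length_cons, pow_succ', mul_assoc B]
    exact mul_le_mul_of_nonneg_right (hB i) (mul_nonneg (pow_nonneg hB0 _) hM0)

theorem FF_bound (a : ι → ℝ) (ha : ∀ i, 0 < a i) (T : (ι → ℂ) → ℂ) (hT : Differentiable ℂ T)
    (M0 : ℝ) (h : ∀ z, ‖T z‖ * wtE a z ≤ M0) : ∃ C : ℝ, 1 ≤ C ∧ ∀ K : ℕ, 1 ≤ K → ∀ m : ι → Fin K,
    ∀ z d : ι → ℂ, ‖FF a T (fun i => (m i : ℕ)) (rp z d)‖ * wtE a z ≤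
      (C * (K + ‖d‖)) ^ (Fintype.card ι * K) * M0 := by
  have hM0 : 0 ≤ M0 := (mul_nonneg (norm_nonneg _) (Real.exp_pos _).le).trans (h 0)
  have hsum : ∀ i, a i ≤ ∑ j, a j := fun i =>
    Finset.single_le_sum (fun j _ => (ha j).le) (Finset.mem_univ i)
  have hs0 : 0 ≤ ∑ j, a j := Finset.sum_nonneg fun j _ => (ha j).le
  refine ⟨Real.exp (2 * ∑ j, a j), Real.one_le_exp (by linarith), ?_⟩
  intro K hK m z d
  have hK1 : (1 : ℝ) ≤ K := by exact_mod_cast hK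
  have hC1 : (1 : ℝ) ≤ Real.exp (2 * ∑ j, a j) := Real.one_le_exp (by linarith)
  have hd0 : 0 ≤ ‖d‖ := norm_nonneg _
  have hX : (1 : ℝ) ≤ Real.exp (2 * ∑ j, a j) * (K + ‖d‖) := by
    nlinarith
  have hB : ∀ i, (Real.exp (2 * a i) * (√((m i : ℕ) : ℝ) + ‖d i‖)) ^ (m i : ℕ) ≤
      (Real.exp (2 * ∑ j, a j) * (K + ‖d‖)) ^ K := by
    intro i
    have h1 : √((m i : ℕ) : ℝ) ≤ K := by
      rw [Real.sqrt_le_left (by linarith)]
      have h2 : ((m i : ℕ) : ℝ) ≤ K := by exact_mod_cast (m i).2.le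
      nlinarith
    have h3 : ‖d i‖ ≤ ‖d‖ := norm_le_pi_norm d i
    have h4 : Real.exp (2 * a i) ≤ Real.exp (2 * ∑ j, a j) :=
      Real.exp_le_exp.2 (by linarith [hsum i])
    have h5 : 0 ≤ √((m i : ℕ) : ℝ) + ‖d i‖ := add_nonneg (Real.sqrt_nonneg _) (norm_nonneg _)
    calc (Real.exp (2 * a i) * (√((m i : ℕ) : ℝ) + ‖d i‖)) ^ (m i : ℕ)
        ≤ (Real.exp (2 * ∑ j, a j) * (K + ‖d‖)) ^ (m i : ℕ) := by
          refine pow_le_pow_left₀ (mul_nonneg (Real.exp_pos _).le h5) ?_ _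
          exact mul_le_mul h4 (add_le_add h1 h3) h5 (Real.exp_pos _).le
      _ ≤ (Real.exp (2 * ∑ j, a j) * (K + ‖d‖)) ^ K := pow_le_pow_right₀ hX (m i).2.le
  have h6 := Triv_list a ha T hT M0 h (fun i => (m i : ℕ)) d hM0
    (pow_nonneg (by linarith) K) hB (Finset.univ : Finset ι).toList (Finset.nodup_toList _) z
  rw [FF_eq_FL]
  rw [Finset.length_toList, Finset.card_univ, ← pow_mul, mul_comm K] at h6
  exact h6

private theorem Triv_two (c : CoreG ι) : ∃ C : ℝ, 1 ≤ C ∧ ∀ K : ℕ, 1 ≤ K →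
    ∀ p : (ι → Fin K) → (ι → Fin K) → ℂ, ∀ z1 x2 d d' : ι → ℂ, ‖d'‖ = ‖d‖ →
    ‖∑ m, ∑ l, p m l * (FF c.a c.T1 (fun i => (m i : ℕ)) (rp z1 d) *
      FF c.b c.T2 (fun i => (l i : ℕ)) (rp x2 d'))‖ * (wtE c.a z1 * wtE c.b x2) ≤
      pS p * (C * (K + ‖d‖)) ^ ((2 * Fintype.card ι + 1) * K) := by
  obtain ⟨M0, hM0, hs1, hs2⟩ := exists_sup c
  obtain ⟨C1, hC1, hF1⟩ := FF_bound c.a c.ha c.T1 c.d1 M0 hs1
  obtain ⟨C2, hC2, hF2⟩ := FF_bound c.b c.hb c.T2 c.d2 M0 hs2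
  have hM2 : 1 ≤ M0 * M0 := by nlinarith
  have hC12 : 1 ≤ C1 * C2 := by nlinarith
  refine ⟨C1 * C2 * (M0 * M0), by nlinarith, ?_⟩
  intro K hK p z1 x2 d d' hd
  have hK1 : (1 : ℝ) ≤ K := by exact_mod_cast hK
  have hd0 : 0 ≤ ‖d‖ := norm_nonneg _
  set X : ℝ := K + ‖d‖ with hX
  have hX1 : 1 ≤ X := by linarith
  set C : ℝ := C1 * C2 * (M0 * M0) with hC
  have hC0 : 1 ≤ C := by rw [hC]; nlinarith
  have e1 : C1 ≤ C := by
    rw [hC]
    have h1 : C1 ≤ C1 * C2 := by nlinarith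
    have h2 : C1 * C2 ≤ C1 * C2 * (M0 * M0) := by nlinarith
    linarith
  have e2 : C2 ≤ C := by
    rw [hC]
    have h1 : C2 ≤ C1 * C2 := by nlinarith
    have h2 : C1 * C2 ≤ C1 * C2 * (M0 * M0) := by nlinarith
    linarith
  have e3 : M0 * M0 ≤ C * X := by
    have h1 : M0 * M0 ≤ C1 * C2 * (M0 * M0) := by nlinarith
    have h2 : C ≤ C * X := by nlinarith
    rw [← hC] at h1
    linarith
  have hw1 : 0 ≤ wtE c.a z1 := (Real.exp_pos _).le
  have hw2 : 0 ≤ wtE c.b x2 := (Real.exp_pos _).le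
  have hCX : 1 ≤ C * X := by nlinarith
  have hterm : ∀ m l : ι → Fin K, ‖p m l * (FF c.a c.T1 (fun i => (m i : ℕ)) (rp z1 d) *
      FF c.b c.T2 (fun i => (l i : ℕ)) (rp x2 d'))‖ * (wtE c.a z1 * wtE c.b x2) ≤
      ‖p m l‖ * (C * X) ^ ((2 * Fintype.card ι + 1) * K) := by
    intro m l
    have f1 := hF1 K hK m z1 d
    have f2 := hF2 K hK l x2 d'
    rw [hd] at f2
    rw [← hX] at f1 f2
    have g1 : (C1 * X) ^ (Fintype.card ι * K) * M0 ≤ (C * X) ^ (Fintype.card ι * K) * M0 := by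
      refine mul_le_mul_of_nonneg_right (pow_le_pow_left₀ (by positivity) ?_ _) (by linarith)
      exact mul_le_mul_of_nonneg_right e1 (by linarith)
    have g2 : (C2 * X) ^ (Fintype.card ι * K) * M0 ≤ (C * X) ^ (Fintype.card ι * K) * M0 := by
      refine mul_le_mul_of_nonneg_right (pow_le_pow_left₀ (by positivity) ?_ _) (by linarith)
      exact mul_le_mul_of_nonneg_right e2 (by linarith)
    have f3 := mul_le_mul (f1.trans g1) (f2.trans g2) (mul_nonneg (norm_nonneg _) hw2)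
      (by positivity)
    have g3 : (C * X) ^ (Fintype.card ι * K) * M0 * ((C * X) ^ (Fintype.card ι * K) * M0) ≤
        (C * X) ^ ((2 * Fintype.card ι + 1) * K) := by
      have h1 : M0 * M0 ≤ (C * X) ^ K :=
        e3.trans (le_self_pow₀ hCX (by omega))
      calc (C * X) ^ (Fintype.card ι * K) * M0 * ((C * X) ^ (Fintype.card ι * K) * M0)
          = (C * X) ^ (Fintype.card ι * K) * (C * X) ^ (Fintype.card ι * K) * (M0 * M0) := by ring
        _ ≤ (C * X) ^ (Fintype.card ι * K) * (C * X) ^ (Fintype.card ι * K) * (C * X) ^ K :=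
            mul_le_mul_of_nonneg_left h1 (by positivity)
        _ = (C * X) ^ ((2 * Fintype.card ι + 1) * K) := by
            rw [← pow_add, ← pow_add]
            congr 1
            ring
    rw [norm_mul, norm_mul, mul_assoc]
    refine mul_le_mul_of_nonneg_left ?_ (norm_nonneg _)
    calc _ = ‖FF c.a c.T1 (fun i => (m i : ℕ)) (rp z1 d)‖ * wtE c.a z1 *
          (‖FF c.b c.T2 (fun i => (l i : ℕ)) (rp x2 d')‖ * wtE c.b x2) := by ring
      _ ≤ _ := f3.trans g3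
  calc _ ≤ (∑ m : ι → Fin K, ∑ l : ι → Fin K, ‖p m l * (FF c.a c.T1 (fun i => (m i : ℕ)) (rp z1 d) *
      FF c.b c.T2 (fun i => (l i : ℕ)) (rp x2 d'))‖) * (wtE c.a z1 * wtE c.b x2) := by
        refine mul_le_mul_of_nonneg_right ?_ (mul_nonneg hw1 hw2)
        refine (norm_sum_le _ _).trans (Finset.sum_le_sum fun m _ => norm_sum_le _ _)
    _ = ∑ m : ι → Fin K, ∑ l : ι → Fin K, ‖p m l * (FF c.a c.T1 (fun i => (m i : ℕ)) (rp z1 d) *
      FF c.b c.T2 (fun i => (l i : ℕ)) (rp x2 d'))‖ * (wtE c.a z1 * wtE c.b x2) := by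
        rw [Finset.sum_mul]
        refine Finset.sum_congr rfl fun m _ => ?_
        rw [Finset.sum_mul]
    _ ≤ ∑ m : ι → Fin K, ∑ l : ι → Fin K, ‖p m l‖ * (C * X) ^ ((2 * Fintype.card ι + 1) * K) :=
        Finset.sum_le_sum fun m _ => Finset.sum_le_sum fun l _ => hterm m l
    _ = _ := by
        unfold pS
        rw [Finset.sum_mul]
        refine Finset.sum_congr rfl fun m _ => ?_
        rw [Finset.sum_mul]

theorem triv_G (c : CoreG ι) : ∃ C : ℝ, 1 ≤ C ∧ ∀ K : ℕ, 1 ≤ K →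
    ∀ p : (ι → Fin K) → (ι → Fin K) → ℂ, ∀ z1 x2 d : ι → ℂ,
    c.nG p z1 x2 d ≤ pS p * (C * (K + ‖d‖)) ^ ((2 * Fintype.card ι + 1) * K) := by
  obtain ⟨C, hC, h⟩ := Triv_two c
  refine ⟨C, hC, fun K hK p z1 x2 d => h K hK p z1 x2 d _ ?_⟩
  rw [Pi.norm_def, Pi.norm_def]
  congr 2
  funext i
  apply NNReal.eq
  show ‖-conj (d i)‖ = ‖d i‖
  rw [norm_neg, Complex.norm_conj]

theorem triv_f (c : CoreG ι) : ∃ C : ℝ, 1 ≤ C ∧ ∀ K : ℕ, 1 ≤ K →
    ∀ p : (ι → Fin K) → (ι → Fin K) → ℂ, ∀ z d : ι → ℂ,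
    c.nf p (rp z d) ≤ pS p * (C * (K + ‖d‖)) ^ ((2 * Fintype.card ι + 1) * K) := by
  obtain ⟨C, hC, h⟩ := Triv_two c
  refine ⟨C, hC, fun K hK p z d => ?_⟩
  rw [nf_rp]
  exact h K hK p z (z2 c.Y z d) d (d2 c.Y d) (norm_d2 c.Y d)

end Pool.Agent.RHK
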