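import Pool.Agent.RHK.Core.Pol
import Pool.Agent.RHK.Core.Rep
import Pool.Agent.RHK.JetLine

/-!
# Project RHK, CORE: the quantitative zero estimate (both regimes at once)
-/

set_option autoImplicit false

namespace Pool.Agent.RHK

open Complex ComplexConjugate Finset

variable {ι : Type} [Fintype ι] [DecidableEq ι]

/-- PLAN. `C` from `pol_bound`, `C0` from `rep`. Given `η ∈ (0,1]` put `c1 = η / (100 C²)` (so that with `R1 = 3 c1 √K`
one has `C R1 ≤ √K` and `C (√K R1 + R1²) ≤ η K`), `C2 = max 1 (C0 / c1^(g-y))`, radii `r1 = c1 √K`, `r2 = C2 K / √G`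
(`r1^(g-y) r2^y = c1^(g-y) C2^y ≥ C0` because `√G^y = √K^(g+y)`; see the computation in `LCov.lean`). For `z` in the box
of radii `r1, r2` use `schwarz_line` with `v = rp z 0`, `q = 3`, `R = √K · Cη` and the bound `M` of `pol_bound` on the polydisc
of radii `3 r1, 3 r2` (`G ≥ K²`, so `r2 ≤ C2`, and `6 r2 ≤ ρ` is assumed via `C' ≤ ρ`):
`‖f (rp z 0)‖ ≤ exp (2 g R) E + 2 S exp (η K + 3 C C2 ρ K / √G + 9 C C2²) / 3^T`. Then `rep`. -/
theorem zer (c : CoreG ι) (η : ℝ) (hη : 0 < η) (hη1 : η ≤ 1) : ∃ C : ℝ, 1 ≤ C ∧ ∀ K : ℕ, 1 ≤ K →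
    ∀ G : ℝ, 1 ≤ G → G ^ c.Y.card = (K : ℝ) ^ (Fintype.card ι + c.Y.card) →
    ∀ (p : (ι → Fin K) → (ι → Fin K) → ℂ) (ρ : ℝ), C ≤ ρ →
    pS p * (C * (K + ρ)) ^ ((2 * Fintype.card ι + 1) * K) ≤ Real.exp (ρ ^ 2) * c.S p 0 →
    ∀ (T : ℕ) (E : ℝ), 0 ≤ E → (∀ A B : ι → ℕ, ord A B < T → ‖jet (c.f p) A B‖ ≤ E) →
      c.S p 0 ≤ Real.exp (C * √K) * E +
        2 * c.S p 0 * Real.exp (η * K + C * (1 + ρ * K / √G)) / 3 ^ T := by
  obtain ⟨Cp, hCp1, hpol⟩ := pol_bound c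
  obtain ⟨C0, hC0, hrep⟩ := rep c
  set g := Fintype.card ι with hg
  set y := c.Y.card with hy
  have hy1 : 1 ≤ y := c.hY.card_pos
  have hyg : y ≤ g := Finset.card_le_univ _
  have hCp0 : 0 < Cp := by linarith
  set c1 : ℝ := η / (100 * Cp ^ 2) with hc1
  have hc10 : 0 < c1 := by positivity
  have hc1Cp : c1 * Cp ≤ η / 100 := by
    have h1 : c1 * Cp = η / 100 / Cp := by
      rw [hc1]
      field_simp
    rw [h1]
    exact div_le_self (by positivity) hCp1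
  have hc1small : c1 ≤ 1 / 100 := by
    have h1 : c1 * 1 ≤ c1 * Cp := mul_le_mul_of_nonneg_left hCp1 hc10.le
    linarith
  set C2 : ℝ := max 1 (C0 / c1 ^ (g - y)) with hC2
  have hC21 : 1 ≤ C2 := le_max_left _ _
  have hC20 : 0 < C2 := by linarith
  have hC2b : C0 ≤ c1 ^ (g - y) * C2 := by
    have h1 : C0 / c1 ^ (g - y) ≤ C2 := le_max_right _ _
    have h2 : 0 < c1 ^ (g - y) := pow_pos hc10 _
    rw [div_le_iff₀ h2] at h1
    linarith [mul_comm C2 (c1 ^ (g - y))]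
  have hg1 : (1 : ℝ) ≤ (g : ℝ) + 1 := by
    have : (0 : ℝ) ≤ g := Nat.cast_nonneg _
    linarith
  have hgn : (0 : ℝ) ≤ g := Nat.cast_nonneg _
  set C : ℝ := 9 * Cp * C2 ^ 2 * (g + 1) with hC
  have hA1 : (1 : ℝ) ≤ C2 ^ 2 := one_le_pow₀ hC21
  have hCp_le : 9 * Cp ≤ C := by
    calc 9 * Cp = 9 * Cp * 1 * 1 := by ring
      _ ≤ 9 * Cp * C2 ^ 2 * (g + 1) := by gcongr
  have hC9 : 9 * Cp * C2 ^ 2 ≤ C := by
    calc 9 * Cp * C2 ^ 2 = 9 * Cp * C2 ^ 2 * 1 := by ring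
      _ ≤ 9 * Cp * C2 ^ 2 * (g + 1) := by gcongr
  have hC22 : C2 ≤ C2 ^ 2 := by nlinarith
  have hC92 : 9 * C2 ≤ C := by
    calc 9 * C2 ≤ 9 * C2 ^ 2 := by linarith
      _ = 9 * 1 * C2 ^ 2 := by ring
      _ ≤ 9 * Cp * C2 ^ 2 := by gcongr
      _ ≤ C := hC9
  have hCg : 2 * g * C2 ≤ C := by
    calc 2 * (g : ℝ) * C2 ≤ 9 * (g + 1) * C2 ^ 2 := by
          have : (g : ℝ) * C2 ≤ (g + 1) * C2 ^ 2 :=
            mul_le_mul (by linarith) hC22 hC20.le (by positivity)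
          nlinarith [mul_nonneg hgn hC20.le]
      _ = 9 * 1 * C2 ^ 2 * (g + 1) := by ring
      _ ≤ 9 * Cp * C2 ^ 2 * (g + 1) := by gcongr
  have hC3 : 3 * Cp * C2 ≤ C := by
    calc 3 * Cp * C2 ≤ 9 * Cp * C2 ^ 2 := by
          have : Cp * C2 ≤ Cp * C2 ^ 2 := mul_le_mul_of_nonneg_left hC22 hCp0.le
          nlinarith [mul_nonneg hCp0.le hC20.le]
      _ ≤ C := hC9
  have hC1 : 1 ≤ C := by linarith
  refine ⟨C, hC1, ?_⟩
  intro K hK G hG hGK p ρ hρ hsm T E hE hjet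
  have hS0 : 0 ≤ c.S p 0 := by
    unfold CoreG.S
    refine Real.iSup_nonneg fun z => ?_
    unfold CoreG.nf CoreG.wt
    positivity
  have hpS : 0 ≤ pS p := by
    unfold pS
    exact Finset.sum_nonneg fun m _ => Finset.sum_nonneg fun l _ => norm_nonneg _
  have hKr : (1 : ℝ) ≤ K := by exact_mod_cast hK
  have hK0 : (0 : ℝ) < K := by linarith
  have hG0 : (0 : ℝ) < G := by linarith
  have hρ1 : 1 ≤ ρ := hC1.trans hρ
  set sK := Real.sqrt K with hsK
  have hsK0 : 0 < sK := Real.sqrt_pos.mpr hK0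
  have hsK2 : sK ^ 2 = K := Real.sq_sqrt hK0.le
  have hsK1 : 1 ≤ sK := by
    rw [hsK]
    exact Real.one_le_sqrt.2 hKr
  set sG := Real.sqrt G with hsG
  have hsG0 : 0 < sG := Real.sqrt_pos.mpr hG0
  have hsG2 : sG ^ 2 = G := Real.sq_sqrt hG0.le
  -- `G ≥ K²`
  have hGK2 : (K : ℝ) ^ 2 ≤ G := by
    have h1 : ((K : ℝ) ^ 2) ^ y ≤ G ^ y := by
      rw [hGK, ← pow_mul]
      exact pow_le_pow_right₀ hKr (by omega)
    exact le_of_pow_le_pow_left₀ (by omega) hG0.le h1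
  have hKsG : (K : ℝ) ≤ sG := by
    rw [hsG]
    exact Real.le_sqrt_of_sq_le hGK2
  have hKG1 : (K : ℝ) / sG ≤ 1 := by
    rw [div_le_one hsG0]
    exact hKsG
  set r1 : ℝ := c1 * sK with hr1
  set r2 : ℝ := C2 * K / sG with hr2
  have hr10 : 0 < r1 := by positivity
  have hr20 : 0 < r2 := by positivity
  have hr2C : r2 ≤ C2 := by
    rw [hr2, mul_div_assoc]
    exact mul_le_of_le_one_right hC20.le hKG1
  -- the volume
  have hvol1 : sG ^ y = sK ^ (g + y) := by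
    have h1 : (sG ^ y) ^ 2 = (sK ^ (g + y)) ^ 2 := by
      rw [← pow_mul, ← pow_mul, mul_comm y 2, mul_comm (g + y) 2, pow_mul, pow_mul, hsG2, hsK2]
      exact hGK
    exact (pow_left_inj₀ (by positivity) (by positivity) two_ne_zero).mp h1
  have hvol : C0 ≤ r1 ^ (g - y) * r2 ^ y := by
    have h1 : r2 ^ y * sK ^ (g - y) = C2 ^ y := by
      rw [hr2, div_pow, mul_pow, hvol1, ← hsK2, ← pow_mul]
      have e1 : sK ^ (g + y) = sK ^ (g - y) * sK ^ (2 * y) := by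
        rw [← pow_add]
        congr 1
        omega
      rw [e1]
      field_simp
    have h3 : C2 ≤ C2 ^ y := le_self_pow₀ hC21 (by omega)
    calc C0 ≤ c1 ^ (g - y) * C2 := hC2b
      _ ≤ c1 ^ (g - y) * C2 ^ y := by gcongr
      _ = r1 ^ (g - y) * r2 ^ y := by rw [← h1, hr1, mul_pow]; ring
  -- the hypothesis of `pol_bound`
  have hsm' : pS p * (Cp * (K + ρ)) ^ ((2 * g + 1) * K) ≤ Real.exp (ρ ^ 2) * c.S p 0 := by
    refine le_trans (mul_le_mul_of_nonneg_left ?_ hpS) hsm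
    refine pow_le_pow_left₀ (by positivity) ?_ _
    exact mul_le_mul_of_nonneg_right (by linarith) (by positivity)
  set M : ℝ := c.S p 0 * Real.exp (η * K + C * (1 + ρ * K / sG)) with hM
  have hbound : ∀ v : VV ι, (∀ i, ‖v.1 i‖ ≤ if i ∈ c.Y then 3 * r2 else 3 * r1) →
      (∀ i, ‖v.2 i‖ ≤ if i ∈ c.Y then 3 * r2 else 3 * r1) → ‖c.f p v‖ ≤ M := by
    intro v hv1 hv2
    refine (hpol K hK p ρ hρ1 hsm' (3 * r1) (3 * r2) (by positivity) (by positivity) ?_ ?_ v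
      hv1 hv2).trans ?_
    · have h1 : Cp * (3 * r1) = 3 * (c1 * Cp) * sK := by
        rw [hr1]
        ring
      rw [h1]
      have h2 : 3 * (c1 * Cp) ≤ 1 := by linarith
      calc 3 * (c1 * Cp) * sK ≤ 1 * sK := mul_le_mul_of_nonneg_right h2 hsK0.le
        _ = sK := one_mul _
    · linarith
    · refine mul_le_mul_of_nonneg_left (Real.exp_le_exp.2 ?_) hS0
      have e1 : Cp * (sK * (3 * r1) + (3 * r1) ^ 2) ≤ η * K := by
        have h1 : Cp * (sK * (3 * r1) + (3 * r1) ^ 2) =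
            (3 * (c1 * Cp) + 9 * (c1 * Cp) * c1) * K := by
          rw [hr1, ← hsK2]
          ring
        rw [h1]
        refine mul_le_mul_of_nonneg_right ?_ hK0.le
        have h2 : (c1 * Cp) * c1 ≤ (c1 * Cp) * (1 / 100) :=
          mul_le_mul_of_nonneg_left hc1small (by positivity)
        nlinarith
      have e2 : Cp * (ρ * (3 * r2)) ≤ C * (ρ * K / sG) := by
        have h1 : Cp * (ρ * (3 * r2)) = (3 * Cp * C2) * (ρ * K / sG) := by
          rw [hr2]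
          ring
        rw [h1]
        exact mul_le_mul_of_nonneg_right hC3 (by positivity)
      have e3 : Cp * (3 * r2) ^ 2 ≤ C := by
        calc Cp * (3 * r2) ^ 2 ≤ Cp * (3 * C2) ^ 2 := by gcongr
          _ = 9 * Cp * C2 ^ 2 := by ring
          _ ≤ C := hC9
      calc Cp * (sK * (3 * r1) + (3 * r1) ^ 2 + ρ * (3 * r2) + (3 * r2) ^ 2)
          = Cp * (sK * (3 * r1) + (3 * r1) ^ 2) + Cp * (ρ * (3 * r2)) + Cp * (3 * r2) ^ 2 := by
            ring
        _ ≤ η * K + C * (ρ * K / sG) + C := by linarith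
        _ = η * K + C * (1 + ρ * K / sG) := by ring
  -- Schwarz and covering
  have hfin := hrep r1 r2 hr10 hr20 hvol K hK p (Real.exp (C * sK) * E + 2 * M / 3 ^ T) (by
    intro z hz
    have hzz : ∀ i, ‖(rp z 0).2 i‖ = ‖z i‖ := by
      intro i
      simp [rp, cj]
    have hz1 : ∀ i, ‖(rp z 0).1 i‖ ≤ C2 * sK := by
      intro i
      refine (hz i).trans ?_
      split_ifs
      · exact hr2C.trans (le_mul_of_one_le_right hC20.le hsK1)
      · exact mul_le_mul_of_nonneg_right (by linarith) hsK0.le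
    have hz2 : ∀ i, ‖(rp z 0).2 i‖ ≤ C2 * sK := by
      intro i
      rw [hzz]
      exact hz1 i
    have hline : ∀ t : ℂ, ‖t‖ ≤ 3 → ‖c.f p (t • rp z 0)‖ ≤ M := by
      intro t ht
      refine hbound _ (fun i => ?_) (fun i => ?_)
      · have h1 : ‖(t • rp z 0).1 i‖ = ‖t‖ * ‖z i‖ := by
          simp [rp]
        rw [h1]
        have h2 := hz i
        split_ifs at h2 ⊢ with hi
        · exact mul_le_mul ht h2 (norm_nonneg _) (by norm_num)
        · exact mul_le_mul ht h2 (norm_nonneg _) (by norm_num)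
      · have h1 : ‖(t • rp z 0).2 i‖ = ‖t‖ * ‖z i‖ := by
          rw [Prod.smul_snd, Pi.smul_apply, norm_smul, hzz]
        rw [h1]
        have h2 := hz i
        split_ifs at h2 ⊢ with hi
        · exact mul_le_mul ht h2 (norm_nonneg _) (by norm_num)
        · exact mul_le_mul ht h2 (norm_nonneg _) (by norm_num)
    have hs := schwarz_line (diff_f c p) T (rp z 0) (C2 * sK) E M 3 (by positivity) (by norm_num)
      hz1 hz2 hE hjet hline
    refine hs.trans ?_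
    have h3 : Real.exp (2 * (g : ℝ) * (C2 * sK)) ≤ Real.exp (C * sK) := by
      apply Real.exp_le_exp.2
      calc 2 * (g : ℝ) * (C2 * sK) = (2 * g * C2) * sK := by ring
        _ ≤ C * sK := mul_le_mul_of_nonneg_right hCg hsK0.le
    have h4 := mul_le_mul_of_nonneg_right h3 hE
    linarith)
  calc c.S p 0 ≤ Real.exp (C * sK) * E + 2 * M / 3 ^ T := hfin
    _ = Real.exp (C * sK) * E + 2 * c.S p 0 * Real.exp (η * K + C * (1 + ρ * K / sG)) / 3 ^ T := by
        rw [hM]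
        ring

end Pool.Agent.RHK
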